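import Pool.Agent.Work.MP_e64a38_co.FF.CDefs
import Pool.Agent.Work.MP_e64a38_co.CZ.FBas
import Pool.Agent.Work.MP_e64a38_co.IZ.Coord

/-!
# Chords and tangents of the parabola (size S-M)

`IZ.coord_model`: for a line `l` not through `x0` and `y = yv g0 p > 0`, `X = xv g0 x0 p`:
`l.ev p = y * l.ev x0 * (1 / y - (sl X + ct))` with `sl = IZ.sl g0 x0 l`, `ct = IZ.ct g0 x0 l`. In particular `l.ev p = 0`
iff `1 / y = sl X + ct`. On the curve `1 / y = A X ^ 2 + B X + D`.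

* `xv_inj`: two points `p`, `q` of the curve with `y > 0` and the same `X` are equal: both have the same
  `1 / y = A X ^ 2 + B X + D`, so the same `y`, so the same `u = X y`; `IZ.coord_inj`.
* `chord_sl`: two different points `p`, `q` of the curve, `y > 0`, on the line `l`, `P = xv p`, `N = xv q`. Then
  `P ≠ N` (`xv_inj`), and `sl P + ct = A P ^ 2 + B P + D`, `sl N + ct = A N ^ 2 + B N + D`. Subtract and divide by
  `P - N`: `sl = A (P + N) + B`, and then `ct = D - A P N`.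
* `tan_sl`: `v` on the curve, `y > 0`, `l.ev v = 0`, `l.ev x0 < 0`, `l.ev ≤ 0` on the region, `P = xv v`. For all
  `(X, Y)` with `Y > 0`, `Y > A X ^ 2 + B X + D` there is a point `p` with `yv p = 1 / Y`, `uv p = X / Y`
  (`IZ.coord_surj`); it is in the region by `ParF`, so `l.ev p ≤ 0`, and `sl X + ct ≤ Y` (as `l.ev x0 < 0`, `y > 0`). So
  `sl X + ct ≤ A X ^ 2 + B X + D` for all `X` where the right side is positive (all `Y` above it). At `P` the right
  side is `1 / yv v > 0`, so it is positive for all `X` near `P` (continuity), and at `P` there is equality. So the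
  quadratic polynomial `q X = A X ^ 2 + B X + D - sl X - ct` is `≥ 0` near `P` and `q P = 0`; so
  `q X = (X - P) (A (X + P) + B - sl) ≥ 0` for `X` near `P` on both sides gives `2 A P + B - sl = 0` (`X → P` from both
  sides: if `2 A P + B - sl > 0` then `q X < 0` for `X < P` near `P`, etc.). So `sl = 2 A P + B`,
  `ct = A P ^ 2 + B P + D - sl P = D - A P ^ 2`.
* `chord_le`: `A > 0`, `l.ev x0 < 0`, `sl = A (P + N) + B`, `ct = D - A P N`, and `p` a point of the curve with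
  `y > 0`, `X = xv p`: `l.ev p ≤ 0` iff `0 ≤ (X - P) (X - N)` (since `1 / y - (sl X + ct) = A (X - P) (X - N)`).
-/

set_option autoImplicit false

namespace Pool.Agent.Work.MP_e64a38_co.FF

private theorem cch_cm (g0 l : Ln) (x0 p : ℝ × ℝ) (hg : g0.ev x0 = 0) (hl : l.ev x0 ≠ 0)
    (hy : 0 < IZ.yv g0 p) :
    l.ev p = IZ.yv g0 p * l.ev x0 *
      (1 / IZ.yv g0 p - (IZ.sl g0 x0 l * xv g0 x0 p + IZ.ct g0 x0 l)) :=
  IZ.coord_model g0 l x0 p hg hl hy

private theorem cch_cz (g0 l : Ln) (x0 p : ℝ × ℝ) (hg : g0.ev x0 = 0) (hl : l.ev x0 ≠ 0)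
    (hy : 0 < IZ.yv g0 p) (h0 : l.ev p = 0) :
    1 / IZ.yv g0 p = IZ.sl g0 x0 l * xv g0 x0 p + IZ.ct g0 x0 l := by
  have h1 := cch_cm g0 l x0 p hg hl hy
  rw [h0] at h1
  have h2 : IZ.yv g0 p * l.ev x0 ≠ 0 := mul_ne_zero hy.ne' hl
  have h3 := (mul_eq_zero.1 h1.symm).resolve_left h2
  linarith

private theorem cch_quad (A B D s c P : ℝ) (hA : 0 < A) (hq : 0 < A * P ^ 2 + B * P + D)
    (he : s * P + c = A * P ^ 2 + B * P + D)
    (hle : ∀ X, 0 < A * X ^ 2 + B * X + D → s * X + c ≤ A * X ^ 2 + B * X + D) :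
    s = 2 * A * P + B := by
  obtain ⟨Q, hQ⟩ : ∃ Q, Q = A * P ^ 2 + B * P + D := ⟨_, rfl⟩
  obtain ⟨R, hR⟩ : ∃ R, R = 2 * A * P + B := ⟨_, rfl⟩
  rw [← hQ] at hq he
  rw [← hR]
  have hR0 := abs_nonneg R
  have key : ∀ e : ℝ, (e = 1 ∨ e = -1) → ¬ 0 < e * (R - s) := by
    intro e he' hm
    have ht1 : 0 < e * (R - s) / (2 * A) := div_pos hm (by linarith)
    have ht2 : 0 < Q / (2 * (|R| + 1)) := div_pos hq (by linarith)
    obtain ⟨t, ht⟩ : ∃ t, t = min (e * (R - s) / (2 * A)) (Q / (2 * (|R| + 1))) := ⟨_, rfl⟩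
    have ht0 : 0 < t := by rw [ht]; exact lt_min ht1 ht2
    have h1 : A * t ≤ e * (R - s) / 2 := by
      have : t ≤ e * (R - s) / (2 * A) := by rw [ht]; exact min_le_left _ _
      rw [le_div_iff₀ (by linarith)] at this
      linarith
    have h2 : t * |R| ≤ Q / 2 := by
      have : t ≤ Q / (2 * (|R| + 1)) := by rw [ht]; exact min_le_right _ _
      rw [le_div_iff₀ (by linarith)] at this
      nlinarith
    have h3 : |e * t * R| ≤ Q / 2 := by
      rw [abs_mul, abs_mul, abs_of_pos ht0]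
      rcases he' with h | h <;> simp [h] <;> exact h2
    have hee : e ^ 2 = 1 := by rcases he' with h | h <;> rw [h] <;> norm_num
    have h4 : A * (P - e * t) ^ 2 + B * (P - e * t) + D = Q - e * t * R + A * t ^ 2 := by
      have : A * (P - e * t) ^ 2 + B * (P - e * t) + D =
          (A * P ^ 2 + B * P + D) - e * t * (2 * A * P + B) + A * t ^ 2 * e ^ 2 := by ring
      rw [this, ← hQ, ← hR, hee, mul_one]
    have hAt : 0 < A * t ^ 2 := by positivity
    have h5 := le_abs_self (e * t * R)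
    have h6 := hle (P - e * t) (by rw [h4]; linarith)
    rw [h4] at h6
    have h7 : 0 ≤ -t * (e * (R - s)) + A * t ^ 2 := by linarith
    have h8 : t * (A * t) ≤ t * (e * (R - s) / 2) := mul_le_mul_of_nonneg_left h1 ht0.le
    have h9 : 0 < t * (e * (R - s)) := mul_pos ht0 hm
    nlinarith
  have k1 := key 1 (Or.inl rfl)
  have k2 := key (-1) (Or.inr rfl)
  linarith

theorem xv_inj (C : CZ.Con) (g0 : Ln) (x0 : ℝ × ℝ) (hg : g0.ev x0 = 0) (A B D : ℝ)
    (hpar : ParF C g0 x0 A B D) (p q : ℝ × ℝ) (hp : p ∈ C.crv) (hq : q ∈ C.crv) (hpy : 0 < IZ.yv g0 p)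
    (hqy : 0 < IZ.yv g0 q) (he : xv g0 x0 p = xv g0 x0 q) : p = q := by
  have h1 := (hpar.2.2.2 p hpy).1.1 hp
  have h2 := (hpar.2.2.2 q hqy).1.1 hq
  rw [he, ← h2] at h1
  have h3 : IZ.yv g0 p = IZ.yv g0 q := by
    have := congrArg (fun z => 1 / z) h1
    simpa using this
  apply IZ.coord_inj g0 x0 p q hg ?_ h3
  unfold xv at he
  rw [h3] at he
  exact (div_left_inj' hqy.ne').1 he

theorem chord_sl (C : CZ.Con) (g0 : Ln) (x0 : ℝ × ℝ) (hg : g0.ev x0 = 0) (A B D : ℝ)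
    (hpar : ParF C g0 x0 A B D) (l : Ln) (hl : l.ev x0 ≠ 0) (p q : ℝ × ℝ) (hp : p ∈ C.crv)
    (hq : q ∈ C.crv) (hpy : 0 < IZ.yv g0 p) (hqy : 0 < IZ.yv g0 q) (hpl : l.ev p = 0)
    (hql : l.ev q = 0) (hne : p ≠ q) :
    IZ.sl g0 x0 l = A * (xv g0 x0 p + xv g0 x0 q) + B ∧
      IZ.ct g0 x0 l = D - A * xv g0 x0 p * xv g0 x0 q := by
  have hX : xv g0 x0 p - xv g0 x0 q ≠ 0 := by
    intro h
    exact hne (xv_inj C g0 x0 hg A B D hpar p q hp hq hpy hqy (by linarith))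
  have h1 := (hpar.2.2.2 p hpy).1.1 hp
  have h2 := (hpar.2.2.2 q hqy).1.1 hq
  rw [cch_cz g0 l x0 p hg hl hpy hpl] at h1
  rw [cch_cz g0 l x0 q hg hl hqy hql] at h2
  have h3 : IZ.sl g0 x0 l = A * (xv g0 x0 p + xv g0 x0 q) + B := by
    apply mul_left_cancel₀ hX
    linear_combination h1 - h2
  refine ⟨h3, ?_⟩
  rw [h3] at h1
  linear_combination h1

theorem tan_sl (C : CZ.Con) (g0 : Ln) (x0 : ℝ × ℝ) (hg : g0.ev x0 = 0) (A B D : ℝ)
    (hpar : ParF C g0 x0 A B D) (l : Ln) (hl : l.ev x0 < 0) (v : ℝ × ℝ) (hv : v ∈ C.crv)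
    (hvy : 0 < IZ.yv g0 v) (hvl : l.ev v = 0) (hin : ∀ p ∈ C.inn, l.ev p ≤ 0) :
    IZ.sl g0 x0 l = A * (xv g0 x0 v + xv g0 x0 v) + B ∧
      IZ.ct g0 x0 l = D - A * xv g0 x0 v * xv g0 x0 v := by
  have h1 := (hpar.2.2.2 v hvy).1.1 hv
  have h2 := cch_cz g0 l x0 v hg hl.ne hvy hvl
  have h0 : 0 < 1 / IZ.yv g0 v := by positivity
  have hY : ∀ X Y, 0 < Y → A * X ^ 2 + B * X + D < Y →
      IZ.sl g0 x0 l * X + IZ.ct g0 x0 l ≤ Y := by
    intro X Y hY0 hlt
    obtain ⟨p, hu, hy⟩ := IZ.coord_surj g0 x0 hg (X / Y) (1 / Y)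
    have hyp : 0 < IZ.yv g0 p := by rw [hy]; positivity
    have hxp : xv g0 x0 p = X := by
      unfold xv
      rw [hu, hy]
      field_simp
    have hyp' : 1 / IZ.yv g0 p = Y := by
      rw [hy]
      field_simp
    have hpin : p ∈ C.inn := by
      apply (hpar.2.2.2 p hyp).2.2
      rw [hxp, hyp']
      exact hlt
    have h3 := hin p hpin
    rw [cch_cm g0 l x0 p hg hl.ne hyp, hxp, hyp'] at h3
    have h4 : IZ.yv g0 p * l.ev x0 < 0 := mul_neg_of_pos_of_neg hyp hl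
    by_contra hcon
    push Not at hcon
    have h5 : 0 < IZ.yv g0 p * l.ev x0 * (Y - (IZ.sl g0 x0 l * X + IZ.ct g0 x0 l)) :=
      mul_pos_of_neg_of_neg h4 (by linarith)
    linarith
  have h3 : IZ.sl g0 x0 l = 2 * A * xv g0 x0 v + B := by
    apply cch_quad A B D (IZ.sl g0 x0 l) (IZ.ct g0 x0 l) (xv g0 x0 v) hpar.1
    · rw [← h1]; exact h0
    · rw [← h1, h2]
    · intro X hX
      apply le_of_forall_gt_imp_ge_of_dense
      intro Y hXY
      exact hY X Y (hX.trans hXY) hXY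
  refine ⟨by rw [h3]; ring, ?_⟩
  rw [h2, h3] at h1
  linear_combination h1

theorem chord_le (C : CZ.Con) (g0 : Ln) (x0 : ℝ × ℝ) (hg : g0.ev x0 = 0) (A B D : ℝ)
    (hpar : ParF C g0 x0 A B D) (l : Ln) (hl : l.ev x0 < 0) (P N : ℝ)
    (hs : IZ.sl g0 x0 l = A * (P + N) + B) (hc : IZ.ct g0 x0 l = D - A * P * N) (p : ℝ × ℝ)
    (hp : p ∈ C.crv) (hpy : 0 < IZ.yv g0 p) :
    l.ev p ≤ 0 ↔ 0 ≤ (xv g0 x0 p - P) * (xv g0 x0 p - N) := by
  have h1 := (hpar.2.2.2 p hpy).1.1 hp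
  have h2 := cch_cm g0 l x0 p hg hl.ne hpy
  rw [h1, hs, hc] at h2
  have hA := hpar.1
  have h3 : IZ.yv g0 p * l.ev x0 * A < 0 :=
    mul_neg_of_neg_of_pos (mul_neg_of_pos_of_neg hpy hl) hA
  have h4 : l.ev p = IZ.yv g0 p * l.ev x0 * A * ((xv g0 x0 p - P) * (xv g0 x0 p - N)) := by
    rw [h2]
    ring
  rw [h4]
  constructor
  · intro h
    by_contra hcon
    push Not at hcon
    have := mul_pos_of_neg_of_neg h3 hcon
    linarith
  · intro h
    exact mul_nonpos_of_nonpos_of_nonneg h3.le h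

end Pool.Agent.Work.MP_e64a38_co.FF
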