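import Pool.Agent.Work.MP_e64a38_co.FF.Defs

/-!
# No separated flattening along a conic (size M)

Let `A > 0`, `B`, `C` be reals and `(P j, N j)`, `j ∈ J`, pairs of reals with `α ≤ P j ≤ N j ≤ β`, any two of them not
overlapping: `N i ≤ P j` or `N j ≤ P i` for `i ≠ j`. The line `j` is
`L j x = (A (P j + N j) + B) x - A P j N j + C`, i.e. `L j x = θ x - A (x - P j) (x - N j)` for
`θ x = A x ^ 2 + B x + C`: the chord of the parabola `θ` over `[P j, N j]`, or the tangent if `P j = N j`.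
For every `x` in `[α, β]` let `g x ∈ J` be a line with the largest value at `x`, and
`ψ x = A (P (g x) + N (g x)) + B`. Then there is no `FltB 4 Z α β ψ`.

Proof. Suppose `x0 < ... < x4` is one. Write `P_i = P (g x_i)` etc., `c_i = (P_i + N_i) / 2`,
`r_i = (N_i - P_i) / 2 ≥ 0`, and `t_i = c_i - c_(i-1)`, so `ψ x_i - ψ x_(i-1) = 2 A t_i`. So for `i = 2, 3, 4`:
`t_4 > 0`, `t_3 ≥ 4 t_4`, `t_2 ≥ 4 t_3` (divide by `2 A`). In particular the lines of `x_i` and `x_(i-1)` are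
different and `c_(i-1) < c_i`, so `N_(i-1) ≤ P_i` (the other case gives `c_i ≤ c_(i-1)`), i.e.
`r_(i-1) + r_i ≤ t_i`.
(1) The line of `x_2` is the highest one at `x_2`: `(x_2 - P_2) (x_2 - N_2) ≤ (x_2 - P_1) (x_2 - N_1)`, i.e.
`(x_2 - c_2) ^ 2 - r_2 ^ 2 ≤ (x_2 - c_1) ^ 2 - r_1 ^ 2`, so
`2 t_2 x_2 ≥ t_2 (c_1 + c_2) + r_1 ^ 2 - r_2 ^ 2 ≥ t_2 (c_1 + c_2) - r_2 ^ 2` and `r_2 ≤ t_3 ≤ t_2 / 4`, so
`x_2 ≥ (c_1 + c_2) / 2 - t_2 / 32 = c_1 + t_2 / 2 - t_2 / 32`.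
(2) The line of `x_3` is the highest one at `x_3`, compare with the one of `x_4`:
`(x_3 - c_3) ^ 2 - r_3 ^ 2 ≤ (x_3 - c_4) ^ 2 - r_4 ^ 2`, so
`2 t_4 x_3 ≤ t_4 (c_3 + c_4) + r_3 ^ 2 - r_4 ^ 2 ≤ t_4 (c_3 + c_4) + t_4 ^ 2` (`r_3 ≤ t_4`), so
`x_3 ≤ c_4 = c_1 + t_2 + t_3 + t_4`.
(3) `x_0 ≤ c_1`: if `x_0 < α` then `x_0 < α ≤ P_1 ≤ c_1`. If `α ≤ x_0` then `t_1 ≥ 4 t_2 > 0` and as before
`r_0 + r_1 ≤ t_1`; the line of `x_0` is the highest one at `x_0`, compare with the one of `x_1`: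
`2 t_1 x_0 ≤ t_1 (c_0 + c_1) + r_0 ^ 2 - r_1 ^ 2 ≤ t_1 (c_0 + c_1) + t_1 ^ 2 = 2 t_1 c_1`.
So `x_2 - x_0 ≥ t_2 / 2 - t_2 / 32 = (15/32) t_2` and
`x_3 - x_2 ≤ t_2 / 2 + t_2 / 32 + t_3 + t_4 ≤ t_2 (1/2 + 1/32 + 1/4 + 1/16) = (27/32) t_2`. But with
`L_i = x_i - x_(i-1)`: `4 L_2 ≤ L_3`, `4 L_1 ≤ L_2`, so
`x_2 - x_0 = L_1 + L_2 ≤ (5/4) L_2 ≤ (5/16) L_3 ≤ (5/16) (27/32) t_2 < (15/32) t_2`. Contradiction (`t_2 > 0`).

`exc_mono`: `FltB K Z α β ψ` with `K ≥ 4` implies `FltB 4 Z α β ψ` (all lengths are positive and all increments of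
`ψ` are positive; for the first one only if `α ≤ x0`).
-/

set_option autoImplicit false

namespace Pool.Agent.Work.MP_e64a38_co.FF

theorem exc_mono {K α β : ℝ} {Z : Finset ℝ} {ψ : ℝ → ℝ} (hK : 4 ≤ K) (h : FltB K Z α β ψ) :
    FltB 4 Z α β ψ := by
  obtain ⟨x0, x1, x2, x3, x4, a1, a2, a3, a4, a5, a6, a7, b1, b2, b3, c1, c2, c3, c4⟩ := h
  have d1 : ∀ t : ℝ, 0 ≤ t → 4 * t ≤ K * t := fun t ht => mul_le_mul_of_nonneg_right hK ht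
  have e3 : 0 < ψ x3 - ψ x2 := by
    have := d1 _ c1.le
    linarith
  have e2 : 0 < ψ x2 - ψ x1 := by
    have := d1 _ e3.le
    linarith
  refine ⟨x0, x1, x2, x3, x4, a1, a2, a3, a4, a5, a6, a7, ?_, ?_, ?_, c1, ?_, ?_, fun h => ?_⟩
  · exact (d1 _ (by linarith)).trans b1
  · exact (d1 _ (by linarith)).trans b2
  · exact (d1 _ (by linarith)).trans b3
  · exact (d1 _ c1.le).trans c2
  · exact (d1 _ e3.le).trans c3
  · exact (d1 _ e2.le).trans (c4 h)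

private theorem exc_alg {x0 x1 x2 x3 p1 n1 p2 n2 p3 n3 p4 n4 : ℝ} (e1 : p1 ≤ n1) (e2 : p2 ≤ n2)
    (e3 : p3 ≤ n3) (e4 : p4 ≤ n4) (s1 : n1 ≤ p2) (s2 : n2 ≤ p3) (s3 : n3 ≤ p4)
    (t4 : 0 < p4 + n4 - (p3 + n3)) (t3 : 4 * (p4 + n4 - (p3 + n3)) ≤ p3 + n3 - (p2 + n2))
    (t2 : 4 * (p3 + n3 - (p2 + n2)) ≤ p2 + n2 - (p1 + n1))
    (h2 : (x2 - p2) * (x2 - n2) ≤ (x2 - p1) * (x2 - n1))
    (h3 : (x3 - p3) * (x3 - n3) ≤ (x3 - p4) * (x3 - n4))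
    (h0 : x0 ≤ (p1 + n1) / 2) (l1 : 4 * (x1 - x0) ≤ x2 - x1) (l2 : 4 * (x2 - x1) ≤ x3 - x2) :
    False := by
  obtain ⟨c1, hc1⟩ : ∃ c, c = (p1 + n1) / 2 := ⟨_, rfl⟩
  obtain ⟨c2, hc2⟩ : ∃ c, c = (p2 + n2) / 2 := ⟨_, rfl⟩
  obtain ⟨c3, hc3⟩ : ∃ c, c = (p3 + n3) / 2 := ⟨_, rfl⟩
  obtain ⟨c4, hc4⟩ : ∃ c, c = (p4 + n4) / 2 := ⟨_, rfl⟩
  obtain ⟨r1, hr1⟩ : ∃ c, c = (n1 - p1) / 2 := ⟨_, rfl⟩
  obtain ⟨r2, hr2⟩ : ∃ c, c = (n2 - p2) / 2 := ⟨_, rfl⟩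
  obtain ⟨r3, hr3⟩ : ∃ c, c = (n3 - p3) / 2 := ⟨_, rfl⟩
  obtain ⟨r4, hr4⟩ : ∃ c, c = (n4 - p4) / 2 := ⟨_, rfl⟩
  have hr1' : 0 ≤ r1 := by linarith
  have hr2' : 0 ≤ r2 := by linarith
  have hr3' : 0 ≤ r3 := by linarith
  have hr4' : 0 ≤ r4 := by linarith
  have u4 : 0 < c4 - c3 := by linarith
  have u3 : 4 * (c4 - c3) ≤ c3 - c2 := by linarith
  have u2 : 4 * (c3 - c2) ≤ c2 - c1 := by linarith
  have v3 : r2 ≤ c3 - c2 := by linarith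
  have v4 : r3 ≤ c4 - c3 := by linarith
  have w2 : (c2 - c1) * (2 * x2 - c1 - c2) ≥ r1 ^ 2 - r2 ^ 2 := by
    have q1 : (x2 - p2) * (x2 - n2) = (x2 - c2) ^ 2 - r2 ^ 2 := by rw [hc2, hr2]; ring
    have q2 : (x2 - p1) * (x2 - n1) = (x2 - c1) ^ 2 - r1 ^ 2 := by rw [hc1, hr1]; ring
    rw [q1, q2] at h2
    nlinarith
  have w3 : (c4 - c3) * (2 * x3 - c3 - c4) ≤ r3 ^ 2 - r4 ^ 2 := by
    have q1 : (x3 - p3) * (x3 - n3) = (x3 - c3) ^ 2 - r3 ^ 2 := by rw [hc3, hr3]; ring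
    have q2 : (x3 - p4) * (x3 - n4) = (x3 - c4) ^ 2 - r4 ^ 2 := by rw [hc4, hr4]; ring
    rw [q1, q2] at h3
    nlinarith
  have y2 : -(c2 - c1) / 16 ≤ 2 * x2 - c1 - c2 := by
    have q1 : r2 ^ 2 ≤ ((c2 - c1) / 4) ^ 2 := pow_le_pow_left₀ hr2' (by linarith) 2
    have q2 : (c2 - c1) * (-(c2 - c1) / 16) ≤ (c2 - c1) * (2 * x2 - c1 - c2) := by
      nlinarith [sq_nonneg r1]
    exact le_of_mul_le_mul_left q2 (by linarith)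
  have y3 : 2 * x3 - c3 - c4 ≤ c4 - c3 := by
    have q1 : r3 ^ 2 ≤ (c4 - c3) ^ 2 := pow_le_pow_left₀ hr3' v4 2
    have q2 : (c4 - c3) * (2 * x3 - c3 - c4) ≤ (c4 - c3) * (c4 - c3) := by
      nlinarith [sq_nonneg r4]
    exact le_of_mul_le_mul_left q2 u4
  linarith

theorem exc {J : Type} (A B C α β : ℝ) (hA : 0 < A) (P N : J → ℝ) (h1 : ∀ j, α ≤ P j)
    (h2 : ∀ j, P j ≤ N j) (h3 : ∀ j, N j ≤ β) (h4 : ∀ i j, i ≠ j → N i ≤ P j ∨ N j ≤ P i) (g : ℝ → J)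
    (hg : ∀ x, α ≤ x → x ≤ β → ∀ j, (A * (P j + N j) + B) * x - A * P j * N j + C ≤
      (A * (P (g x) + N (g x)) + B) * x - A * P (g x) * N (g x) + C)
    (ψ : ℝ → ℝ) (hψ : ∀ x, α ≤ x → x ≤ β → ψ x = A * (P (g x) + N (g x)) + B) (Z : Finset ℝ)
    (K : ℝ) (hK : 4 ≤ K) : ¬ FltB K Z α β ψ := by
  intro h
  obtain ⟨x0, x1, x2, x3, x4, a1, a2, a3, a4, a5, a6, a7, b1, b2, b3, c1, c2, c3, c4⟩ :=
    exc_mono hK h
  have sep : ∀ i j, P i + N i < P j + N j → N i ≤ P j := by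
    intro i j hij
    have hne : i ≠ j := fun he => by
      rw [he] at hij
      exact lt_irrefl _ hij
    rcases h4 i j hne with h5 | h5
    · exact h5
    · linarith [h2 i, h2 j]
  have hg' : ∀ x, α ≤ x → x ≤ β → ∀ j, (x - P (g x)) * (x - N (g x)) ≤ (x - P j) * (x - N j) := by
    intro x hx1 hx2 j
    have h5 := hg x hx1 hx2 j
    have h6 : A * ((x - P (g x)) * (x - N (g x))) ≤ A * ((x - P j) * (x - N j)) := by
      linarith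
    exact le_of_mul_le_mul_left h6 hA
  have g1 := hψ x1 a5 (by linarith)
  have g2 := hψ x2 (by linarith) (by linarith)
  have g3 := hψ x3 (by linarith) (by linarith)
  have g4 := hψ x4 (by linarith) a6
  have t4 : 0 < P (g x4) + N (g x4) - (P (g x3) + N (g x3)) := by
    have h5 : 0 < A * (P (g x4) + N (g x4) - (P (g x3) + N (g x3))) := by linarith
    exact (mul_pos_iff_of_pos_left hA).1 h5
  have t3 : 4 * (P (g x4) + N (g x4) - (P (g x3) + N (g x3))) ≤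
      P (g x3) + N (g x3) - (P (g x2) + N (g x2)) := by
    have h5 : A * (4 * (P (g x4) + N (g x4) - (P (g x3) + N (g x3)))) ≤
      A * (P (g x3) + N (g x3) - (P (g x2) + N (g x2))) := by linarith
    exact le_of_mul_le_mul_left h5 hA
  have t2 : 4 * (P (g x3) + N (g x3) - (P (g x2) + N (g x2))) ≤
      P (g x2) + N (g x2) - (P (g x1) + N (g x1)) := by
    have h5 : A * (4 * (P (g x3) + N (g x3) - (P (g x2) + N (g x2)))) ≤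
      A * (P (g x2) + N (g x2) - (P (g x1) + N (g x1))) := by linarith
    exact le_of_mul_le_mul_left h5 hA
  refine exc_alg (x0 := x0) (x1 := x1) (h2 (g x1)) (h2 (g x2)) (h2 (g x3)) (h2 (g x4))
    (sep _ _ (by linarith)) (sep _ _ (by linarith)) (sep _ _ (by linarith)) t4 t3 t2
    (hg' x2 (by linarith) (by linarith) (g x1)) (hg' x3 (by linarith) (by linarith) (g x4))
    ?_ b1 b2
  rcases le_or_gt α x0 with h5 | h5
  · have h6 := c4 h5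
    have g0 := hψ x0 h5 (by linarith)
    have t1 : 0 < P (g x1) + N (g x1) - (P (g x0) + N (g x0)) := by
      have h7 : 0 < A * (P (g x1) + N (g x1) - (P (g x0) + N (g x0))) := by linarith
      exact (mul_pos_iff_of_pos_left hA).1 h7
    have s0 := sep (g x0) (g x1) (by linarith)
    have h8 := hg' x0 h5 (by linarith) (g x1)
    have e0 := h2 (g x0)
    have e1 := h2 (g x1)
    obtain ⟨p0, hp0⟩ : ∃ p, p = P (g x0) := ⟨_, rfl⟩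
    obtain ⟨n0, hn0⟩ : ∃ p, p = N (g x0) := ⟨_, rfl⟩
    obtain ⟨p1, hp1⟩ : ∃ p, p = P (g x1) := ⟨_, rfl⟩
    obtain ⟨n1, hn1⟩ : ∃ p, p = N (g x1) := ⟨_, rfl⟩
    rw [← hp0, ← hn0, ← hp1, ← hn1] at h8 t1
    rw [← hn0, ← hp1] at s0
    rw [← hp0, ← hn0] at e0
    rw [← hp1, ← hn1] at e1 ⊢
    -- 2 t x0 ≤ t (c0 + c1) + r0 ^ 2 - r1 ^ 2
    have w : (p1 + n1 - (p0 + n0)) * (4 * x0 - (p0 + n0) - (p1 + n1)) ≤
        (n0 - p0) ^ 2 - (n1 - p1) ^ 2 := by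
      nlinarith
    have w2 : (n0 - p0) ^ 2 ≤ (p1 + n1 - (p0 + n0)) ^ 2 :=
      pow_le_pow_left₀ (by linarith) (by linarith) 2
    have w3 : (p1 + n1 - (p0 + n0)) * (4 * x0 - (p0 + n0) - (p1 + n1)) ≤
        (p1 + n1 - (p0 + n0)) * (p1 + n1 - (p0 + n0)) := by
      nlinarith [sq_nonneg (n1 - p1)]
    have w4 := le_of_mul_le_mul_left w3 t1
    linarith
  · have h6 := h1 (g x1)
    have h7 := h2 (g x1)
    linarith

end Pool.Agent.Work.MP_e64a38_co.FF
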