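import Pool.Agent.Work.MP_e64a38_co.FF.PDefs
import Pool.Agent.Work.MP_e64a38_co.IZ.Coord

/-!
# The polygon as the region over the graph of `F` between the walls (size M)

Let `y = yv g0 p > 0`, `u = uv g0 x0 p`, `X = u / y`.
(a) `IZ.coord`: `(h j).ev p = al j * u + be j * y + (h j).ev x0`. If `(h j).ev x0 = 0` it is
`y (al j * X + be j)`. (b) If `(h j).ev x0 ≠ 0` then `(h j).ev x0 < 0` (`x0 ∈ poly h`) and by `IZ.coord_model`
`(h j).ev p = y * (h j).ev x0 * (1 / y - (sl j * X + ct j))`, so `(h j).ev p < 0` iff `sl j * X + ct j < 1 / y`,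
and `≤` likewise, and `= 0` iff `sl j * X + ct j = 1 / y`.
`pin_poly`, `pin_inn`: with the definition of `Wl`, `Wls`, `FS` (`F X < 1 / y` iff all `sl j * X + ct j < 1 / y`,
because `F X` is one of them and the others are at most `F X`).
`fpos`: if `Wl x` and `F x ≤ 0`: for every `t > 0` the point `p` with `u = x / t`, `y = 1 / t`
(`IZ.coord_surj`) has `u / y = x`, `1 / y = t > 0 ≥ F x`, so `p ∈ poly h` by `pin_poly`; `yv g0` is bounded on the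
bounded set `poly h` (it is continuous; or: `|g0.ev p| ≤ (|a| + |b|) ‖p‖ + |c|`), but `yv g0 p = 1 / t` is arbitrarily
large. Contradiction.
`hit_act`: `y = 1 / F x`, `u = x y`, `T` by `IZ.coord_surj`: `T ∈ poly h` by `pin_poly`, `(h j).ev T = 0` by (b).
`act_hit`: `T ∈ side h j`, so `(h j).ev T = 0` and `T ∈ poly h`: `sl j * x + ct j = 1 / y ≥ F x ≥ sl j * x + ct j`.
`hit_iff`: from left to right `pin_poly` (`Wl (u / y)`, `u / y = x`); from right to left `hit_act` with the `j` of `FS` at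
`x`.
-/

set_option autoImplicit false

namespace Pool.Agent.Work.MP_e64a38_co.FF

variable {k : ℕ}

private theorem pe_A (g0 l : Ln) (x0 p : ℝ × ℝ) (hg : g0.ev x0 = 0) (hl : l.ev x0 = 0)
    (hp : 0 < IZ.yv g0 p) :
    l.ev p = IZ.yv g0 p * (IZ.al g0 l * (IZ.uv g0 x0 p / IZ.yv g0 p) + IZ.be g0 l) := by
  have hp' := hp.ne'
  rw [IZ.coord g0 l x0 p hg, hl]
  field_simp
  ring

private theorem pe_lt (g0 l : Ln) (x0 p : ℝ × ℝ) (hg : g0.ev x0 = 0) (hl : l.ev x0 < 0)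
    (hp : 0 < IZ.yv g0 p) :
    (l.ev p < 0 ↔ IZ.sl g0 x0 l * (IZ.uv g0 x0 p / IZ.yv g0 p) + IZ.ct g0 x0 l < 1 / IZ.yv g0 p) ∧
    (l.ev p ≤ 0 ↔ IZ.sl g0 x0 l * (IZ.uv g0 x0 p / IZ.yv g0 p) + IZ.ct g0 x0 l ≤ 1 / IZ.yv g0 p) ∧
    (l.ev p = 0 ↔ IZ.sl g0 x0 l * (IZ.uv g0 x0 p / IZ.yv g0 p) + IZ.ct g0 x0 l = 1 / IZ.yv g0 p) := by
  rw [IZ.coord_model g0 l x0 p hg hl.ne hp]
  have hk : IZ.yv g0 p * l.ev x0 < 0 := mul_neg_of_pos_of_neg hp hl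
  obtain ⟨K, hK⟩ : ∃ K, K = IZ.yv g0 p * l.ev x0 := ⟨_, rfl⟩
  obtain ⟨A, hA⟩ : ∃ A, A = IZ.sl g0 x0 l * (IZ.uv g0 x0 p / IZ.yv g0 p) + IZ.ct g0 x0 l :=
    ⟨_, rfl⟩
  obtain ⟨B, hB⟩ : ∃ B, B = 1 / IZ.yv g0 p := ⟨_, rfl⟩
  rw [← hK, ← hA, ← hB]
  rw [← hK] at hk
  refine ⟨?_, ?_, ?_⟩
  · rw [mul_neg_iff]
    constructor
    · rintro (⟨h1, _⟩ | ⟨_, h2⟩)
      · exact absurd h1 (not_lt.2 hk.le)
      · linarith
    · intro h
      exact Or.inr ⟨hk, by linarith⟩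
  · constructor
    · intro h
      by_contra hc
      have := mul_pos_of_neg_of_neg hk (by linarith : B - A < 0)
      linarith
    · intro h
      exact mul_nonpos_of_nonpos_of_nonneg hk.le (by linarith)
  · constructor
    · intro h
      rcases mul_eq_zero.1 h with h1 | h1
      · exact absurd h1 hk.ne
      · linarith
    · intro h
      rw [h, sub_self, mul_zero]

private theorem pe_neg {h : Fin k → Ln} {x0 : ℝ × ℝ} (hx : x0 ∈ poly h) {j : Fin k}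
    (hj : (h j).ev x0 ≠ 0) : (h j).ev x0 < 0 := lt_of_le_of_ne (hx j) hj

theorem pin_poly (h : Fin k → Ln) (g0 : Ln) (x0 : ℝ × ℝ) (F ψ : ℝ → ℝ) (hF : FS h g0 x0 F ψ)
    (hg : g0.ev x0 = 0) (hx : x0 ∈ poly h) (p : ℝ × ℝ) (hp : 0 < IZ.yv g0 p) :
    p ∈ poly h ↔ Wl h g0 x0 (IZ.uv g0 x0 p / IZ.yv g0 p) ∧
      F (IZ.uv g0 x0 p / IZ.yv g0 p) ≤ 1 / IZ.yv g0 p := by
  constructor
  · intro hpp
    constructor
    · intro j hj
      have h1 := hpp j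
      rw [pe_A g0 (h j) x0 p hg hj hp] at h1
      by_contra hc
      have := mul_pos hp (not_le.1 hc)
      linarith
    · obtain ⟨j, hj, hj1, -⟩ := hF.1 (IZ.uv g0 x0 p / IZ.yv g0 p)
      rw [hj1]
      exact (pe_lt g0 (h j) x0 p hg (pe_neg hx hj) hp).2.1.1 (hpp j)
  · rintro ⟨hw, hf⟩ j
    by_cases hj : (h j).ev x0 = 0
    · rw [pe_A g0 (h j) x0 p hg hj hp]
      exact mul_nonpos_of_nonneg_of_nonpos hp.le (hw j hj)
    · exact (pe_lt g0 (h j) x0 p hg (pe_neg hx hj) hp).2.1.2 ((hF.2 j hj _).trans hf)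

theorem pin_inn (h : Fin k → Ln) (g0 : Ln) (x0 : ℝ × ℝ) (F ψ : ℝ → ℝ) (hF : FS h g0 x0 F ψ)
    (hg : g0.ev x0 = 0) (hx : x0 ∈ poly h) (p : ℝ × ℝ) (hp : 0 < IZ.yv g0 p) :
    p ∈ inn h ↔ Wls h g0 x0 (IZ.uv g0 x0 p / IZ.yv g0 p) ∧
      F (IZ.uv g0 x0 p / IZ.yv g0 p) < 1 / IZ.yv g0 p := by
  constructor
  · intro hpp
    constructor
    · intro j hj
      have h1 := hpp j
      rw [pe_A g0 (h j) x0 p hg hj hp] at h1
      by_contra hc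
      have := mul_nonneg hp.le (not_lt.1 hc)
      linarith
    · obtain ⟨j, hj, hj1, -⟩ := hF.1 (IZ.uv g0 x0 p / IZ.yv g0 p)
      rw [hj1]
      exact (pe_lt g0 (h j) x0 p hg (pe_neg hx hj) hp).1.1 (hpp j)
  · rintro ⟨hw, hf⟩ j
    by_cases hj : (h j).ev x0 = 0
    · rw [pe_A g0 (h j) x0 p hg hj hp]
      exact mul_neg_of_pos_of_neg hp (hw j hj)
    · exact (pe_lt g0 (h j) x0 p hg (pe_neg hx hj) hp).1.2 (lt_of_le_of_lt (hF.2 j hj _) hf)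

theorem pin_side (h : Fin k → Ln) (g0 : Ln) (x0 : ℝ × ℝ) (F ψ : ℝ → ℝ) (hF : FS h g0 x0 F ψ)
    (hg : g0.ev x0 = 0) (hx : x0 ∈ poly h) (p : ℝ × ℝ) (hp : 0 < IZ.yv g0 p) (hpp : p ∈ poly h)
    (j : Fin k) (hj : (h j).ev p = 0) :
    F (IZ.uv g0 x0 p / IZ.yv g0 p) = 1 / IZ.yv g0 p ∨ ¬ Wls h g0 x0 (IZ.uv g0 x0 p / IZ.yv g0 p) := by
  by_cases hj0 : (h j).ev x0 = 0
  · right
    intro hw
    have h1 := hw j hj0
    rw [pe_A g0 (h j) x0 p hg hj0 hp] at hj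
    rcases mul_eq_zero.1 hj with h2 | h2
    · exact absurd h2 hp.ne'
    · exact absurd h2 h1.ne
  · left
    have h1 := (pe_lt g0 (h j) x0 p hg (pe_neg hx hj0) hp).2.2.1 hj
    have h2 := hF.2 j hj0 (IZ.uv g0 x0 p / IZ.yv g0 p)
    have h3 := ((pin_poly h g0 x0 F ψ hF hg hx p hp).1 hpp).2
    linarith

theorem fpos (h : Fin k → Ln) (hP : IsPolygon h) (g0 : Ln) (x0 : ℝ × ℝ) (F ψ : ℝ → ℝ)
    (hF : FS h g0 x0 F ψ) (hg : g0.ev x0 = 0) (hx : x0 ∈ poly h) (x : ℝ) (hw : Wl h g0 x0 x) :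
    0 < F x := by
  by_contra hc
  have hc' := not_lt.1 hc
  obtain ⟨R, hR⟩ := hP.bounded.subset_closedBall 0
  have hR0 : 0 ≤ R := by
    have h1 := hR hx
    rw [mem_closedBall_zero_iff] at h1
    exact (norm_nonneg _).trans h1
  obtain ⟨Y, hY⟩ : ∃ Y, Y = |g0.a| * R + |g0.b| * R + |g0.c| + 1 := ⟨_, rfl⟩
  have hY0 : 0 < Y := by
    rw [hY]
    positivity
  obtain ⟨p, hpu, hpy⟩ := IZ.coord_surj g0 x0 hg (x * Y) Y
  have hp : 0 < IZ.yv g0 p := by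
    rw [hpy]
    exact hY0
  have hX : IZ.uv g0 x0 p / IZ.yv g0 p = x := by
    rw [hpu, hpy, mul_div_assoc, div_self hY0.ne', mul_one]
  have hpp : p ∈ poly h := by
    rw [pin_poly h g0 x0 F ψ hF hg hx p hp, hX, hpy]
    exact ⟨hw, hc'.trans (by positivity)⟩
  have h1 := hR hpp
  rw [mem_closedBall_zero_iff] at h1
  have h2 : |p.1| ≤ R := (norm_fst_le p).trans h1
  have h3 : |p.2| ≤ R := (norm_snd_le p).trans h1
  have h4 : -(g0.a * p.1) ≤ |g0.a| * R := by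
    refine (neg_le_abs _).trans ?_
    rw [abs_mul]
    exact mul_le_mul_of_nonneg_left h2 (abs_nonneg _)
  have h5 : -(g0.b * p.2) ≤ |g0.b| * R := by
    refine (neg_le_abs _).trans ?_
    rw [abs_mul]
    exact mul_le_mul_of_nonneg_left h3 (abs_nonneg _)
  have h6 := le_abs_self g0.c
  unfold IZ.yv Ln.ev at hpy
  linarith

theorem hit_act (h : Fin k → Ln) (hP : IsPolygon h) (g0 : Ln) (x0 : ℝ × ℝ) (F ψ : ℝ → ℝ)
    (hF : FS h g0 x0 F ψ) (hg : g0.ev x0 = 0) (hx : x0 ∈ poly h) (x : ℝ) (hw : Wl h g0 x0 x)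
    (j : Fin k) (hj : (h j).ev x0 ≠ 0)
    (hj' : F x = IZ.sl g0 x0 (h j) * x + IZ.ct g0 x0 (h j)) : Hit h g0 x0 x j := by
  have hf := fpos h hP g0 x0 F ψ hF hg hx x hw
  obtain ⟨T, hTu, hTy⟩ := IZ.coord_surj g0 x0 hg (x * (1 / F x)) (1 / F x)
  have hy0 : 0 < 1 / F x := by positivity
  have hp : 0 < IZ.yv g0 T := by
    rw [hTy]
    exact hy0
  have hX : IZ.uv g0 x0 T / IZ.yv g0 T = x := by
    rw [hTu, hTy, mul_div_assoc, div_self hy0.ne', mul_one]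
  have hY : 1 / IZ.yv g0 T = F x := by
    rw [hTy, one_div_one_div]
  refine ⟨T, ⟨?_, ?_⟩, hp, ?_⟩
  · rw [(pe_lt g0 (h j) x0 T hg (pe_neg hx hj) hp).2.2, hX, hY, hj']
  · rw [pin_poly h g0 x0 F ψ hF hg hx T hp, hX, hY]
    exact ⟨hw, le_rfl⟩
  · rw [hTu, hTy]

theorem act_hit (h : Fin k → Ln) (g0 : Ln) (x0 : ℝ × ℝ) (F ψ : ℝ → ℝ)
    (hF : FS h g0 x0 F ψ) (hg : g0.ev x0 = 0) (hx : x0 ∈ poly h) (x : ℝ)
    (j : Fin k) (hj : (h j).ev x0 ≠ 0) (hh : Hit h g0 x0 x j) :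
    F x = IZ.sl g0 x0 (h j) * x + IZ.ct g0 x0 (h j) := by
  obtain ⟨T, ⟨hT1, hT2⟩, hp, hu⟩ := hh
  have hX : IZ.uv g0 x0 T / IZ.yv g0 T = x := by
    rw [hu, mul_div_assoc, div_self hp.ne', mul_one]
  have h1 := (pe_lt g0 (h j) x0 T hg (pe_neg hx hj) hp).2.2.1 hT1
  have h2 := ((pin_poly h g0 x0 F ψ hF hg hx T hp).1 hT2).2
  have h3 := hF.2 j hj x
  rw [hX] at h1 h2
  linarith

theorem hit_iff (h : Fin k → Ln) (hP : IsPolygon h) (g0 : Ln) (x0 : ℝ × ℝ) (F ψ : ℝ → ℝ)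
    (hF : FS h g0 x0 F ψ) (hg : g0.ev x0 = 0) (hx : x0 ∈ poly h) (x : ℝ) :
    (∃ j, Hit h g0 x0 x j) ↔ Wl h g0 x0 x := by
  constructor
  · rintro ⟨j, T, ⟨-, hT2⟩, hp, hu⟩
    have hX : IZ.uv g0 x0 T / IZ.yv g0 T = x := by
      rw [hu, mul_div_assoc, div_self hp.ne', mul_one]
    have h2 := ((pin_poly h g0 x0 F ψ hF hg hx T hp).1 hT2).1
    rwa [hX] at h2
  · intro hw
    obtain ⟨j, hj, hj1, -⟩ := hF.1 x
    exact ⟨j, hit_act h hP g0 x0 F ψ hF hg hx x hw j hj hj1⟩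

end Pool.Agent.Work.MP_e64a38_co.FF
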