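import Pool.Agent.Work.MP_e64a38_co.FF.PDefs
import Pool.Agent.Work.MP_e64a38_co.IZ.Coord

/-!
# Existence of the function `F` (size S-M)

`fs_ex`: not all sides pass through `x0`: otherwise take `p ∈ inn h`; `(h j).ev (x0 + t (p - x0)) = t (h j).ev p < 0`
for all `t > 0` and all `j` (the form is affine), so all these points are in `poly h`, and `p ≠ x0`
(if `p = x0`: `(h j).ev x0 < 0` for all `j`, so every `j` is one with `(h j).ev x0 ≠ 0`; if `k = 0` then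
`poly h = univ` is not bounded); contradiction to `hP.bounded`. So the finite set of the `j` with
`(h j).ev x0 ≠ 0` is not empty; for every `x` choose in it a maximum `j` of `sl j * x + ct j`
(`Finset.exists_max_image`), let `F x` be the maximum and `ψ x = sl j`.

`fs_sub`: `F z ≥ sl j * z + ct j = F x + ψ x (z - x)` for the `j` of `x`.

`fs_const`: `ψ` is monotone (add the two inequalities of `fs_sub` for `x < z`:
`(ψ z - ψ x) (z - x) ≥ 0`) and has finitely many values (the numbers `sl j`). Let `x1` be a point where `ψ` takes its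
largest value and `x2` one where it takes its smallest value, `W0 = max |x1| |x2|`.
-/

set_option autoImplicit false

namespace Pool.Agent.Work.MP_e64a38_co.FF

variable {k : ℕ}

private theorem px_one (h : Fin k → Ln) (hP : IsPolygon h) (x0 : ℝ × ℝ) :
    ∃ j, (h j).ev x0 ≠ 0 := by
  by_contra hcon
  push Not at hcon
  obtain ⟨p, hp⟩ := hP.nonempty
  have hk := IZ.polygon_pos hP
  have hne : p - x0 ≠ 0 := by
    intro h0
    have h1 : p = x0 := sub_eq_zero.mp h0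
    have h2 := hp ⟨0, hk⟩
    rw [h1, hcon] at h2
    exact lt_irrefl _ h2
  obtain ⟨R, hR⟩ := hP.bounded.subset_closedBall 0
  have hmem : ∀ t : ℝ, 0 ≤ t → x0 + t • (p - x0) ∈ poly h := by
    intro t ht j
    rw [IZ.ev_comb, hcon, mul_zero, zero_add]
    exact mul_nonpos_of_nonneg_of_nonpos ht (hp j).le
  have hn : 0 < ‖p - x0‖ := norm_pos_iff.mpr hne
  set t : ℝ := (|R| + ‖x0‖ + 1) / ‖p - x0‖ with ht
  have ht0 : 0 ≤ t := by positivity
  have h1 := hR (hmem t ht0)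
  rw [mem_closedBall_zero_iff] at h1
  have h2 : ‖t • (p - x0)‖ ≤ ‖x0 + t • (p - x0)‖ + ‖x0‖ := by
    have := norm_sub_le (x0 + t • (p - x0)) x0
    rw [add_sub_cancel_left] at this
    exact this
  rw [norm_smul, Real.norm_eq_abs, abs_of_nonneg ht0, ht, div_mul_cancel₀ _ hn.ne'] at h2
  have h3 := le_abs_self R
  linarith

theorem fs_ex (h : Fin k → Ln) (hP : IsPolygon h) (g0 : Ln) (x0 : ℝ × ℝ) (hx : x0 ∈ poly h) :
    ∃ F ψ : ℝ → ℝ, FS h g0 x0 F ψ := by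
  classical
  obtain ⟨j0, hj0⟩ := px_one h hP x0
  set S : Finset (Fin k) := Finset.univ.filter (fun j => (h j).ev x0 ≠ 0) with hS
  have hSne : S.Nonempty := ⟨j0, by rw [hS, Finset.mem_filter]; exact ⟨Finset.mem_univ _, hj0⟩⟩
  have key : ∀ x : ℝ, ∃ j ∈ S, ∀ j' ∈ S, IZ.sl g0 x0 (h j') * x + IZ.ct g0 x0 (h j') ≤
      IZ.sl g0 x0 (h j) * x + IZ.ct g0 x0 (h j) := fun x =>
    Finset.exists_max_image S (fun j => IZ.sl g0 x0 (h j) * x + IZ.ct g0 x0 (h j)) hSne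
  choose J hJ1 hJ2 using key
  refine ⟨fun x => IZ.sl g0 x0 (h (J x)) * x + IZ.ct g0 x0 (h (J x)),
    fun x => IZ.sl g0 x0 (h (J x)), ?_, ?_⟩
  · intro x
    have h1 := hJ1 x
    rw [hS, Finset.mem_filter] at h1
    exact ⟨J x, h1.2, rfl, rfl⟩
  · intro j hj x
    apply hJ2 x j
    rw [hS, Finset.mem_filter]
    exact ⟨Finset.mem_univ _, hj⟩

theorem fs_sub (h : Fin k → Ln) (g0 : Ln) (x0 : ℝ × ℝ) (F ψ : ℝ → ℝ) (hF : FS h g0 x0 F ψ) (x z : ℝ) :
    F x + ψ x * (z - x) ≤ F z := by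
  obtain ⟨j, hj, h1, h2⟩ := hF.1 x
  have h3 := hF.2 j hj z
  rw [h1, h2]
  linarith

private theorem px_mono (h : Fin k → Ln) (g0 : Ln) (x0 : ℝ × ℝ) (F ψ : ℝ → ℝ)
    (hF : FS h g0 x0 F ψ) {x z : ℝ} (hxz : x ≤ z) : ψ x ≤ ψ z := by
  rcases hxz.eq_or_lt with h1 | h1
  · rw [h1]
  · have h2 := fs_sub h g0 x0 F ψ hF x z
    have h3 := fs_sub h g0 x0 F ψ hF z x
    by_contra hc
    push Not at hc
    have h4 : 0 < (ψ x - ψ z) * (z - x) := mul_pos (by linarith) (by linarith)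
    nlinarith

theorem fs_const (h : Fin k → Ln) (g0 : Ln) (x0 : ℝ × ℝ) (F ψ : ℝ → ℝ) (hF : FS h g0 x0 F ψ) :
    ∃ W0 m M : ℝ, 0 ≤ W0 ∧ (∀ x, W0 ≤ x → ψ x = M) ∧ ∀ x, x ≤ -W0 → ψ x = m := by
  have hfin : (Set.range ψ).Finite := by
    apply (Set.finite_range (fun j : Fin k => IZ.sl g0 x0 (h j))).subset
    rintro _ ⟨x, rfl⟩
    obtain ⟨j, -, -, hj⟩ := hF.1 x
    exact ⟨j, hj.symm⟩
  have hne : (Set.range ψ).Nonempty := ⟨ψ 0, 0, rfl⟩
  obtain ⟨_, ⟨x1, rfl⟩, h1⟩ := Set.exists_max_image (Set.range ψ) id hfin hne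
  obtain ⟨_, ⟨x2, rfl⟩, h2⟩ := Set.exists_min_image (Set.range ψ) id hfin hne
  refine ⟨max |x1| |x2|, ψ x2, ψ x1, le_trans (abs_nonneg _) (le_max_left _ _), ?_, ?_⟩
  · intro x hx
    have h3 : x1 ≤ x := le_trans (le_abs_self x1) (le_trans (le_max_left _ _) hx)
    exact le_antisymm (h1 (ψ x) ⟨x, rfl⟩) (px_mono h g0 x0 F ψ hF h3)
  · intro x hx
    have h3 : x ≤ x2 := by
      have h4 := neg_abs_le x2
      have h5 := le_max_right |x1| |x2|
      linarith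
    exact le_antisymm (px_mono h g0 x0 F ψ hF h3) (h2 (ψ x) ⟨x, rfl⟩)

end Pool.Agent.Work.MP_e64a38_co.FF
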