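import Pool.Agent.Work.MP_e64a38_co.FF.CDefs
import Pool.Agent.Work.MP_e64a38_co.FF.PEpi
import Pool.Agent.Work.MP_e64a38_co.FF.PEx
import Pool.Agent.Work.MP_e64a38_co.FF.C1Exc

/-!
# Chords of a parabola: no separated flattening of the polygon (size M)

`pfl_exc`. The sides not through `x0` are chords of the parabola `A X ^ 2 + B X + D` over `[P j, N j]`
(`P j = N j`: tangents), any two of them not overlapping; for every `W` there are `α`, `β` such that all `P j`, `N j` are in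
`[α, β]`, the abscissas `x` with `|x| ≤ W` that hit the polygon are in `[α, β]`, and all abscissas in `[α, β]` hit it.

Proof. Let `J` be the subtype of the `j` with `(h j).ev x0 ≠ 0` and let `PEx.fs_ex` give `F`, `ψ0` with
`FS h g0 x0 F ψ0`. Suppose `PFl ε K Z h g0 x0` with `t0, ..., t4`, `j1, ..., j4`. Take
`W = |t0| + |t1| + |t2| + |t3| + |t4|` and `α`, `β` from the hypothesis. By `Hit`, `t1, ..., t4 ∈ [α, β]`. By
`PEpi.act_hit` the line of `j_i` is a line with the maximal value `F t_i` at `t_i`, `i = 1, 2, 3, 4`. Let `t0' = t0`,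
`j0' = j0` in the first case of the last clause of `PFl` (then `t0 ∈ [α, β]` as well and the line of `j0` is maximal at
`t0`); in the second case `t0` hits no side, so `t0 ∉ [α, β]`, i.e. `ε * t0 < ε * t1` gives `t0 < α` for `ε = 1` and
`β < t0` for `ε = -1`.
Define `g : ℝ → J` with `g t_i = j_i` (`i = 1, ..., 4`, and `i = 0` in the first case), and `g x` any line with the
maximal value at `x` for the other `x` (from `FS`, first clause). This is well defined as the `t_i` are different. So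
for all `x` and all `j ∈ J`: `sl j x + ct j ≤ F x = sl (g x) x + ct (g x)`. Here
`sl j x + ct j = (A (P j + N j) + B) x - A P j N j + D`.
* `ε = 1`: `C1Exc.exc` with `J`, `A`, `B`, `C := D`, `α`, `β`, `P`, `N`, `g`, `ψ x = sl (g x)` says that
  `FltB K Z α β ψ` is false. But `x_i = t_i` is an instance: `α ≤ t1`, `t4 ≤ β`, the conditions on `Z` and on the lengths
  are those of `PFl` with `ε = 1`, `ψ t_i = sl j_i` for `i = 1, ..., 4`, and if `α ≤ t0` then `t0 ∈ [α, β]` hits a side, so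
  we are in the first case and `ψ t0 = sl j0`.
* `ε = -1`: use `C1Exc.exc` with `A`, `-B`, `C := D`, `-β`, `-α`, `P' j = - N j`, `N' j = - P j`, `g' x = g (-x)`,
  `ψ' x = - sl (g (-x))`, `mZ Z`: the line `j` becomes `(A (P' j + N' j) - B) x - A P' j N' j + D =
  sl j (-x) + ct j`. `x_i = - t_i` is an instance of `FltB K (mZ Z) (-β) (-α) ψ'`: for `z' ∈ mZ Z`, `z' = - z`, `z ∈ Z`.
-/

set_option autoImplicit false

namespace Pool.Agent.Work.MP_e64a38_co.FF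

variable {k : ℕ}

private theorem cex_core {J : Type} (A B D : ℝ) (hA : 0 < A) (P N S T : J → ℝ)
    (hPN : ∀ j, P j ≤ N j) (hS : ∀ j, S j = A * (P j + N j) + B)
    (hT : ∀ j, T j = D - A * P j * N j) (hov : ∀ i j, i ≠ j → N i ≤ P j ∨ N j ≤ P i)
    (α β : ℝ) (hα : ∀ j, α ≤ P j) (hβ : ∀ j, N j ≤ β)
    (hex : ∀ x : ℝ, ∃ j, ∀ i, S i * x + T i ≤ S j * x + T j) (K : ℝ) (hK : 4 ≤ K)
    (t0 t1 t2 t3 t4 : ℝ) (j1 j2 j3 j4 : J) (o1 : t0 < t1) (o2 : t1 < t2) (o3 : t2 < t3)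
    (o4 : t3 < t4) (l1 : K * (t1 - t0) ≤ t2 - t1) (l2 : K * (t2 - t1) ≤ t3 - t2)
    (l3 : K * (t3 - t2) ≤ t4 - t3)
    (m1 : ∀ i, S i * t1 + T i ≤ S j1 * t1 + T j1) (m2 : ∀ i, S i * t2 + T i ≤ S j2 * t2 + T j2)
    (m3 : ∀ i, S i * t3 + T i ≤ S j3 * t3 + T j3) (m4 : ∀ i, S i * t4 + T i ≤ S j4 * t4 + T j4)
    (d4 : 0 < S j4 - S j3) (d3 : K * (S j4 - S j3) ≤ S j3 - S j2)
    (d2 : K * (S j3 - S j2) ≤ S j2 - S j1) (a1 : α ≤ t1) (a4 : t4 ≤ β)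
    (last : α ≤ t0 → ∃ j0, (∀ i, S i * t0 + T i ≤ S j0 * t0 + T j0) ∧
      K * (S j2 - S j1) ≤ S j1 - S j0) : False := by
  classical
  obtain ⟨g0, hg0, hg1⟩ : ∃ g0 : ℝ → J, (∀ x i, S i * x + T i ≤ S (g0 x) * x + T (g0 x)) ∧
      (α ≤ t0 → K * (S j2 - S j1) ≤ S j1 - S (g0 t0)) := by
    choose gb hgb using hex
    by_cases h : α ≤ t0
    · obtain ⟨j0, m0, e0⟩ := last h
      refine ⟨fun x => if x = t0 then j0 else gb x, ?_, ?_⟩
      · intro x i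
        by_cases hx : x = t0
        · rw [hx]
          simp only [if_true]
          exact m0 i
        · simp only [hx, if_false]
          exact hgb x i
      · intro _
        simp only [if_true]
        exact e0
    · exact ⟨gb, hgb, fun h' => absurd h' h⟩
  have step : ∀ (g : ℝ → J) (_ : ∀ x i, S i * x + T i ≤ S (g x) * x + T (g x)) (t : ℝ) (j : J)
      (_ : ∀ i, S i * t + T i ≤ S j * t + T j), ∃ g' : ℝ → J,
      (∀ x i, S i * x + T i ≤ S (g' x) * x + T (g' x)) ∧ g' t = j ∧ ∀ x, x ≠ t → g' x = g x := by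
    intro g hg t j hj
    refine ⟨fun x => if x = t then j else g x, ?_, ?_, ?_⟩
    · intro x i
      by_cases hx : x = t
      · rw [hx]
        simp only [if_true]
        exact hj i
      · simp only [hx, if_false]
        exact hg x i
    · simp only [if_true]
    · intro x hx
      simp only [hx, if_false]
  obtain ⟨g1, k1, k1a, k1b⟩ := step g0 hg0 t1 j1 m1
  obtain ⟨g2, k2, k2a, k2b⟩ := step g1 k1 t2 j2 m2
  obtain ⟨g3, k3, k3a, k3b⟩ := step g2 k2 t3 j3 m3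
  obtain ⟨g, k4, k4a, k4b⟩ := step g3 k3 t4 j4 m4
  have e1 : g t1 = j1 := by
    rw [k4b t1 (by linarith [o2, o3, o4] |> fun h : t1 < t4 => h.ne),
      k3b t1 (by linarith [o2, o3] |> fun h : t1 < t3 => h.ne), k2b t1 o2.ne, k1a]
  have e2 : g t2 = j2 := by
    rw [k4b t2 ((o3.trans o4).ne), k3b t2 o3.ne, k2a]
  have e3 : g t3 = j3 := by
    rw [k4b t3 o4.ne, k3a]
  have e0 : g t0 = g0 t0 := by
    rw [k4b t0 ((((o1.trans o2).trans o3).trans o4).ne), k3b t0 (((o1.trans o2).trans o3).ne),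
      k2b t0 ((o1.trans o2).ne), k1b t0 o1.ne]
  refine exc (J := J) A B D α β hA P N hα hPN hβ hov g ?_ (fun x => S (g x)) ?_ ∅ K hK ?_
  · intro x _ _ j
    have h := k4 x j
    rw [hS j, hS (g x), hT j, hT (g x)] at h
    linarith
  · intro x _ _
    exact hS (g x)
  · refine ⟨t0, t1, t2, t3, t4, o1, o2, o3, o4, a1, a4, ?_, l1, l2, l3, ?_, ?_, ?_, ?_⟩
    · intro z hz
      exact absurd hz (Finset.notMem_empty z)
    · simp only [e3, k4a]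
      exact d4
    · simp only [e2, e3, k4a]
      exact d3
    · simp only [e1, e2, e3]
      exact d2
    · intro h
      simp only [e0, e1, e2]
      exact hg1 h

private theorem cex_bd (t0 t1 t2 t3 t4 : ℝ) (t : ℝ)
    (h : t = t0 ∨ t = t1 ∨ t = t2 ∨ t = t3 ∨ t = t4) :
    |t| ≤ |t0| + |t1| + |t2| + |t3| + |t4| := by
  have := abs_nonneg t0
  have := abs_nonneg t1
  have := abs_nonneg t2
  have := abs_nonneg t3
  have := abs_nonneg t4
  rcases h with h | h | h | h | h <;> rw [h] <;> linarith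

theorem pfl_exc (h : Fin k → Ln) (hP : IsPolygon h) (g0 : Ln) (x0 : ℝ × ℝ) (hg : g0.ev x0 = 0)
    (hx : x0 ∈ poly h) (A B D : ℝ) (hA : 0 < A) (P N : Fin k → ℝ)
    (hPN : ∀ j, (h j).ev x0 ≠ 0 → P j ≤ N j)
    (hsl : ∀ j, (h j).ev x0 ≠ 0 → IZ.sl g0 x0 (h j) = A * (P j + N j) + B)
    (hct : ∀ j, (h j).ev x0 ≠ 0 → IZ.ct g0 x0 (h j) = D - A * P j * N j)
    (hov : ∀ i j, (h i).ev x0 ≠ 0 → (h j).ev x0 ≠ 0 → i ≠ j → N i ≤ P j ∨ N j ≤ P i)
    (hab : ∀ W : ℝ, ∃ α β : ℝ, (∀ j, (h j).ev x0 ≠ 0 → α ≤ P j ∧ N j ≤ β) ∧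
      (∀ x, |x| ≤ W → (∃ j, Hit h g0 x0 x j) → α ≤ x ∧ x ≤ β) ∧
      ∀ x, α ≤ x → x ≤ β → ∃ j, Hit h g0 x0 x j)
    (ε : ℝ) (hε : ε = 1 ∨ ε = -1) (K : ℝ) (hK : 4 ≤ K) (Z : Finset ℝ) : ¬ PFl ε K Z h g0 x0 := by
  rintro ⟨t0, t1, t2, t3, t4, j1, j2, j3, j4, o1, o2, o3, o4, -, l1, l2, l3, ⟨n1, H1⟩, ⟨n2, H2⟩,
    ⟨n3, H3⟩, ⟨n4, H4⟩, d4, d3, d2, last⟩
  obtain ⟨F, ψ0, hF⟩ := fs_ex h hP g0 x0 hx
  obtain ⟨α, β, hab1, hab2, hab3⟩ := hab (|t0| + |t1| + |t2| + |t3| + |t4|)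
  have T1 := hab2 t1 (cex_bd _ _ _ _ _ _ (by simp)) ⟨j1, H1⟩
  have T4 := hab2 t4 (cex_bd _ _ _ _ _ _ (by simp)) ⟨j4, H4⟩
  -- the line of a side that is hit is the highest one
  have mx : ∀ x j, (h j).ev x0 ≠ 0 → Hit h g0 x0 x j → ∀ i, (h i).ev x0 ≠ 0 →
      IZ.sl g0 x0 (h i) * x + IZ.ct g0 x0 (h i) ≤ IZ.sl g0 x0 (h j) * x + IZ.ct g0 x0 (h j) := by
    intro x j hj hH i hi
    rw [← act_hit h g0 x0 F ψ0 hF hg hx x j hj hH]
    exact hF.2 i hi x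
  have hex : ∀ x : ℝ, ∃ j, (h j).ev x0 ≠ 0 ∧ ∀ i, (h i).ev x0 ≠ 0 →
      IZ.sl g0 x0 (h i) * x + IZ.ct g0 x0 (h i) ≤ IZ.sl g0 x0 (h j) * x + IZ.ct g0 x0 (h j) := by
    intro x
    obtain ⟨j, hj, hj1, -⟩ := hF.1 x
    refine ⟨j, hj, fun i hi => ?_⟩
    rw [← hj1]
    exact hF.2 i hi x
  rcases hε with rfl | rfl
  · simp only [one_mul] at o1 o2 o3 o4 l1 l2 l3 d4 d3 d2 last
    refine cex_core (J := {j : Fin k // (h j).ev x0 ≠ 0}) A B D hA (fun j => P j.1)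
      (fun j => N j.1) (fun j => IZ.sl g0 x0 (h j.1)) (fun j => IZ.ct g0 x0 (h j.1))
      (fun j => hPN j.1 j.2) (fun j => hsl j.1 j.2) (fun j => hct j.1 j.2)
      (fun i j hij => hov i.1 j.1 i.2 j.2 (fun he => hij (Subtype.ext he))) α β
      (fun j => (hab1 j.1 j.2).1) (fun j => (hab1 j.1 j.2).2) ?_ K hK t0 t1 t2 t3 t4
      ⟨j1, n1⟩ ⟨j2, n2⟩ ⟨j3, n3⟩ ⟨j4, n4⟩ o1 o2 o3 o4 l1 l2 l3
      (fun i => mx t1 j1 n1 H1 i.1 i.2) (fun i => mx t2 j2 n2 H2 i.1 i.2)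
      (fun i => mx t3 j3 n3 H3 i.1 i.2) (fun i => mx t4 j4 n4 H4 i.1 i.2) d4 d3 d2 T1.1 T4.2 ?_
    · intro x
      obtain ⟨j, hj, hj1⟩ := hex x
      exact ⟨⟨j, hj⟩, fun i => hj1 i.1 i.2⟩
    · intro hα
      rcases last with ⟨j0, n0, H0, e0⟩ | hno
      · exact ⟨⟨j0, n0⟩, fun i => mx t0 j0 n0 H0 i.1 i.2, e0⟩
      · exact absurd (hab3 t0 hα (by linarith [T1.2])) hno
  · simp only [neg_mul, one_mul] at o1 o2 o3 o4 l1 l2 l3 d4 d3 d2 last
    refine cex_core (J := {j : Fin k // (h j).ev x0 ≠ 0}) A (-B) D hA (fun j => -N j.1)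
      (fun j => -P j.1) (fun j => -IZ.sl g0 x0 (h j.1)) (fun j => IZ.ct g0 x0 (h j.1))
      (fun j => neg_le_neg (hPN j.1 j.2)) (fun j => ?_) (fun j => ?_)
      (fun i j hij => ?_) (-β) (-α)
      (fun j => neg_le_neg (hab1 j.1 j.2).2) (fun j => neg_le_neg (hab1 j.1 j.2).1) ?_ K hK
      (-t0) (-t1) (-t2) (-t3) (-t4)
      ⟨j1, n1⟩ ⟨j2, n2⟩ ⟨j3, n3⟩ ⟨j4, n4⟩ o1 o2 o3 o4 (by linarith) (by linarith) (by linarith)
      (fun i => ?_) (fun i => ?_) (fun i => ?_) (fun i => ?_) ?_ ?_ ?_ (neg_le_neg T1.2)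
      (neg_le_neg T4.1) ?_
    · show -IZ.sl g0 x0 (h j.1) = A * (-N j.1 + -P j.1) + -B
      rw [hsl j.1 j.2]
      ring
    · show IZ.ct g0 x0 (h j.1) = D - A * -N j.1 * -P j.1
      rw [hct j.1 j.2]
      ring
    · show -P i.1 ≤ -N j.1 ∨ -P j.1 ≤ -N i.1
      rcases hov i.1 j.1 i.2 j.2 (fun he => hij (Subtype.ext he)) with h1 | h1
      · exact Or.inr (neg_le_neg h1)
      · exact Or.inl (neg_le_neg h1)
    · intro x
      obtain ⟨j, hj, hj1⟩ := hex (-x)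
      refine ⟨⟨j, hj⟩, fun i => ?_⟩
      have := hj1 i.1 i.2
      show -IZ.sl g0 x0 (h i.1) * x + IZ.ct g0 x0 (h i.1) ≤
        -IZ.sl g0 x0 (h j) * x + IZ.ct g0 x0 (h j)
      linarith
    · have := mx t1 j1 n1 H1 i.1 i.2
      show -IZ.sl g0 x0 (h i.1) * -t1 + IZ.ct g0 x0 (h i.1) ≤
        -IZ.sl g0 x0 (h j1) * -t1 + IZ.ct g0 x0 (h j1)
      linarith
    · have := mx t2 j2 n2 H2 i.1 i.2
      show -IZ.sl g0 x0 (h i.1) * -t2 + IZ.ct g0 x0 (h i.1) ≤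
        -IZ.sl g0 x0 (h j2) * -t2 + IZ.ct g0 x0 (h j2)
      linarith
    · have := mx t3 j3 n3 H3 i.1 i.2
      show -IZ.sl g0 x0 (h i.1) * -t3 + IZ.ct g0 x0 (h i.1) ≤
        -IZ.sl g0 x0 (h j3) * -t3 + IZ.ct g0 x0 (h j3)
      linarith
    · have := mx t4 j4 n4 H4 i.1 i.2
      show -IZ.sl g0 x0 (h i.1) * -t4 + IZ.ct g0 x0 (h i.1) ≤
        -IZ.sl g0 x0 (h j4) * -t4 + IZ.ct g0 x0 (h j4)
      linarith
    · show 0 < -IZ.sl g0 x0 (h j4) - -IZ.sl g0 x0 (h j3)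
      linarith
    · show K * (-IZ.sl g0 x0 (h j4) - -IZ.sl g0 x0 (h j3)) ≤
        -IZ.sl g0 x0 (h j3) - -IZ.sl g0 x0 (h j2)
      linarith
    · show K * (-IZ.sl g0 x0 (h j3) - -IZ.sl g0 x0 (h j2)) ≤
        -IZ.sl g0 x0 (h j2) - -IZ.sl g0 x0 (h j1)
      linarith
    · intro hα
      rcases last with ⟨j0, n0, H0, e0⟩ | hno
      · refine ⟨⟨j0, n0⟩, fun i => ?_, ?_⟩
        · have := mx t0 j0 n0 H0 i.1 i.2
          show -IZ.sl g0 x0 (h i.1) * -t0 + IZ.ct g0 x0 (h i.1) ≤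
            -IZ.sl g0 x0 (h j0) * -t0 + IZ.ct g0 x0 (h j0)
          linarith
        · show K * (-IZ.sl g0 x0 (h j2) - -IZ.sl g0 x0 (h j1)) ≤
            -IZ.sl g0 x0 (h j1) - -IZ.sl g0 x0 (h j0)
          linarith
      · exact absurd (hab3 t0 (by linarith [T1.1]) (by linarith)) hno

end Pool.Agent.Work.MP_e64a38_co.FF
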