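import Pool.Agent.Work.MP_e64a38_co.FF.CDefs
import Pool.Agent.Work.MP_e64a38_co.CZ.FBas
import Pool.Agent.Work.MP_e64a38_co.IZ.Coord

/-!
# The conic is a parabola in the frame of a tangent (size M)

`par_frame`: `v ∈ C.crv`, `g0.ev p = r tg C v p` for all `p`, `r > 0`. Then there are `A`, `B`, `D` with
`ParF C g0 v A B D`.

Proof. Write `x = (f1, f2, f3) (v)`, `F = (f1, f2, f3) (p)`, `w = p - v`, `Q p = F1 ^ 2 + F2 ^ 2 - F3 ^ 2`,
`Fw = F - x` (the values of the linear parts at `w`), `y = IZ.yv g0 p = - g0.ev p = - r tg C v p`,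
`u = IZ.uv g0 v p`. As `x1 ^ 2 + x2 ^ 2 = x3 ^ 2`:
`Q p = 2 tg C v p + Fw1 ^ 2 + Fw2 ^ 2 - Fw3 ^ 2 = - 2 y / r + Fw1 ^ 2 + Fw2 ^ 2 - Fw3 ^ 2` (ring).
Each `Fw` is a linear function of `(u, y)`: the formula `IZ.coord` (with the `Ln` replaced by an `Af`; or directly
from `w1 = (- g0.a y + g0.b u) / M`, `w2 = (- g0.b y - g0.a u) / M`, `M = g0.a ^ 2 + g0.b ^ 2`, see `IZ.Coord`), say
`Fw_i = m_i u + n_i y`. So `Q p = - 2 y / r + a u ^ 2 + b u y + c y ^ 2` with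
`a = m_1 ^ 2 + m_2 ^ 2 - m_3 ^ 2` etc. For `y > 0`, `X = u / y`:
`(r / 2) Q p / y ^ 2 = - 1 / y + A X ^ 2 + B X + D` with `A = r a / 2`, `B = r b / 2`, `D = r c / 2`.
So `Q p = 0` iff `1 / y = A X ^ 2 + B X + D` and `Q p < 0` iff `A X ^ 2 + B X + D < 1 / y`.
* `0 < f3` is automatic if `y > 0` and `Q p ≤ 0`: `tg C v p < 0` means `x1 F1 + x2 F2 < x3 F3`. If `F3 ≤ 0` then
  `(x1 F1 + x2 F2) ^ 2 ≤ (x1 ^ 2 + x2 ^ 2) (F1 ^ 2 + F2 ^ 2) ≤ (x3 F3) ^ 2`, so `|x1 F1 + x2 F2| ≤ - x3 F3`, i.e.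
  `x1 F1 + x2 F2 ≥ x3 F3`, a contradiction.
* `A > 0`, i.e. `a > 0`: `m = (m_1, m_2, m_3)` are the values of the linear parts at the direction
  `w = (g0.b / M, - g0.a / M)` (`u = 1`, `y = 0`), and `g0.a w1 + g0.b w2 = 0` gives
  `x1 m_1 + x2 m_2 - x3 m_3 = 0` (the linear part of `tg C v` is the one of `g0` divided by `r`: subtract
  `g0.ev (v + w) = r tg C v (v + w)` and the same at `v`). Cauchy: `(x3 m_3) ^ 2 = (x1 m_1 + x2 m_2) ^ 2 =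
  (x1 ^ 2 + x2 ^ 2) (m_1 ^ 2 + m_2 ^ 2) - (x1 m_2 - x2 m_1) ^ 2`, so
  `x3 ^ 2 (m_1 ^ 2 + m_2 ^ 2 - m_3 ^ 2) = (x1 m_2 - x2 m_1) ^ 2 ≥ 0`. If it is 0 then `x1 m_2 = x2 m_1` and with
  `x1 m_1 + x2 m_2 = x3 m_3`: `m_i = (m_3 / x3) x_i` for `i = 1, 2, 3` (`x3 ^ 2 m_1 = (x1 ^ 2 + x2 ^ 2) m_1 =
  x1 (x1 m_1 + x2 m_2) = x1 x3 m_3`). So the vector `(w1, w2, 0) - (m_3 / x3) (v1, v2, 1)` is in the kernel of the
  matrix with the rows `f1, f2, f3`, whose determinant is not zero (`C.det`; private lemma `fb_cr` of `CZ.FBas`, copy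
  it): so `m_3 / x3 = 0` and `w = 0`, a contradiction to `g0.h` (`M > 0`).
* On the curve without `v` and on the region `0 < yv`: that is `tg C v p < 0`. Prove it again here by Cauchy:
  `x1 F1 + x2 F2 ≤ x3 F3` since both sides have `(x1 F1 + x2 F2) ^ 2 ≤ x3 ^ 2 F3 ^ 2`, `x3 F3 > 0`; if there is
  equality then `F1 ^ 2 + F2 ^ 2 = F3 ^ 2`, `x1 F2 = x2 F1`, so `x1 F3 = x3 F1`, `x2 F3 = x3 F2`, and `CZ.con_inj` with
  `F3 / x3` gives `p = v`; but `v` is not in the region as `x1 ^ 2 + x2 ^ 2 = x3 ^ 2`. (Or use `CTan.tg_neg`, if it is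
  there already.)
-/

set_option autoImplicit false

namespace Pool.Agent.Work.MP_e64a38_co.FF

private theorem cp_cr {a1 b1 c1 a2 b2 c2 a3 b3 c3 x y z : ℝ}
    (hD : a1 * (b2 * c3 - c2 * b3) - b1 * (a2 * c3 - c2 * a3) + c1 * (a2 * b3 - b2 * a3) ≠ 0)
    (h1 : a1 * x + b1 * y + c1 * z = 0) (h2 : a2 * x + b2 * y + c2 * z = 0)
    (h3 : a3 * x + b3 * y + c3 * z = 0) : x = 0 ∧ y = 0 ∧ z = 0 := by
  refine ⟨?_, ?_, ?_⟩
  · apply (mul_eq_zero.1 (?_ : (a1 * (b2 * c3 - c2 * b3) - b1 * (a2 * c3 - c2 * a3) +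
      c1 * (a2 * b3 - b2 * a3)) * x = 0)).resolve_left hD
    linear_combination (b2 * c3 - c2 * b3) * h1 - (b1 * c3 - c1 * b3) * h2 +
      (b1 * c2 - c1 * b2) * h3
  · apply (mul_eq_zero.1 (?_ : (a1 * (b2 * c3 - c2 * b3) - b1 * (a2 * c3 - c2 * a3) +
      c1 * (a2 * b3 - b2 * a3)) * y = 0)).resolve_left hD
    linear_combination (-(a2 * c3 - c2 * a3)) * h1 + (a1 * c3 - c1 * a3) * h2 -
      (a1 * c2 - c1 * a2) * h3
  · apply (mul_eq_zero.1 (?_ : (a1 * (b2 * c3 - c2 * b3) - b1 * (a2 * c3 - c2 * a3) +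
      c1 * (a2 * b3 - b2 * a3)) * z = 0)).resolve_left hD
    linear_combination (a2 * b3 - b2 * a3) * h1 - (a1 * b3 - b1 * a3) * h2 +
      (a1 * b2 - b1 * a2) * h3

private theorem cp_min {x1 x2 x3 y1 y2 y3 : ℝ} (hx : x1 ^ 2 + x2 ^ 2 = x3 ^ 2)
    (hy : y1 ^ 2 + y2 ^ 2 = y3 ^ 2) (hxy : x1 * y1 + x2 * y2 = x3 * y3) :
    x1 * y3 = x3 * y1 ∧ x2 * y3 = x3 * y2 := by
  have h0 : (x1 * y2 - x2 * y1) ^ 2 = 0 := by
    have e1 : (x1 * y2 - x2 * y1) ^ 2 =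
        (x1 ^ 2 + x2 ^ 2) * (y1 ^ 2 + y2 ^ 2) - (x1 * y1 + x2 * y2) ^ 2 := by ring
    rw [e1, hx, hy, hxy]
    ring
  have h1 : (x1 * y3 - x3 * y1) ^ 2 = 0 := by
    have e1 : (x1 * y3 - x3 * y1) ^ 2 =
        x1 ^ 2 * y3 ^ 2 - 2 * (x1 * y1) * (x3 * y3) + x3 ^ 2 * y1 ^ 2 := by ring
    rw [e1, ← hx, ← hy, ← hxy, ← h0]
    ring
  have h2 : (x2 * y3 - x3 * y2) ^ 2 = 0 := by
    have e1 : (x2 * y3 - x3 * y2) ^ 2 =
        x2 ^ 2 * y3 ^ 2 - 2 * (x2 * y2) * (x3 * y3) + x3 ^ 2 * y2 ^ 2 := by ring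
    rw [e1, ← hx, ← hy, ← hxy, ← h0]
    ring
  constructor
  · have := pow_eq_zero_iff (two_ne_zero) |>.1 h1
    linarith
  · have := pow_eq_zero_iff (two_ne_zero) |>.1 h2
    linarith

/-- Cauchy -/
private theorem cp_cs {x1 x2 x3 y1 y2 y3 : ℝ} (hx : x1 ^ 2 + x2 ^ 2 = x3 ^ 2)
    (hy : y1 ^ 2 + y2 ^ 2 ≤ y3 ^ 2) : (x1 * y1 + x2 * y2) ^ 2 ≤ (x3 * y3) ^ 2 := by
  have h1 : (x1 * y1 + x2 * y2) ^ 2 ≤ (x1 ^ 2 + x2 ^ 2) * (y1 ^ 2 + y2 ^ 2) := by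
    nlinarith [sq_nonneg (x1 * y2 - x2 * y1)]
  have h2 : (x1 ^ 2 + x2 ^ 2) * (y1 ^ 2 + y2 ^ 2) ≤ x3 ^ 2 * y3 ^ 2 := by
    rw [hx]
    exact mul_le_mul_of_nonneg_left hy (sq_nonneg _)
  rw [mul_pow]
  linarith

private theorem cp_neg (C : CZ.Con) {v p : ℝ × ℝ} (hv : v ∈ C.crv) (h3 : 0 < C.f3.ev p)
    (hq : C.f1.ev p ^ 2 + C.f2.ev p ^ 2 ≤ C.f3.ev p ^ 2) (hne : p ≠ v) : tg C v p < 0 := by
  obtain ⟨hv3, hv2⟩ := hv
  have h1 := cp_cs hv2 hq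
  have h2 : C.f1.ev v * C.f1.ev p + C.f2.ev v * C.f2.ev p ≤ C.f3.ev v * C.f3.ev p :=
    le_of_sq_le_sq h1 (by positivity)
  unfold tg
  rcases lt_or_eq_of_le h2 with h4 | h4
  · linarith
  · exfalso
    have h5 : C.f1.ev p ^ 2 + C.f2.ev p ^ 2 = C.f3.ev p ^ 2 := by
      refine le_antisymm hq ?_
      have h6 : (C.f1.ev v * C.f1.ev p + C.f2.ev v * C.f2.ev p) ^ 2 ≤
          (C.f1.ev v ^ 2 + C.f2.ev v ^ 2) * (C.f1.ev p ^ 2 + C.f2.ev p ^ 2) := by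
        nlinarith [sq_nonneg (C.f1.ev v * C.f2.ev p - C.f2.ev v * C.f1.ev p)]
      rw [h4, hv2, mul_pow] at h6
      exact le_of_mul_le_mul_left h6 (by positivity)
    obtain ⟨m1, m2⟩ := cp_min hv2 h5 h4
    apply hne
    apply CZ.con_inj C p v (C.f3.ev p / C.f3.ev v)
    · field_simp
      linarith
    · field_simp
      linarith
    · field_simp

/-- the coefficient of `u` -/
private noncomputable def cpm (g0 : Ln) (g : CZ.Af) : ℝ :=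
  (g.a * g0.b - g.b * g0.a) / (g0.a ^ 2 + g0.b ^ 2)

/-- the coefficient of `y` -/
private noncomputable def cpn (g0 : Ln) (g : CZ.Af) : ℝ :=
  -(g.a * g0.a + g.b * g0.b) / (g0.a ^ 2 + g0.b ^ 2)

private theorem cp_pos (g0 : Ln) : 0 < g0.a ^ 2 + g0.b ^ 2 := by
  rcases g0.h with h | h
  · have := sq_pos_of_ne_zero h
    nlinarith [sq_nonneg g0.b]
  · have := sq_pos_of_ne_zero h
    nlinarith [sq_nonneg g0.a]

private theorem cp_lin (g0 : Ln) (g : CZ.Af) {v : ℝ × ℝ} (h0 : g0.ev v = 0) (p : ℝ × ℝ) :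
    g.ev p = g.ev v + cpm g0 g * IZ.uv g0 v p + cpn g0 g * IZ.yv g0 p := by
  have hN := (cp_pos g0).ne'
  have hy : IZ.yv g0 p = -(g0.a * (p.1 - v.1) + g0.b * (p.2 - v.2)) := by
    unfold IZ.yv Ln.ev
    unfold Ln.ev at h0
    linarith
  rw [hy]
  unfold cpm cpn IZ.uv CZ.Af.ev
  field_simp
  ring

theorem par_frame (C : CZ.Con) {v : ℝ × ℝ} (hv : v ∈ C.crv) (g0 : Ln) (r : ℝ) (hr : 0 < r)
    (hg : ∀ p, g0.ev p = r * tg C v p) : ∃ A B D : ℝ, ParF C g0 v A B D := by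
  obtain ⟨hv3, hv2⟩ := hv
  have h0 : g0.ev v = 0 := by
    rw [hg]
    unfold tg
    have : C.f1.ev v * C.f1.ev v + C.f2.ev v * C.f2.ev v - C.f3.ev v * C.f3.ev v = 0 := by
      linarith
    rw [this, mul_zero]
  obtain ⟨x1, hx1⟩ : ∃ x, x = C.f1.ev v := ⟨_, rfl⟩
  obtain ⟨x2, hx2⟩ : ∃ x, x = C.f2.ev v := ⟨_, rfl⟩
  obtain ⟨x3, hx3⟩ : ∃ x, x = C.f3.ev v := ⟨_, rfl⟩
  obtain ⟨m1, hm1⟩ : ∃ x, x = cpm g0 C.f1 := ⟨_, rfl⟩
  obtain ⟨m2, hm2⟩ : ∃ x, x = cpm g0 C.f2 := ⟨_, rfl⟩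
  obtain ⟨m3, hm3⟩ : ∃ x, x = cpm g0 C.f3 := ⟨_, rfl⟩
  obtain ⟨n1, hn1⟩ : ∃ x, x = cpn g0 C.f1 := ⟨_, rfl⟩
  obtain ⟨n2, hn2⟩ : ∃ x, x = cpn g0 C.f2 := ⟨_, rfl⟩
  obtain ⟨n3, hn3⟩ : ∃ x, x = cpn g0 C.f3 := ⟨_, rfl⟩
  have hv' : v ∈ C.crv := ⟨hv3, hv2⟩
  rw [← hx1, ← hx2, ← hx3] at hv2
  rw [← hx3] at hv3
  have l1 : ∀ p, C.f1.ev p = x1 + m1 * IZ.uv g0 v p + n1 * IZ.yv g0 p := fun p => by
    rw [hx1, hm1, hn1]
    exact cp_lin g0 C.f1 h0 p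
  have l2 : ∀ p, C.f2.ev p = x2 + m2 * IZ.uv g0 v p + n2 * IZ.yv g0 p := fun p => by
    rw [hx2, hm2, hn2]
    exact cp_lin g0 C.f2 h0 p
  have l3 : ∀ p, C.f3.ev p = x3 + m3 * IZ.uv g0 v p + n3 * IZ.yv g0 p := fun p => by
    rw [hx3, hm3, hn3]
    exact cp_lin g0 C.f3 h0 p
  have hy : ∀ p, -IZ.yv g0 p = r * tg C v p := fun p => by
    rw [← hg]
    unfold IZ.yv
    ring
  have htg : ∀ p, tg C v p = (x1 * m1 + x2 * m2 - x3 * m3) * IZ.uv g0 v p +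
      (x1 * n1 + x2 * n2 - x3 * n3) * IZ.yv g0 p := fun p => by
    unfold tg
    rw [← hx1, ← hx2, ← hx3, l1 p, l2 p, l3 p]
    linear_combination hv2
  have hal : x1 * m1 + x2 * m2 - x3 * m3 = 0 := by
    obtain ⟨p, hp1, hp2⟩ := IZ.coord_surj g0 v h0 1 0
    have h1 := hy p
    rw [htg, hp1, hp2] at h1
    have h2 : r * (x1 * m1 + x2 * m2 - x3 * m3) = 0 := by linarith
    exact (mul_eq_zero.1 h2).resolve_left hr.ne'
  -- positivity of the leading coefficient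
  have ha : 0 < m1 ^ 2 + m2 ^ 2 - m3 ^ 2 := by
    have e1 : x3 ^ 2 * (m1 ^ 2 + m2 ^ 2 - m3 ^ 2) = (x1 * m2 - x2 * m1) ^ 2 := by
      linear_combination (-(m1 ^ 2 + m2 ^ 2)) * hv2 +
        (x1 * m1 + x2 * m2 + x3 * m3) * hal
    have e2 : x1 * m2 - x2 * m1 ≠ 0 := by
      intro e3
      have e4 : x3 * m1 = x1 * m3 := by
        have e5 : x3 * (x3 * m1 - x1 * m3) = 0 := by
          linear_combination (-m1) * hv2 + x1 * hal - x2 * e3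
        have := (mul_eq_zero.1 e5).resolve_left hv3.ne'
        linarith
      have e6 : x3 * m2 = x2 * m3 := by
        have e5 : x3 * (x3 * m2 - x2 * m3) = 0 := by
          linear_combination (-m2) * hv2 + x2 * hal + x1 * e3
        have := (mul_eq_zero.1 e5).resolve_left hv3.ne'
        linarith
      have hN := (cp_pos g0).ne'
      obtain ⟨M, hM⟩ : ∃ M, M = g0.a ^ 2 + g0.b ^ 2 := ⟨_, rfl⟩
      rw [← hM] at hN
      have q1 : C.f1.a * (x3 * g0.b - m3 * M * v.1) + C.f1.b * (-(x3 * g0.a) - m3 * M * v.2) +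
          C.f1.c * (-(m3 * M)) = 0 := by
        have q : m1 * M = C.f1.a * g0.b - C.f1.b * g0.a := by
          rw [hm1, hM]
          unfold cpm
          rw [← hM]
          field_simp
        have q' : x1 = C.f1.a * v.1 + C.f1.b * v.2 + C.f1.c := hx1
        linear_combination (-x3) * q + M * e4 + m3 * M * q'
      have q2 : C.f2.a * (x3 * g0.b - m3 * M * v.1) + C.f2.b * (-(x3 * g0.a) - m3 * M * v.2) +
          C.f2.c * (-(m3 * M)) = 0 := by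
        have q : m2 * M = C.f2.a * g0.b - C.f2.b * g0.a := by
          rw [hm2, hM]
          unfold cpm
          rw [← hM]
          field_simp
        have q' : x2 = C.f2.a * v.1 + C.f2.b * v.2 + C.f2.c := hx2
        linear_combination (-x3) * q + M * e6 + m3 * M * q'
      have q3 : C.f3.a * (x3 * g0.b - m3 * M * v.1) + C.f3.b * (-(x3 * g0.a) - m3 * M * v.2) +
          C.f3.c * (-(m3 * M)) = 0 := by
        have q : m3 * M = C.f3.a * g0.b - C.f3.b * g0.a := by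
          rw [hm3, hM]
          unfold cpm
          rw [← hM]
          field_simp
        have q' : x3 = C.f3.a * v.1 + C.f3.b * v.2 + C.f3.c := hx3
        linear_combination (-x3) * q + m3 * M * q'
      obtain ⟨r1, r2, r3⟩ := cp_cr C.det q1 q2 q3
      have r4 : m3 * M = 0 := by linarith
      rw [r4] at r1 r2
      have r5 : x3 * g0.b = 0 := by linarith
      have r6 : x3 * g0.a = 0 := by linarith
      rcases g0.h with h | h
      · exact h ((mul_eq_zero.1 r6).resolve_left hv3.ne')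
      · exact h ((mul_eq_zero.1 r5).resolve_left hv3.ne')
    have e7 : 0 < (x1 * m2 - x2 * m1) ^ 2 := by positivity
    rw [← e1] at e7
    exact (mul_pos_iff_of_pos_left (by positivity)).1 e7
  -- the form
  have hQ : ∀ p, 0 < IZ.yv g0 p → r / 2 * (m1 ^ 2 + m2 ^ 2 - m3 ^ 2) * xv g0 v p ^ 2 +
      r * (m1 * n1 + m2 * n2 - m3 * n3) * xv g0 v p + r / 2 * (n1 ^ 2 + n2 ^ 2 - n3 ^ 2) -
        1 / IZ.yv g0 p =
      r / 2 * (C.f1.ev p ^ 2 + C.f2.ev p ^ 2 - C.f3.ev p ^ 2) / IZ.yv g0 p ^ 2 := by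
    intro p hp
    have h1 := hy p
    rw [htg, hal] at h1
    obtain ⟨y, hy'⟩ : ∃ y, y = IZ.yv g0 p := ⟨_, rfl⟩
    obtain ⟨u, hu'⟩ : ∃ y, y = IZ.uv g0 v p := ⟨_, rfl⟩
    unfold xv
    rw [l1, l2, l3, ← hy', ← hu']
    rw [← hy'] at hp h1
    rw [← hu'] at h1
    have h2 : r * (x1 * n1 + x2 * n2 - x3 * n3) = -1 := by
      have h3 : (r * (x1 * n1 + x2 * n2 - x3 * n3)) * y = (-1) * y := by linarith
      exact mul_right_cancel₀ hp.ne' h3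
    field_simp
    linear_combination (-r) * hv2 - 2 * r * u * hal - 2 * y * h2
  refine ⟨r / 2 * (m1 ^ 2 + m2 ^ 2 - m3 ^ 2), r * (m1 * n1 + m2 * n2 - m3 * n3),
    r / 2 * (n1 ^ 2 + n2 ^ 2 - n3 ^ 2), by positivity, ?_, ?_, ?_⟩
  · intro p hp hne
    have h1 := cp_neg C hv' hp.1 hp.2.le hne
    have h2 := hy p
    have h3 : r * tg C v p < 0 := mul_neg_of_pos_of_neg hr h1
    linarith
  · intro p hp
    have hne : p ≠ v := by
      rintro rfl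
      have h4 := hp.2
      rw [← hx1, ← hx2, ← hx3] at h4
      linarith
    have h1 := cp_neg C hv' hp.1 hp.2.le hne
    have h2 := hy p
    have h3 : r * tg C v p < 0 := mul_neg_of_pos_of_neg hr h1
    linarith
  · intro p hp
    have hQp := hQ p hp
    have htn : tg C v p < 0 := by
      have h2 := hy p
      by_contra hcon
      have h3 : 0 ≤ r * tg C v p := mul_nonneg hr.le (not_lt.1 hcon)
      linarith
    have hf3 : C.f1.ev p ^ 2 + C.f2.ev p ^ 2 ≤ C.f3.ev p ^ 2 → 0 < C.f3.ev p := by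
      intro hle
      by_contra hcon
      have h4 := cp_cs hv2 hle
      have h5 : -(x3 * C.f3.ev p) ≥ 0 := by
        have := mul_nonneg hv3.le (by linarith [not_lt.1 hcon] : 0 ≤ -C.f3.ev p)
        linarith
      have h6 : (x1 * C.f1.ev p + x2 * C.f2.ev p) ^ 2 ≤ (-(x3 * C.f3.ev p)) ^ 2 := by
        rw [neg_sq]
        exact h4
      have h7 := abs_le_of_sq_le_sq h6 h5
      have h8 := (abs_le.1 h7).1
      unfold tg at htn
      rw [← hx1, ← hx2, ← hx3] at htn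
      linarith
    have hy2 : 0 < IZ.yv g0 p ^ 2 := by positivity
    have hr2 : 0 < r / 2 := by positivity
    constructor
    · constructor
      · intro h
        have h4 : C.f1.ev p ^ 2 + C.f2.ev p ^ 2 - C.f3.ev p ^ 2 = 0 := by linarith [h.2]
        rw [h4, mul_zero, zero_div] at hQp
        linarith
      · intro h
        have h4 : r / 2 * (C.f1.ev p ^ 2 + C.f2.ev p ^ 2 - C.f3.ev p ^ 2) / IZ.yv g0 p ^ 2 = 0 := by
          rw [← hQp]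
          linarith
        rw [div_eq_zero_iff] at h4
        have h5 := (mul_eq_zero.1 (h4.resolve_right hy2.ne')).resolve_left hr2.ne'
        have h6 : C.f1.ev p ^ 2 + C.f2.ev p ^ 2 = C.f3.ev p ^ 2 := by linarith
        exact ⟨hf3 h6.le, h6⟩
    · constructor
      · intro h
        have h4 : r / 2 * (C.f1.ev p ^ 2 + C.f2.ev p ^ 2 - C.f3.ev p ^ 2) / IZ.yv g0 p ^ 2 < 0 := by
          have h5 : C.f1.ev p ^ 2 + C.f2.ev p ^ 2 - C.f3.ev p ^ 2 < 0 := by linarith [h.2]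
          exact div_neg_of_neg_of_pos (mul_neg_of_pos_of_neg hr2 h5) hy2
        rw [← hQp] at h4
        linarith
      · intro h
        have h4 : r / 2 * (C.f1.ev p ^ 2 + C.f2.ev p ^ 2 - C.f3.ev p ^ 2) / IZ.yv g0 p ^ 2 < 0 := by
          rw [← hQp]
          linarith
        have h5 : C.f1.ev p ^ 2 + C.f2.ev p ^ 2 < C.f3.ev p ^ 2 := by
          by_contra hcon
          have h6 : 0 ≤ C.f1.ev p ^ 2 + C.f2.ev p ^ 2 - C.f3.ev p ^ 2 := by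
            linarith [not_lt.1 hcon]
          have h7 : 0 ≤ r / 2 * (C.f1.ev p ^ 2 + C.f2.ev p ^ 2 - C.f3.ev p ^ 2) /
              IZ.yv g0 p ^ 2 := by positivity
          linarith
        exact ⟨hf3 h5.le, h5⟩

end Pool.Agent.Work.MP_e64a38_co.FF
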