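import Pool.Agent.Work.MP_e64a38_co.FF.PDefs
import Pool.Agent.Work.MP_e64a38_co.IZ.Coord

/-!
# The walls (size M)

Write `al j = IZ.al g0 (h j)`, `be j = IZ.be g0 (h j)`.

`wall_S`: for `j ≠ j0` `(h j).ev x0 < 0`. For `j0`: the lines `g0` and `h j0` have the same points, so
`(h j0).ev = c * g0.ev` for a constant `c` (both are affine forms with the same zeros, `g0` not constant; or: the
point `p` with `uv = u`, `yv = 0` (`IZ.coord_surj`) has `g0.ev p = - yv = 0`, so `(h j0).ev p = 0`, and by `IZ.coord`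
`(h j0).ev p = al j0 * u + 0 + 0`, so `al j0 = 0`); take `p ∈ inn h` (`hP.nonempty`): `(h j0).ev p = be j0 * yv g0 p < 0`
and `yv g0 p > 0` so `be j0 < 0`.

`wall_V`: (1) there is `j` with `(h j).ev x0 = 0` and `al j > 0`: otherwise take the points `p_u` with `uv = u`, `yv = 0`,
`u > 0` small; `(h j).ev p_u = al j * u + (h j).ev x0` (`IZ.coord`), which is `≤ 0` for the sides through `x0`
(`al j ≤ 0`) and, for `u` small, for the others (finitely many, `(h j).ev x0 < 0`). So `p_u ∈ poly h`, `p_u ≠ x0`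
(`uv g0 x0 x0 = 0 ≠ u`) and `g0.ev p_u = 0`: contradiction to `hV`. In the same way (with `u < 0`) there is one with
`al j < 0`. (2) Let `β` be the smallest `- be j / al j` of the `j` with `(h j).ev x0 = 0`, `al j > 0`, and `α` the
largest `- be j / al j` of those with `al j < 0` (`Finset.exists_min_image`, `exists_max_image`). For
`al j = 0`: `be j < 0` (take `p ∈ inn h`, `yv g0 p > 0`, `(h j).ev p = be j * yv g0 p < 0`). So `Wl x` iff
`α ≤ x ≤ β` and `Wls x` iff `α < x < β`. (3) `α < β`: `p ∈ inn h`, `y = yv g0 p > 0`: `Wls (uv g0 x0 p / y)` by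
`IZ.coord`. (4) `two`: both sides of (1) pass through `x0`, and they are different.
-/

set_option autoImplicit false

namespace Pool.Agent.Work.MP_e64a38_co.FF

variable {k : ℕ}

private theorem pw_par {l l' : Ln} (hp : l.pts = l'.pts) : l.a * l'.b = l'.a * l.b := by
  have hN : 0 < l.a ^ 2 + l.b ^ 2 := by
    rcases l.h with h | h
    · have := pow_pos (abs_pos.mpr h) 2
      rw [sq_abs] at this
      nlinarith [sq_nonneg l.b]
    · have := pow_pos (abs_pos.mpr h) 2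
      rw [sq_abs] at this
      nlinarith [sq_nonneg l.a]
  have h1 : ((l.c * l.a / (l.a ^ 2 + l.b ^ 2), l.c * l.b / (l.a ^ 2 + l.b ^ 2)) : ℝ × ℝ) ∈ l.pts := by
    show l.a * (l.c * l.a / (l.a ^ 2 + l.b ^ 2)) + l.b * (l.c * l.b / (l.a ^ 2 + l.b ^ 2)) - l.c = 0
    field_simp
    ring
  have h2 : ((l.c * l.a / (l.a ^ 2 + l.b ^ 2) + l.b, l.c * l.b / (l.a ^ 2 + l.b ^ 2) - l.a) :
      ℝ × ℝ) ∈ l.pts := by
    show l.a * (l.c * l.a / (l.a ^ 2 + l.b ^ 2) + l.b) +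
      l.b * (l.c * l.b / (l.a ^ 2 + l.b ^ 2) - l.a) - l.c = 0
    field_simp
    ring
  rw [hp] at h1 h2
  have h3 : l'.a * (l.c * l.a / (l.a ^ 2 + l.b ^ 2)) + l'.b * (l.c * l.b / (l.a ^ 2 + l.b ^ 2)) -
    l'.c = 0 := h1
  have h4 : l'.a * (l.c * l.a / (l.a ^ 2 + l.b ^ 2) + l.b) +
      l'.b * (l.c * l.b / (l.a ^ 2 + l.b ^ 2) - l.a) - l'.c = 0 := h2
  linarith

private theorem pw_yv {h : Fin k → Ln} {g0 : Ln} (hn : ∀ p ∈ inn h, g0.ev p < 0) {p : ℝ × ℝ}
    (hp : p ∈ inn h) : 0 < IZ.yv g0 p := by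
  unfold IZ.yv
  have := hn p hp
  linarith

theorem wall_S (h : Fin k → Ln) (hP : IsPolygon h) (g0 : Ln) (x0 : ℝ × ℝ) (hg : g0.ev x0 = 0)
    (hn : ∀ p ∈ inn h, g0.ev p < 0) (j0 : Fin k) (hR : IZ.Rel h j0 x0) (hg0 : g0.pts = (h j0).pts) (x : ℝ) :
    Wl h g0 x0 x ∧ Wls h g0 x0 x := by
  obtain ⟨p, hp⟩ := hP.nonempty
  have hy := pw_yv hn hp
  have hal : IZ.al g0 (h j0) = 0 := by
    unfold IZ.al
    rw [pw_par hg0.symm]
    ring
  have hbe : IZ.be g0 (h j0) < 0 := by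
    have h1 := hp j0
    rw [IZ.coord g0 (h j0) x0 p hg, hal, hR.1, zero_mul, zero_add, add_zero] at h1
    by_contra hc
    push Not at hc
    have := mul_nonneg hc hy.le
    linarith
  have hj : ∀ j, (h j).ev x0 = 0 → j = j0 := by
    intro j hj
    by_contra hne
    have := hR.2 j hne
    linarith
  constructor
  · intro j hj0
    rw [hj j hj0, hal]
    linarith
  · intro j hj0
    rw [hj j hj0, hal]
    linarith

private theorem pw_pos (h : Fin k → Ln) (g0 : Ln) (x0 : ℝ × ℝ) (hg : g0.ev x0 = 0)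
    (hx : x0 ∈ poly h) (hV : ∀ p ∈ poly h, p ≠ x0 → g0.ev p < 0) (ε : ℝ) (hε : ε = 1 ∨ ε = -1) :
    ∃ j, (h j).ev x0 = 0 ∧ 0 < ε * IZ.al g0 (h j) := by
  by_contra hcon
  push Not at hcon
  have hev : ∀ᶠ u : ℝ in nhdsWithin 0 (Set.Ioi 0), ∀ j, IZ.al g0 (h j) * (ε * u) + (h j).ev x0 ≤ 0 := by
    rw [Filter.eventually_all]
    intro j
    rcases (hx j).eq_or_lt with h0 | h0
    · have h1 := hcon j h0
      filter_upwards [self_mem_nhdsWithin] with u hu
      have hu' : (0 : ℝ) < u := hu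
      rw [h0]
      have : ε * IZ.al g0 (h j) * u ≤ 0 := mul_nonpos_of_nonpos_of_nonneg h1 hu'.le
      linarith
    · have hc : Continuous fun u : ℝ => IZ.al g0 (h j) * (ε * u) + (h j).ev x0 := by fun_prop
      have h1 : ∀ᶠ u : ℝ in nhds 0, IZ.al g0 (h j) * (ε * u) + (h j).ev x0 < 0 := by
        apply hc.continuousAt.eventually_lt continuousAt_const
        simpa using h0
      filter_upwards [nhdsWithin_le_nhds h1] with u hu
      exact hu.le
  obtain ⟨u, hu1, hu2⟩ := (hev.and self_mem_nhdsWithin).exists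
  have hu0 : (0 : ℝ) < u := hu2
  obtain ⟨p, hp1, hp2⟩ := IZ.coord_surj g0 x0 hg (ε * u) 0
  have hp : p ∈ poly h := by
    intro j
    rw [IZ.coord g0 (h j) x0 p hg, hp1, hp2, mul_zero, add_zero]
    exact hu1 j
  have hne : p ≠ x0 := by
    rintro rfl
    have h1 : IZ.uv g0 p p = 0 := by
      unfold IZ.uv
      ring
    rw [h1] at hp1
    rcases hε with h2 | h2 <;> rw [h2] at hp1 <;> linarith
  have h3 := hV p hp hne
  unfold IZ.yv at hp2
  linarith

theorem wall_V (h : Fin k → Ln) (hP : IsPolygon h) (g0 : Ln) (x0 : ℝ × ℝ) (hg : g0.ev x0 = 0)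
    (hx : x0 ∈ poly h) (hn : ∀ p ∈ inn h, g0.ev p < 0) (hV : ∀ p ∈ poly h, p ≠ x0 → g0.ev p < 0) :
    ∃ α β : ℝ, α < β ∧ (∀ x, Wl h g0 x0 x ↔ α ≤ x ∧ x ≤ β) ∧ (∀ x, Wls h g0 x0 x ↔ α < x ∧ x < β) := by
  classical
  obtain ⟨jp, hjp1, hjp2⟩ := pw_pos h g0 x0 hg hx hV 1 (Or.inl rfl)
  obtain ⟨jm, hjm1, hjm2⟩ := pw_pos h g0 x0 hg hx hV (-1) (Or.inr rfl)
  rw [one_mul] at hjp2
  have hjm2' : IZ.al g0 (h jm) < 0 := by linarith
  set Sp : Finset (Fin k) := Finset.univ.filter (fun j => (h j).ev x0 = 0 ∧ 0 < IZ.al g0 (h j))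
    with hSp
  set Sm : Finset (Fin k) := Finset.univ.filter (fun j => (h j).ev x0 = 0 ∧ IZ.al g0 (h j) < 0)
    with hSm
  have mSp : ∀ j, j ∈ Sp ↔ (h j).ev x0 = 0 ∧ 0 < IZ.al g0 (h j) := by
    intro j; rw [hSp, Finset.mem_filter]; simp
  have mSm : ∀ j, j ∈ Sm ↔ (h j).ev x0 = 0 ∧ IZ.al g0 (h j) < 0 := by
    intro j; rw [hSm, Finset.mem_filter]; simp
  obtain ⟨j1, hj1, hj1'⟩ := Finset.exists_min_image Sp (fun j => -IZ.be g0 (h j) / IZ.al g0 (h j))
    ⟨jp, (mSp jp).mpr ⟨hjp1, hjp2⟩⟩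
  obtain ⟨j2, hj2, hj2'⟩ := Finset.exists_max_image Sm (fun j => -IZ.be g0 (h j) / IZ.al g0 (h j))
    ⟨jm, (mSm jm).mpr ⟨hjm1, hjm2'⟩⟩
  rw [mSp] at hj1
  rw [mSm] at hj2
  obtain ⟨p, hp⟩ := hP.nonempty
  have hy := pw_yv hn hp
  have hzero : ∀ j, (h j).ev x0 = 0 → IZ.al g0 (h j) = 0 → IZ.be g0 (h j) < 0 := by
    intro j h0 h1
    have h2 := hp j
    rw [IZ.coord g0 (h j) x0 p hg, h1, h0, zero_mul, zero_add, add_zero] at h2
    by_contra hc
    push Not at hc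
    have := mul_nonneg hc hy.le
    linarith
  have hWl : ∀ x, Wl h g0 x0 x ↔ -IZ.be g0 (h j2) / IZ.al g0 (h j2) ≤ x ∧
      x ≤ -IZ.be g0 (h j1) / IZ.al g0 (h j1) := by
    intro x
    constructor
    · intro hw
      constructor
      · rw [div_le_iff_of_neg hj2.2]
        have := hw j2 hj2.1
        linarith
      · rw [le_div_iff₀ hj1.2]
        have := hw j1 hj1.1
        linarith
    · rintro ⟨h1, h2⟩ j hj
      rcases lt_trichotomy (IZ.al g0 (h j)) 0 with h3 | h3 | h3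
      · have h4 := hj2' j ((mSm j).mpr ⟨hj, h3⟩)
        have h5 := le_trans h4 h1
        rw [div_le_iff_of_neg h3] at h5
        linarith
      · rw [h3]
        have := hzero j hj h3
        linarith
      · have h4 := hj1' j ((mSp j).mpr ⟨hj, h3⟩)
        have h5 := le_trans h2 h4
        rw [le_div_iff₀ h3] at h5
        linarith
  have hWls : ∀ x, Wls h g0 x0 x ↔ -IZ.be g0 (h j2) / IZ.al g0 (h j2) < x ∧
      x < -IZ.be g0 (h j1) / IZ.al g0 (h j1) := by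
    intro x
    constructor
    · intro hw
      constructor
      · rw [div_lt_iff_of_neg hj2.2]
        have := hw j2 hj2.1
        linarith
      · rw [lt_div_iff₀ hj1.2]
        have := hw j1 hj1.1
        linarith
    · rintro ⟨h1, h2⟩ j hj
      rcases lt_trichotomy (IZ.al g0 (h j)) 0 with h3 | h3 | h3
      · have h4 := hj2' j ((mSm j).mpr ⟨hj, h3⟩)
        have h5 := lt_of_le_of_lt h4 h1
        rw [div_lt_iff_of_neg h3] at h5
        linarith
      · rw [h3]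
        have := hzero j hj h3
        linarith
      · have h4 := hj1' j ((mSp j).mpr ⟨hj, h3⟩)
        have h5 := lt_of_lt_of_le h2 h4
        rw [lt_div_iff₀ h3] at h5
        linarith
  refine ⟨_, _, ?_, hWl, hWls⟩
  have hw : Wls h g0 x0 (IZ.uv g0 x0 p / IZ.yv g0 p) := by
    intro j hj
    have h1 := hp j
    rw [IZ.coord g0 (h j) x0 p hg, hj, add_zero] at h1
    have h2 : IZ.al g0 (h j) * (IZ.uv g0 x0 p / IZ.yv g0 p) + IZ.be g0 (h j) =
        (IZ.al g0 (h j) * IZ.uv g0 x0 p + IZ.be g0 (h j) * IZ.yv g0 p) / IZ.yv g0 p := by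
      field_simp
    rw [h2]
    exact div_neg_of_neg_of_pos h1 hy
  have := (hWls _).mp hw
  exact this.1.trans this.2

theorem wall_two (h : Fin k → Ln) (g0 : Ln) (x0 : ℝ × ℝ) (hg : g0.ev x0 = 0)
    (hx : x0 ∈ poly h) (hV : ∀ p ∈ poly h, p ≠ x0 → g0.ev p < 0) (j : Fin k) : ¬ IZ.Rel h j x0 := by
  intro hR
  obtain ⟨jp, hjp1, hjp2⟩ := pw_pos h g0 x0 hg hx hV 1 (Or.inl rfl)
  obtain ⟨jm, hjm1, hjm2⟩ := pw_pos h g0 x0 hg hx hV (-1) (Or.inr rfl)
  have hj : ∀ j', (h j').ev x0 = 0 → j' = j := by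
    intro j' hj'
    by_contra hne
    have := hR.2 j' hne
    linarith
  rw [hj jp hjp1] at hjp2
  rw [hj jm hjm1] at hjm2
  linarith

end Pool.Agent.Work.MP_e64a38_co.FF
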