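import Pool.Agent.Work.MP_e64a38_co.FF.CTan
import Pool.Agent.Work.MP_e64a38_co.FF.CPar
import Pool.Agent.Work.MP_e64a38_co.FF.CChord
import Pool.Agent.Work.MP_e64a38_co.FF.CExc
import Pool.Agent.Work.MP_e64a38_co.FF.PWall

/-!
# Polygons circumscribed about a conic (size S-M)

Frame. `k ≥ 1` (for `k = 0` the set `poly h` is the whole plane, not bounded). Take any side `j0` and
`x0 ∈ side h j0`, `x0 ∈ C.crv` (`hC.2 j0`). For every `i`: `(h i).ev p ≤ 0` for `p ∈ C.inn` (`hC.1`). If `i ≠ j0` and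
`(h i).ev x0 = 0` then by `tg_sup` both `(h i).ev` and `(h j0).ev` are positive multiples of `tg C x0`, so
`(h i).pts = (h j0).pts`, which contradicts `hP.ne`. So `IZ.Rel h j0 x0` (`x0 ∈ poly h`). With `g0 = h j0`:
`Frame h g0 x0` (second alternative; `inn h` is negative by definition). `tg_sup` for `g0` gives `r`, `par_frame` gives
`A`, `B`, `D`.
Sides. Let `(h j).ev x0 ≠ 0`, so `j ≠ j0` and `(h j).ev x0 < 0`. `hC.2 j`: `T_j ∈ side h j`, `T_j ∈ C.crv`, `T_j ≠ x0`, so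
`0 < yv g0 T_j` (`ParF`). `P j = N j = xv T_j`; `tan_sl` gives `sl`, `ct`. `hov`: `le_total`.
`hab`: every `x` hits a side: `fs_ex`, `hit_iff`, `wall_S`. For `W` take `β = |W| + ∑ j, |P j|`, `α = -β`.
Then `pfl_exc`.
-/

set_option autoImplicit false

namespace Pool.Agent.Work.MP_e64a38_co.FF

variable {k : ℕ}

theorem cir_main (C : CZ.Con) (h : Fin k → Ln) (hP : IsPolygon h) (hC : Circ C h) :
    ∃ (g0 : Ln) (x0 : ℝ × ℝ), Frame h g0 x0 ∧
      ∀ ε : ℝ, (ε = 1 ∨ ε = -1) → ∀ K : ℝ, 4 ≤ K → ∀ Z : Finset ℝ, ¬ PFl ε K Z h g0 x0 := by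
  classical
  -- a side
  obtain ⟨j0⟩ : Nonempty (Fin k) := by
    obtain ⟨q, hq⟩ := hP.nonempty
    obtain ⟨F, ψ, hF⟩ := fs_ex h hP ⟨1, 0, 0, Or.inl one_ne_zero⟩ q (fun j => (hq j).le)
    obtain ⟨j, -⟩ := hF.1 0
    exact ⟨j⟩
  choose T hT hTc using hC.2
  have hx0 : (h j0).ev (T j0) = 0 := (hT j0).1
  have hxp : T j0 ∈ poly h := (hT j0).2
  have hle : ∀ j, ∀ p ∈ C.inn, (h j).ev p ≤ 0 := fun j p hp => (hC.1 hp j).le
  obtain ⟨r, hr, hrt⟩ := tg_sup C (hTc j0) (h j0) hx0 (hle j0)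
  have hne : ∀ i, i ≠ j0 → (h i).ev (T j0) ≠ 0 := by
    intro i hi h0
    obtain ⟨r', hr', hrt'⟩ := tg_sup C (hTc j0) (h i) h0 (hle i)
    apply hP.ne i j0 hi
    ext p
    show (h i).ev p = 0 ↔ (h j0).ev p = 0
    rw [hrt, hrt']
    constructor
    · intro h1
      rw [(mul_eq_zero.1 h1).resolve_left hr'.ne', mul_zero]
    · intro h1
      rw [(mul_eq_zero.1 h1).resolve_left hr.ne', mul_zero]
  have hR : IZ.Rel h j0 (T j0) := ⟨hx0, fun j hj => lt_of_le_of_ne (hxp j) (hne j hj)⟩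
  have hn : ∀ p ∈ inn h, (h j0).ev p < 0 := fun p hp => hp j0
  obtain ⟨A, B, D, hpar⟩ := par_frame C (hTc j0) (h j0) r hr hrt
  refine ⟨h j0, T j0, ⟨hx0, hxp, hn, Or.inr ⟨j0, hR, rfl⟩⟩, ?_⟩
  intro ε hε K hK Z
  have hneg : ∀ j, (h j).ev (T j0) ≠ 0 → (h j).ev (T j0) < 0 := fun j hj =>
    lt_of_le_of_ne (hxp j) hj
  have hTne : ∀ j, (h j).ev (T j0) ≠ 0 → T j ≠ T j0 := by
    intro j hj he
    apply hj
    rw [← he]
    exact (hT j).1
  have hTy : ∀ j, (h j).ev (T j0) ≠ 0 → 0 < IZ.yv (h j0) (T j) := fun j hj =>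
    hpar.2.1 (T j) (hTc j) (hTne j hj)
  have htan := fun j (hj : (h j).ev (T j0) ≠ 0) =>
    tan_sl C (h j0) (T j0) hx0 A B D hpar (h j) (hneg j hj) (T j) (hTc j) (hTy j hj) (hT j).1
      (hle j)
  refine pfl_exc h hP (h j0) (T j0) hx0 hxp A B D hpar.1 (fun j => xv (h j0) (T j0) (T j))
    (fun j => xv (h j0) (T j0) (T j)) (fun j _ => le_rfl) (fun j hj => (htan j hj).1)
    (fun j hj => (htan j hj).2) (fun i j _ _ _ => le_total _ _) ?_ ε hε K hK Z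
  intro W
  obtain ⟨β, hβ⟩ : ∃ β : ℝ, β = |W| + ∑ j, |xv (h j0) (T j0) (T j)| := ⟨_, rfl⟩
  have hsum : 0 ≤ ∑ j, |xv (h j0) (T j0) (T j)| := Finset.sum_nonneg fun _ _ => abs_nonneg _
  refine ⟨-β, β, ?_, ?_, ?_⟩
  · intro j _
    have h1 : |xv (h j0) (T j0) (T j)| ≤ ∑ j, |xv (h j0) (T j0) (T j)| :=
      Finset.single_le_sum (f := fun j => |xv (h j0) (T j0) (T j)|)
        (fun _ _ => abs_nonneg _) (Finset.mem_univ j)
    have h2 : |xv (h j0) (T j0) (T j)| ≤ β := by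
      have := abs_nonneg W
      linarith
    exact abs_le.1 h2
  · intro x hx _
    have h2 : |x| ≤ β := by
      have := le_abs_self W
      linarith
    exact abs_le.1 h2
  · intro x _ _
    obtain ⟨F, ψ, hF⟩ := fs_ex h hP (h j0) (T j0) hxp
    exact (hit_iff h hP (h j0) (T j0) F ψ hF hx0 hxp x).2
      (wall_S h hP (h j0) (T j0) hx0 hn j0 hR rfl x).1

end Pool.Agent.Work.MP_e64a38_co.FF
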