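import Pool.Agent.Work.MP_e64a38_co.FF.PEpi
import Pool.Agent.Work.MP_e64a38_co.FF.PEx
import Pool.Agent.Work.MP_e64a38_co.FF.PWall

/-!
# From the flattening of `F` to the flattening of the polygon (size S-M)

`flt_R`: let `x0, .., x4` be the abscissas of `FltB N Z α β ψ`. `x1, .., x4` are in `[α, β]`, so `Wl` holds; by `FS` there
is for every `x i` a side `j i` with `F (x i) = sl * x i + ct`, `ψ (x i) = sl`, `(h (j i)).ev x0 ≠ 0`; `Hit` by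
`hit_act`. For `x0`: if `α ≤ x0` the same; if `x0 < α` then not `Wl`, so no `Hit` (`hit_iff`).
`flt_L`: `t i = - x i`, so `(-1) * t i = x i`, and `mr ψ (x i) = - ψ (- x i) = (-1) * ψ (t i)`; `- β ≤ x1`, `x4 ≤ - α`
give `t i ∈ [α, β]` for `i = 1, .., 4`; the first alternative `- β ≤ x0` means `t0 ≤ β` (and `t0 ≥ t1 ≥ α`).
`z ∈ Z`: `- z ∈ mZ Z`.
`flt_SR`: `-W ≤ x0`: all `Wl` hold, as in `flt_R` with `α = -W`, `β = W` (first part). `x0 < -W`: contradiction: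
`ψ x2 - ψ x1 > 0` (it is at least `N ^ 2 (ψ x4 - ψ x3) > 0`), so `x2 > - W0` (otherwise `ψ x1 = ψ x2 = m`);
`L1 = x1 - x0`, `L2 = x2 - x1`, `L3 = x3 - x2`: `L1 + L2 = x2 - x0 > W - W0`, `L1 ≤ L2 / 32`, so
`L2 ≥ (32 / 33) (W - W0)`, `L3 ≥ 32 L2 ≥ 31 (W - W0)`, `x3 > - W0 + 31 (W - W0) ≥ W` because `W ≥ 3 W0 + 1`. But
`x3 < x4 ≤ W`.
`flt_SL`: the same for the mirror image (`mr ψ` is constant on `(-∞, -W0]` and on `[W0, ∞)`).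
-/

set_option autoImplicit false

namespace Pool.Agent.Work.MP_e64a38_co.FF

variable {k : ℕ}

private theorem pfl_core (h : Fin k → Ln) (hP : IsPolygon h) (g0 : Ln) (x0 : ℝ × ℝ)
    (hg : g0.ev x0 = 0) (hx : x0 ∈ poly h) (F ψ : ℝ → ℝ) (hF : FS h g0 x0 F ψ) (ε N : ℝ)
    (Z : Finset ℝ) (t0 t1 t2 t3 t4 : ℝ) (o1 : ε * t0 < ε * t1) (o2 : ε * t1 < ε * t2)
    (o3 : ε * t2 < ε * t3) (o4 : ε * t3 < ε * t4)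
    (hZ : ∀ z ∈ Z, ε * z ≤ ε * t0 ∨ ε * t4 ≤ ε * z)
    (l1 : N * (ε * (t1 - t0)) ≤ ε * (t2 - t1)) (l2 : N * (ε * (t2 - t1)) ≤ ε * (t3 - t2))
    (l3 : N * (ε * (t3 - t2)) ≤ ε * (t4 - t3))
    (w1 : Wl h g0 x0 t1) (w2 : Wl h g0 x0 t2) (w3 : Wl h g0 x0 t3) (w4 : Wl h g0 x0 t4)
    (p4 : 0 < ε * (ψ t4 - ψ t3)) (p3 : N * (ε * (ψ t4 - ψ t3)) ≤ ε * (ψ t3 - ψ t2))
    (p2 : N * (ε * (ψ t3 - ψ t2)) ≤ ε * (ψ t2 - ψ t1))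
    (p1 : Wl h g0 x0 t0 → N * (ε * (ψ t2 - ψ t1)) ≤ ε * (ψ t1 - ψ t0)) :
    PFl ε N Z h g0 x0 := by
  obtain ⟨j0, a0, b0, c0⟩ := hF.1 t0
  obtain ⟨j1, a1, b1, c1⟩ := hF.1 t1
  obtain ⟨j2, a2, b2, c2⟩ := hF.1 t2
  obtain ⟨j3, a3, b3, c3⟩ := hF.1 t3
  obtain ⟨j4, a4, b4, c4⟩ := hF.1 t4
  rw [c4, c3] at p4 p3
  rw [c2] at p3
  rw [c3, c2, c1] at p2
  rw [c2, c1, c0] at p1
  refine ⟨t0, t1, t2, t3, t4, j1, j2, j3, j4, o1, o2, o3, o4, hZ, l1, l2, l3,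
    ⟨a1, hit_act h hP g0 x0 F ψ hF hg hx t1 w1 j1 a1 b1⟩,
    ⟨a2, hit_act h hP g0 x0 F ψ hF hg hx t2 w2 j2 a2 b2⟩,
    ⟨a3, hit_act h hP g0 x0 F ψ hF hg hx t3 w3 j3 a3 b3⟩,
    ⟨a4, hit_act h hP g0 x0 F ψ hF hg hx t4 w4 j4 a4 b4⟩, p4, p3, p2, ?_⟩
  by_cases hw : Wl h g0 x0 t0
  · left
    exact ⟨j0, a0, hit_act h hP g0 x0 F ψ hF hg hx t0 hw j0 a0 b0, p1 hw⟩
  · right
    rw [hit_iff h hP g0 x0 F ψ hF hg hx t0]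
    exact hw

private theorem pfl_R (h : Fin k → Ln) (hP : IsPolygon h) (g0 : Ln) (x0 : ℝ × ℝ)
    (hg : g0.ev x0 = 0) (hx : x0 ∈ poly h) (F ψ : ℝ → ℝ) (hF : FS h g0 x0 F ψ) (N : ℝ)
    (Z : Finset ℝ) (t0 t1 t2 t3 t4 : ℝ) (o1 : t0 < t1) (o2 : t1 < t2)
    (o3 : t2 < t3) (o4 : t3 < t4) (hZ : ∀ z ∈ Z, z ≤ t0 ∨ t4 ≤ z)
    (l1 : N * (t1 - t0) ≤ t2 - t1) (l2 : N * (t2 - t1) ≤ t3 - t2)
    (l3 : N * (t3 - t2) ≤ t4 - t3)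
    (w1 : Wl h g0 x0 t1) (w2 : Wl h g0 x0 t2) (w3 : Wl h g0 x0 t3) (w4 : Wl h g0 x0 t4)
    (p4 : 0 < ψ t4 - ψ t3) (p3 : N * (ψ t4 - ψ t3) ≤ ψ t3 - ψ t2)
    (p2 : N * (ψ t3 - ψ t2) ≤ ψ t2 - ψ t1)
    (p1 : Wl h g0 x0 t0 → N * (ψ t2 - ψ t1) ≤ ψ t1 - ψ t0) :
    PFl 1 N Z h g0 x0 := by
  refine pfl_core h hP g0 x0 hg hx F ψ hF 1 N Z t0 t1 t2 t3 t4 ?_ ?_ ?_ ?_ ?_ ?_ ?_ ?_ w1 w2 w3 w4
    ?_ ?_ ?_ ?_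
  all_goals simp only [one_mul]
  all_goals assumption

private theorem pfl_L (h : Fin k → Ln) (hP : IsPolygon h) (g0 : Ln) (x0 : ℝ × ℝ)
    (hg : g0.ev x0 = 0) (hx : x0 ∈ poly h) (F ψ : ℝ → ℝ) (hF : FS h g0 x0 F ψ) (N : ℝ)
    (Z : Finset ℝ) (t0 t1 t2 t3 t4 : ℝ) (o1 : t0 < t1) (o2 : t1 < t2)
    (o3 : t2 < t3) (o4 : t3 < t4) (hZ : ∀ z ∈ mZ Z, z ≤ t0 ∨ t4 ≤ z)
    (l1 : N * (t1 - t0) ≤ t2 - t1) (l2 : N * (t2 - t1) ≤ t3 - t2)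
    (l3 : N * (t3 - t2) ≤ t4 - t3)
    (w1 : Wl h g0 x0 (-t1)) (w2 : Wl h g0 x0 (-t2)) (w3 : Wl h g0 x0 (-t3))
    (w4 : Wl h g0 x0 (-t4))
    (p4 : 0 < mr ψ t4 - mr ψ t3) (p3 : N * (mr ψ t4 - mr ψ t3) ≤ mr ψ t3 - mr ψ t2)
    (p2 : N * (mr ψ t3 - mr ψ t2) ≤ mr ψ t2 - mr ψ t1)
    (p1 : Wl h g0 x0 (-t0) → N * (mr ψ t2 - mr ψ t1) ≤ mr ψ t1 - mr ψ t0) :
    PFl (-1) N Z h g0 x0 := by
  have hm : ∀ a b, mr ψ a - mr ψ b = -1 * (ψ (-a) - ψ (-b)) := by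
    intro a b
    unfold mr
    ring
  have hd : ∀ a b : ℝ, a - b = -1 * (-a - -b) := by
    intro a b
    ring
  have hs : ∀ a : ℝ, a = -1 * -a := by
    intro a
    ring
  refine pfl_core h hP g0 x0 hg hx F ψ hF (-1) N Z (-t0) (-t1) (-t2) (-t3) (-t4) ?_ ?_ ?_ ?_ ?_
    ?_ ?_ ?_ w1 w2 w3 w4 ?_ ?_ ?_ ?_
  · rw [← hs, ← hs]
    exact o1
  · rw [← hs, ← hs]
    exact o2
  · rw [← hs, ← hs]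
    exact o3
  · rw [← hs, ← hs]
    exact o4
  · intro z hz
    have h1 : -z ∈ mZ Z := Finset.mem_image_of_mem _ hz
    rcases hZ _ h1 with h2 | h2
    · left
      linarith
    · right
      linarith
  · rw [← hd, ← hd]
    exact l1
  · rw [← hd, ← hd]
    exact l2
  · rw [← hd, ← hd]
    exact l3
  · rw [← hm]
    exact p4
  · rw [← hm, ← hm]
    exact p3
  · rw [← hm, ← hm]
    exact p2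
  · rw [← hm, ← hm]
    exact p1

private theorem flt_first (ψ : ℝ → ℝ) (W0 m W N : ℝ) (h0 : 0 ≤ W0)
    (hm : ∀ x, x ≤ -W0 → ψ x = m) (hN : 32 ≤ N) (hW : 3 * W0 + 1 ≤ W) (x0 x1 x2 x3 x4 : ℝ)
    (o1 : x0 < x1) (o2 : x1 < x2) (o4 : x3 < x4) (hx4 : x4 ≤ W)
    (l1 : N * (x1 - x0) ≤ x2 - x1) (l2 : N * (x2 - x1) ≤ x3 - x2)
    (p4 : 0 < ψ x4 - ψ x3) (p3 : N * (ψ x4 - ψ x3) ≤ ψ x3 - ψ x2)
    (p2 : N * (ψ x3 - ψ x2) ≤ ψ x2 - ψ x1) : -W ≤ x0 := by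
  by_contra hc
  have hc' := not_le.1 hc
  have q3 : 0 < ψ x3 - ψ x2 := lt_of_lt_of_le (mul_pos (by linarith) p4) p3
  have q2 : 0 < ψ x2 - ψ x1 := lt_of_lt_of_le (mul_pos (by linarith) q3) p2
  have h2 : -W0 < x2 := by
    by_contra h3
    have h4 := not_lt.1 h3
    have h5 := hm x2 h4
    have h6 := hm x1 (by linarith)
    linarith
  have m1 : 32 * (x1 - x0) ≤ x2 - x1 :=
    le_trans (mul_le_mul_of_nonneg_right hN (by linarith)) l1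
  have m2 : 32 * (x2 - x1) ≤ x3 - x2 :=
    le_trans (mul_le_mul_of_nonneg_right hN (by linarith)) l2
  linarith

theorem flt_R (h : Fin k → Ln) (hP : IsPolygon h) (g0 : Ln) (x0 : ℝ × ℝ) (hg : g0.ev x0 = 0)
    (hx : x0 ∈ poly h) (F ψ : ℝ → ℝ) (hF : FS h g0 x0 F ψ) (α β : ℝ)
    (hw : ∀ x, Wl h g0 x0 x ↔ α ≤ x ∧ x ≤ β) (N : ℝ) (Z : Finset ℝ) (h1 : FltB N Z α β ψ) :
    PFl 1 N Z h g0 x0 := by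
  obtain ⟨t0, t1, t2, t3, t4, o1, o2, o3, o4, hα, hβ, hZ, l1, l2, l3, p4, p3, p2, p1⟩ := h1
  refine pfl_R h hP g0 x0 hg hx F ψ hF N Z t0 t1 t2 t3 t4 o1 o2 o3 o4 hZ l1 l2 l3
    ((hw _).2 ⟨by linarith, by linarith⟩) ((hw _).2 ⟨by linarith, by linarith⟩)
    ((hw _).2 ⟨by linarith, by linarith⟩) ((hw _).2 ⟨by linarith, by linarith⟩) p4 p3 p2 ?_
  intro h2
  exact p1 ((hw _).1 h2).1

theorem flt_L (h : Fin k → Ln) (hP : IsPolygon h) (g0 : Ln) (x0 : ℝ × ℝ) (hg : g0.ev x0 = 0)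
    (hx : x0 ∈ poly h) (F ψ : ℝ → ℝ) (hF : FS h g0 x0 F ψ) (α β : ℝ)
    (hw : ∀ x, Wl h g0 x0 x ↔ α ≤ x ∧ x ≤ β) (N : ℝ) (Z : Finset ℝ)
    (h1 : FltB N (mZ Z) (-β) (-α) (mr ψ)) : PFl (-1) N Z h g0 x0 := by
  obtain ⟨t0, t1, t2, t3, t4, o1, o2, o3, o4, hα, hβ, hZ, l1, l2, l3, p4, p3, p2, p1⟩ := h1
  refine pfl_L h hP g0 x0 hg hx F ψ hF N Z t0 t1 t2 t3 t4 o1 o2 o3 o4 hZ l1 l2 l3
    ((hw _).2 ⟨by linarith, by linarith⟩) ((hw _).2 ⟨by linarith, by linarith⟩)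
    ((hw _).2 ⟨by linarith, by linarith⟩) ((hw _).2 ⟨by linarith, by linarith⟩) p4 p3 p2 ?_
  intro h2
  have h3 := ((hw _).1 h2).2
  exact p1 (by linarith)

theorem flt_SR (h : Fin k → Ln) (hP : IsPolygon h) (g0 : Ln) (x0 : ℝ × ℝ) (hg : g0.ev x0 = 0)
    (hx : x0 ∈ poly h) (F ψ : ℝ → ℝ) (hF : FS h g0 x0 F ψ) (hw : ∀ x, Wl h g0 x0 x)
    (W0 m M : ℝ) (h0 : 0 ≤ W0) (hM : ∀ x, W0 ≤ x → ψ x = M) (hmm : ∀ x, x ≤ -W0 → ψ x = m)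
    (N : ℝ) (hN : 32 ≤ N) (Z : Finset ℝ) (W : ℝ) (hW : 3 * W0 + 1 ≤ W) (h1 : FltB N Z (-W) W ψ) :
    PFl 1 N Z h g0 x0 := by
  obtain ⟨t0, t1, t2, t3, t4, o1, o2, o3, o4, hα, hβ, hZ, l1, l2, l3, p4, p3, p2, p1⟩ := h1
  refine pfl_R h hP g0 x0 hg hx F ψ hF N Z t0 t1 t2 t3 t4 o1 o2 o3 o4 hZ l1 l2 l3
    (hw _) (hw _) (hw _) (hw _) p4 p3 p2 ?_
  intro _
  exact p1 (flt_first ψ W0 m W N h0 hmm hN hW t0 t1 t2 t3 t4 o1 o2 o4 hβ l1 l2 p4 p3 p2)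

theorem flt_SL (h : Fin k → Ln) (hP : IsPolygon h) (g0 : Ln) (x0 : ℝ × ℝ) (hg : g0.ev x0 = 0)
    (hx : x0 ∈ poly h) (F ψ : ℝ → ℝ) (hF : FS h g0 x0 F ψ) (hw : ∀ x, Wl h g0 x0 x)
    (W0 m M : ℝ) (h0 : 0 ≤ W0) (hM : ∀ x, W0 ≤ x → ψ x = M) (hmm : ∀ x, x ≤ -W0 → ψ x = m)
    (N : ℝ) (hN : 32 ≤ N) (Z : Finset ℝ) (W : ℝ) (hW : 3 * W0 + 1 ≤ W)
    (h1 : FltB N (mZ Z) (-W) W (mr ψ)) : PFl (-1) N Z h g0 x0 := by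
  obtain ⟨t0, t1, t2, t3, t4, o1, o2, o3, o4, hα, hβ, hZ, l1, l2, l3, p4, p3, p2, p1⟩ := h1
  refine pfl_L h hP g0 x0 hg hx F ψ hF N Z t0 t1 t2 t3 t4 o1 o2 o3 o4 hZ l1 l2 l3
    (hw _) (hw _) (hw _) (hw _) p4 p3 p2 ?_
  intro _
  refine p1 (flt_first (mr ψ) W0 (-M) W N h0 ?_ hN hW t0 t1 t2 t3 t4 o1 o2 o4 hβ l1 l2 p4 p3 p2)
  intro x hx'
  unfold mr
  rw [hM (-x) (by linarith)]

end Pool.Agent.Work.MP_e64a38_co.FF
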