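import Pool.Agent.Work.MP_e64a38_co.FF.PDefs

/-!
# Moving the lines away from `x0` (size M)

Let `l' i` be the line with the same `a`, `b` and with `c + t` instead of `c`, `t > 0` small: `(l' i).ev p = (l i).ev p - t`.
All conditions below hold for all sufficiently small `t > 0` (use `∀ᶠ t in 𝓝[>] 0`, finitely many conditions:
`Filter.eventually_all`, `s : Fin n → Bool` and `i : Fin n` range over finite types).
(1) `(l' i).ev x0 ≠ 0`: if `(l i).ev x0 = 0` the value is `- t`, otherwise by continuity.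
(2) `l'` is injective on points: for `i ≠ j` let `(l i).pts ≠ (l j).pts`. If `(l' i).pts = (l' j).pts` then
`(a j, b j, c j + t) = r (a i, b i, c i + t)` for some `r ≠ 0` (two affine forms with the same zero line are
proportional). If `a i b j ≠ a j b i` this is impossible. Otherwise `r` is determined by the direction (independent of
`t`), and `c j + t = r (c i + t)`: if `r = 1` then `c j = c i` and the lines `l i`, `l j` are equal; if `r ≠ 1` this
holds for one `t` only.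
(3) If `(l i).ev p = 0` then the point `p_t = p + t (a, b) / (a ^ 2 + b ^ 2)` satisfies `(l' i).ev p_t = 0`. If
`p ∈ inn h` then `p_t ∈ inn h` for small `t`; if `0 < sb (s j) * (l j).ev p` then
`0 < sb (s j) * (l' j).ev p_t` for small `t` (continuity in `t`). This gives `hm'` and the edges (a witness `p` for
every pair `(s, i)` with `EdgG l h s i`).
(4) `ZonG`: the witness `p` of the cell and the witness `T` of `Sup` (with the same `j`) stay, because their conditions on
the lines are strict.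
-/

set_option autoImplicit false

namespace Pool.Agent.Work.MP_e64a38_co.FF

variable {n k : ℕ}

private noncomputable def mv (l : Fin n → Ln) (t : ℝ) (i : Fin n) : Ln :=
  ⟨(l i).a, (l i).b, (l i).c + t, (l i).h⟩

private theorem mv_ev (l : Fin n → Ln) (t : ℝ) (i : Fin n) (p : ℝ × ℝ) :
    (mv l t i).ev p = (l i).ev p - t := by
  unfold mv Ln.ev
  ring

private theorem pp_N (l : Ln) : 0 < l.a ^ 2 + l.b ^ 2 := by
  rcases l.h with h | h
  · have := pow_pos (abs_pos.mpr h) 2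
    rw [sq_abs] at this
    nlinarith [sq_nonneg l.b]
  · have := pow_pos (abs_pos.mpr h) 2
    rw [sq_abs] at this
    nlinarith [sq_nonneg l.a]

private theorem pp_par {l l' : Ln} (hp : l.pts = l'.pts) :
    l.a * l'.b = l'.a * l.b ∧ l.a * l'.c = l'.a * l.c ∧ l.b * l'.c = l'.b * l.c := by
  have hN := pp_N l
  have h1 : ((l.c * l.a / (l.a ^ 2 + l.b ^ 2), l.c * l.b / (l.a ^ 2 + l.b ^ 2)) : ℝ × ℝ) ∈ l.pts := by
    show l.a * (l.c * l.a / (l.a ^ 2 + l.b ^ 2)) + l.b * (l.c * l.b / (l.a ^ 2 + l.b ^ 2)) - l.c = 0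
    field_simp
    ring
  have h2 : ((l.c * l.a / (l.a ^ 2 + l.b ^ 2) + l.b, l.c * l.b / (l.a ^ 2 + l.b ^ 2) - l.a) :
      ℝ × ℝ) ∈ l.pts := by
    show l.a * (l.c * l.a / (l.a ^ 2 + l.b ^ 2) + l.b) +
      l.b * (l.c * l.b / (l.a ^ 2 + l.b ^ 2) - l.a) - l.c = 0
    field_simp
    ring
  rw [hp] at h1 h2
  have h3 : l'.a * (l.c * l.a / (l.a ^ 2 + l.b ^ 2)) + l'.b * (l.c * l.b / (l.a ^ 2 + l.b ^ 2)) -
    l'.c = 0 := h1
  have h4 : l'.a * (l.c * l.a / (l.a ^ 2 + l.b ^ 2) + l.b) +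
      l'.b * (l.c * l.b / (l.a ^ 2 + l.b ^ 2) - l.a) - l'.c = 0 := h2
  have h5 : l.a * l'.b = l'.a * l.b := by linarith
  have h6 : l'.a * (l.c * l.a) + l'.b * (l.c * l.b) = l'.c * (l.a ^ 2 + l.b ^ 2) := by
    have h7 : l'.a * (l.c * l.a / (l.a ^ 2 + l.b ^ 2)) +
        l'.b * (l.c * l.b / (l.a ^ 2 + l.b ^ 2)) =
        (l'.a * (l.c * l.a) + l'.b * (l.c * l.b)) / (l.a ^ 2 + l.b ^ 2) := by ring
    rw [h7, sub_eq_zero, div_eq_iff hN.ne'] at h3
    exact h3
  refine ⟨h5, ?_, ?_⟩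
  · have : (l.a ^ 2 + l.b ^ 2) * (l.a * l'.c - l'.a * l.c) = 0 := by
      linear_combination (-l.a) * h6 + l.b * l.c * h5
    rcases mul_eq_zero.mp this with h | h
    · exact absurd h hN.ne'
    · linarith
  · have : (l.a ^ 2 + l.b ^ 2) * (l.b * l'.c - l'.b * l.c) = 0 := by
      linear_combination (-l.b) * h6 - l.a * l.c * h5
    rcases mul_eq_zero.mp this with h | h
    · exact absurd h hN.ne'
    · linarith

private theorem pp_eq (l : Fin n → Ln) {i j : Fin n} {t t' : ℝ} (ht : t ≠ t')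
    (h1 : (mv l t i).pts = (mv l t j).pts) (h2 : (mv l t' i).pts = (mv l t' j).pts) :
    (l i).pts = (l j).pts := by
  obtain ⟨-, a2, a3⟩ := pp_par h1
  obtain ⟨-, b2, b3⟩ := pp_par h2
  simp only [mv] at a2 a3 b2 b3
  have hs : t - t' ≠ 0 := sub_ne_zero.mpr ht
  have ha : (l i).a = (l j).a := by
    have : ((l i).a - (l j).a) * (t - t') = 0 := by linear_combination a2 - b2
    rcases mul_eq_zero.mp this with h | h
    · linarith
    · exact absurd h hs
  have hb : (l i).b = (l j).b := by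
    have : ((l i).b - (l j).b) * (t - t') = 0 := by linear_combination a3 - b3
    rcases mul_eq_zero.mp this with h | h
    · linarith
    · exact absurd h hs
  have hc : (l i).c = (l j).c := by
    rw [← ha] at a2
    rw [← hb] at a3
    rcases (l i).h with h | h
    · have := mul_left_cancel₀ h a2
      linarith
    · have := mul_left_cancel₀ h a3
      linarith
  ext p
  show (l i).ev p = 0 ↔ (l j).ev p = 0
  unfold Ln.ev
  rw [ha, hb, hc]

private theorem pp_ne (t0 : ℝ) : ∀ᶠ t : ℝ in nhdsWithin 0 (Set.Ioi 0), t ≠ t0 := by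
  rcases le_or_gt t0 0 with h | h
  · filter_upwards [self_mem_nhdsWithin] with t ht
    have ht' : (0 : ℝ) < t := ht
    exact (lt_of_le_of_lt h ht').ne'
  · filter_upwards [Ioo_mem_nhdsGT h] with t ht
    exact ht.2.ne

private theorem pp_lt (m : Ln) (p v : ℝ × ℝ) (e : ℝ) (h : m.ev p < 0) :
    ∀ᶠ t : ℝ in nhdsWithin 0 (Set.Ioi 0), m.ev (p + t • v) - t * e < 0 := by
  have hc : Continuous fun t : ℝ => m.ev (p + t • v) - t * e := by
    unfold Ln.ev
    fun_prop
  apply nhdsWithin_le_nhds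
  apply hc.continuousAt.eventually_lt continuousAt_const
  simpa using h

private theorem pp_sb (m : Ln) (p v : ℝ × ℝ) (s : Bool) (h : 0 < sb s * m.ev p) :
    ∀ᶠ t : ℝ in nhdsWithin 0 (Set.Ioi 0), 0 < sb s * (m.ev (p + t • v) - t) := by
  have hc : Continuous fun t : ℝ => sb s * (m.ev (p + t • v) - t) := by
    unfold Ln.ev
    fun_prop
  apply nhdsWithin_le_nhds
  apply continuousAt_const.eventually_lt hc.continuousAt
  simpa using h

private theorem pp_dir (l : Ln) (p : ℝ × ℝ) (t : ℝ) (h : l.ev p = 0) :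
    l.ev (p + t • ((l.a / (l.a ^ 2 + l.b ^ 2), l.b / (l.a ^ 2 + l.b ^ 2)) : ℝ × ℝ)) = t := by
  have hN := pp_N l
  unfold Ln.ev at h ⊢
  simp only [Prod.fst_add, Prod.snd_add, Prod.smul_fst, Prod.smul_snd, smul_eq_mul]
  have : l.a * (p.1 + t * (l.a / (l.a ^ 2 + l.b ^ 2))) + l.b * (p.2 + t * (l.b / (l.a ^ 2 + l.b ^ 2))) - l.c =
      (l.a * p.1 + l.b * p.2 - l.c) + t := by
    field_simp
    ring
  rw [this, h, zero_add]

private theorem pp_inn (h : Fin k → Ln) (p v : ℝ × ℝ) (hp : p ∈ inn h) :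
    ∀ᶠ t : ℝ in nhdsWithin 0 (Set.Ioi 0), p + t • v ∈ inn h := by
  have : ∀ᶠ t : ℝ in nhdsWithin 0 (Set.Ioi 0), ∀ j, (h j).ev (p + t • v) < 0 := by
    rw [Filter.eventually_all]
    intro j
    filter_upwards [pp_lt (h j) p v 0 (hp j)] with t ht
    linarith
  exact this

private theorem pp_cell (l : Fin n → Ln) (p : ℝ × ℝ) (s : Fin n → Bool)
    (hp : ∀ i, 0 < sb (s i) * (l i).ev p) :
    ∀ᶠ t : ℝ in nhdsWithin 0 (Set.Ioi 0), ∀ i, 0 < sb (s i) * (mv l t i).ev p := by
  rw [Filter.eventually_all]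
  intro i
  filter_upwards [pp_sb (l i) p 0 (s i) (hp i)] with t ht
  rw [mv_ev]
  rw [smul_zero, add_zero] at ht
  exact ht

theorem pert (l : Fin n → Ln) (h : Fin k → Ln) (hl : Function.Injective (fun i => (l i).pts))
    (hm : ∀ i, ((l i).pts ∩ inn h).Nonempty) (x0 : ℝ × ℝ) :
    ∃ l' : Fin n → Ln, Function.Injective (fun i => (l' i).pts) ∧ (∀ i, ((l' i).pts ∩ inn h).Nonempty) ∧
      (∀ i, (l' i).ev x0 ≠ 0) ∧ (∀ s, IZ.ZonG l h s → IZ.ZonG l' h s) ∧
      ∀ s i, IZ.EdgG l h s i → IZ.EdgG l' h s i := by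
  classical
  have e1 : ∀ᶠ t : ℝ in nhdsWithin 0 (Set.Ioi 0), ∀ i j, i ≠ j → (mv l t i).pts ≠ (mv l t j).pts := by
    rw [Filter.eventually_all]
    intro i
    rw [Filter.eventually_all]
    intro j
    by_cases hij : i = j
    · exact Filter.Eventually.of_forall fun t h => absurd hij h
    by_cases hex : ∃ t0, (mv l t0 i).pts = (mv l t0 j).pts
    · obtain ⟨t0, ht0⟩ := hex
      filter_upwards [pp_ne t0] with t ht _ heq
      exact hij (hl (pp_eq l ht heq ht0))
    · exact Filter.Eventually.of_forall fun t _ heq => hex ⟨t, heq⟩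
  have e2 : ∀ᶠ t : ℝ in nhdsWithin 0 (Set.Ioi 0), ∀ i, ((mv l t i).pts ∩ inn h).Nonempty := by
    rw [Filter.eventually_all]
    intro i
    obtain ⟨p, hp1, hp2⟩ := hm i
    filter_upwards [pp_inn h p ((l i).a / ((l i).a ^ 2 + (l i).b ^ 2),
      (l i).b / ((l i).a ^ 2 + (l i).b ^ 2)) hp2] with t ht
    refine ⟨_, ?_, ht⟩
    show (mv l t i).ev _ = 0
    rw [mv_ev, pp_dir (l i) p t hp1, sub_self]
  have e3 : ∀ᶠ t : ℝ in nhdsWithin 0 (Set.Ioi 0), ∀ i, (mv l t i).ev x0 ≠ 0 := by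
    rw [Filter.eventually_all]
    intro i
    filter_upwards [pp_ne ((l i).ev x0)] with t ht
    rw [mv_ev]
    intro h0
    exact ht (by linarith)
  have e4 : ∀ᶠ t : ℝ in nhdsWithin 0 (Set.Ioi 0), ∀ s, IZ.ZonG l h s → IZ.ZonG (mv l t) h s := by
    rw [Filter.eventually_all]
    intro s
    by_cases hz : IZ.ZonG l h s
    · obtain ⟨⟨p, hp1, hp2⟩, j, T, hT1, hT2⟩ := hz
      filter_upwards [pp_cell l p s hp2, pp_cell l T s hT2] with t h1 h2 _
      exact ⟨⟨p, hp1, h1⟩, j, T, hT1, h2⟩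
    · exact Filter.Eventually.of_forall fun t h => absurd h hz
  have e5 : ∀ᶠ t : ℝ in nhdsWithin 0 (Set.Ioi 0), ∀ s i, IZ.EdgG l h s i → IZ.EdgG (mv l t) h s i := by
    rw [Filter.eventually_all]
    intro s
    rw [Filter.eventually_all]
    intro i
    by_cases he : IZ.EdgG l h s i
    · obtain ⟨p, hp1, hp2, hp3⟩ := he
      have h3 : ∀ᶠ t : ℝ in nhdsWithin 0 (Set.Ioi 0), ∀ j, j ≠ i → 0 < sb (s j) * ((l j).ev (p +
          t • (((l i).a / ((l i).a ^ 2 + (l i).b ^ 2), (l i).b / ((l i).a ^ 2 + (l i).b ^ 2)) :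
            ℝ × ℝ)) - t) := by
        rw [Filter.eventually_all]
        intro j
        by_cases hj : j = i
        · exact Filter.Eventually.of_forall fun t h => absurd hj h
        · filter_upwards [pp_sb (l j) p ((l i).a / ((l i).a ^ 2 + (l i).b ^ 2),
            (l i).b / ((l i).a ^ 2 + (l i).b ^ 2)) (s j) (hp3 j hj)] with t ht _
          exact ht
      filter_upwards [pp_inn h p ((l i).a / ((l i).a ^ 2 + (l i).b ^ 2),
        (l i).b / ((l i).a ^ 2 + (l i).b ^ 2)) hp1, h3] with t h1 h2 _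
      refine ⟨_, h1, ?_, ?_⟩
      · rw [mv_ev, pp_dir (l i) p t hp2, sub_self]
      · intro j hj
        rw [mv_ev]
        exact h2 j hj
    · exact Filter.Eventually.of_forall fun t h => absurd h he
  obtain ⟨t, ⟨⟨⟨h1, h2⟩, h3⟩, h4⟩, h5⟩ := ((((e1.and e2).and e3).and e4).and e5).exists
  refine ⟨mv l t, ?_, h2, h3, h4, h5⟩
  intro i j hij
  by_contra hne
  exact h1 i j hne hij

end Pool.Agent.Work.MP_e64a38_co.FF
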