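import Pool.Agent.Work.MP_e64a38_co.FF.PBox
import Pool.Agent.Work.MP_e64a38_co.FF.PWall

/-!
# The frame at an inner point of a side (size M)

`X p = uv g0 x0 p / yv g0 p`. Everything holds for all large `W` (`Filter.atTop`; finitely many conditions, because
`s : Fin n → Bool` and `i : Fin n` range over finite types: `Filter.eventually_all`). `yv g0 p > 0` for `p ∈ inn h` by `hn`.
(1) For every `i` a point `p ∈ inn h` on `l i` (`hm`): `|X p| < W` for large `W`. So `box_ex` with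
`α = -W`, `β = W`, `W > 0`.
(2) For every `(s, i)` with `IZ.EdgG l h s i` a witness `p`: `|X p| < W`. So `box_eg`.
(3) For every `s` with `IZ.ZonG l h s`: a side `j`, `T` with `IZ.Rel h j T` and the signs `s`. By `IZ.coord`
`(h j0).ev T = al * u + be * y` with `al * x + be < 0` for all `x` (`wall_S`, `Wls`; so `al = 0`, `be < 0`): so
`(h j0).ev T = be * y`, `y = yv g0 T`.
(a) `j ≠ j0`: `(h j0).ev T < 0`, so `y > 0`; `|X T| < W` for large `W`; `T ∈ poly h`; `pin_poly`: `F (X T) ≤ 1 / y`;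
`pin_side`: `F (X T) = 1 / y` (`Wls` always holds). `box_zn`.
(b) `j = j0`: `(h j0).ev T = 0`, so `y = 0`. Let `u = uv g0 x0 T`.
If `u ≠ 0`: let `p_W` be the point with `uv = u`, `yv = |u| / W` (`IZ.coord_surj`). By `IZ.coord` every form
`m.ev p_W = al * u + be * |u| / W + m.ev x0` tends to `m.ev T` for `W → ∞`. So for large `W` the signs of the lines
at `p_W` are `s`, and `(h j').ev p_W < 0` for all `j' ≠ j0` (`Rel`), and `(h j0).ev p_W = be * |u| / W < 0`. So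
`p_W ∈ inn h` and `F (X p_W) < 1 / yv g0 p_W` by `pin_inn`; `X p_W = u / (|u| / W)` is `W` or `-W`. `box_zn` with `p_W`.
If `u = 0`: `T = x0` (`IZ.coord_inj`), `ptn = ∅` by `lin_x0`. `B.Zn ∅`: `X = W = B.β` and
`Y = F W + 1 + ∑ i |B.p i * W + B.q i|`, which is larger than all `B.p i * W + B.q i` and than `F W`.
-/

set_option autoImplicit false

namespace Pool.Agent.Work.MP_e64a38_co.FF

variable {n k : ℕ}

private theorem ps_lim (g0 m : Ln) (x0 T : ℝ × ℝ) (hg : g0.ev x0 = 0) (hy : IZ.yv g0 T = 0) (c : ℝ)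
    (hc : 0 < c * m.ev T) : ∀ᶠ W : ℝ in Filter.atTop, ∀ p, IZ.uv g0 x0 p = IZ.uv g0 x0 T →
      IZ.yv g0 p = |IZ.uv g0 x0 T| / W → 0 < c * m.ev p := by
  have h1 : Filter.Tendsto (fun W : ℝ => c * (IZ.al g0 m * IZ.uv g0 x0 T +
      IZ.be g0 m * (|IZ.uv g0 x0 T| / W) + m.ev x0)) Filter.atTop
      (nhds (c * (IZ.al g0 m * IZ.uv g0 x0 T + IZ.be g0 m * 0 + m.ev x0))) :=
    ((tendsto_const_nhds.add ((tendsto_const_nhds.div_atTop Filter.tendsto_id).const_mul _)).add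
      tendsto_const_nhds).const_mul _
  have h2 : 0 < c * (IZ.al g0 m * IZ.uv g0 x0 T + IZ.be g0 m * 0 + m.ev x0) := by
    have h3 := IZ.coord g0 m x0 T hg
    rw [hy] at h3
    rwa [← h3]
  filter_upwards [h1.eventually_const_lt h2] with W hW p hu hv
  rw [IZ.coord g0 m x0 p hg, hu, hv]
  exact hW

private theorem ps_be (h : Fin k → Ln) (g0 : Ln) (x0 : ℝ × ℝ) (j0 : Fin k) (hj : (h j0).ev x0 = 0)
    (hW : ∀ x, Wls h g0 x0 x) : IZ.al g0 (h j0) = 0 ∧ IZ.be g0 (h j0) < 0 := by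
  have h0 := hW 0 j0 hj
  rw [mul_zero, zero_add] at h0
  refine ⟨?_, h0⟩
  by_contra hne
  have h1 := hW ((1 - IZ.be g0 (h j0)) / IZ.al g0 (h j0)) j0 hj
  rw [mul_div_cancel₀ _ hne] at h1
  linarith

private theorem ps_zn (l : Fin n → Ln) (h : Fin k → Ln) (g0 : Ln) (x0 : ℝ × ℝ) (hg : g0.ev x0 = 0)
    (hx : x0 ∈ poly h) (j0 : Fin k) (hj : (h j0).ev x0 = 0) (hW : ∀ x, Wls h g0 x0 x)
    (F ψ : ℝ → ℝ) (hF : FS h g0 x0 F ψ) (s : Fin n → Bool) (hs : IZ.ZonG l h s) :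
    ∀ᶠ W : ℝ in Filter.atTop, (∃ T, (∀ i, 0 < sb (s i) * (l i).ev T) ∧ 0 < IZ.yv g0 T ∧
      -W ≤ IZ.uv g0 x0 T / IZ.yv g0 T ∧ IZ.uv g0 x0 T / IZ.yv g0 T ≤ W ∧
      F (IZ.uv g0 x0 T / IZ.yv g0 T) ≤ 1 / IZ.yv g0 T ∧
      (F (IZ.uv g0 x0 T / IZ.yv g0 T) = 1 / IZ.yv g0 T ∨ IZ.uv g0 x0 T / IZ.yv g0 T = -W ∨
        IZ.uv g0 x0 T / IZ.yv g0 T = W)) ∨ ∀ i, 0 < sb (s i) * (l i).ev x0 := by
  obtain ⟨-, j, T, ⟨hT0, hT1⟩, hTs⟩ := hs
  obtain ⟨ha, hb⟩ := ps_be h g0 x0 j0 hj hW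
  have hTp : T ∈ poly h := by
    intro j'
    by_cases e : j' = j
    · rw [e, hT0]
    · exact (hT1 j' e).le
  have hc := IZ.coord g0 (h j0) x0 T hg
  rw [ha, zero_mul, zero_add, hj, add_zero] at hc
  by_cases hjj : j = j0
  · subst hjj
    rw [hT0] at hc
    have hy : IZ.yv g0 T = 0 := by
      rcases mul_eq_zero.1 hc.symm with h1 | h1
      · exact absurd h1 hb.ne
      · exact h1
    by_cases hu : IZ.uv g0 x0 T = 0
    · have hTx : T = x0 := by
        refine IZ.coord_inj g0 x0 T x0 hg ?_ ?_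
        · rw [hu]
          unfold IZ.uv
          ring
        · rw [hy]
          unfold IZ.yv
          rw [hg, neg_zero]
      rw [hTx] at hTs
      exact Filter.Eventually.of_forall fun W => Or.inr hTs
    · have hu' : 0 < |IZ.uv g0 x0 T| := abs_pos.2 hu
      have h1 : ∀ᶠ W : ℝ in Filter.atTop, ∀ i, ∀ p, IZ.uv g0 x0 p = IZ.uv g0 x0 T →
          IZ.yv g0 p = |IZ.uv g0 x0 T| / W → 0 < sb (s i) * (l i).ev p :=
        Filter.eventually_all.2 fun i => ps_lim g0 (l i) x0 T hg hy _ (hTs i)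
      have h2 : ∀ᶠ W : ℝ in Filter.atTop, ∀ j', j' ≠ j → ∀ p, IZ.uv g0 x0 p = IZ.uv g0 x0 T →
          IZ.yv g0 p = |IZ.uv g0 x0 T| / W → 0 < (-1) * (h j').ev p := by
        refine Filter.eventually_all.2 fun j' => ?_
        by_cases e : j' = j
        · exact Filter.Eventually.of_forall fun W h => absurd e h
        · have h3 := hT1 j' e
          filter_upwards [ps_lim g0 (h j') x0 T hg hy (-1) (by linarith)] with W h4 _
          exact h4
      filter_upwards [h1, h2, Filter.eventually_gt_atTop 0] with W a1 a2 a3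
      obtain ⟨p, hpu, hpy⟩ := IZ.coord_surj g0 x0 hg (IZ.uv g0 x0 T) (|IZ.uv g0 x0 T| / W)
      have hpy0 : 0 < IZ.yv g0 p := by
        rw [hpy]
        exact div_pos hu' a3
      have hpi : p ∈ inn h := by
        intro j'
        by_cases e : j' = j
        · rw [e, IZ.coord g0 (h j) x0 p hg, ha, hj, zero_mul, zero_add, add_zero]
          exact mul_neg_of_neg_of_pos hb hpy0
        · have h3 := a2 j' e p hpu hpy
          linarith
      have hlt := ((pin_inn h g0 x0 F ψ hF hg hx p hpy0).1 hpi).2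
      have hX : IZ.uv g0 x0 p / IZ.yv g0 p = -W ∨ IZ.uv g0 x0 p / IZ.yv g0 p = W := by
        rw [hpu, hpy]
        rcases lt_or_gt_of_ne hu with h3 | h3
        · left
          rw [abs_of_neg h3]
          field_simp
        · right
          rw [abs_of_pos h3]
          field_simp
      left
      refine ⟨p, fun i => a1 i p hpu hpy, hpy0, ?_, ?_, hlt.le, Or.inr hX⟩
      · rcases hX with h3 | h3 <;> rw [h3]
        linarith
      · rcases hX with h3 | h3 <;> rw [h3]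
        linarith
  · have h1 := hT1 j0 (Ne.symm hjj)
    rw [hc] at h1
    have hy : 0 < IZ.yv g0 T := by
      by_contra h2
      have h3 := mul_nonneg_of_nonpos_of_nonpos hb.le (not_lt.1 h2)
      linarith
    have hp1 := ((pin_poly h g0 x0 F ψ hF hg hx T hy).1 hTp).2
    have hp2 : F (IZ.uv g0 x0 T / IZ.yv g0 T) = 1 / IZ.yv g0 T := by
      rcases pin_side h g0 x0 F ψ hF hg hx T hy hTp j hT0 with h2 | h2
      · exact h2
      · exact absurd (hW _) h2
    filter_upwards [Filter.eventually_gt_atTop |IZ.uv g0 x0 T / IZ.yv g0 T|] with W hWW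
    left
    exact ⟨T, hTs, hy, (neg_lt_of_abs_lt hWW).le, (lt_of_abs_lt hWW).le, hp1, Or.inl hp2⟩

theorem side_box (l : Fin n → Ln) (h : Fin k → Ln) (hP : IsPolygon h)
    (hl : Function.Injective (fun i => (l i).pts)) (hm : ∀ i, ((l i).pts ∩ inn h).Nonempty)
    (g0 : Ln) (x0 : ℝ × ℝ) (hg : g0.ev x0 = 0) (hx : x0 ∈ poly h) (hn : ∀ p ∈ inn h, g0.ev p < 0)
    (j0 : Fin k) (hR : IZ.Rel h j0 x0) (hg0 : g0.pts = (h j0).pts)
    (hne : ∀ i, (l i).ev x0 ≠ 0) (F ψ : ℝ → ℝ) (hF : FS h g0 x0 F ψ) :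
    ∀ᶠ W : ℝ in Filter.atTop, ∃ B : Box (Fin n), BoxOf l h x0 F ψ (-W) W B := by
  have hW : ∀ x, Wls h g0 x0 x := fun x => (wall_S h hP g0 x0 hg hn j0 hR hg0 x).2
  choose pp hpp using hm
  have h1 : ∀ᶠ W : ℝ in Filter.atTop, ∀ i, |IZ.uv g0 x0 (pp i) / IZ.yv g0 (pp i)| < W :=
    Filter.eventually_all.2 fun i => Filter.eventually_gt_atTop _
  have h2 : ∀ᶠ W : ℝ in Filter.atTop, ∀ (s : Fin n → Bool) (i : Fin n), IZ.EdgG l h s i →
      ∃ p ∈ inn h, (l i).ev p = 0 ∧ (∀ j, j ≠ i → 0 < sb (s j) * (l j).ev p) ∧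
        |IZ.uv g0 x0 p / IZ.yv g0 p| < W := by
    refine Filter.eventually_all.2 fun s => Filter.eventually_all.2 fun i => ?_
    by_cases hE : IZ.EdgG l h s i
    · obtain ⟨p, hp, h0, hs⟩ := hE
      filter_upwards [Filter.eventually_gt_atTop |IZ.uv g0 x0 p / IZ.yv g0 p|] with W hWW _
      exact ⟨p, hp, h0, hs, hWW⟩
    · exact Filter.Eventually.of_forall fun W h => absurd h hE
  have h3 : ∀ᶠ W : ℝ in Filter.atTop, ∀ s : Fin n → Bool, IZ.ZonG l h s →
      ((∃ T, (∀ i, 0 < sb (s i) * (l i).ev T) ∧ 0 < IZ.yv g0 T ∧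
      -W ≤ IZ.uv g0 x0 T / IZ.yv g0 T ∧ IZ.uv g0 x0 T / IZ.yv g0 T ≤ W ∧
      F (IZ.uv g0 x0 T / IZ.yv g0 T) ≤ 1 / IZ.yv g0 T ∧
      (F (IZ.uv g0 x0 T / IZ.yv g0 T) = 1 / IZ.yv g0 T ∨ IZ.uv g0 x0 T / IZ.yv g0 T = -W ∨
        IZ.uv g0 x0 T / IZ.yv g0 T = W)) ∨ ∀ i, 0 < sb (s i) * (l i).ev x0) := by
    refine Filter.eventually_all.2 fun s => ?_
    by_cases hZ : IZ.ZonG l h s
    · filter_upwards [ps_zn l h g0 x0 hg hx j0 hR.1 hW F ψ hF s hZ] with W hWW _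
      exact hWW
    · exact Filter.Eventually.of_forall fun W h => absurd h hZ
  filter_upwards [h1, h2, h3, Filter.eventually_gt_atTop 0] with W a1 a2 a3 a4
  obtain ⟨B, hBp, hBq, hBF, hBψ, hBα, hBβ⟩ := box_ex l h hl g0 x0 hg hx hn hne F ψ hF (-W) W
    (by linarith) fun i => ⟨pp i, (hpp i).2, (hpp i).1, neg_lt_of_abs_lt (a1 i),
      lt_of_abs_lt (a1 i)⟩
  refine ⟨B, hBF, hBψ, hBα, hBβ, ?_, ?_⟩
  · intro s hs
    rcases a3 s hs with ⟨T, t1, t2, t3, t4, t5, t6⟩ | t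
    · exact box_zn l g0 x0 hg hne B hBp hBq s T t1 t2 (by rw [hBα]; exact t3)
        (by rw [hBβ]; exact t4) (by rw [hBF]; exact t5) (by rw [hBF, hBα, hBβ]; exact t6)
    · rw [lin_x0 l x0 s t]
      have hY : ∀ i, B.p i * W + B.q i < |B.F W| + 1 + ∑ i, |B.p i * W + B.q i| := by
        intro i
        have h4 := Finset.single_le_sum (f := fun i => |B.p i * W + B.q i|)
          (fun i _ => abs_nonneg _) (Finset.mem_univ i)
        have h5 := le_abs_self (B.p i * W + B.q i)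
        have h6 := abs_nonneg (B.F W)
        linarith
      refine ⟨W, |B.F W| + 1 + ∑ i, |B.p i * W + B.q i|, ?_, ?_, ?_, Or.inr (Or.inr ?_), ?_⟩
      · rw [hBα]
        linarith
      · rw [hBβ]
      · have h5 := le_abs_self (B.F W)
        have h6 : 0 ≤ ∑ i, |B.p i * W + B.q i| := Finset.sum_nonneg fun i _ => abs_nonneg _
        linarith
      · rw [hBβ]
      · intro i
        refine ⟨(hY i).ne', ?_⟩
        constructor
        · intro h4
          exact absurd h4 (Finset.notMem_empty i)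
        · intro h4
          exact absurd h4 (not_lt.2 (hY i).le)
  · intro s i hE
    obtain ⟨p, hp, h0, hs, hX⟩ := a2 s i hE
    exact box_eg l h g0 x0 hg hx hn hne F ψ hF B hBp hBq hBF s i p hp h0 hs
      (by rw [hBα]; exact neg_lt_of_abs_lt hX) (by rw [hBβ]; exact lt_of_abs_lt hX)

end Pool.Agent.Work.MP_e64a38_co.FF
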