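import Pool.Agent.Work.MP_e64a38_co.FF.PLine
import Pool.Agent.Work.MP_e64a38_co.IZ.Compl

/-!
# The complexity of the zone and the box (size S-M)

`IZ.compl_le` for `l`: `zoneComplexity l h ≤ ∑ s with ZonG l h s, #{i | EdgG l h s i} + (2 n + k)`. By `hZ`, `hE` (from `l` to
`l'`) and `BoxOf` (from `l'` to `B`): the map `s ↦ ptn (sgn0 l' x0) s` is injective (`ptn_inj`) and sends
`{s | ZonG l h s}` into `{σ | B.Zn σ}`, and `{i | EdgG l h s i} ⊆ {i | B.Eg (ptn s) i}`. So the sum is at most the sum over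
the image of the map, and at most the sum over all `σ` with `B.Zn σ` (`Finset.sum_image`, `Finset.sum_le_sum_of_subset`,
`Finset.sum_le_sum`, `Finset.card_le_card`).
-/

set_option autoImplicit false

namespace Pool.Agent.Work.MP_e64a38_co.FF

variable {n k : ℕ}

open Classical in
theorem sum_box (l l' : Fin n → Ln) (h : Fin k → Ln) (hP : IsPolygon h)
    (hl : Function.Injective (fun i => (l i).pts)) (hm : ∀ i, ((l i).pts ∩ inn h).Nonempty)
    (hZ : ∀ s, IZ.ZonG l h s → IZ.ZonG l' h s) (hE : ∀ s i, IZ.EdgG l h s i → IZ.EdgG l' h s i)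
    (x0 : ℝ × ℝ) (F ψ : ℝ → ℝ) (α β : ℝ) (B : Box (Fin n)) (hB : BoxOf l' h x0 F ψ α β B) :
    zoneComplexity l h ≤ ∑ σ ∈ Finset.univ.filter (fun σ : Finset (Fin n) => B.Zn σ),
      (Finset.univ.filter (fun i : Fin n => B.Eg σ i)).card + (2 * n + k) := by
  obtain ⟨_, _, _, _, hz, he⟩ := hB
  refine (IZ.compl_le l h hP hl hm).trans (Nat.add_le_add_right ?_ _)
  calc ∑ s ∈ Finset.univ.filter (fun s : Fin n → Bool => IZ.ZonG l h s),
        (Finset.univ.filter (fun i : Fin n => IZ.EdgG l h s i)).card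
      ≤ ∑ s ∈ Finset.univ.filter (fun s : Fin n → Bool => IZ.ZonG l h s),
        (Finset.univ.filter (fun i : Fin n => B.Eg (IZ.ptn (sgn0 l' x0) s) i)).card := by
        refine Finset.sum_le_sum fun s _ => ?_
        refine Finset.card_le_card fun i hi => ?_
        simp only [Finset.mem_filter, Finset.mem_univ, true_and] at hi ⊢
        exact he s i (hE s i hi)
    _ = ∑ σ ∈ (Finset.univ.filter (fun s : Fin n → Bool => IZ.ZonG l h s)).image
          (IZ.ptn (sgn0 l' x0)), (Finset.univ.filter (fun i : Fin n => B.Eg σ i)).card := by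
        rw [Finset.sum_image (fun s _ t _ hst => ptn_inj (sgn0 l' x0) s t hst)]
    _ ≤ ∑ σ ∈ Finset.univ.filter (fun σ : Finset (Fin n) => B.Zn σ),
        (Finset.univ.filter (fun i : Fin n => B.Eg σ i)).card := by
        refine Finset.sum_le_sum_of_subset fun σ hσ => ?_
        obtain ⟨s, hs, rfl⟩ := Finset.mem_image.mp hσ
        simp only [Finset.mem_filter, Finset.mem_univ, true_and] at hs ⊢
        exact hz s (hZ s hs)

end Pool.Agent.Work.MP_e64a38_co.FF
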