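import Pool.Agent.Work.MP_e64a38_co.FF.PVert
import Pool.Agent.Work.MP_e64a38_co.FF.PSide
import Pool.Agent.Work.MP_e64a38_co.FF.PFlt
import Pool.Agent.Work.MP_e64a38_co.FF.PSum
import Pool.Agent.Work.MP_e64a38_co.FF.PPert

/-!
# Polygons without separated flattening (size S-M)

Let `l'` be the lines of `pert` and `F`, `ψ` from `fs_ex`.
Vertex case: `vert_box` for `l'` gives `α`, `β`, `B`; `FltB N Z α β ψ` is impossible by `flt_R` and `h1`, and
`FltB N (mZ Z) (-β) (-α) (mr ψ)` by `flt_L` and `h2`.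
Side case: `wall_S`: `Wl` holds for all `x`. `fs_const` gives `W0`, `m`, `M`. Choose `W ≥ 3 W0 + 1` and `B` with `side_box`
(`Filter.Eventually.and`, `Filter.eventually_ge_atTop`, `.exists`). The flattenings are impossible by `flt_SR`, `flt_SL`.
In both cases `hbox` and `sum_box`: `zoneComplexity l h ≤ (2000 N + 6 |Z|) (n + 1) + (2 n + k)`. `k ≥ 1` (there is a side:
`fs_ex`, `FS` at the abscissa `0`). So `n + 1 ≤ n + k`, `2 n + k ≤ 2 (n + k) ≤ 100 N (n + k)`.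
-/

set_option autoImplicit false

namespace Pool.Agent.Work.MP_e64a38_co.FF

variable {n k : ℕ}

open Classical in
theorem frame_card (l : Fin n → Ln) (h : Fin k → Ln) (hP : IsPolygon h)
    (hl : Function.Injective (fun i => (l i).pts)) (hm : ∀ i, ((l i).pts ∩ inn h).Nonempty)
    (g0 : Ln) (x0 : ℝ × ℝ) (hf : Frame h g0 x0) (N : ℕ) (hN : 32 ≤ N) (Z : Finset ℝ)
    (h1 : ¬ PFl 1 N Z h g0 x0) (h2 : ¬ PFl (-1) N Z h g0 x0)
    (hbox : ∀ B : Box (Fin n), ¬ FltB N Z B.α B.β B.ψ → ¬ FltB N (mZ Z) (-B.β) (-B.α) (mr B.ψ) →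
      ∑ σ ∈ Finset.univ.filter (fun σ : Finset (Fin n) => B.Zn σ),
        (Finset.univ.filter (fun i : Fin n => B.Eg σ i)).card ≤
          (2000 * N + 6 * Z.card) * (Fintype.card (Fin n) + 1)) :
    zoneComplexity l h ≤ (2100 * N + 6 * Z.card) * (n + k) := by
  obtain ⟨hg, hx, hn, hc⟩ := hf
  have hN' : (32 : ℝ) ≤ (N : ℝ) := by exact_mod_cast hN
  have hk : 0 < k := IZ.polygon_pos hP
  obtain ⟨l', hl', hm', hne, hZ, hE⟩ := pert l h hl hm x0
  obtain ⟨F, ψ, hF⟩ := fs_ex h hP g0 x0 hx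
  have key : ∀ (α β : ℝ) (B : Box (Fin n)), BoxOf l' h x0 F ψ α β B → ¬ FltB N Z α β ψ →
      ¬ FltB N (mZ Z) (-β) (-α) (mr ψ) →
      zoneComplexity l h ≤ (2100 * N + 6 * Z.card) * (n + k) := by
    intro α β B hB h3 h4
    have h5 := sum_box l l' h hP hl hm hZ hE x0 F ψ α β B hB
    have h6 := hbox B (by rw [hB.2.1, hB.2.2.1, hB.2.2.2.1]; exact h3)
      (by rw [hB.2.1, hB.2.2.1, hB.2.2.2.1]; exact h4)
    rw [Fintype.card_fin] at h6
    have h7 : (2000 * N + 6 * Z.card) * (n + 1) ≤ (2000 * N + 6 * Z.card) * (n + k) :=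
      Nat.mul_le_mul_left _ (by omega)
    have h8 : 2 * (n + k) ≤ (100 * N) * (n + k) := Nat.mul_le_mul_right _ (by omega)
    have h9 : (2100 * N + 6 * Z.card) * (n + k) =
        (2000 * N + 6 * Z.card) * (n + k) + (100 * N) * (n + k) := by ring
    omega
  rcases hc with hV | ⟨j0, hR, hg0⟩
  · obtain ⟨α, β, B, hw, hB⟩ := vert_box l' h hP hl' hm' g0 x0 hg hx hn hV hne F ψ hF
    exact key α β B hB (fun h3 => h1 (flt_R h hP g0 x0 hg hx F ψ hF α β hw N Z h3))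
      (fun h3 => h2 (flt_L h hP g0 x0 hg hx F ψ hF α β hw N Z h3))
  · have hw : ∀ x, Wl h g0 x0 x := fun x => (wall_S h hP g0 x0 hg hn j0 hR hg0 x).1
    obtain ⟨W0, m, M, h0, hM, hmm⟩ := fs_const h g0 x0 F ψ hF
    obtain ⟨W, ⟨B, hB⟩, hW⟩ := ((side_box l' h hP hl' hm' g0 x0 hg hx hn j0 hR hg0 hne F ψ hF).and
      (Filter.eventually_ge_atTop (3 * W0 + 1))).exists
    exact key (-W) W B hB
      (fun h3 => h1 (flt_SR h hP g0 x0 hg hx F ψ hF hw W0 m M h0 hM hmm N hN' Z W hW h3))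
      (fun h3 => h2 (flt_SL h hP g0 x0 hg hx F ψ hF hw W0 m M h0 hM hmm N hN' Z W hW
        (by rw [neg_neg] at h3; exact h3)))

end Pool.Agent.Work.MP_e64a38_co.FF
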