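import Pool.Agent.Work.MP_e64a38_co.FF.Defs

/-!
# Flattening with steep walls and with vertical walls (size S-M)

`flt_wal`. Let `Ψ = wals ψ α β M` and `x0 < ... < x4` as in `Flt`; write `D_i = Ψ x_i - Ψ x_(i-1)`, so `D_4 > 0`,
`D_3 ≥ K D_4 ≥ D_4 > 0`, `D_2 ≥ K D_3 ≥ D_3 > 0`, `D_1 ≥ K D_2 ≥ D_2 > 0`. `0 ≤ m` (from `hm` at `α`), so `0 ≤ 3 m < M`.
(1) `α ≤ x1`: otherwise `Ψ x0 = Ψ x1 = -M` and `D_1 = 0`. So `α ≤ x1 < x2 < x3 < x4`.
(2) `x4 ≤ β`: otherwise `Ψ x4 = M`; `x3 ≤ β` (otherwise `D_4 = 0`), so `|Ψ x1|, |Ψ x2|, |Ψ x3| ≤ m`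
(`Ψ = ψ` there), `D_4 ≥ M - m > 2 m ≥ D_3`: contradiction to `D_3 ≥ D_4`.
So `Ψ = ψ` at `x1, ..., x4`, and also at `x0` if `α ≤ x0`. These are the conditions of `FltB`.

`mr_wals`: compare the cases `-x < α`, `-x ≤ β`, `β < -x` with `x < -β`, `x ≤ -α`, `-α < x` (`α < β`).
-/

set_option autoImplicit false

namespace Pool.Agent.Work.MP_e64a38_co.FF

theorem flt_wal (K : ℝ) (Z : Finset ℝ) (ψ : ℝ → ℝ) (α β m M : ℝ) (hK : 1 ≤ K) (hab : α < β)
    (hm : ∀ x, α ≤ x → x ≤ β → |ψ x| ≤ m) (hM : 3 * m < M) (h : Flt K Z (wals ψ α β M)) :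
    FltB K Z α β ψ := by
  obtain ⟨x0, x1, x2, x3, x4, o1, o2, o3, o4, hz, k1, k2, k3, d4, d3, d2, d1⟩ := h
  set Ψ : ℝ → ℝ := wals ψ α β M with hΨ
  have e1 : ∀ x, x < α → Ψ x = -M := by
    intro x hx
    rw [hΨ]
    unfold wals
    rw [if_pos hx]
  have e2 : ∀ x, α ≤ x → x ≤ β → Ψ x = ψ x := by
    intro x hx hx'
    rw [hΨ]
    unfold wals
    rw [if_neg (not_lt.mpr hx), if_pos hx']
  have e3 : ∀ x, β < x → Ψ x = M := by
    intro x hx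
    rw [hΨ]
    unfold wals
    rw [if_neg (not_lt.mpr (hab.trans hx).le), if_neg (not_le.mpr hx)]
  have p3 : 0 < Ψ x3 - Ψ x2 := lt_of_lt_of_le d4 (by nlinarith)
  have p2 : 0 < Ψ x2 - Ψ x1 := lt_of_lt_of_le p3 (by nlinarith)
  have p1 : 0 < Ψ x1 - Ψ x0 := lt_of_lt_of_le p2 (by nlinarith)
  have q43 : Ψ x4 - Ψ x3 ≤ Ψ x3 - Ψ x2 := by nlinarith
  have a1 : α ≤ x1 := by
    by_contra hc
    have hc' := not_le.mp hc
    rw [e1 x0 (o1.trans hc'), e1 x1 hc'] at p1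
    linarith
  have b4 : x4 ≤ β := by
    by_contra hc
    have hc' := not_le.mp hc
    have b3 : x3 ≤ β := by
      by_contra hd
      rw [e3 x4 hc', e3 x3 (not_le.mp hd)] at d4
      linarith
    have m2 := hm x2 (by linarith) (by linarith)
    have m3 := hm x3 (by linarith) b3
    have m2' := (abs_le.mp m2)
    have m3' := (abs_le.mp m3)
    rw [e3 x4 hc', e2 x3 (by linarith) b3, e2 x2 (by linarith) (by linarith)] at q43
    linarith [m2'.1, m3'.2]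
  have f1 := e2 x1 a1 (by linarith)
  have f2 := e2 x2 (by linarith) (by linarith)
  have f3 := e2 x3 (by linarith) (by linarith)
  have f4 := e2 x4 (by linarith) b4
  rw [f4, f3] at d4 d3
  rw [f2] at d3 d2
  rw [f3] at d2
  rw [f1] at d2 d1
  rw [f2] at d1
  refine ⟨x0, x1, x2, x3, x4, o1, o2, o3, o4, a1, b4, hz, k1, k2, k3, d4, d3, d2, ?_⟩
  intro h0
  rw [e2 x0 h0 (by linarith)] at d1
  exact d1

theorem mr_wals (ψ : ℝ → ℝ) (α β M : ℝ) (hab : α < β) :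
    mr (wals ψ α β M) = wals (mr ψ) (-β) (-α) M := by
  funext x
  unfold mr wals
  by_cases h1 : -x < α
  · rw [if_pos h1, if_neg (by linarith), if_neg (by linarith), neg_neg]
  · by_cases h2 : -x ≤ β
    · rw [if_neg h1, if_pos h2, if_neg (by linarith), if_pos (by linarith)]
    · rw [if_neg h1, if_neg h2, if_pos (by linarith)]

end Pool.Agent.Work.MP_e64a38_co.FF
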