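import Pool.Agent.Work.MP_e64a38_co.FF.Defs

/-!
# Cells and edges of the box in the system of chords (size M)

`off_al`: if `S.φ y ≠ S.p i * y + S.q i` for all `i` then `Off S y` (by `S.ea`, `S.eb`), and `Al S y i` iff
`S.φ y < S.p i * y + S.q i` (by `S.above`, `S.below`).

`wb_eg`: `x` is the point of `B.Eg σ i`; `α < x < β`, so `S.φ x = B.F x`; this is `CZ.EdAt S σ i x`.

`wb_zn`: for every `σ` with `B.Zn σ` choose the point `(X, Y)`. Three cases.
(1) `Y = F X` (and `α ≤ X ≤ β`): `y = X`, `S.φ y = F X = Y`; so `Off S y`, and `Al S y i` iff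
`Y < p i * X + q i` iff `i ∈ σ`, i.e. `CZ.Sg S y = σ`. All `M` are allowed.
(2) `X = β`, `F β < Y`: for `M > 0` let `y = β + (Y - F β) / M > β`; `S.φ y = F β + M (y - β) = Y` and
`p i * y + q i = (p i * β + q i) + p i (Y - F β) / M`. The number `d i = (p i * β + q i) - Y` is not `0`; if
`M > |p i| (Y - F β) / |d i|` for all `i` then `(p i * y + q i) - Y` is not `0` and has the sign of `d i`. So again
`Off S y` and `CZ.Sg S y = σ`.
(3) `X = α`, `F α < Y`: the same with `y = α - (Y - F α) / M`.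
There are finitely many `σ` (`Finset ι`) and finitely many `i`, so one `M0` works for all.
-/

set_option autoImplicit false

namespace Pool.Agent.Work.MP_e64a38_co.FF

variable {ι : Type} [Fintype ι]

theorem off_al (S : CZ.Sy ι) (y : ℝ) (h : ∀ i, S.φ y ≠ S.p i * y + S.q i) :
    CZ.Off S y ∧ ∀ i, (CZ.Al S y i ↔ S.φ y < S.p i * y + S.q i) := by
  constructor
  · intro i
    constructor
    · rintro rfl
      exact h i (S.ea i).symm
    · rintro rfl
      exact h i (S.eb i).symm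
  · intro i
    constructor
    · rintro ⟨h1, h2⟩
      exact S.above i y h1 h2
    · intro h1
      have h2 : ¬ (y < S.a i ∨ S.b i < y) := by
        intro h3
        have h4 := S.below i y h3
        linarith
      rw [not_or, not_lt, not_lt] at h2
      constructor
      · refine lt_of_le_of_ne h2.1 ?_
        rintro h5
        apply h i
        rw [← h5, S.ea]
      · refine lt_of_le_of_ne h2.2 ?_
        intro h5
        apply h i
        rw [h5, S.eb]

theorem wb_eg (B : Box ι) (M : ℝ) (S : CZ.Sy ι) (hp : S.p = B.p) (hq : S.q = B.q)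
    (hφ : S.φ = wal B.F B.α B.β M) (σ : Finset ι) (i : ι) (h : B.Eg σ i) : CZ.Ed S σ i := by
  obtain ⟨x, h1, h2, h3, h4⟩ := h
  refine ⟨x, ?_, ?_⟩
  · unfold CZ.Sy.v
    rw [hφ, hp, hq]
    unfold wal
    rw [if_neg (not_lt.mpr h1.le), if_pos h2.le]
    exact h3
  · intro j hj
    unfold CZ.Sy.v
    rw [hp, hq]
    exact h4 j hj

private theorem wz_sgn {d e : ℝ} (h : |e| < |d|) : d + e ≠ 0 ∧ (0 < d + e ↔ 0 < d) := by
  rcases lt_trichotomy d 0 with hd | hd | hd
  · rw [abs_of_neg hd] at h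
    have h1 := (abs_lt.mp h).2
    exact ⟨by linarith, ⟨fun h2 => by linarith, fun h2 => by linarith⟩⟩
  · rw [hd, abs_zero] at h
    exact absurd h (not_lt.mpr (abs_nonneg e))
  · rw [abs_of_pos hd] at h
    have h1 := (abs_lt.mp h).1
    exact ⟨by linarith, ⟨fun h2 => by linarith, fun h2 => by linarith⟩⟩

private theorem wz_big (d p : ι → ℝ) (hd : ∀ i, d i ≠ 0) (g : ℝ) (hg : 0 ≤ g) :
    ∃ M1 : ℝ, 0 < M1 ∧ ∀ M, M1 ≤ M → ∀ i, |p i * (g / M)| < |d i| := by
  have hs : 0 ≤ ∑ i, |p i| * g / |d i| :=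
    Finset.sum_nonneg fun i _ => div_nonneg (mul_nonneg (abs_nonneg _) hg) (abs_nonneg _)
  refine ⟨1 + ∑ i, |p i| * g / |d i|, by linarith, ?_⟩
  intro M hM i
  have hM0 : 0 < M := by linarith
  have h1 : |p i| * g / |d i| ≤ ∑ i, |p i| * g / |d i| :=
    Finset.single_le_sum (f := fun i => |p i| * g / |d i|)
      (fun i _ => div_nonneg (mul_nonneg (abs_nonneg _) hg) (abs_nonneg _)) (Finset.mem_univ i)
  have h2 : |p i| * g / |d i| < M := by linarith
  rw [div_lt_iff₀ (abs_pos.mpr (hd i))] at h2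
  rw [abs_mul, abs_of_nonneg (div_nonneg hg hM0.le), ← mul_div_assoc, div_lt_iff₀ hM0]
  linarith

private theorem wz_one (B : Box ι) (σ : Finset ι) (hσ : B.Zn σ) :
    ∃ M1 : ℝ, ∀ M, M1 ≤ M → ∃ y, ∀ i, wal B.F B.α B.β M y ≠ B.p i * y + B.q i ∧
      (i ∈ σ ↔ wal B.F B.α B.β M y < B.p i * y + B.q i) := by
  obtain ⟨X, Y, hX1, hX2, hY, hc, hi⟩ := hσ
  by_cases hYF : Y = B.F X
  · refine ⟨0, fun M _ => ⟨X, fun i => ?_⟩⟩
    have h1 : wal B.F B.α B.β M X = Y := by
      unfold wal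
      rw [if_neg (not_lt.mpr hX1), if_pos hX2, hYF]
    rw [h1]
    exact hi i
  · have hFY : B.F X < Y := lt_of_le_of_ne hY (Ne.symm hYF)
    have hd : ∀ i, B.p i * X + B.q i - Y ≠ 0 := fun i => sub_ne_zero.mpr (hi i).1.symm
    rcases (hc.resolve_left hYF) with hXa | hXb
    · obtain ⟨M1, hM1, hM⟩ := wz_big (fun i => B.p i * X + B.q i - Y) (fun i => -B.p i) hd
        (Y - B.F X) (by linarith)
      refine ⟨M1, fun M hMM => ⟨X - (Y - B.F X) / M, fun i => ?_⟩⟩
      have hM0 : 0 < M := by linarith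
      have hg : 0 < (Y - B.F X) / M := div_pos (by linarith) hM0
      have h1 : wal B.F B.α B.β M (X - (Y - B.F X) / M) = Y := by
        unfold wal
        rw [if_pos (by linarith), ← hXa]
        field_simp
        ring
      have h2 := wz_sgn (hM M hMM i)
      have h3 : B.p i * (X - (Y - B.F X) / M) + B.q i =
          Y + ((B.p i * X + B.q i - Y) + -B.p i * ((Y - B.F X) / M)) := by ring
      rw [h1, h3]
      refine ⟨fun h4 => h2.1 (by linarith), ?_⟩
      rw [(hi i).2]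
      constructor
      · intro h4
        have h5 := h2.2.mpr (by linarith)
        linarith
      · intro h4
        have h5 := h2.2.mp (by linarith)
        linarith
    · obtain ⟨M1, hM1, hM⟩ := wz_big (fun i => B.p i * X + B.q i - Y) (fun i => B.p i) hd
        (Y - B.F X) (by linarith)
      refine ⟨M1, fun M hMM => ⟨X + (Y - B.F X) / M, fun i => ?_⟩⟩
      have hM0 : 0 < M := by linarith
      have hg : 0 < (Y - B.F X) / M := div_pos (by linarith) hM0
      have h1 : wal B.F B.α B.β M (X + (Y - B.F X) / M) = Y := by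
        unfold wal
        rw [if_neg (by linarith), if_neg (by linarith), ← hXb]
        field_simp
        ring
      have h2 := wz_sgn (hM M hMM i)
      have h3 : B.p i * (X + (Y - B.F X) / M) + B.q i =
          Y + ((B.p i * X + B.q i - Y) + B.p i * ((Y - B.F X) / M)) := by ring
      rw [h1, h3]
      refine ⟨fun h4 => h2.1 (by linarith), ?_⟩
      rw [(hi i).2]
      constructor
      · intro h4
        have h5 := h2.2.mpr (by linarith)
        linarith
      · intro h4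
        have h5 := h2.2.mp (by linarith)
        linarith

theorem wb_zn (B : Box ι) : ∃ M0 : ℝ, ∀ M, M0 ≤ M → ∀ S : CZ.Sy ι, S.p = B.p → S.q = B.q →
    S.φ = wal B.F B.α B.β M → ∀ σ, B.Zn σ → σ ∈ CZ.Sgs S := by
  classical
  have h1 : ∀ σ : Finset ι, ∃ M1 : ℝ, B.Zn σ → ∀ M, M1 ≤ M → ∃ y, ∀ i,
      wal B.F B.α B.β M y ≠ B.p i * y + B.q i ∧
      (i ∈ σ ↔ wal B.F B.α B.β M y < B.p i * y + B.q i) := by
    intro σ
    by_cases hσ : B.Zn σ
    · obtain ⟨M1, hM1⟩ := wz_one B σ hσ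
      exact ⟨M1, fun _ => hM1⟩
    · exact ⟨0, fun h => absurd h hσ⟩
  choose M1 hM1 using h1
  refine ⟨∑ σ, |M1 σ|, ?_⟩
  intro M hM S hp hq hφ σ hσ
  have h2 : M1 σ ≤ M := by
    have h3 : |M1 σ| ≤ ∑ σ, |M1 σ| :=
      Finset.single_le_sum (f := fun σ => |M1 σ|) (fun σ _ => abs_nonneg _) (Finset.mem_univ σ)
    exact (le_abs_self _).trans (h3.trans hM)
  obtain ⟨y, hy⟩ := hM1 σ hσ M h2
  have h4 := off_al S y (fun i => by rw [hφ, hp, hq]; exact (hy i).1)
  unfold CZ.Sgs
  refine Finset.mem_filter.mpr ⟨Finset.mem_univ _, y, h4.1, ?_⟩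
  ext i
  unfold CZ.Sg
  rw [Finset.mem_filter, h4.2 i, hφ, hp, hq, (hy i).2]
  exact ⟨fun h => h.2, fun h => ⟨Finset.mem_univ _, h⟩⟩

end Pool.Agent.Work.MP_e64a38_co.FF
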