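import Pool.Agent.Work.MP_e64a38_co.FF.Defs
import Pool.Agent.Work.MP_e64a38_co.CZ.GFour

/-!
# Visible crossings of a convex curve as an order family (size M)

`cell_ord`: let `(q, s)` at `f` from `y` and `(q', s')` at `f'` from `y'` be visible and let the same chords be
alive at `y` and at `y'`. Then the two pairs are equal, or `f < f'`, `a q' ≤ a s`, `b q' ≤ b s`, or the other way
round.
Proof. `s, q` are alive at `y'` and `s', q'` are alive at `y`. Case `f < f'`. If `a s < a q'` then `b s < b q'` by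
`fact_c` (for `(q, s)`, `c = q'`). At `x = a q'` (`a s < a q' < b s` since both are alive at `y`)
`v q' x = φ x < v s x` (`above`), at `x = b s` (`a q' < b s < b q'`) `v s x = φ x < v q' x`, so `p s < p q'`. But
`v q' f ≥ v q f = v s f` (`up`) and `v s f' ≥ v q' f'` (`up` for `(q', s')`, `c = s`), `f < f'`, so `p q' ≤ p s`.
Contradiction. So `a q' ≤ a s`. If `b s < b q'` then `s` is inside `q'`, and as `a s < f' < b s` (`vis_al` for
`(q', s')`, `c = s`) `nest_lt` gives `v s f' < v q' f'`, contradiction with `up`. So `b q' ≤ b s`.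
Case `f' < f`: interchange. Case `f = f'`: as in `four`: `v q' f = v q f`, `ex` gives `p q' = p q` and
`p s' = p s`, then `inj`.

`fact_b2`: one `s`: `(q, s)` at `f` from `y`, `(q', s)` at `f'` from `y'`, `y ≤ y'`, `q ≠ q'`: `y < a q'`
(this is `fact_b`).

`vf`: the order family in the coordinate `X` (strictly increasing). Fields: `off` from `Vis.off` and
injectivity of `X`; `ord` from `vis_ord`; `al` from `vis_al`; `four` from `four`; `fa` from `fact_a`; `fb` from
`fact_b`; `fc` from `fact_c`; `cel` from `cell_ord` (always `X` preserves and reflects `<` and `≤`).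
-/

set_option autoImplicit false

namespace Pool.Agent.Work.MP_e64a38_co.FF

variable {ι : Type}

private theorem four_lt (S : CZ.Sy ι) {q s q' s' : ι} {f y f' y' : ℝ} (h : CZ.Vis S q s f y)
    (h' : CZ.Vis S q' s' f' y')
    (h1 : CZ.Al S y q') (h4 : CZ.Al S y' s) (h5 : S.a s < S.a q') (hf : f < f') : False := by
  have o := CZ.vis_ord S h
  have hq' := CZ.vis_al S h q' h1
  have e1 : S.v s f ≤ S.v q' f := by have := h.up q' h1; rw [h.eq] at this; exact this
  have e2 : S.v q' f' ≤ S.v s f' := h'.up s h4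
  by_cases hb : S.b s < S.b q'
  · have i1 := S.above s (S.a q') h5 (by linarith [hq'.1, o.2.2.1])
    have i2 := S.above q' (S.b s) (by linarith [hq'.1, o.2.2.1]) hb
    have j1 := S.ea q'
    have j2 := S.eb s
    simp only [CZ.Sy.v] at e1 e2
    have k1 : S.a q' < S.b s := by linarith [hq'.1, o.2.2.1]
    have l1 : S.p q' ≤ S.p s := by
      by_contra hc
      push Not at hc
      nlinarith [mul_pos (sub_pos.2 hc) (sub_pos.2 hf)]
    nlinarith [mul_nonneg (sub_nonneg.2 l1) (sub_nonneg.2 k1.le)]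
  · have := CZ.nest_lt S s q' f h5.le (not_lt.1 hb) (Or.inl h5) hq'.1 hq'.2
    linarith

private theorem cell_lt (S : CZ.Sy ι) {q s q' s' : ι} {f y f' y' : ℝ} (h : CZ.Vis S q s f y)
    (h' : CZ.Vis S q' s' f' y') (h1 : CZ.Al S y q') (h4 : CZ.Al S y' s) (hf : f < f') :
    S.a q' ≤ S.a s ∧ S.b q' ≤ S.b s := by
  have ha : S.a q' ≤ S.a s := not_lt.1 fun h5 => four_lt S h h' h1 h4 h5 hf
  refine ⟨ha, not_lt.1 fun hb => ?_⟩
  have k := CZ.vis_al S h' s h4
  have k2 := CZ.nest_lt S q' s f' ha hb.le (Or.inr hb) k.1 k.2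
  have e2 : S.v q' f' ≤ S.v s f' := h'.up s h4
  linarith

theorem cell_ord (S : CZ.Sy ι) {q s q' s' : ι} {f y f' y' : ℝ} (h : CZ.Vis S q s f y)
    (h' : CZ.Vis S q' s' f' y') (hs : ∀ c, CZ.Al S y c ↔ CZ.Al S y' c) :
    (q = q' ∧ s = s') ∨ (f < f' ∧ S.a q' ≤ S.a s ∧ S.b q' ≤ S.b s) ∨
      (f' < f ∧ S.a q ≤ S.a s' ∧ S.b q ≤ S.b s') := by
  rcases lt_trichotomy f f' with hf | hf | hf
  · exact Or.inr (Or.inl ⟨hf, cell_lt S h h' ((hs q').2 h'.aq) ((hs s).1 h.as) hf⟩)
  · subst hf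
    left
    have a1 := h.up q' ((hs q').2 h'.aq)
    have a2 := h'.up q ((hs q).1 h.aq)
    have e : S.v q' f = S.v q f := le_antisymm a2 a1
    have e' : S.v s' f = S.v s f := by rw [← h'.eq, ← h.eq, e]
    have b1 := h.ex q' ((hs q').2 h'.aq) e
    have b2 := h'.ex q ((hs q).1 h.aq) e.symm
    have b3 := h.ex s' ((hs s').2 h'.as) (by rw [e', h.eq])
    have b4 := h'.ex s ((hs s).1 h.as) (by rw [← e', h'.eq])
    refine ⟨S.inj q q' (by linarith) ?_, S.inj s s' (by linarith) ?_⟩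
    · have p : S.p q = S.p q' := by linarith
      simp only [CZ.Sy.v] at e
      rw [p] at e
      linarith
    · have p : S.p s = S.p s' := by linarith
      simp only [CZ.Sy.v] at e'
      rw [p] at e'
      linarith
  · exact Or.inr (Or.inr ⟨hf, cell_lt S h' h ((hs q).1 h.aq) ((hs s').2 h'.as) hf⟩)

theorem vf_ex (S : CZ.Sy ι) (X : ℝ → ℝ) (hX : StrictMono X) (P : Finset (ι × ι)) (f y : ι × ι → ℝ)
    (hP : CZ.Fam S P f y) : ∃ V : VF ι, (∀ c, V.a c = X (S.a c)) ∧ (∀ c, V.b c = X (S.b c)) ∧ V.P = P ∧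
      (∀ t, V.f t = X (f t)) ∧ ∀ t, V.y t = X (y t) := by
  have lt : ∀ {x z : ℝ}, X x < X z ↔ x < z := hX.lt_iff_lt
  have le : ∀ {x z : ℝ}, X x ≤ X z ↔ x ≤ z := hX.le_iff_le
  refine ⟨{ a := fun c => X (S.a c), b := fun c => X (S.b c), P := P, f := fun t => X (f t),
            y := fun t => X (y t), off := ?_, ord := ?_, al := ?_, four := ?_, fa := ?_, fb := ?_,
            fc := ?_, cel := ?_ }, fun c => rfl, fun c => rfl, rfl, fun t => rfl, fun t => rfl⟩
  · intro t ht c
    have h := (hP t ht).off c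
    exact ⟨fun h1 => h.1 (hX.injective h1), fun h1 => h.2 (hX.injective h1)⟩
  · intro t ht
    simp only [lt]
    exact CZ.vis_ord S (hP t ht)
  · intro t ht c h1 h2
    simp only [lt] at h1 h2 ⊢
    exact CZ.vis_al S (hP t ht) c ⟨h1, h2⟩
  · intro t ht t' ht' h1 h2 h3 h4 h5 h6
    simp only [lt] at h1 h2 h3 h4 h5 h6
    obtain ⟨e1, e2⟩ := CZ.four S (hP t ht) (hP t' ht') h1 h2 h3 h4 h5 h6
    exact Prod.ext e1 e2
  · intro t ht t' ht' h1 hne hy
    simp only [lt, le] at hy ⊢
    have h2 : CZ.Vis S t.1 t'.2 (f t') (y t') := by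
      rw [h1]
      exact hP t' ht'
    exact CZ.fact_a S (hP t ht) h2 hy fun h3 => hne (Prod.ext h1 h3)
  · intro t ht t' ht' h1 hne hy
    simp only [lt, le] at hy ⊢
    have h2 : CZ.Vis S t'.1 t.2 (f t') (y t') := by
      rw [h1]
      exact hP t' ht'
    exact CZ.fact_b S (hP t ht) h2 hy fun h3 => hne (Prod.ext h3 h1)
  · intro t ht c h1 h2 h3
    simp only [lt] at h1 h2 h3 ⊢
    exact CZ.fact_c S (hP t ht) c ⟨h1, h2⟩ h3
  · intro t ht t' ht' hne h1
    simp only [lt, le] at h1 ⊢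
    rcases cell_ord S (hP t ht) (hP t' ht') h1 with h2 | h2 | h2
    · exact absurd (Prod.ext h2.1 h2.2) hne
    · exact Or.inl h2
    · exact Or.inr h2

end Pool.Agent.Work.MP_e64a38_co.FF
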