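import Pool.Agent.Work.MP_e64a38_co.FF.Defs

/-!
# Charging to a point (size S-M)

`vz`: for a monotone `ψ` and any `v : ι → ℝ`, if `ψ (a q) < v s ≤ ψ y` for all pairs `t = (q, s)` then there are at
most `card ι` pairs. `t ↦ t.2` is injective on `P`: if `t ≠ t'` have the same `s`, wlog `y t ≤ y t'`, then
`y t < a t'.1` (`fb`) and `v ≤ ψ (y t) ≤ ψ (a t'.1) < v`.
`vw`: if `ψ y < v q ≤ ψ (b s)` for all pairs then there are at most `card ι` pairs. `t ↦ t.1` is injective: wlog
`y t ≤ y t'`, `b t.2 < y t'` (`fa`), `v ≤ ψ (b t.2) ≤ ψ (y t') < v`.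
`z1`: if `b s - a s ≤ m (y - a q)` for all pairs (`m` a natural number) then `P.card ≤ m card ι`.
Proof: `m ≠ 0` if `P` is not empty (`b s > a s`). Let `d = (b s - a s) / m > 0` and `j = ⌊(y - a s) / d⌋`, a natural
number, `j < m` as `y < b s`. The point `v_j s = a s + j d` satisfies `v_j s ≤ y` and
`v_j s > y - d ≥ a q` (`d ≤ y - a q`). So the pairs with a given `j` satisfy `vz` for `ψ = id`: at most `card ι` of
them, `j < m`.
`z2`: if `b q - a q ≤ m (b s - y)` for all pairs then `P.card ≤ m card ι`. Proof: `d = (b q - a q) / m`,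
`j = ⌊(b s - a q) / d⌋ < m` (`b s < b q`), `v_j q = a q + j d` satisfies `v_j q ≤ b s` and `v_j q > b s - d ≥ y`;
`vw` for `ψ = id`.
-/

set_option autoImplicit false

namespace Pool.Agent.Work.MP_e64a38_co.FF

variable {ι : Type} [Fintype ι]

private theorem card_of {P : Finset (ι × ι)} (g : ι × ι → ι)
    (h : ∀ t ∈ P, ∀ t' ∈ P, g t = g t' → t = t') : P.card ≤ Fintype.card ι := by
  classical
  rw [← Finset.card_univ]
  exact Finset.card_le_card_of_injOn g (fun t _ => Finset.mem_coe.2 (Finset.mem_univ _))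
    (fun t ht t' ht' e => h t ht t' ht' e)

theorem vz (V : VF ι) (ψ : ℝ → ℝ) (hψ : Monotone ψ) (v : ι → ℝ)
    (h : ∀ t ∈ V.P, ψ (V.a t.1) < v t.2 ∧ v t.2 ≤ ψ (V.y t)) : V.P.card ≤ Fintype.card ι := by
  refine card_of (fun t => t.2) ?_
  intro t ht t' ht' e
  by_contra hne
  have key : ∀ t ∈ V.P, ∀ t' ∈ V.P, t.2 = t'.2 → t ≠ t' → V.y t ≤ V.y t' → False := by
    intro t ht t' ht' e hne hy
    have h1 := V.fb t ht t' ht' e hne hy
    have h2 := hψ h1.le
    have h3 := (h t ht).2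
    have h4 := (h t' ht').1
    rw [← e] at h4
    linarith
  rcases le_total (V.y t) (V.y t') with hy | hy
  · exact key t ht t' ht' e hne hy
  · exact key t' ht' t ht e.symm (Ne.symm hne) hy

theorem vw (V : VF ι) (ψ : ℝ → ℝ) (hψ : Monotone ψ) (v : ι → ℝ)
    (h : ∀ t ∈ V.P, ψ (V.y t) < v t.1 ∧ v t.1 ≤ ψ (V.b t.2)) : V.P.card ≤ Fintype.card ι := by
  refine card_of (fun t => t.1) ?_
  intro t ht t' ht' e
  by_contra hne
  have key : ∀ t ∈ V.P, ∀ t' ∈ V.P, t.1 = t'.1 → t ≠ t' → V.y t ≤ V.y t' → False := by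
    intro t ht t' ht' e hne hy
    have h1 := (V.fa t ht t' ht' e hne hy).1
    have h2 := hψ h1.le
    have h3 := (h t ht).2
    have h4 := (h t' ht').1
    rw [← e] at h4
    linarith
  rcases le_total (V.y t) (V.y t') with hy | hy
  · exact key t ht t' ht' e hne hy
  · exact key t' ht' t ht e.symm (Ne.symm hne) hy

theorem z1 (V : VF ι) (m : ℕ) (h : ∀ t ∈ V.P, V.b t.2 - V.a t.2 ≤ m * (V.y t - V.a t.1)) :
    V.P.card ≤ m * Fintype.card ι := by
  classical
  rcases Nat.eq_zero_or_pos m with hm | hm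
  · subst hm
    have h0 : V.P = ∅ := by
      refine Finset.eq_empty_of_forall_notMem fun t ht => ?_
      have h1 := h t ht
      have h2 := V.ord t ht
      push_cast at h1
      linarith [h2.1, h2.2.1, h2.2.2.1]
    rw [h0]
    simp
  have hm' : (0 : ℝ) < m := by exact_mod_cast hm
  -- the class of a pair
  let d : ι → ℝ := fun s => (V.b s - V.a s) / m
  let J : ι × ι → ℕ := fun t => ⌊(V.y t - V.a t.2) / d t.2⌋₊
  have hd : ∀ t ∈ V.P, 0 < d t.2 := by
    intro t ht
    have h2 := V.ord t ht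
    exact div_pos (by linarith [h2.1, h2.2.1, h2.2.2.1]) hm'
  have hdy : ∀ t ∈ V.P, d t.2 ≤ V.y t - V.a t.1 := by
    intro t ht
    have h1 := h t ht
    show (V.b t.2 - V.a t.2) / m ≤ _
    rw [div_le_iff₀ hm']
    linarith
  have hJ : ∀ t ∈ V.P, J t < m := by
    intro t ht
    have h2 := V.ord t ht
    have h3 := hd t ht
    have h5 : 0 ≤ (V.y t - V.a t.2) / d t.2 :=
      div_nonneg (by linarith [h2.1, h2.2.2.2.2.1]) h3.le
    rw [Nat.floor_lt h5, div_lt_iff₀ h3]
    show _ < (m : ℝ) * ((V.b t.2 - V.a t.2) / m)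
    rw [mul_div_cancel₀ _ hm'.ne']
    linarith [h2.2.2.2.2.2]
  have hcl : ∀ j, (V.P.filter fun t => J t = j).card ≤ Fintype.card ι := by
    intro j
    refine vz (V.sub (V.P.filter fun t => J t = j) (Finset.filter_subset _ _)) id monotone_id
      (fun s => V.a s + j * d s) ?_
    intro t ht
    obtain ⟨ht, hj⟩ := Finset.mem_filter.1 ht
    have h2 := V.ord t ht
    have h3 := hd t ht
    have h5 : 0 ≤ (V.y t - V.a t.2) / d t.2 :=
      div_nonneg (by linarith [h2.1, h2.2.2.2.2.1]) h3.le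
    have h6 := Nat.floor_le h5
    have h7 := Nat.lt_floor_add_one ((V.y t - V.a t.2) / d t.2)
    have hj' : (⌊(V.y t - V.a t.2) / d t.2⌋₊ : ℝ) = j := by exact_mod_cast hj
    rw [hj'] at h6 h7
    rw [le_div_iff₀ h3] at h6
    rw [div_lt_iff₀ h3] at h7
    have h8 := hdy t ht
    show V.a t.1 < V.a t.2 + j * d t.2 ∧ V.a t.2 + j * d t.2 ≤ V.y t
    constructor <;> nlinarith
  calc V.P.card = ∑ j ∈ Finset.range m, (V.P.filter fun t => J t = j).card :=
        Finset.card_eq_sum_card_fiberwise fun t ht => by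
          exact Finset.mem_coe.2 (Finset.mem_range.2 (hJ t (Finset.mem_coe.1 ht)))
    _ ≤ ∑ _j ∈ Finset.range m, Fintype.card ι := Finset.sum_le_sum fun j _ => hcl j
    _ = m * Fintype.card ι := by rw [Finset.sum_const, Finset.card_range, smul_eq_mul]

theorem z2 (V : VF ι) (m : ℕ) (h : ∀ t ∈ V.P, V.b t.1 - V.a t.1 ≤ m * (V.b t.2 - V.y t)) :
    V.P.card ≤ m * Fintype.card ι := by
  classical
  rcases Nat.eq_zero_or_pos m with hm | hm
  · subst hm
    have h0 : V.P = ∅ := by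
      refine Finset.eq_empty_of_forall_notMem fun t ht => ?_
      have h1 := h t ht
      have h2 := V.ord t ht
      push_cast at h1
      linarith [h2.2.1, h2.2.2.1, h2.2.2.2.1]
    rw [h0]
    simp
  have hm' : (0 : ℝ) < m := by exact_mod_cast hm
  let d : ι → ℝ := fun q => (V.b q - V.a q) / m
  let J : ι × ι → ℕ := fun t => ⌊(V.b t.2 - V.a t.1) / d t.1⌋₊
  have hd : ∀ t ∈ V.P, 0 < d t.1 := by
    intro t ht
    have h2 := V.ord t ht
    exact div_pos (by linarith [h2.2.1, h2.2.2.1, h2.2.2.2.1]) hm'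
  have hdy : ∀ t ∈ V.P, d t.1 ≤ V.b t.2 - V.y t := by
    intro t ht
    have h1 := h t ht
    show (V.b t.1 - V.a t.1) / m ≤ _
    rw [div_le_iff₀ hm']
    linarith
  have hJ : ∀ t ∈ V.P, J t < m := by
    intro t ht
    have h2 := V.ord t ht
    have h3 := hd t ht
    have h5 : 0 ≤ (V.b t.2 - V.a t.1) / d t.1 :=
      div_nonneg (by linarith [h2.2.1, h2.2.2.1]) h3.le
    rw [Nat.floor_lt h5, div_lt_iff₀ h3]
    show _ < (m : ℝ) * ((V.b t.1 - V.a t.1) / m)
    rw [mul_div_cancel₀ _ hm'.ne']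
    linarith [h2.2.2.2.1]
  have hcl : ∀ j, (V.P.filter fun t => J t = j).card ≤ Fintype.card ι := by
    intro j
    refine vw (V.sub (V.P.filter fun t => J t = j) (Finset.filter_subset _ _)) id monotone_id
      (fun q => V.a q + j * d q) ?_
    intro t ht
    obtain ⟨ht, hj⟩ := Finset.mem_filter.1 ht
    have h2 := V.ord t ht
    have h3 := hd t ht
    have h5 : 0 ≤ (V.b t.2 - V.a t.1) / d t.1 :=
      div_nonneg (by linarith [h2.2.1, h2.2.2.1]) h3.le
    have h6 := Nat.floor_le h5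
    have h7 := Nat.lt_floor_add_one ((V.b t.2 - V.a t.1) / d t.1)
    have hj' : (⌊(V.b t.2 - V.a t.1) / d t.1⌋₊ : ℝ) = j := by exact_mod_cast hj
    rw [hj'] at h6 h7
    rw [le_div_iff₀ h3] at h6
    rw [div_lt_iff₀ h3] at h7
    have h8 := hdy t ht
    show V.y t < V.a t.1 + j * d t.1 ∧ V.a t.1 + j * d t.1 ≤ V.b t.2
    constructor <;> nlinarith
  calc V.P.card = ∑ j ∈ Finset.range m, (V.P.filter fun t => J t = j).card :=
        Finset.card_eq_sum_card_fiberwise fun t ht => by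
          exact Finset.mem_coe.2 (Finset.mem_range.2 (hJ t (Finset.mem_coe.1 ht)))
    _ ≤ ∑ _j ∈ Finset.range m, Fintype.card ι := Finset.sum_le_sum fun j _ => hcl j
    _ = m * Fintype.card ι := by rw [Finset.sum_const, Finset.card_range, smul_eq_mul]

end Pool.Agent.Work.MP_e64a38_co.FF
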