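import Pool.Agent.Work.MP_e64a38_co.FF.NSub
import Pool.Agent.Work.MP_e64a38_co.FF.VOf
import Pool.Agent.Work.MP_e64a38_co.FF.VZ

/-!
# Pairs whose older chord has its top before the end of the younger one (size M)

Let `N ≥ 2`. If `N (y - a q) ≤ b s - f` and `p q ≤ ψ (b s)` for all pairs then `P.card ≤ 2 card ι`.

Proof. The order family is `vf_ex` with `X = id`.
(1) The pairs with `ψ y < p q`: `vw` with `v = p`: at most `n`.
(2) The pairs with `p q ≤ ψ y` and `ψ (a q) < p s`: `p s < p q ≤ ψ y` (`Vis.sl`), so `vz` with `v = p`: at most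
`n`.
(3) There is no other pair: if `p q ≤ ψ y` and `p s ≤ ψ (a q)` then by `r_le`
`(p q - p s) (b s - f) ≤ (p q - ψ (a q)) (y - a q) ≤ (p q - p s) (y - a q)` (`y > a q`), so
`b s - f ≤ y - a q ≤ (b s - f) / 2`, a contradiction (`b s > f`).
-/

set_option autoImplicit false

namespace Pool.Agent.Work.MP_e64a38_co.FF

variable {ι : Type} [Fintype ι]

theorem hi_card (S : CZ.Sy ι) (ψ : ℝ → ℝ) (hψ : Sub S.φ ψ) (P : Finset (ι × ι)) (f y : ι × ι → ℝ)
    (hP : CZ.Fam S P f y) (N : ℕ) (hN : 2 ≤ N)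
    (h1 : ∀ t ∈ P, N * (y t - S.a t.1) ≤ S.b t.2 - f t)
    (h2 : ∀ t ∈ P, S.p t.1 ≤ ψ (S.b t.2)) : P.card ≤ 2 * Fintype.card ι := by
  classical
  obtain ⟨V, ha, hb, hVP, hf, hy⟩ := vf_ex S id strictMono_id P f y hP
  have hmono := sub_mono hψ
  have hN' : (2 : ℝ) ≤ N := by exact_mod_cast hN
  have c1 : (P.filter fun t => ψ (y t) < S.p t.1).card ≤ Fintype.card ι := by
    refine vw (V.sub (P.filter fun t => ψ (y t) < S.p t.1) ?_) ψ hmono S.p ?_
    · rw [hVP]
      exact Finset.filter_subset _ _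
    · intro t ht
      obtain ⟨ht, h3⟩ := Finset.mem_filter.1 ht
      show ψ (V.y t) < S.p t.1 ∧ S.p t.1 ≤ ψ (V.b t.2)
      rw [hy, hb]
      exact ⟨h3, h2 t ht⟩
  have c2 : (P.filter fun t => ¬ ψ (y t) < S.p t.1).card ≤ Fintype.card ι := by
    refine vz (V.sub (P.filter fun t => ¬ ψ (y t) < S.p t.1) ?_) ψ hmono S.p ?_
    · rw [hVP]
      exact Finset.filter_subset _ _
    · intro t ht
      obtain ⟨ht, h3⟩ := Finset.mem_filter.1 ht
      push Not at h3
      show ψ (V.a t.1) < S.p t.2 ∧ S.p t.2 ≤ ψ (V.y t)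
      rw [hy, ha]
      have hv := hP t ht
      have o := CZ.vis_ord S hv
      have hsl : S.p t.2 < S.p t.1 := hv.sl
      refine ⟨?_, hsl.le.trans h3⟩
      show ψ (S.a t.1) < S.p t.2
      by_contra hc
      push Not at hc
      have h4 := r_le S hψ hv h3
      have h5 := h1 t ht
      have h6 : 0 < y t - S.a t.1 := by linarith [o.2.2.2.2.1]
      have h7 : 0 < S.p t.1 - S.p t.2 := sub_pos.2 hsl
      have h8 : 2 * (y t - S.a t.1) ≤ N * (y t - S.a t.1) :=
        mul_le_mul_of_nonneg_right hN' h6.le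
      have h9 : (S.p t.1 - ψ (S.a t.1)) * (y t - S.a t.1) ≤
          (S.p t.1 - S.p t.2) * (y t - S.a t.1) :=
        mul_le_mul_of_nonneg_right (by linarith) h6.le
      have h10 : S.b t.2 - f t ≤ y t - S.a t.1 :=
        le_of_mul_le_mul_left (h4.trans h9) h7
      linarith
  have h3 := Finset.card_filter_add_card_filter_not (s := P) (fun t => ψ (y t) < S.p t.1)
  omega

end Pool.Agent.Work.MP_e64a38_co.FF
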