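import Pool.Agent.Work.MP_e64a38_co.FF.NSub
import Pool.Agent.Work.MP_e64a38_co.FF.VOf
import Pool.Agent.Work.MP_e64a38_co.FF.VZ

/-!
# Pairs with increasing lengths and increasing turnings (size L)

Let `N ≥ 32`. If `N (a q - a s) ≤ f - a q`, `N (f - a q) ≤ b s - f` and
`N (ψ (a q) - ψ (a s)) ≤ ψ f - ψ (a q)` for all pairs then `P.card ≤ 7 card ι`.

Proof. Put `k c = p c - ψ (a c) > 0` (`sl_a`), `m = p q - p s > 0`, `T = ψ (a q) - ψ (a s) ≥ 0` (`sub_mono`).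
(a) `m ≤ k s / N`: by `m_le` `m (f - a q) ≤ k s (a q - a s) ≤ k s (f - a q) / N`, and `f > a q`.
(b) `T ≤ 2 k q / N`: by `f_le` `(ψ f - p q) (b s - f) ≤ k q (f - a q) ≤ k q (b s - f) / N`, so `ψ f - p q ≤ k q / N`,
`ψ f - ψ (a q) ≤ 2 k q`.
(c) `k q - k s = m - T`, so `k q ≤ k s (1 + 1/N) < 2 k s` and `k s ≤ k q (1 + 2/N) < 2 k q`.
Let `e c = Int.log 2 (k c)`, `g c = 2 ^ (e c) / 8` (integer power), so `8 g c ≤ k c < 16 g c`; by (c)
`e s - 1 ≤ e q ≤ e s + 1`. Let `v q = g q (⌊ψ (a q) / g q⌋ + 1)`, so `ψ (a q) < v q ≤ ψ (a q) + g q`. Then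
`v q ≤ ψ (b s)`: `ψ (b s) > p s` (`sl_b`), `p s = ψ (a q) + k q - m`, `m ≤ k s / N ≤ k q / 16`, so
`ψ (b s) > ψ (a q) + k q / 2 ≥ ψ (a q) + 4 g q`.
(1) The pairs with `ψ y < v q`: `vw`: at most `n`.
(2) The pairs with `v q ≤ ψ y`. `ψ (a s) ≤ ψ (a q) ≤ ψ (a s) + 2 k q / N ≤ ψ (a s) + g q` (`2 k q / N < 32 g q / N`).
So `⌊ψ (a q) / g q⌋` is `⌊ψ (a s) / g q⌋` or `⌊ψ (a s) / g q⌋ + 1`, and `v q` is one of the six numbers
`w e i s = g (⌊ψ (a s) / g⌋ + i)`, `g = 2 ^ (e s + e) / 8`, `e ∈ {-1, 0, 1}`, `i ∈ {1, 2}`. For given `e`, `i` the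
pairs with `v q = w e i s` satisfy `vz` with `v = w e i`: at most `n`.
(The order family is `vf_ex` with `X = id`, subfamilies with filters of `P`.)
-/

set_option autoImplicit false

namespace Pool.Agent.Work.MP_e64a38_co.FF

variable {ι : Type} [Fintype ι]

private theorem nii_vz (S : CZ.Sy ι) (ψ : ℝ → ℝ) (hψ : Sub S.φ ψ) (Q : Finset (ι × ι))
    (f y : ι × ι → ℝ) (hQ : CZ.Fam S Q f y) (v : ι → ℝ)
    (h : ∀ t ∈ Q, ψ (S.a t.1) < v t.2 ∧ v t.2 ≤ ψ (y t)) : Q.card ≤ Fintype.card ι := by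
  obtain ⟨V, ha, -, hVP, -, hy⟩ := vf_ex S id strictMono_id Q f y hQ
  have h1 := vz V ψ (sub_mono hψ) v (fun t ht => by
    rw [ha, hy]
    rw [hVP] at ht
    exact h t ht)
  rwa [hVP] at h1

private theorem nii_vw (S : CZ.Sy ι) (ψ : ℝ → ℝ) (hψ : Sub S.φ ψ) (Q : Finset (ι × ι))
    (f y : ι × ι → ℝ) (hQ : CZ.Fam S Q f y) (v : ι → ℝ)
    (h : ∀ t ∈ Q, ψ (y t) < v t.1 ∧ v t.1 ≤ ψ (S.b t.2)) : Q.card ≤ Fintype.card ι := by
  obtain ⟨V, -, hb, hVP, -, hy⟩ := vf_ex S id strictMono_id Q f y hQ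
  have h1 := vw V ψ (sub_mono hψ) v (fun t ht => by
    rw [hb, hy]
    rw [hVP] at ht
    exact h t ht)
  rwa [hVP] at h1

/-- the inequalities (a), (b), (c) -/
private theorem nii_num (S : CZ.Sy ι) (ψ : ℝ → ℝ) (hψ : Sub S.φ ψ) {q s : ι} {f y : ℝ}
    (hv : CZ.Vis S q s f y) (N : ℕ) (hN : 32 ≤ N)
    (h1 : N * (S.a q - S.a s) ≤ f - S.a q)
    (h2 : N * (f - S.a q) ≤ S.b s - f)
    (h3 : N * (ψ (S.a q) - ψ (S.a s)) ≤ ψ f - ψ (S.a q)) :
    0 ≤ ψ (S.a q) - ψ (S.a s) ∧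
      16 * (ψ (S.a q) - ψ (S.a s)) ≤ S.p q - ψ (S.a q) ∧
      S.p q - ψ (S.a q) < 2 * (S.p s - ψ (S.a s)) ∧
      S.p s - ψ (S.a s) < 2 * (S.p q - ψ (S.a q)) ∧
      ψ (S.a q) + (S.p q - ψ (S.a q)) / 2 < ψ (S.b s) := by
  obtain ⟨o1, o2, o3, o4, o5, o6⟩ := CZ.vis_ord S hv
  have hNr : (32 : ℝ) ≤ (N : ℝ) := by exact_mod_cast hN
  have hNp : (0 : ℝ) < (N : ℝ) := by linarith
  have kq := sl_a S hψ q
  have ks := sl_a S hψ s
  have hT := sub_mono hψ o1.le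
  have hb := sl_b S hψ s
  have hsl := hv.sl
  -- (a)
  have ha : N * (S.p q - S.p s) ≤ S.p s - ψ (S.a s) := by
    have e1 := m_le S hψ hv
    have e2 : (S.p s - ψ (S.a s)) * (N * (S.a q - S.a s)) ≤
        (S.p s - ψ (S.a s)) * (f - S.a q) := mul_le_mul_of_nonneg_left h1 (by linarith)
    have e3 : N * ((S.p q - S.p s) * (f - S.a q)) ≤
        N * ((S.p s - ψ (S.a s)) * (S.a q - S.a s)) := mul_le_mul_of_nonneg_left e1 hNp.le
    have e4 : (N * (S.p q - S.p s)) * (f - S.a q) ≤ (S.p s - ψ (S.a s)) * (f - S.a q) := by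
      calc (N * (S.p q - S.p s)) * (f - S.a q) = N * ((S.p q - S.p s) * (f - S.a q)) := by ring
        _ ≤ N * ((S.p s - ψ (S.a s)) * (S.a q - S.a s)) := e3
        _ = (S.p s - ψ (S.a s)) * (N * (S.a q - S.a s)) := by ring
        _ ≤ _ := e2
    exact le_of_mul_le_mul_right e4 (by linarith)
  -- (b)
  have hb' : N * (ψ f - S.p q) ≤ S.p q - ψ (S.a q) := by
    have e1 := f_le S hψ hv
    have e2 : (S.p q - ψ (S.a q)) * (N * (f - S.a q)) ≤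
        (S.p q - ψ (S.a q)) * (S.b s - f) := mul_le_mul_of_nonneg_left h2 (by linarith)
    have e3 : N * ((ψ f - S.p q) * (S.b s - f)) ≤
        N * ((S.p q - ψ (S.a q)) * (f - S.a q)) := mul_le_mul_of_nonneg_left e1 hNp.le
    have e4 : (N * (ψ f - S.p q)) * (S.b s - f) ≤ (S.p q - ψ (S.a q)) * (S.b s - f) := by
      calc (N * (ψ f - S.p q)) * (S.b s - f) = N * ((ψ f - S.p q) * (S.b s - f)) := by ring
        _ ≤ N * ((S.p q - ψ (S.a q)) * (f - S.a q)) := e3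
        _ = (S.p q - ψ (S.a q)) * (N * (f - S.a q)) := by ring
        _ ≤ _ := e2
    exact le_of_mul_le_mul_right e4 (by linarith)
  have hf : ψ f - ψ (S.a q) ≤ 2 * (S.p q - ψ (S.a q)) := by
    rcases le_total (ψ f - S.p q) 0 with hc | hc
    · linarith
    · have : 1 * (ψ f - S.p q) ≤ N * (ψ f - S.p q) :=
        mul_le_mul_of_nonneg_right (by linarith) hc
      linarith
  have hTN : N * (ψ (S.a q) - ψ (S.a s)) ≤ 2 * (S.p q - ψ (S.a q)) := h3.trans hf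
  have hT32 : 32 * (ψ (S.a q) - ψ (S.a s)) ≤ N * (ψ (S.a q) - ψ (S.a s)) :=
    mul_le_mul_of_nonneg_right hNr (by linarith)
  have hm32 : 32 * (S.p q - S.p s) ≤ N * (S.p q - S.p s) :=
    mul_le_mul_of_nonneg_right hNr (by linarith)
  refine ⟨by linarith, by linarith, by linarith, by linarith, by linarith⟩

private theorem nii_log {x y : ℝ} (hx : 0 < x) (hy : 0 < y) (h : x < 2 * y) :
    Int.log 2 x ≤ Int.log 2 y + 1 := by
  have h1 : ((2 : ℕ) : ℝ) ^ Int.log 2 x ≤ x := Int.zpow_log_le_self (by norm_num) hx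
  have h2 : y < ((2 : ℕ) : ℝ) ^ (Int.log 2 y + 1) := Int.lt_zpow_succ_log_self (by norm_num) y
  have h3 : ((2 : ℕ) : ℝ) ^ Int.log 2 x < ((2 : ℕ) : ℝ) ^ (Int.log 2 y + 1 + 1) := by
    rw [zpow_add_one₀ (by norm_num) (Int.log 2 y + 1)]
    push_cast at h1 h2 ⊢
    linarith
  have h4 := (zpow_lt_zpow_iff_right₀ (by norm_num : (1 : ℝ) < ((2 : ℕ) : ℝ))).1 h3
  omega

theorem ii_card (S : CZ.Sy ι) (ψ : ℝ → ℝ) (hψ : Sub S.φ ψ) (P : Finset (ι × ι)) (f y : ι × ι → ℝ)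
    (hP : CZ.Fam S P f y) (N : ℕ) (hN : 32 ≤ N)
    (h1 : ∀ t ∈ P, N * (S.a t.1 - S.a t.2) ≤ f t - S.a t.1)
    (h2 : ∀ t ∈ P, N * (f t - S.a t.1) ≤ S.b t.2 - f t)
    (h3 : ∀ t ∈ P, N * (ψ (S.a t.1) - ψ (S.a t.2)) ≤ ψ (f t) - ψ (S.a t.1)) :
    P.card ≤ 7 * Fintype.card ι := by
  classical
  have hk : ∀ c, 0 < S.p c - ψ (S.a c) := fun c => by
    have := sl_a S hψ c
    linarith
  obtain ⟨k, hkd⟩ : ∃ k : ι → ℝ, k = fun c => S.p c - ψ (S.a c) := ⟨_, rfl⟩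
  have hkc : ∀ c, k c = S.p c - ψ (S.a c) := fun c => by rw [hkd]
  obtain ⟨G, hG⟩ : ∃ G : ℤ → ℝ, G = fun e => (2 : ℝ) ^ e / 8 := ⟨_, rfl⟩
  have hGpos : ∀ e, 0 < G e := fun e => by
    rw [hG]
    positivity
  obtain ⟨v, hv⟩ : ∃ v : ι → ℝ, v = fun q =>
      G (Int.log 2 (k q)) * ((⌊ψ (S.a q) / G (Int.log 2 (k q))⌋ : ℝ) + 1) := ⟨_, rfl⟩
  obtain ⟨w, hw⟩ : ∃ w : ℤ × ℤ → ι → ℝ, w = fun x s =>
      G (Int.log 2 (k s) + x.1) * ((⌊ψ (S.a s) / G (Int.log 2 (k s) + x.1)⌋ : ℝ) + x.2) := ⟨_, rfl⟩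
  have hg8 : ∀ c, 8 * G (Int.log 2 (k c)) ≤ k c := by
    intro c
    have h := Int.zpow_log_le_self (R := ℝ) (b := 2) (by norm_num) (hkc c ▸ hk c : 0 < k c)
    rw [hG]
    dsimp only
    push_cast at h
    linarith
  have hv1 : ∀ q, ψ (S.a q) < v q := by
    intro q
    rw [hv]
    dsimp only
    have h := Int.lt_floor_add_one (ψ (S.a q) / G (Int.log 2 (k q)))
    rw [div_lt_iff₀ (hGpos _)] at h
    linarith
  have hv2 : ∀ q, v q ≤ ψ (S.a q) + G (Int.log 2 (k q)) := by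
    intro q
    rw [hv]
    dsimp only
    have h := Int.floor_le (ψ (S.a q) / G (Int.log 2 (k q)))
    rw [le_div_iff₀ (hGpos _)] at h
    linarith
  have hnum := fun t (ht : t ∈ P) => nii_num S ψ hψ (hP t ht) N hN (h1 t ht) (h2 t ht) (h3 t ht)
  -- the values
  have hval : ∀ t ∈ P, ∃ x ∈ (({-1, 0, 1} : Finset ℤ) ×ˢ ({1, 2} : Finset ℤ)), v t.1 = w x t.2 := by
    intro t ht
    obtain ⟨n1, n2, n3, n4, n5⟩ := hnum t ht
    rw [← hkc, ← hkc] at n3 n4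
    rw [← hkc] at n2
    have hq := hkc t.1 ▸ hk t.1
    have hs := hkc t.2 ▸ hk t.2
    have l1 := nii_log hq hs n3
    have l2 := nii_log hs hq n4
    obtain ⟨e, he⟩ : ∃ e, e = Int.log 2 (k t.1) - Int.log 2 (k t.2) := ⟨_, rfl⟩
    have he' : Int.log 2 (k t.2) + e = Int.log 2 (k t.1) := by omega
    have hg := hGpos (Int.log 2 (k t.1))
    have hgk := hg8 t.1
    have hup : k t.1 < 16 * G (Int.log 2 (k t.1)) := by
      have h := Int.lt_zpow_succ_log_self (R := ℝ) (b := 2) (by norm_num) (k t.1)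
      rw [zpow_add_one₀ (by norm_num)] at h
      rw [hG]
      dsimp only
      push_cast at h
      linarith
    have hfl1 : ⌊ψ (S.a t.2) / G (Int.log 2 (k t.1))⌋ ≤ ⌊ψ (S.a t.1) / G (Int.log 2 (k t.1))⌋ := by
      refine Int.floor_le_floor ?_
      exact div_le_div_of_nonneg_right (by linarith) hg.le
    have hfl2 : ⌊ψ (S.a t.1) / G (Int.log 2 (k t.1))⌋ ≤ ⌊ψ (S.a t.2) / G (Int.log 2 (k t.1))⌋ + 1 := by
      rw [← Int.floor_add_one]
      refine Int.floor_le_floor ?_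
      rw [div_add_one hg.ne']
      exact div_le_div_of_nonneg_right (by linarith) hg.le
    obtain ⟨i, hi⟩ : ∃ i, i = ⌊ψ (S.a t.1) / G (Int.log 2 (k t.1))⌋ -
      ⌊ψ (S.a t.2) / G (Int.log 2 (k t.1))⌋ + 1 := ⟨_, rfl⟩
    refine ⟨(e, i), ?_, ?_⟩
    · rw [Finset.mem_product]
      simp only [Finset.mem_insert, Finset.mem_singleton]
      constructor
      · omega
      · omega
    · rw [hv, hw]
      dsimp only
      rw [he', hi]
      push_cast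
      ring
  -- the first part
  have hP1 : (P.filter fun t => ψ (y t) < v t.1).card ≤ Fintype.card ι := by
    refine nii_vw S ψ hψ _ f y (fun t ht => hP t (Finset.mem_of_mem_filter t ht)) v ?_
    intro t ht
    rw [Finset.mem_filter] at ht
    refine ⟨ht.2, ?_⟩
    obtain ⟨n1, n2, n3, n4, n5⟩ := hnum t ht.1
    have c1 := hv2 t.1
    have c2 := hg8 t.1
    have c3 := hGpos (Int.log 2 (k t.1))
    rw [← hkc] at n5
    linarith
  have hP2 : (P.filter fun t => ¬ ψ (y t) < v t.1).card ≤ 6 * Fintype.card ι := by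
    have hsub : (P.filter fun t => ¬ ψ (y t) < v t.1) ⊆
        (({-1, 0, 1} : Finset ℤ) ×ˢ ({1, 2} : Finset ℤ)).biUnion fun x =>
          P.filter fun t => v t.1 = w x t.2 ∧ v t.1 ≤ ψ (y t) := by
      intro t ht
      rw [Finset.mem_filter] at ht
      obtain ⟨x, hx, hx'⟩ := hval t ht.1
      rw [Finset.mem_biUnion]
      exact ⟨x, hx, Finset.mem_filter.2 ⟨ht.1, hx', not_lt.1 ht.2⟩⟩
    refine (Finset.card_le_card hsub).trans ?_
    refine (Finset.card_biUnion_le_card_mul _ _ (Fintype.card ι) ?_).trans (le_of_eq ?_)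
    · intro x _
      refine nii_vz S ψ hψ _ f y (fun t ht => hP t (Finset.mem_of_mem_filter t ht)) (w x) ?_
      intro t ht
      rw [Finset.mem_filter] at ht
      rw [← ht.2.1]
      exact ⟨hv1 t.1, ht.2.2⟩
    · rfl
  have hsum := Finset.card_filter_add_card_filter_not (s := P) (fun t => ψ (y t) < v t.1)
  omega

end Pool.Agent.Work.MP_e64a38_co.FF
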