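import Pool.Agent.Work.MP_e64a38_co.FF.Defs

/-!
# Pairs around a cut point (size M)

`vstr`: if `a s < z < b q` for all pairs then `P.card ≤ 6 card ι + 2`.

Proof. Split `P` into four parts.
(1) `z ≤ a q`: at most one for every cell, so at most `2 n + 1`. (2) `b s ≤ z`: at most one for every cell.
(3) `a q < z < b s` and `y ≤ z`: `t ↦ t.1` is injective: if `t ≠ t'` have the same `q` and `y t ≤ y t'` then by `fa`
`b t.2 < y t' ≤ z`, contradiction. So at most `n`.
(4) `a q < z < b s` and `z < y`: `t ↦ t.2` is injective: if `t ≠ t'` have the same `s` and `y t ≤ y t'` then by `fb`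
`y t < a t'.1 < z`, contradiction. So at most `n`.
At most one for every cell: map `t` to `N t = #{c : a c < y t} + #{c : b c < y t}` in `{0, ..., 2 n}` (as in
`VCell`; the equality of `N t` and `N t'` implies that the same chords are alive at `y t` and `y t'`, see
`CZ.ZCells`). It is injective on part (1): if `t ≠ t'` and `N t = N t'` then by `cel` (wlog) `a t'.1 ≤ a t.2`, so
`z ≤ a t'.1 ≤ a t.2 < z`. On part (2): `b t'.1 ≤ b t.2`, so `z < b t'.1 ≤ b t.2 ≤ z`.
-/

set_option autoImplicit false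

namespace Pool.Agent.Work.MP_e64a38_co.FF

variable {ι : Type} [Fintype ι]

open Classical in
private theorem vstr_mono (V : VF ι) {y y' : ℝ} (hyy : y ≤ y') (h : ∀ c, y ≠ V.a c ∧ y ≠ V.b c)
    (h' : ∀ c, y' ≠ V.a c ∧ y' ≠ V.b c)
    (hN : (Finset.univ.filter (fun i => V.a i < y)).card +
      (Finset.univ.filter (fun i => V.b i < y)).card =
      (Finset.univ.filter (fun i => V.a i < y')).card +
      (Finset.univ.filter (fun i => V.b i < y')).card) (c : ι) :
    (V.a c < y ∧ y < V.b c) ↔ (V.a c < y' ∧ y' < V.b c) := by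
  have s1 : Finset.univ.filter (fun i => V.a i < y) ⊆ Finset.univ.filter (fun i => V.a i < y') := by
    intro i hi
    rw [Finset.mem_filter] at hi ⊢
    exact ⟨hi.1, lt_of_lt_of_le hi.2 hyy⟩
  have s2 : Finset.univ.filter (fun i => V.b i < y) ⊆ Finset.univ.filter (fun i => V.b i < y') := by
    intro i hi
    rw [Finset.mem_filter] at hi ⊢
    exact ⟨hi.1, lt_of_lt_of_le hi.2 hyy⟩
  have c1 := Finset.card_le_card s1
  have c2 := Finset.card_le_card s2
  have e1 := Finset.eq_of_subset_of_card_le s1 (by omega)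
  have e2 := Finset.eq_of_subset_of_card_le s2 (by omega)
  have g1 : V.a c < y ↔ V.a c < y' := by
    have := Finset.ext_iff.1 e1 c
    simpa using this
  have g2 : V.b c < y ↔ V.b c < y' := by
    have := Finset.ext_iff.1 e2 c
    simpa using this
  have k1 : y < V.b c ↔ ¬ V.b c < y :=
    ⟨fun hh => not_lt.2 hh.le, fun hh => lt_of_le_of_ne (not_lt.1 hh) (h c).2⟩
  have k2 : y' < V.b c ↔ ¬ V.b c < y' :=
    ⟨fun hh => not_lt.2 hh.le, fun hh => lt_of_le_of_ne (not_lt.1 hh) (h' c).2⟩
  rw [k1, k2, g1, g2]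

open Classical in
private theorem vstr_cell (V : VF ι) (Q : Finset (ι × ι)) (hQ : Q ⊆ V.P)
    (hq : ∀ t ∈ Q, ∀ t' ∈ Q, V.a t'.1 ≤ V.a t.2 → V.b t'.1 ≤ V.b t.2 → False) :
    Q.card ≤ 2 * Fintype.card ι + 1 := by
  have hsame : ∀ t ∈ Q, ∀ t' ∈ Q,
      (∀ c, (V.a c < V.y t ∧ V.y t < V.b c) ↔ (V.a c < V.y t' ∧ V.y t' < V.b c)) → t = t' := by
    intro t ht t' ht' hal
    by_contra hne
    rcases V.cel t (hQ ht) t' (hQ ht') hne hal with ⟨_, p2, p3⟩ | ⟨_, p2, p3⟩
    · exact hq t ht t' ht' p2 p3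
    · exact hq t' ht' t ht p2 p3
  have hc : Q.card ≤ (Finset.range (2 * Fintype.card ι + 1)).card := by
    apply Finset.card_le_card_of_injOn (fun t =>
      (Finset.univ.filter (fun i => V.a i < V.y t)).card +
        (Finset.univ.filter (fun i => V.b i < V.y t)).card)
    · intro t _
      have c1 := Finset.card_le_univ (Finset.univ.filter (fun i => V.a i < V.y t))
      have c2 := Finset.card_le_univ (Finset.univ.filter (fun i => V.b i < V.y t))
      simp only [Finset.coe_range, Set.mem_Iio]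
      omega
    · intro t ht t' ht' hAB
      have ht1 : t ∈ Q := by simpa using ht
      have ht2 : t' ∈ Q := by simpa using ht'
      simp only at hAB
      rcases le_total (V.y t) (V.y t') with hle | hle
      · exact hsame t ht1 t' ht2
          (vstr_mono V hle (V.off t (hQ ht1)) (V.off t' (hQ ht2)) hAB)
      · exact (hsame t' ht2 t ht1
          (vstr_mono V hle (V.off t' (hQ ht2)) (V.off t (hQ ht1)) hAB.symm)).symm
  rwa [Finset.card_range] at hc

theorem vstr (V : VF ι) (z : ℝ) (h : ∀ t ∈ V.P, V.a t.2 < z ∧ z < V.b t.1) :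
    V.P.card ≤ 6 * Fintype.card ι + 2 := by
  classical
  have q1 : (V.P.filter (fun t => z ≤ V.a t.1)).card ≤ 2 * Fintype.card ι + 1 := by
    apply vstr_cell V _ (Finset.filter_subset _ _)
    intro t ht t' ht' p2 _
    rw [Finset.mem_filter] at ht ht'
    have := (h t ht.1).1
    linarith [ht'.2]
  have q2 : (V.P.filter (fun t => V.b t.2 ≤ z)).card ≤ 2 * Fintype.card ι + 1 := by
    apply vstr_cell V _ (Finset.filter_subset _ _)
    intro t ht t' ht' _ p3
    rw [Finset.mem_filter] at ht ht'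
    have := (h t' ht'.1).2
    linarith [ht.2]
  have q3 : (V.P.filter (fun t => z < V.b t.2 ∧ V.y t ≤ z)).card ≤ Fintype.card ι := by
    rw [← Finset.card_univ]
    apply Finset.card_le_card_of_injOn (fun t => t.1)
    · intro t _
      simp
    · intro t ht t' ht' hAB
      have ht1 : t ∈ V.P ∧ (z < V.b t.2 ∧ V.y t ≤ z) := by simpa using ht
      have ht2 : t' ∈ V.P ∧ (z < V.b t'.2 ∧ V.y t' ≤ z) := by simpa using ht'
      simp only at hAB
      by_contra hne
      rcases le_total (V.y t) (V.y t') with hle | hle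
      · have := (V.fa t ht1.1 t' ht2.1 hAB hne hle).1
        linarith [ht1.2.1, ht2.2.2]
      · have := (V.fa t' ht2.1 t ht1.1 hAB.symm (fun e => hne e.symm) hle).1
        linarith [ht2.2.1, ht1.2.2]
  have q4 : (V.P.filter (fun t => V.a t.1 < z ∧ z < V.y t)).card ≤ Fintype.card ι := by
    rw [← Finset.card_univ]
    apply Finset.card_le_card_of_injOn (fun t => t.2)
    · intro t _
      simp
    · intro t ht t' ht' hAB
      have ht1 : t ∈ V.P ∧ (V.a t.1 < z ∧ z < V.y t) := by simpa using ht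
      have ht2 : t' ∈ V.P ∧ (V.a t'.1 < z ∧ z < V.y t') := by simpa using ht'
      simp only at hAB
      by_contra hne
      rcases le_total (V.y t) (V.y t') with hle | hle
      · have := V.fb t ht1.1 t' ht2.1 hAB hne hle
        linarith [ht2.2.1, ht1.2.2]
      · have := V.fb t' ht2.1 t ht1.1 hAB.symm (fun e => hne e.symm) hle
        linarith [ht1.2.1, ht2.2.2]
  have hsub : V.P ⊆ ((V.P.filter (fun t => z ≤ V.a t.1)) ∪ (V.P.filter (fun t => V.b t.2 ≤ z))) ∪
      ((V.P.filter (fun t => z < V.b t.2 ∧ V.y t ≤ z)) ∪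
        (V.P.filter (fun t => V.a t.1 < z ∧ z < V.y t))) := by
    intro t ht
    simp only [Finset.mem_union, Finset.mem_filter, ht, true_and]
    by_cases c1 : z ≤ V.a t.1
    · exact Or.inl (Or.inl c1)
    by_cases c2 : V.b t.2 ≤ z
    · exact Or.inl (Or.inr c2)
    by_cases c3 : V.y t ≤ z
    · exact Or.inr (Or.inl ⟨not_le.1 c2, c3⟩)
    · exact Or.inr (Or.inr ⟨not_le.1 c1, not_le.1 c3⟩)
  have u0 := Finset.card_le_card hsub
  have u1 := Finset.card_union_le ((V.P.filter (fun t => z ≤ V.a t.1)) ∪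
    (V.P.filter (fun t => V.b t.2 ≤ z))) ((V.P.filter (fun t => z < V.b t.2 ∧ V.y t ≤ z)) ∪
        (V.P.filter (fun t => V.a t.1 < z ∧ z < V.y t)))
  have u2 := Finset.card_union_le (V.P.filter (fun t => z ≤ V.a t.1))
    (V.P.filter (fun t => V.b t.2 ≤ z))
  have u3 := Finset.card_union_le (V.P.filter (fun t => z < V.b t.2 ∧ V.y t ≤ z))
    (V.P.filter (fun t => V.a t.1 < z ∧ z < V.y t))
  omega

end Pool.Agent.Work.MP_e64a38_co.FF
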