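import Pool.Agent.Work.MP_e64a38_co.FF.VTwo
import Pool.Agent.Work.MP_e64a38_co.FF.NHi
import Pool.Agent.Work.MP_e64a38_co.FF.NII
import Pool.Agent.Work.MP_e64a38_co.FF.VStr

/-!
# Visible crossings of a curve without separated flattening (size M)

`inc_card`: `N ≥ 32`, all pairs satisfy `Inc N` in the coordinate `x`, and those with `Dec N` in the coordinate `ψ`
satisfy `ψ (b q) ≤ ψ (b s)` (that is, no pair is flat): `P.card ≤ 650 N (n + 1)`.
Proof. (1) the pairs with `p q ≤ ψ (b s)`: `hi_card`, `2 n`. (2) Of the others, those with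
`N (ψ (a q) - ψ (a s)) ≤ ψ f - ψ (a q)`: `ii_card`, `7 n`. (3) The others do not satisfy `Inc N` in the
coordinate `ψ`. They do not satisfy `Dec N` in the coordinate `ψ` either, because `ψ (b q) > p q > ψ (b s)`
(`sl_b`). So `pos_lim`: `640 N (n + 1)`. Sum: `640 N (n + 1) + 9 n ≤ 650 N (n + 1)`.

`fam_card`: `N ≥ 32`, no pair is flat in one of the two directions: `P.card ≤ 1950 N (n + 1)`.
Proof. (1) The pairs with neither `Inc N` nor `Dec N` in the coordinate `x` (`X = id`): `pos_two`,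
`640 N (n + 1)`. (2) Those with `Inc N`: `inc_card`, `650 N (n + 1)`. (3) Those with `Dec N`: the mirror image
(`S.mir`, `P.image Prod.swap`, `- f t.swap`, `- y t.swap`, `mr ψ`, `sub_mir`, `CZ.vis_mir`, as in the proof of
`pos_two`) satisfies `Inc N` in the coordinate `x`, and its flat pairs are the pairs with `Inc N` in the coordinate
`ψ` and `ψ (a s) < ψ (a q)`: `650 N (n + 1)` by `inc_card`. Total `1940 N (n + 1)`.

`prs_card`: if there is no `Flt N Z ψ` and no `Flt N (mZ Z) (mr ψ)` then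
`(Prs S).card ≤ 1950 N (n + 1) + Z.card (6 n + 2)`. Choose `f`, `y` for the pairs of `CZ.Prs S` (see
`CZ.GPairs`). For every `z ∈ Z` the pairs with `a s < z < b q` are at most `6 n + 2` (`vstr`, with `vf_ex` and
`X = id`). The other pairs form a family without flat pairs: if `Inc N` in `x`, `Dec N` in `ψ` and
`ψ (b s) < ψ (b q)` then `x0 = a s`, `x1 = a q`, `x2 = f`, `x3 = b s`, `x4 = b q` is a `Flt N Z ψ`; if `Dec N` in `x`,
`Inc N` in `ψ` and `ψ (a s) < ψ (a q)` then `x0 = - b q`, `x1 = - b s`, `x2 = - f`, `x3 = - a q`, `x4 = - a s` is a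
`Flt N (mZ Z) (mr ψ)`. So `fam_card`.
-/

set_option autoImplicit false

namespace Pool.Agent.Work.MP_e64a38_co.FF

variable {ι : Type} [Fintype ι]

private theorem card_split (P : Finset (ι × ι)) (p : ι × ι → Prop) [DecidablePred p] :
    P.card ≤ (P.filter p).card + (P.filter (fun t => ¬ p t)).card := by
  classical
  have h : P ⊆ P.filter p ∪ P.filter (fun t => ¬ p t) := by
    intro t ht
    rw [Finset.mem_union, Finset.mem_filter, Finset.mem_filter]
    by_cases hp : p t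
    · exact Or.inl ⟨ht, hp⟩
    · exact Or.inr ⟨ht, hp⟩
  exact (Finset.card_le_card h).trans (Finset.card_union_le _ _)

theorem inc_card (S : CZ.Sy ι) (ψ : ℝ → ℝ) (hψ : Sub S.φ ψ) (P : Finset (ι × ι)) (f y : ι × ι → ℝ)
    (hP : CZ.Fam S P f y) (N : ℕ) (hN : 32 ≤ N)
    (hF : ∀ t ∈ P, DecT S ψ f y N t → ψ (S.b t.1) ≤ ψ (S.b t.2))
    (h : ∀ t ∈ P, IncT S id f y N t) : P.card ≤ 650 * N * (Fintype.card ι + 1) := by
  classical
  have c1 := card_split P (fun t => S.p t.1 ≤ ψ (S.b t.2))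
  set Q1 := P.filter (fun t => S.p t.1 ≤ ψ (S.b t.2)) with hQ1
  set R1 := P.filter (fun t => ¬ (S.p t.1 ≤ ψ (S.b t.2))) with hR1
  have c2 := card_split R1 (fun t => N * (ψ (S.a t.1) - ψ (S.a t.2)) ≤ ψ (f t) - ψ (S.a t.1))
  set Q2 := R1.filter (fun t => N * (ψ (S.a t.1) - ψ (S.a t.2)) ≤ ψ (f t) - ψ (S.a t.1)) with hQ2
  set R2 := R1.filter (fun t => ¬ (N * (ψ (S.a t.1) - ψ (S.a t.2)) ≤ ψ (f t) - ψ (S.a t.1))) with hR2
  have sQ1 : ∀ t ∈ Q1, t ∈ P := fun t ht => (Finset.mem_filter.1 ht).1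
  have sR1 : ∀ t ∈ R1, t ∈ P := fun t ht => (Finset.mem_filter.1 ht).1
  have sQ2 : ∀ t ∈ Q2, t ∈ R1 := fun t ht => (Finset.mem_filter.1 ht).1
  have sR2 : ∀ t ∈ R2, t ∈ R1 := fun t ht => (Finset.mem_filter.1 ht).1
  have hI : ∀ t ∈ P, Inc N (S.a t.2) (S.a t.1) (f t) (S.b t.2) (S.b t.1) (y t) := fun t ht => h t ht
  have b1 : Q1.card ≤ 2 * Fintype.card ι :=
    hi_card S ψ hψ Q1 f y (fun t ht => hP t (sQ1 t ht)) N (by omega)
      (fun t ht => (hI t (sQ1 t ht)).2.2.2) (fun t ht => (Finset.mem_filter.1 ht).2)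
  have b2 : Q2.card ≤ 7 * Fintype.card ι :=
    ii_card S ψ hψ Q2 f y (fun t ht => hP t (sR1 t (sQ2 t ht))) N hN
      (fun t ht => (hI t (sR1 t (sQ2 t ht))).1) (fun t ht => (hI t (sR1 t (sQ2 t ht))).2.1)
      (fun t ht => (Finset.mem_filter.1 ht).2)
  have b3 : R2.card ≤ 640 * N * (Fintype.card ι + 1) := by
    refine pos_lim S ψ (sub_mono hψ) R2 f y (fun t ht => hP t (sR1 t (sR2 t ht))) N (by omega) ?_
    intro t ht
    have k1 : ψ (S.b t.2) < S.p t.1 := not_le.1 (Finset.mem_filter.1 (sR2 t ht)).2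
    have k2 : ¬ (N * (ψ (S.a t.1) - ψ (S.a t.2)) ≤ ψ (f t) - ψ (S.a t.1)) :=
      (Finset.mem_filter.1 ht).2
    have htP : t ∈ P := sR1 t (sR2 t ht)
    refine ⟨fun hc => k2 hc.1, fun hc => ?_⟩
    have j := sl_b S hψ t.1
    have j2 := hF t htP hc
    linarith
  have b4 : 9 * Fintype.card ι ≤ 10 * N * (Fintype.card ι + 1) := by
    have : 9 * Fintype.card ι ≤ 10 * N * Fintype.card ι :=
      Nat.mul_le_mul_right _ (by omega)
    calc 9 * Fintype.card ι ≤ 10 * N * Fintype.card ι := this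
      _ ≤ 10 * N * (Fintype.card ι + 1) := Nat.mul_le_mul_left _ (Nat.le_succ _)
  have b5 : 650 * N * (Fintype.card ι + 1) =
      640 * N * (Fintype.card ι + 1) + 10 * N * (Fintype.card ι + 1) := by ring
  omega

private theorem dec_card (S : CZ.Sy ι) (ψ : ℝ → ℝ) (hψ : Sub S.φ ψ) (P : Finset (ι × ι))
    (f y : ι × ι → ℝ) (hP : CZ.Fam S P f y) (N : ℕ) (hN : 32 ≤ N) 
    (hF' : ∀ t ∈ P, IncT S ψ f y N t → ψ (S.a t.1) ≤ ψ (S.a t.2))
    (h : ∀ t ∈ P, DecT S id f y N t) : P.card ≤ 650 * N * (Fintype.card ι + 1) := by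
  classical
  have hmem : ∀ t ∈ P.image Prod.swap, t.swap ∈ P := by
    intro t ht
    obtain ⟨u, hu, rfl⟩ := Finset.mem_image.1 ht
    rw [Prod.swap_swap]
    exact hu
  have hc : P.card = (P.image Prod.swap).card :=
    (Finset.card_image_of_injective P Prod.swap_injective).symm
  rw [hc]
  refine inc_card S.mir (mr ψ) (sub_mir S hψ) (P.image Prod.swap) (fun t => - f t.swap)
    (fun t => - y t.swap) (fun t ht => CZ.vis_mir S (hP t.swap (hmem t ht))) N hN ?_ ?_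
  · intro t ht hd
    have hd2 : Dec N (- ψ (- - S.b t.2)) (- ψ (- - S.b t.1)) (- ψ (- - f t.swap)) (- ψ (- - S.a t.2))
        (- ψ (- - S.a t.1)) (- ψ (- - y t.swap)) := hd
    simp only [neg_neg] at hd2
    obtain ⟨d1, d2, d3, d4⟩ := hd2
    have hi : Inc N (ψ (S.a t.1)) (ψ (S.a t.2)) (ψ (f t.swap)) (ψ (S.b t.1)) (ψ (S.b t.2))
        (ψ (y t.swap)) := by
      refine ⟨?_, ?_, ?_, ?_⟩
      · linarith
      · linarith
      · linarith
      · linarith
    have hk : ψ (S.a t.2) ≤ ψ (S.a t.1) := hF' t.swap (hmem t ht) hi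
    show - ψ (- - S.a t.1) ≤ - ψ (- - S.a t.2)
    simp only [neg_neg]
    linarith
  intro t ht
  have hd : Dec N (S.a t.1) (S.a t.2) (f t.swap) (S.b t.1) (S.b t.2) (y t.swap) :=
    h t.swap (hmem t ht)
  obtain ⟨d1, d2, d3, d4⟩ := hd
  refine ⟨?_, ?_, ?_, ?_⟩
  · change (N : ℝ) * (- S.b t.1 - - S.b t.2) ≤ - f t.swap - - S.b t.1
    linarith
  · change (N : ℝ) * (- f t.swap - - S.b t.1) ≤ - S.a t.2 - - f t.swap
    linarith
  · change (N : ℝ) * (- S.a t.2 - - f t.swap) ≤ - S.a t.1 - - S.a t.2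
    linarith
  · change (N : ℝ) * (- y t.swap - - S.b t.1) ≤ - S.a t.2 - - f t.swap
    linarith

theorem fam_card (S : CZ.Sy ι) (ψ : ℝ → ℝ) (hψ : Sub S.φ ψ) (P : Finset (ι × ι)) (f y : ι × ι → ℝ)
    (hP : CZ.Fam S P f y) (N : ℕ) (hN : 32 ≤ N) 
    (hF : ∀ t ∈ P, IncT S id f y N t → DecT S ψ f y N t → ψ (S.b t.1) ≤ ψ (S.b t.2))
    (hF' : ∀ t ∈ P, DecT S id f y N t → IncT S ψ f y N t → ψ (S.a t.1) ≤ ψ (S.a t.2)) :
    P.card ≤ 1950 * N * (Fintype.card ι + 1) := by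
  classical
  have c1 := card_split P (fun t => IncT S id f y N t)
  set Q1 := P.filter (fun t => IncT S id f y N t) with hQ1
  set R1 := P.filter (fun t => ¬ (IncT S id f y N t)) with hR1
  have c2 := card_split R1 (fun t => DecT S id f y N t)
  set Q2 := R1.filter (fun t => DecT S id f y N t) with hQ2
  set R2 := R1.filter (fun t => ¬ (DecT S id f y N t)) with hR2
  have sQ1 : ∀ t ∈ Q1, t ∈ P := fun t ht => (Finset.mem_filter.1 ht).1
  have sR1 : ∀ t ∈ R1, t ∈ P := fun t ht => (Finset.mem_filter.1 ht).1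
  have sQ2 : ∀ t ∈ Q2, t ∈ R1 := fun t ht => (Finset.mem_filter.1 ht).1
  have sR2 : ∀ t ∈ R2, t ∈ R1 := fun t ht => (Finset.mem_filter.1 ht).1
  have b1 : Q1.card ≤ 650 * N * (Fintype.card ι + 1) :=
    inc_card S ψ hψ Q1 f y (fun t ht => hP t (sQ1 t ht)) N hN
      (fun t ht => hF t (sQ1 t ht) (Finset.mem_filter.1 ht).2) (fun t ht => (Finset.mem_filter.1 ht).2)
  have b2 : Q2.card ≤ 650 * N * (Fintype.card ι + 1) :=
    dec_card S ψ hψ Q2 f y (fun t ht => hP t (sR1 t (sQ2 t ht))) N hN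
      (fun t ht => hF' t (sR1 t (sQ2 t ht)) (Finset.mem_filter.1 ht).2)
      (fun t ht => (Finset.mem_filter.1 ht).2)
  have b3 : R2.card ≤ 640 * N * (Fintype.card ι + 1) :=
    pos_two S id strictMono_id R2 f y (fun t ht => hP t (sR1 t (sR2 t ht))) N (by omega)
      (fun t ht => ⟨(Finset.mem_filter.1 (sR2 t ht)).2, (Finset.mem_filter.1 ht).2⟩)
  have b5 : 1950 * N * (Fintype.card ι + 1) =
      650 * N * (Fintype.card ι + 1) + 650 * N * (Fintype.card ι + 1)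
        + 640 * N * (Fintype.card ι + 1) + 10 * N * (Fintype.card ι + 1) := by ring
  omega

theorem prs_card (S : CZ.Sy ι) (ψ : ℝ → ℝ) (hψ : Sub S.φ ψ) (N : ℕ) (hN : 32 ≤ N) (Z : Finset ℝ)
    (hF : ¬ Flt N Z ψ) (hF' : ¬ Flt N (mZ Z) (mr ψ)) :
    (CZ.Prs S).card ≤ 1950 * N * (Fintype.card ι + 1) + Z.card * (6 * Fintype.card ι + 2) := by
  classical
  have h : ∀ t : ι × ι, ∃ w : ℝ × ℝ, t ∈ CZ.Prs S → CZ.Vis S t.1 t.2 w.1 w.2 := by
    intro t
    by_cases ht : t ∈ CZ.Prs S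
    · unfold CZ.Prs at ht
      obtain ⟨f, y, hv⟩ := (Finset.mem_filter.1 ht).2
      exact ⟨(f, y), fun _ => hv⟩
    · exact ⟨(0, 0), fun h => absurd h ht⟩
  choose w hw using h
  set f : ι × ι → ℝ := fun t => (w t).1 with hf
  set y : ι × ι → ℝ := fun t => (w t).2 with hy
  have hfam : CZ.Fam S (CZ.Prs S) f y := fun t ht => hw t ht
  have c1 := card_split (CZ.Prs S) (fun t => ∃ z ∈ Z, S.a t.2 < z ∧ z < S.b t.1)
  set Q := (CZ.Prs S).filter (fun t => ∃ z ∈ Z, S.a t.2 < z ∧ z < S.b t.1) with hQ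
  set R := (CZ.Prs S).filter (fun t => ¬ ∃ z ∈ Z, S.a t.2 < z ∧ z < S.b t.1) with hR
  have sR : ∀ t ∈ R, t ∈ CZ.Prs S := fun t ht => (Finset.mem_filter.1 ht).1
  have b1 : Q.card ≤ Z.card * (6 * Fintype.card ι + 2) := by
    have hsub : Q ⊆ Z.biUnion (fun z => (CZ.Prs S).filter (fun t => S.a t.2 < z ∧ z < S.b t.1)) := by
      intro t ht
      obtain ⟨h1, z, hz, h2⟩ := Finset.mem_filter.1 ht
      rw [Finset.mem_biUnion]
      exact ⟨z, hz, Finset.mem_filter.2 ⟨h1, h2⟩⟩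
    refine (Finset.card_le_card hsub).trans (Finset.card_biUnion_le_card_mul _ _ _ ?_)
    intro z _
    obtain ⟨V, v1, v2, v3, v4, v5⟩ := vf_ex S id strictMono_id
      ((CZ.Prs S).filter (fun t => S.a t.2 < z ∧ z < S.b t.1)) f y
      (fun t ht => hfam t (Finset.mem_filter.1 ht).1)
    rw [← v3]
    refine vstr V z ?_
    intro t ht
    rw [v3] at ht
    rw [v1, v2]
    exact (Finset.mem_filter.1 ht).2
  have b2 : R.card ≤ 1950 * N * (Fintype.card ι + 1) := by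
    refine fam_card S ψ hψ R f y (fun t ht => hfam t (sR t ht)) N hN ?_ ?_
    · intro t ht hi hd
      by_contra hc
      rw [not_le] at hc
      have o := CZ.vis_ord S (hfam t (sR t ht))
      have hi' : Inc N (S.a t.2) (S.a t.1) (f t) (S.b t.2) (S.b t.1) (y t) := hi
      refine hF ⟨S.a t.2, S.a t.1, f t, S.b t.2, S.b t.1, o.1, o.2.1, o.2.2.1, o.2.2.2.1, ?_,
        hi'.1, hi'.2.1, hi'.2.2.1, by linarith, hd.1, hd.2.1, hd.2.2.1⟩
      intro z hz
      by_contra hcz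
      push Not at hcz
      exact (Finset.mem_filter.1 ht).2 ⟨z, hz, hcz⟩
    · intro t ht hd hi
      by_contra hc
      rw [not_le] at hc
      have o := CZ.vis_ord S (hfam t (sR t ht))
      obtain ⟨d1, d2, d3, d4⟩ : Dec N (S.a t.2) (S.a t.1) (f t) (S.b t.2) (S.b t.1) (y t) := hd
      obtain ⟨i1, i2, i3, i4⟩ : Inc N (ψ (S.a t.2)) (ψ (S.a t.1)) (ψ (f t)) (ψ (S.b t.2))
        (ψ (S.b t.1)) (ψ (y t)) := hi
      refine hF' ⟨- S.b t.1, - S.b t.2, - f t, - S.a t.1, - S.a t.2, neg_lt_neg o.2.2.2.1,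
        neg_lt_neg o.2.2.1, neg_lt_neg o.2.1, neg_lt_neg o.1, ?_, by linarith, by linarith,
        by linarith, ?_, ?_, ?_, ?_⟩
      · intro z hz
        unfold mZ at hz
        obtain ⟨z', hz', rfl⟩ := Finset.mem_image.1 hz
        by_contra hcz
        push Not at hcz
        exact (Finset.mem_filter.1 ht).2 ⟨z', hz', by linarith [hcz.2], by linarith [hcz.1]⟩
      · simp only [mr, neg_neg]
        linarith
      · simp only [mr, neg_neg]
        linarith
      · simp only [mr, neg_neg]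
        linarith
      · simp only [mr, neg_neg]
        linarith
  omega

end Pool.Agent.Work.MP_e64a38_co.FF
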