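import Pool.Agent.Work.MP_e64a38_co.FF.WSy
import Pool.Agent.Work.MP_e64a38_co.FF.WZn
import Pool.Agent.Work.MP_e64a38_co.FF.WFlt
import Pool.Agent.Work.MP_e64a38_co.FF.ZTot

/-!
# The zone of a box (size S-M)

Let `m = |ψ α| + |ψ β|`; then `|ψ x| ≤ m` for `α ≤ x ≤ β` (`wal_mono`, `B.sub`). Take `M` larger than `3 m`, the `M0` of
`box_sy` and the `M0` of `wb_zn`, and let `S` be the system of `box_sy`. `Sub S.φ (wals ψ α β M)` by `wal_sub`. There is
no `Flt N Z (wals ψ α β M)` by `flt_wal` and `h1` (`1 ≤ (N : ℝ)`), and no `Flt N (mZ Z) (mr (wals ψ α β M))` by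
`mr_wals`, `flt_wal` (for `mr ψ`, `-β`, `-α`; `|mr ψ x| = |ψ (-x)| ≤ m`) and `h2`. So `ned_card` bounds `nEd S`.
Every `σ` with `B.Zn σ` is in `CZ.Sgs S` (`wb_zn`) and `B.Eg σ i` implies `CZ.Ed S σ i` (`wb_eg`), so the sum is at
most `nEd S` (`Finset.sum_le_sum_of_subset` and `Finset.sum_le_sum`, `Finset.card_le_card`).
-/

set_option autoImplicit false

namespace Pool.Agent.Work.MP_e64a38_co.FF

variable {ι : Type} [Fintype ι]

open Classical in
theorem box_card (B : Box ι) (N : ℕ) (hN : 32 ≤ N) (Z : Finset ℝ)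
    (h1 : ¬ FltB N Z B.α B.β B.ψ) (h2 : ¬ FltB N (mZ Z) (-B.β) (-B.α) (mr B.ψ)) :
    ∑ σ ∈ Finset.univ.filter (fun σ : Finset ι => B.Zn σ),
        (Finset.univ.filter (fun i => B.Eg σ i)).card ≤
      (2000 * N + 6 * Z.card) * (Fintype.card ι + 1) := by
  classical
  have hm : ∀ x, B.α ≤ x → x ≤ B.β → |B.ψ x| ≤ |B.ψ B.α| + |B.ψ B.β| := by
    intro x hx hx'
    obtain ⟨k1, k2⟩ := wal_mono B.F B.ψ B.α B.β B.ab B.sub x hx hx'
    rw [abs_le]
    constructor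
    · linarith [neg_abs_le (B.ψ B.α), abs_nonneg (B.ψ B.β)]
    · linarith [le_abs_self (B.ψ B.β), abs_nonneg (B.ψ B.α)]
  obtain ⟨M0, p0, pα, pβ, hM0⟩ := box_sy B
  obtain ⟨M1, hM1⟩ := wb_zn B
  have a1 := abs_nonneg (B.ψ B.α)
  have a2 := abs_nonneg (B.ψ B.β)
  have a3 := abs_nonneg M1
  have a4 := le_abs_self M1
  obtain ⟨S, hp, hq, hφ⟩ := hM0 (M0 + |M1| + 3 * (|B.ψ B.α| + |B.ψ B.β|) + 1) (by linarith)
  set M := M0 + |M1| + 3 * (|B.ψ B.α| + |B.ψ B.β|) + 1 with hMdef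
  have hsub : Sub S.φ (wals B.ψ B.α B.β M) := by
    rw [hφ]
    refine wal_sub B.F B.ψ B.α B.β M B.ab B.sub (by linarith) ?_ ?_
    · linarith [neg_abs_le (B.ψ B.α)]
    · linarith [le_abs_self (B.ψ B.β)]
  have hN1 : (1 : ℝ) ≤ N := by exact_mod_cast (show 1 ≤ N by omega)
  have f1 : ¬ Flt N Z (wals B.ψ B.α B.β M) := fun h =>
    h1 (flt_wal N Z B.ψ B.α B.β _ M hN1 B.ab hm (by linarith) h)
  have f2 : ¬ Flt N (mZ Z) (mr (wals B.ψ B.α B.β M)) := by
    intro h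
    rw [mr_wals B.ψ B.α B.β M B.ab] at h
    refine h2 (flt_wal N (mZ Z) (mr B.ψ) (-B.β) (-B.α) (|B.ψ B.α| + |B.ψ B.β|) M hN1
      (by linarith [B.ab]) ?_ (by linarith) h)
    intro x hx hx'
    unfold mr
    rw [abs_neg]
    exact hm (-x) (by linarith) (by linarith)
  have hned := ned_card S (wals B.ψ B.α B.β M) hsub N hN Z f1 f2
  refine le_trans ?_ hned
  unfold CZ.nEd
  calc ∑ σ ∈ Finset.univ.filter (fun σ : Finset ι => B.Zn σ),
        (Finset.univ.filter (fun i => B.Eg σ i)).card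
      ≤ ∑ σ ∈ Finset.univ.filter (fun σ : Finset ι => B.Zn σ),
        (Finset.univ.filter (fun i => CZ.Ed S σ i)).card := by
        refine Finset.sum_le_sum fun σ _ => Finset.card_le_card ?_
        intro i hi
        exact Finset.mem_filter.mpr ⟨Finset.mem_univ _,
          wb_eg B M S hp hq hφ σ i (Finset.mem_filter.mp hi).2⟩
    _ ≤ _ := by
        refine Finset.sum_le_sum_of_subset ?_
        intro σ hσ
        exact hM1 M (by linarith) S hp hq hφ σ (Finset.mem_filter.mp hσ).2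

end Pool.Agent.Work.MP_e64a38_co.FF
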