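import Pool.Agent.Work.MP_e64a38_co.FF.CIns
import Pool.Agent.Work.MP_e64a38_co.FF.CCir
import Pool.Agent.Work.MP_e64a38_co.FF.PMain
import Pool.Agent.Work.MP_e64a38_co.FF.WBox

/-!
# Polygons inscribed in or circumscribed about a conic (size S)

`frame_zone`: `PMain.frame_card` with `WBox.box_card`. `conic_card`: `frame_zone` for `N = 32`, `Z` empty and the frame of
`CIns.ins_main` or `CCir.cir_main`; `2100 * 32 = 67200`.
-/

set_option autoImplicit false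

namespace Pool.Agent.Work.MP_e64a38_co.FF

variable {n k : ℕ}

theorem frame_zone (l : Fin n → Ln) (h : Fin k → Ln) (hP : IsPolygon h)
    (hl : Function.Injective (fun i => (l i).pts)) (hm : ∀ i, ((l i).pts ∩ inn h).Nonempty)
    (g0 : Ln) (x0 : ℝ × ℝ) (hf : Frame h g0 x0) (N : ℕ) (hN : 32 ≤ N) (Z : Finset ℝ)
    (h1 : ¬ PFl 1 N Z h g0 x0) (h2 : ¬ PFl (-1) N Z h g0 x0) :
    zoneComplexity l h ≤ (2100 * N + 6 * Z.card) * (n + k) :=
  frame_card l h hP hl hm g0 x0 hf N hN Z h1 h2 (fun B hB1 hB2 => box_card B N hN Z hB1 hB2)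

theorem conic_card (l : Fin n → Ln) (h : Fin k → Ln) (hP : IsPolygon h)
    (hl : Function.Injective (fun i => (l i).pts)) (hm : ∀ i, ((l i).pts ∩ inn h).Nonempty)
    (C : CZ.Con) (hC : Insc C h ∨ Circ C h) : zoneComplexity l h ≤ 67200 * (n + k) := by
  obtain ⟨g0, x0, hf, hfl⟩ : ∃ (g0 : Ln) (x0 : ℝ × ℝ), Frame h g0 x0 ∧ ∀ ε : ℝ, (ε = 1 ∨ ε = -1) →
      ∀ K : ℝ, 4 ≤ K → ∀ Z : Finset ℝ, ¬ PFl ε K Z h g0 x0 := by
    rcases hC with h1 | h1
    · exact ins_main C h hP h1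
    · exact cir_main C h hP h1
  have h3 := frame_zone l h hP hl hm g0 x0 hf 32 le_rfl ∅
    (hfl 1 (Or.inl rfl) _ (by norm_num) _) (hfl (-1) (Or.inr rfl) _ (by norm_num) _)
  simpa using h3

end Pool.Agent.Work.MP_e64a38_co.FF
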