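import Pool.Agent.Work.MP_e64a38_co.IZ.SideB
import Pool.Agent.Work.MP_e64a38_co.IZ.EdgeP

/-!
# Lines that miss the interior do not matter (size M)

For an injective family `l` of `n` lines there are `m ≤ n` and an injective family `l'` of `m` lines that all meet the
interior of the polygon, with `zoneComplexity l h ≤ zoneComplexity l' h`.

Proof. Let `I` be the set of the `i` with `((l i).pts ∩ inn h).Nonempty`, `m = card I`, `e : Fin m ≃ I`
(`Finset.equivFin` or `Fintype.equivFin` of the subtype), `l' = l ∘ e`. `inn h` is convex (`IZ.ev_comb`), so for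
`i ∉ I` the function `(l i).ev` has a constant strict sign on `inn h` (otherwise it has a zero on a segment between two
points of `inn h`). For `s : Fin n → Bool` put `s' = s ∘ e`. If `cellOf l h s` is not empty then
`cellOf l h s = cellOf l' h s'`: for `i ∉ I` the condition `0 < sb (s i) * (l i).ev p` holds for one and so for all
`p ∈ inn h`. So `Zone l h s` implies `Zone l' h s'`. The map `s ↦ s'` is injective on `{s | Zone l h s}`: for `i ∉ I` the
value `s i` is the sign of `(l i).ev` on `inn h`. Let `C = cellOf l h s ≠ ∅`. `edges l h C ⊆ edges l' h C`: let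
`E = closure C ∩ (l i).pts` be nontrivial, `i ∉ I`, and `p ≠ q` in `E`, so `p, q ∈ poly h` (`IZ.closure_cell`). Let `z` be the
midpoint, `(l i).ev z = 0`. As `z ∉ inn h` there is `j` with `0 ≤ (h j).ev z`, so `(h j).ev p = (h j).ev q = 0`
(both are `≤ 0`), `(l i).pts = (h j).pts` (`IZ.pts_eq`) and `E = closure C ∩ side h j` (`closure C ⊆ poly h`).
`edges l' h C` is finite (image of finitely many indices), so the number of edges of `C` for `l` is at most the one
for `l'`. Sum over the `s` with `Zone l h s` (`Finset.sum_le_sum_of_injOn` or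
`Finset.sum_image` and `Finset.sum_le_sum_of_subset`).
-/

set_option autoImplicit false

namespace Pool.Agent.Work.MP_e64a38_co.FF

variable {n k : ℕ}

private theorem ms_sign {h : Fin k → Ln} {g : Ln} (hg : ¬ (g.pts ∩ inn h).Nonempty) {p q : ℝ × ℝ}
    (hp : p ∈ inn h) (hq : q ∈ inn h) {c : ℝ} (h1 : 0 < c * g.ev p) : 0 < c * g.ev q := by
  by_contra hcon
  have h2 : c * g.ev q ≤ 0 := not_lt.1 hcon
  have hc : c ≠ 0 := by
    rintro rfl
    simp at h1
  have hd : 0 < c * g.ev p - c * g.ev q := by linarith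
  set t : ℝ := c * g.ev p / (c * g.ev p - c * g.ev q) with ht
  have ht0 : 0 < t := div_pos h1 hd
  have ht1 : t ≤ 1 := by
    rw [ht, div_le_one hd]
    linarith
  have htm : t * (c * g.ev p - c * g.ev q) = c * g.ev p := by
    rw [ht]
    exact div_mul_cancel₀ _ hd.ne'
  apply hg
  refine ⟨p + t • (q - p), ?_, ?_⟩
  · show g.ev _ = 0
    rw [IZ.ev_comb]
    have h3 : c * ((1 - t) * g.ev p + t * g.ev q) = 0 := by linarith
    exact (mul_eq_zero.1 h3).resolve_left hc
  · intro j
    rw [IZ.ev_comb]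
    have e1 := hp j
    have e2 := hq j
    have e3 : (1 - t) * (h j).ev p ≤ 0 :=
      mul_nonpos_of_nonneg_of_nonpos (by linarith) e1.le
    have e4 : t * (h j).ev q < 0 := mul_neg_of_pos_of_neg ht0 e2
    linarith

private theorem ms_cell {m : ℕ} (l : Fin n → Ln) (h : Fin k → Ln) (e : Fin m → Fin n)
    (he : ∀ i, ((l i).pts ∩ inn h).Nonempty → ∃ a, e a = i) (s : Fin n → Bool)
    (hs : (cellOf l h s).Nonempty) :
    cellOf l h s = cellOf (fun a => l (e a)) h (fun a => s (e a)) := by
  obtain ⟨z, hz, hzs⟩ := hs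
  ext p
  constructor
  · rintro ⟨h1, h2⟩
    exact ⟨h1, fun a => h2 (e a)⟩
  · rintro ⟨h1, h2⟩
    refine ⟨h1, fun i => ?_⟩
    by_cases hi : ((l i).pts ∩ inn h).Nonempty
    · obtain ⟨a, rfl⟩ := he i hi
      exact h2 a
    · exact ms_sign hi hz h1 (hzs i)

private theorem ms_sb {b b' : Bool} {x : ℝ} (h1 : 0 < sb b * x) (h2 : 0 < sb b' * x) : b = b' := by
  cases b <;> cases b'
  · rfl
  · exfalso
    simp only [sb, if_true, Bool.false_eq_true, if_false] at h1 h2
    linarith
  · exfalso
    simp only [sb, if_true, Bool.false_eq_true, if_false] at h1 h2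
    linarith
  · rfl

private theorem ms_inj {m : ℕ} (l : Fin n → Ln) (h : Fin k → Ln) (e : Fin m → Fin n)
    (he : ∀ i, ((l i).pts ∩ inn h).Nonempty → ∃ a, e a = i) {s t : Fin n → Bool}
    (hs : (cellOf l h s).Nonempty) (ht : (cellOf l h t).Nonempty)
    (hst : (fun a => s (e a)) = fun a => t (e a)) : s = t := by
  obtain ⟨z, hz, hzs⟩ := hs
  obtain ⟨w, hw, hwt⟩ := ht
  funext i
  by_cases hi : ((l i).pts ∩ inn h).Nonempty
  · obtain ⟨a, rfl⟩ := he i hi
    exact congrFun hst a
  · exact ms_sb (hzs i) (ms_sign hi hw hz (hwt i))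

private theorem ms_edges {m : ℕ} (l : Fin n → Ln) (h : Fin k → Ln) (e : Fin m → Fin n)
    (he : ∀ i, ((l i).pts ∩ inn h).Nonempty → ∃ a, e a = i) (s : Fin n → Bool) :
    edges l h (cellOf l h s) ⊆ edges (fun a => l (e a)) h (cellOf l h s) := by
  rintro E ⟨hE, ⟨i, hi⟩ | hj⟩
  · by_cases hc : ((l i).pts ∩ inn h).Nonempty
    · obtain ⟨a, rfl⟩ := he i hc
      exact ⟨hE, Or.inl ⟨a, hi⟩⟩
    · refine ⟨hE, Or.inr ?_⟩
      rw [hi] at hE
      obtain ⟨p, ⟨hpC, hpi⟩, q, ⟨hqC, hqi⟩, hpq⟩ := hE
      have hpi' : (l i).ev p = 0 := hpi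
      have hqi' : (l i).ev q = 0 := hqi
      have cp := (IZ.closure_cell l h s hpC).1
      have cq := (IZ.closure_cell l h s hqC).1
      have hz : p + (1/2 : ℝ) • (q - p) ∉ inn h := by
        intro hz
        apply hc
        refine ⟨_, ?_, hz⟩
        show (l i).ev _ = 0
        rw [IZ.ev_comb, hpi', hqi']
        ring
      have hz' : ∃ j, 0 ≤ (h j).ev (p + (1/2 : ℝ) • (q - p)) := by
        by_contra hcon
        push Not at hcon
        exact hz hcon
      obtain ⟨j, hj⟩ := hz'
      rw [IZ.ev_comb] at hj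
      have c1 := cp j
      have c2 := cq j
      have h1 : (h j).ev p = 0 := by linarith
      have h2 : (h j).ev q = 0 := by linarith
      have h3 : (l i).pts = (h j).pts := IZ.pts_eq hpq hpi' hqi' h1 h2
      refine ⟨j, ?_⟩
      rw [hi, h3]
      ext x
      constructor
      · rintro ⟨hx1, hx2⟩
        exact ⟨hx1, hx2, (IZ.closure_cell l h s hx1).1⟩
      · rintro ⟨hx1, hx2, -⟩
        exact ⟨hx1, hx2⟩
  · exact ⟨hE, Or.inr hj⟩

private theorem ms_fin (l : Fin n → Ln) (h : Fin k → Ln) (C : Set (ℝ × ℝ)) :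
    (edges l h C).Finite := by
  refine ((Set.finite_range (fun i : Fin n => closure C ∩ (l i).pts)).union
    (Set.finite_range (fun j : Fin k => closure C ∩ side h j))).subset ?_
  rintro E ⟨-, ⟨i, hi⟩ | ⟨j, hj⟩⟩
  · exact Or.inl ⟨i, hi.symm⟩
  · exact Or.inr ⟨j, hj.symm⟩

private theorem ms_le {m : ℕ} (l : Fin n → Ln) (h : Fin k → Ln) (e : Fin m → Fin n)
    (he : ∀ i, ((l i).pts ∩ inn h).Nonempty → ∃ a, e a = i) :
    zoneComplexity l h ≤ zoneComplexity (fun a => l (e a)) h := by
  classical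
  unfold zoneComplexity
  set g : (Fin m → Bool) → ℕ := fun s' => if Zone (fun a => l (e a)) h s' then
    (edges (fun a => l (e a)) h (cellOf (fun a => l (e a)) h s')).ncard else 0 with hg
  have h1 : ∀ s ∈ Finset.univ.filter (fun s : Fin n → Bool => Zone l h s),
      (edges l h (cellOf l h s)).ncard ≤ g (fun a => s (e a)) := by
    intro s hs
    have hZ : Zone l h s := (Finset.mem_filter.1 hs).2
    have hce := ms_cell l h e he s hZ.1
    have hZ' : Zone (fun a => l (e a)) h (fun a => s (e a)) := by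
      unfold Zone at hZ ⊢
      rw [← hce]
      exact hZ
    rw [hg]
    show _ ≤ if Zone (fun a => l (e a)) h (fun a => s (e a)) then _ else 0
    rw [if_pos hZ', ← hce]
    exact Set.ncard_le_ncard (ms_edges l h e he s) (ms_fin _ _ _)
  have h2 : Set.InjOn (fun (s : Fin n → Bool) (a : Fin m) => s (e a))
      (Finset.univ.filter (fun s : Fin n → Bool => Zone l h s)) := by
    intro s hs t ht hst
    have hs' : Zone l h s := (Finset.mem_filter.1 hs).2
    have ht' : Zone l h t := (Finset.mem_filter.1 ht).2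
    exact ms_inj l h e he hs'.1 ht'.1 hst
  calc ∑ s : Fin n → Bool, (if Zone l h s then (edges l h (cellOf l h s)).ncard else 0)
      = ∑ s ∈ Finset.univ.filter (fun s : Fin n → Bool => Zone l h s),
          (edges l h (cellOf l h s)).ncard := by rw [Finset.sum_filter]
    _ ≤ ∑ s ∈ Finset.univ.filter (fun s : Fin n → Bool => Zone l h s), g (fun a => s (e a)) :=
        Finset.sum_le_sum h1
    _ = ∑ s' ∈ (Finset.univ.filter (fun s : Fin n → Bool => Zone l h s)).image
          (fun (s : Fin n → Bool) (a : Fin m) => s (e a)), g s' :=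
        (Finset.sum_image (f := g) h2).symm
    _ ≤ ∑ s' : Fin m → Bool, g s' :=
        Finset.sum_le_sum_of_subset (Finset.subset_univ _)

theorem miss (l : Fin n → Ln) (h : Fin k → Ln) (hl : Function.Injective (fun i => (l i).pts)) :
    ∃ (m : ℕ) (l' : Fin m → Ln), m ≤ n ∧ Function.Injective (fun i => (l' i).pts) ∧
      (∀ i, ((l' i).pts ∩ inn h).Nonempty) ∧ zoneComplexity l h ≤ zoneComplexity l' h := by
  classical
  have hcard : Fintype.card {i : Fin n // ((l i).pts ∩ inn h).Nonempty} ≤ n := by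
    simpa using Fintype.card_subtype_le (fun i : Fin n => ((l i).pts ∩ inn h).Nonempty)
  let e : Fin (Fintype.card {i : Fin n // ((l i).pts ∩ inn h).Nonempty}) ≃
      {i : Fin n // ((l i).pts ∩ inn h).Nonempty} := (Fintype.equivFin _).symm
  refine ⟨_, fun a => l (e a).1, hcard, ?_, fun a => (e a).2, ?_⟩
  · intro a b hab
    have h1 : (e a).1 = (e b).1 := hl hab
    exact e.injective (Subtype.ext h1)
  · refine ms_le l h (fun a => (e a).1) ?_
    intro i hi
    exact ⟨e.symm ⟨i, hi⟩, by simp⟩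

end Pool.Agent.Work.MP_e64a38_co.FF
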