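import Pool.Agent.Work.MP_e64a38_co.FF.QGeo

/-!
# No separated flattening for bounded second differences (size S-M)

`K ≥ 4`, `K ≥ 4 Λ`: there is no `PFl ε K Z h g o`, `ε = 1` or `ε = -1`.
Proof. Choose for every side `j` with `(h j).ev o ≠ 0` numbers `P j`, `N j` with `QE` (`q_side`, `choose`). For
`ε = 1` apply `q_real` to the intervals `[P j_i, N j_i]` and `t_i`, `i = 1, ..., 4`: `Hit` gives `P ≤ t_i ≤ N`, the
slopes are `sl j_i`, consecutive intervals are equal (`j_i = j_(i+1)`) or not overlapping (`q_over`). For `ε = -1`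
apply `q_real` to `x ↦ f (-x)` (`dd_mir`), the intervals `[- N j_i, - P j_i]` and `- t_i`: the slopes are
`(f P - f N) / (N - P) = - sl j_i`.
-/

set_option autoImplicit false

namespace Pool.Agent.Work.MP_e64a38_co.FF

variable {k : ℕ}

theorem q_main (h : Fin k → Ln) (hP : IsPolygon h) (g : Ln) (o : ℝ × ℝ) (hg : g.ev o = 0)
    (ho : o ∈ poly h) (hV : ∀ p ∈ poly h, p ≠ o → g.ev p < 0) (f : ℝ → ℝ)
    (hv : ∀ i j, i ≠ j → ∀ p ∈ poly h, (h i).ev p = 0 → (h j).ev p = 0 → p ≠ o →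
      1 / IZ.yv g p = f (IZ.uv g o p / IZ.yv g p)) (c Λ : ℝ) (hc : 0 < c)
    (hf : ∀ x y z, x < y → y < z → c ≤ dd f x y z ∧ dd f x y z ≤ Λ * c) (K : ℝ) (hK : 4 ≤ K)
    (hK' : 4 * Λ ≤ K) (ε : ℝ) (hε : ε = 1 ∨ ε = -1) (Z : Finset ℝ) : ¬ PFl ε K Z h g o := by
  rintro ⟨t0, t1, t2, t3, t4, j1, j2, j3, j4, o0, o1, o2, o3, hz, L0, L1, L2, ⟨n1, H1⟩, ⟨n2, H2⟩,
    ⟨n3, H3⟩, ⟨n4, H4⟩, S1, S2, S3, -⟩
  have hq : ∀ j, (h j).ev o ≠ 0 → ∃ P N, QE h g o f j P N := fun j hj =>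
    q_side h hP g o hg hV f hv j hj
  choose! P N hQ using hq
  have hov : ∀ i j, (h i).ev o ≠ 0 → (h j).ev o ≠ 0 →
      (P i = P j ∧ N i = N j) ∨ N i ≤ P j ∨ N j ≤ P i := by
    intro i j hi hj
    by_cases hij : i = j
    · left
      rw [hij]
      exact ⟨rfl, rfl⟩
    · right
      exact q_over h hP g o hg ho f c Λ hc hf i j hij hi hj _ _ _ _ (hQ i hi) (hQ j hj)
  obtain ⟨a1, s1, -, b1, -, -⟩ := hQ j1 n1
  obtain ⟨a2, s2, -, b2, -, -⟩ := hQ j2 n2
  obtain ⟨a3, s3, -, b3, -, -⟩ := hQ j3 n3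
  obtain ⟨a4, s4, -, b4, -, -⟩ := hQ j4 n4
  have b1' := b1 t1 H1
  have b2' := b2 t2 H2
  have b3' := b3 t3 H3
  have b4' := b4 t4 H4
  have c1 := hov j1 j2 n1 n2
  have c2 := hov j2 j3 n2 n3
  have c3 := hov j3 j4 n3 n4
  rcases hε with rfl | rfl
  · simp only [one_mul] at o1 o2 o3 L1 L2 S1 S2 S3
    rw [s3, s2, s1] at S3
    rw [s4, s3, s2] at S2
    rw [s4, s3] at S1
    exact q_real f c Λ K hc hf hK hK' (P j1) (P j2) (P j3) (P j4) (N j1) (N j2) (N j3) (N j4)
      t1 t2 t3 t4 a1 a2 a3 a4 b1' b2' b3' b4' c1 c2 c3 o1 o2 o3 L1 L2 S1 S2 S3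
  · have hf' : ∀ x y z, x < y → y < z →
        c ≤ dd (fun t => f (-t)) x y z ∧ dd (fun t => f (-t)) x y z ≤ Λ * c := by
      intro x y z hxy hyz
      rw [dd_mir]
      exact hf (-z) (-y) (-x) (by linarith) (by linarith)
    have hs : ∀ j, (h j).ev o ≠ 0 →
        (f (- - P j) - f (- - N j)) / (-P j - -N j) = - IZ.sl g o (h j) := by
      intro j hj
      obtain ⟨-, e, -⟩ := hQ j hj
      rw [e, neg_neg, neg_neg, ← neg_div, neg_sub]
      congr 1
      ring
    have e1 := hs j1 n1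
    have e2 := hs j2 n2
    have e3 := hs j3 n3
    have e4 := hs j4 n4
    refine q_real (fun t => f (-t)) c Λ K hc hf' hK hK' (-N j1) (-N j2) (-N j3) (-N j4)
      (-P j1) (-P j2) (-P j3) (-P j4) (-t1) (-t2) (-t3) (-t4) (by linarith) (by linarith)
      (by linarith) (by linarith) ⟨by linarith [b1'.2], by linarith [b1'.1]⟩
      ⟨by linarith [b2'.2], by linarith [b2'.1]⟩ ⟨by linarith [b3'.2], by linarith [b3'.1]⟩
      ⟨by linarith [b4'.2], by linarith [b4'.1]⟩ ?_ ?_ ?_ (by linarith) (by linarith)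
      (by linarith) ?_ ?_ ?_ ?_ ?_
    · rcases c1 with ⟨u, v⟩ | u | u
      · left
        exact ⟨by rw [v], by rw [u]⟩
      · right; right
        linarith
      · right; left
        linarith
    · rcases c2 with ⟨u, v⟩ | u | u
      · left
        exact ⟨by rw [v], by rw [u]⟩
      · right; right
        linarith
      · right; left
        linarith
    · rcases c3 with ⟨u, v⟩ | u | u
      · left
        exact ⟨by rw [v], by rw [u]⟩
      · right; right
        linarith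
      · right; left
        linarith
    · have h1 : -t2 - -t1 = -1 * (t2 - t1) := by ring
      have h2 : -t3 - -t2 = -1 * (t3 - t2) := by ring
      rw [h1, h2]
      exact L1
    · have h1 : -t3 - -t2 = -1 * (t3 - t2) := by ring
      have h2 : -t4 - -t3 = -1 * (t4 - t3) := by ring
      rw [h1, h2]
      exact L2
    · rw [e4, e3]
      linarith
    · rw [e4, e3, e2]
      have h1 : - IZ.sl g o (h j4) - - IZ.sl g o (h j3) =
          -1 * (IZ.sl g o (h j4) - IZ.sl g o (h j3)) := by ring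
      have h2 : - IZ.sl g o (h j3) - - IZ.sl g o (h j2) =
          -1 * (IZ.sl g o (h j3) - IZ.sl g o (h j2)) := by ring
      rw [h1, h2]
      exact S2
    · rw [e3, e2, e1]
      have h1 : - IZ.sl g o (h j3) - - IZ.sl g o (h j2) =
          -1 * (IZ.sl g o (h j3) - IZ.sl g o (h j2)) := by ring
      have h2 : - IZ.sl g o (h j2) - - IZ.sl g o (h j1) =
          -1 * (IZ.sl g o (h j2) - IZ.sl g o (h j1)) := by ring
      rw [h1, h2]
      exact S3

end Pool.Agent.Work.MP_e64a38_co.FF
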