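import Pool.Agent.Work.MP_e64a38_co.FF.PDefs
import Pool.Agent.Work.MP_e64a38_co.CZ.FDefs

/-!
# Group C: polygons and conics (fixed file)

`CZ.Con` is a conic region `C.inn` (the inside of an ellipse, of a parabola or of one branch of a hyperbola) with its
boundary curve `C.crv`. `Insc C h`: every vertex of the polygon is on the curve. `Circ C h`: the region is in
the polygon and every side has a point of the curve. `tg C v` is the affine form of the tangent at the point `v` of the
curve; it is negative on the region. `ParF C g0 x0 A B D`: in the coordinates `X = u / y`, `Y = 1 / y` relative to the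
line `g0` and its point `x0` (see `FF.PDefs`) the curve without `x0` is the parabola `Y = A X ^ 2 + B X + D`, and the
region is the set above the parabola.
-/

set_option autoImplicit false

namespace Pool.Agent.Work.MP_e64a38_co.FF

variable {n k : ℕ}

/-- the form of the tangent at `v` -/
def tg (C : CZ.Con) (v p : ℝ × ℝ) : ℝ :=
  C.f1.ev v * C.f1.ev p + C.f2.ev v * C.f2.ev p - C.f3.ev v * C.f3.ev p

/-- inscribed: every vertex is on the curve -/
def Insc (C : CZ.Con) (h : Fin k → Ln) : Prop :=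
  ∀ i j, i ≠ j → ∀ p ∈ poly h, (h i).ev p = 0 → (h j).ev p = 0 → p ∈ C.crv

/-- circumscribed: every side touches the curve -/
def Circ (C : CZ.Con) (h : Fin k → Ln) : Prop :=
  C.inn ⊆ inn h ∧ ∀ j, ∃ p ∈ side h j, p ∈ C.crv

/-- the first coordinate -/
noncomputable def xv (g0 : Ln) (x0 p : ℝ × ℝ) : ℝ := IZ.uv g0 x0 p / IZ.yv g0 p

/-- the curve is a parabola in the coordinates -/
def ParF (C : CZ.Con) (g0 : Ln) (x0 : ℝ × ℝ) (A B D : ℝ) : Prop :=
  0 < A ∧ (∀ p ∈ C.crv, p ≠ x0 → 0 < IZ.yv g0 p) ∧ (∀ p ∈ C.inn, 0 < IZ.yv g0 p) ∧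
    ∀ p, 0 < IZ.yv g0 p →
      ((p ∈ C.crv ↔ 1 / IZ.yv g0 p = A * xv g0 x0 p ^ 2 + B * xv g0 x0 p + D) ∧
        (p ∈ C.inn ↔ A * xv g0 x0 p ^ 2 + B * xv g0 x0 p + D < 1 / IZ.yv g0 p))

end Pool.Agent.Work.MP_e64a38_co.FF
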