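import Pool.Agent.Work.MP_e64a38_co.FF.CDefs

/-!
# Vertices of a polygon (size M)

`side_ends`: `side h j` is compact (closed, and a subset of the bounded set `poly h`) and nonempty (`hP.side j`), and it is
in the line `(h j).pts`. Let `d = (b, -a)` be the direction of the line `h j` (`(h j).ev (r + t d) = (h j).ev r`), and
`φ r = b r.1 - a r.2`, so `φ (r + t d) = φ r + t (a ^ 2 + b ^ 2)`. Let `p`, `q` be points of `side h j` where `φ` is
minimal resp. maximal (`IsCompact.exists_isMinOn`). Every `r` with `(h j).ev r = 0` is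
`p + ((φ r - φ p) / (a ^ 2 + b ^ 2)) d`, so `p ≠ q` (the side has two different points; they have different `φ`), and every
`r ∈ side h j` is in the segment (`φ p ≤ φ r ≤ φ q`). If all `(h i).ev p < 0`, `i ≠ j`, then `p - t d ∈ side h j` for small
`t > 0` (finitely many conditions, continuity), but `φ (p - t d) < φ p`. So `(h i).ev p = 0` for some `i ≠ j`
(`(h i).ev p ≤ 0`, `p ∈ poly h`); in the same way for `q`.

`bd_seg`: the set `{t | p + t (1, 0) ∈ poly h}` is closed and bounded and contains `0`; let `t1 ≤ 0 ≤ t2` be its smallest and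
its largest element, `p_i = p + t_i (1, 0)`. If `(h j).ev p_2 < 0` for all `j` then `t2` can be increased. So `p_2` is in a side;
in the same way `p_1`.

`poly_hull`: `bd_seg` and `side_ends`: `p` is in the segment of two points of sides, each of which is in the segment of two
vertices. (`segment_subset_convexHull`, `convex_convexHull`.)

`con_conv`: `C.inn ∪ C.crv = {p | 0 < f3 p ∧ f1 p ^ 2 + f2 p ^ 2 ≤ f3 p ^ 2}`; for `p, q` in it and `s + t = 1`, `s, t ≥ 0`:
`f_i (s p + t q) = s f_i p + t f_i q` (affine forms); `f3` is positive (one of `s`, `t` is positive); and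
`f1 p f1 q + f2 p f2 q ≤ f3 p f3 q` (Cauchy-Schwarz: the square of the left side is at most
`(f1 p ^ 2 + f2 p ^ 2) (f1 q ^ 2 + f2 q ^ 2)`, `abs_le_of_sq_le_sq`).

`insc_sub`: the vertices are on the curve (`Insc`), `poly_hull`, `con_conv`, `convexHull_min`.
-/

set_option autoImplicit false

namespace Pool.Agent.Work.MP_e64a38_co.FF

variable {k : ℕ}

private theorem ev_add (l : Ln) (p v : ℝ × ℝ) (t : ℝ) :
    l.ev (p + t • v) = l.ev p + t * (l.a * v.1 + l.b * v.2) := by
  simp only [Ln.ev, Prod.fst_add, Prod.snd_add, Prod.smul_fst, Prod.smul_snd, smul_eq_mul]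
  ring

private theorem push (h : Fin k → Ln) (p v : ℝ × ℝ)
    (hv : ∀ i, (h i).ev p < 0 ∨ ((h i).ev p = 0 ∧ (h i).a * v.1 + (h i).b * v.2 = 0)) :
    ∃ t : ℝ, 0 < t ∧ p + t • v ∈ poly h := by
  have h1 : ∀ i, ∀ᶠ t in nhdsWithin (0 : ℝ) (Set.Ioi 0), (h i).ev (p + t • v) ≤ 0 := by
    intro i
    rcases hv i with hi | ⟨hi, hi'⟩
    · have hc : Filter.Tendsto (fun t : ℝ => (h i).ev p + t * ((h i).a * v.1 + (h i).b * v.2))
          (nhds 0) (nhds ((h i).ev p + 0 * ((h i).a * v.1 + (h i).b * v.2))) := by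
        have : Continuous (fun t : ℝ => (h i).ev p + t * ((h i).a * v.1 + (h i).b * v.2)) := by
          fun_prop
        exact this.tendsto 0
      rw [zero_mul, add_zero] at hc
      have := (hc.eventually (gt_mem_nhds hi))
      refine (this.filter_mono nhdsWithin_le_nhds).mono fun t ht => ?_
      rw [ev_add]
      exact ht.le
    · refine Filter.Eventually.of_forall fun t => ?_
      rw [ev_add, hi, hi']
      simp
  have h2 : ∀ᶠ t in nhdsWithin (0 : ℝ) (Set.Ioi 0), ∀ i, (h i).ev (p + t • v) ≤ 0 :=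
    Filter.eventually_all.mpr h1
  obtain ⟨t, ht, ht'⟩ := (h2.and self_mem_nhdsWithin).exists
  exact ⟨t, ht', ht⟩

private theorem ev_cont (l : Ln) : Continuous l.ev := by
  unfold Ln.ev
  fun_prop

private theorem poly_closed (h : Fin k → Ln) : IsClosed (poly h) := by
  have : poly h = ⋂ j, {p | (h j).ev p ≤ 0} := by
    ext p
    simp [poly]
  rw [this]
  exact isClosed_iInter fun j => isClosed_le (ev_cont _) continuous_const

private theorem poly_compact (h : Fin k → Ln) (hP : IsPolygon h) : IsCompact (poly h) :=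
  Metric.isCompact_of_isClosed_isBounded (poly_closed h) hP.bounded

/-- the coordinate along the line -/
private def phi (l : Ln) (r : ℝ × ℝ) : ℝ := l.b * r.1 - l.a * r.2

private theorem nrm_pos (l : Ln) : 0 < l.a ^ 2 + l.b ^ 2 := by
  rcases l.h with h | h
  · have := pow_pos (abs_pos.mpr h) 2
    rw [sq_abs] at this
    nlinarith [sq_nonneg l.b]
  · have := pow_pos (abs_pos.mpr h) 2
    rw [sq_abs] at this
    nlinarith [sq_nonneg l.a]

private theorem phi_inj (l : Ln) (u w : ℝ × ℝ) (h1 : l.ev u = l.ev w) (h2 : phi l u = phi l w) :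
    u = w := by
  have hn := nrm_pos l
  simp only [Ln.ev, phi] at h1 h2
  have e1 : (l.a ^ 2 + l.b ^ 2) * (u.1 - w.1) = 0 := by
    linear_combination l.a * h1 + l.b * h2
  have e2 : (l.a ^ 2 + l.b ^ 2) * (u.2 - w.2) = 0 := by
    linear_combination l.b * h1 - l.a * h2
  rcases mul_eq_zero.mp e1 with h | h
  · exact absurd h hn.ne'
  rcases mul_eq_zero.mp e2 with h' | h'
  · exact absurd h' hn.ne'
  exact Prod.ext (by linarith) (by linarith)

private theorem phi_add (l : Ln) (p : ℝ × ℝ) (t : ℝ) (e : ℝ) :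
    phi l (p + t • (e * l.b, -(e * l.a))) = phi l p + t * e * (l.a ^ 2 + l.b ^ 2) := by
  simp only [phi, Prod.fst_add, Prod.snd_add, Prod.smul_fst, Prod.smul_snd, smul_eq_mul]
  ring

private theorem vert (h : Fin k → Ln) (j : Fin k) (p : ℝ × ℝ) (hp : p ∈ side h j) (e : ℝ)
    (hm : ∀ t : ℝ, 0 < t → p + t • (e * (h j).b, -(e * (h j).a)) ∉ side h j) :
    ∃ i, i ≠ j ∧ (h i).ev p = 0 := by
  by_contra hcon
  push Not at hcon
  obtain ⟨t, ht, htp⟩ := push h p (e * (h j).b, -(e * (h j).a)) (by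
    intro i
    by_cases hij : i = j
    · subst hij
      right
      refine ⟨hp.1, ?_⟩
      simp only
      ring
    · left
      exact lt_of_le_of_ne (hp.2 i) (hcon i hij))
  refine hm t ht ⟨?_, htp⟩
  rw [ev_add, hp.1]
  simp only
  ring

theorem side_ends (h : Fin k → Ln) (hP : IsPolygon h) (j : Fin k) :
    ∃ p q, p ∈ side h j ∧ q ∈ side h j ∧ p ≠ q ∧ (∃ i, i ≠ j ∧ (h i).ev p = 0) ∧
      (∃ i, i ≠ j ∧ (h i).ev q = 0) ∧ side h j ⊆ segment ℝ p q := by
  have hcl : IsClosed {p : ℝ × ℝ | (h j).ev p = 0} := isClosed_eq (ev_cont _) continuous_const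
  have hcp : IsCompact (side h j) := by
    have : side h j = {p | (h j).ev p = 0} ∩ poly h := rfl
    rw [this]
    exact (poly_compact h hP).inter_left hcl
  have hpc : Continuous (phi (h j)) := by
    unfold phi
    fun_prop
  obtain ⟨u, hu, w, hw, huw⟩ := hP.side j
  have hn := nrm_pos (h j)
  obtain ⟨p, hp, hpm⟩ := hcp.exists_isMinOn ⟨u, hu⟩ hpc.continuousOn
  obtain ⟨q, hq, hqm⟩ := hcp.exists_isMaxOn ⟨u, hu⟩ hpc.continuousOn
  have hpm' : ∀ r ∈ side h j, phi (h j) p ≤ phi (h j) r := fun r hr => hpm hr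
  have hqm' : ∀ r ∈ side h j, phi (h j) r ≤ phi (h j) q := fun r hr => hqm hr
  have hlt : phi (h j) p < phi (h j) q := by
    by_contra hcon
    have h1 := hpm' u hu
    have h2 := hqm' u hu
    have h3 := hpm' w hw
    have h4 := hqm' w hw
    exact huw (phi_inj (h j) u w (by rw [hu.1, hw.1]) (by linarith))
  refine ⟨p, q, hp, hq, ?_, ?_, ?_, ?_⟩
  · rintro rfl
    exact lt_irrefl _ hlt
  · refine vert h j p hp (-1) ?_
    intro t ht hmem
    have h1 := hpm' _ hmem
    rw [phi_add] at h1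
    nlinarith [mul_pos ht hn]
  · refine vert h j q hq 1 ?_
    intro t ht hmem
    have h1 := hqm' _ hmem
    rw [phi_add] at h1
    nlinarith [mul_pos ht hn]
  · intro r hr
    have h1 := hpm' r hr
    have h2 := hqm' r hr
    have hd : 0 < phi (h j) q - phi (h j) p := by linarith
    refine ⟨(phi (h j) q - phi (h j) r) / (phi (h j) q - phi (h j) p),
      (phi (h j) r - phi (h j) p) / (phi (h j) q - phi (h j) p), by
        apply div_nonneg <;> linarith, by apply div_nonneg <;> linarith, ?_, ?_⟩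
    · rw [← add_div, div_eq_one_iff_eq hd.ne']
      ring
    · have hst : (phi (h j) q - phi (h j) r) / (phi (h j) q - phi (h j) p) =
          1 - (phi (h j) r - phi (h j) p) / (phi (h j) q - phi (h j) p) := by
        rw [eq_sub_iff_add_eq, ← add_div, div_eq_one_iff_eq hd.ne']
        ring
      have ht : (phi (h j) r - phi (h j) p) / (phi (h j) q - phi (h j) p) *
          (phi (h j) q - phi (h j) p) = phi (h j) r - phi (h j) p := div_mul_cancel₀ _ hd.ne'
      rw [hst]
      generalize (phi (h j) r - phi (h j) p) / (phi (h j) q - phi (h j) p) = t at ht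
      refine phi_inj (h j) _ _ ?_ ?_
      · have e1 := hp.1
        have e2 := hq.1
        rw [hr.1]
        simp only [Ln.ev, Prod.fst_add, Prod.snd_add, Prod.smul_fst, Prod.smul_snd, smul_eq_mul]
          at e1 e2 ⊢
        linear_combination (1 - t) * e1 + t * e2
      · simp only [phi, Prod.fst_add, Prod.snd_add, Prod.smul_fst, Prod.smul_snd, smul_eq_mul]
          at ht ⊢
        linear_combination ht

private theorem bd_pt (h : Fin k → Ln) (hP : IsPolygon h) (p : ℝ × ℝ) (hp : p ∈ poly h) (e : ℝ)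
    (he : e ≠ 0) : ∃ i, ∃ p1 ∈ side h i, p1.2 = p.2 ∧ e * p.1 ≤ e * p1.1 := by
  have hcp : IsCompact (poly h ∩ {r : ℝ × ℝ | r.2 = p.2}) :=
    (poly_compact h hP).inter_right (isClosed_eq continuous_snd continuous_const)
  have hc : Continuous (fun r : ℝ × ℝ => e * r.1) := by fun_prop
  obtain ⟨q, hq, hqm⟩ := hcp.exists_isMaxOn ⟨p, hp, rfl⟩ hc.continuousOn
  have hqm' : ∀ r ∈ poly h ∩ {r : ℝ × ℝ | r.2 = p.2}, e * r.1 ≤ e * q.1 := fun r hr => hqm hr
  have h1 : ∃ i, (h i).ev q = 0 := by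
    by_contra hcon
    push Not at hcon
    obtain ⟨t, ht, htp⟩ := push h q (e, 0) (fun i => Or.inl (lt_of_le_of_ne (hq.1 i) (hcon i)))
    have h2 := hqm' _ ⟨htp, by
      show (q + t • (e, (0 : ℝ))).2 = p.2
      rw [← hq.2]
      simp⟩
    have h3 : (q + t • (e, (0 : ℝ))).1 = q.1 + t * e := by simp
    rw [h3] at h2
    have h4 : 0 < t * (e * e) := mul_pos ht (mul_self_pos.mpr he)
    nlinarith
  obtain ⟨i, hi⟩ := h1
  exact ⟨i, q, ⟨hi, hq.1⟩, hq.2, hqm' p ⟨hp, rfl⟩⟩

theorem bd_seg (h : Fin k → Ln) (hP : IsPolygon h) (p : ℝ × ℝ) (hp : p ∈ poly h) :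
    ∃ i j, ∃ p1 ∈ side h i, ∃ p2 ∈ side h j, p ∈ segment ℝ p1 p2 := by
  obtain ⟨i, p1, hp1, h1, h2⟩ := bd_pt h hP p hp (-1) (by norm_num)
  obtain ⟨j, p2, hp2, h3, h4⟩ := bd_pt h hP p hp 1 one_ne_zero
  refine ⟨i, j, p1, hp1, p2, hp2, ?_⟩
  have h5 : p1.1 ≤ p.1 := by linarith
  have h6 : p.1 ≤ p2.1 := by linarith
  rcases eq_or_lt_of_le (h5.trans h6) with h7 | h7
  · have : p = p1 := Prod.ext (by linarith) h1.symm
    rw [this]
    exact left_mem_segment ℝ _ _
  · have hd : 0 < p2.1 - p1.1 := by linarith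
    refine ⟨(p2.1 - p.1) / (p2.1 - p1.1), (p.1 - p1.1) / (p2.1 - p1.1),
      div_nonneg (by linarith) hd.le, div_nonneg (by linarith) hd.le, ?_, ?_⟩
    · rw [← add_div, div_eq_one_iff_eq hd.ne']
      ring
    · refine Prod.ext ?_ ?_
      · simp only [Prod.fst_add, Prod.smul_fst, smul_eq_mul]
        rw [div_mul_eq_mul_div, div_mul_eq_mul_div, ← add_div, div_eq_iff hd.ne']
        ring
      · simp only [Prod.snd_add, Prod.smul_snd, smul_eq_mul]
        rw [h1, h3, div_mul_eq_mul_div, div_mul_eq_mul_div, ← add_div, div_eq_iff hd.ne']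
        ring

theorem poly_hull (h : Fin k → Ln) (hP : IsPolygon h) :
    poly h ⊆ convexHull ℝ {p | p ∈ poly h ∧ ∃ i j, i ≠ j ∧ (h i).ev p = 0 ∧ (h j).ev p = 0} := by
  have hs : ∀ j, side h j ⊆
      convexHull ℝ {p | p ∈ poly h ∧ ∃ i j, i ≠ j ∧ (h i).ev p = 0 ∧ (h j).ev p = 0} := by
    intro j r hr
    obtain ⟨p, q, hp, hq, -, ⟨i, hi, hi'⟩, ⟨i2, hi2, hi2'⟩, hsub⟩ := side_ends h hP j
    refine (convex_convexHull ℝ _).segment_subset ?_ ?_ (hsub hr)
    · exact subset_convexHull ℝ _ ⟨hp.2, i, j, hi, hi', hp.1⟩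
    · exact subset_convexHull ℝ _ ⟨hq.2, i2, j, hi2, hi2', hq.1⟩
  intro p hp
  obtain ⟨i, j, p1, hp1, p2, hp2, hseg⟩ := bd_seg h hP p hp
  exact (convex_convexHull ℝ _).segment_subset (hs i hp1) (hs j hp2) hseg

private theorem mem_con (C : CZ.Con) (p : ℝ × ℝ) : p ∈ C.inn ∪ C.crv ↔
    0 < C.f3.ev p ∧ (C.f1.ev p) ^ 2 + (C.f2.ev p) ^ 2 ≤ (C.f3.ev p) ^ 2 := by
  simp only [CZ.Con.inn, CZ.Con.crv, Set.mem_union, Set.mem_setOf_eq]
  constructor
  · rintro (⟨h1, h2⟩ | ⟨h1, h2⟩)
    · exact ⟨h1, h2.le⟩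
    · exact ⟨h1, h2.le⟩
  · rintro ⟨h1, h2⟩
    rcases lt_or_eq_of_le h2 with h | h
    · exact Or.inl ⟨h1, h⟩
    · exact Or.inr ⟨h1, h⟩

private theorem af_comb (g : CZ.Af) (p q : ℝ × ℝ) (s t : ℝ) (hst : s + t = 1) :
    g.ev (s • p + t • q) = s * g.ev p + t * g.ev q := by
  simp only [CZ.Af.ev, Prod.fst_add, Prod.snd_add, Prod.smul_fst, Prod.smul_snd, smul_eq_mul]
  linear_combination (-g.c) * hst

theorem con_conv (C : CZ.Con) : Convex ℝ (C.inn ∪ C.crv) := by
  intro p hp q hq s t hs ht hst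
  rw [mem_con] at hp hq ⊢
  rw [af_comb _ _ _ _ _ hst, af_comb _ _ _ _ _ hst, af_comb _ _ _ _ _ hst]
  obtain ⟨hp1, hp2⟩ := hp
  obtain ⟨hq1, hq2⟩ := hq
  generalize C.f1.ev p = x1 at *
  generalize C.f2.ev p = x2 at *
  generalize C.f3.ev p = x3 at *
  generalize C.f1.ev q = y1 at *
  generalize C.f2.ev q = y2 at *
  generalize C.f3.ev q = y3 at *
  constructor
  · rcases eq_or_lt_of_le hs with h | h
    · rw [← h] at hst ⊢
      have : t = 1 := by linarith
      rw [this]
      linarith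
    · have h1 := mul_pos h hp1
      have h2 := mul_nonneg ht hq1.le
      linarith
  · have hcs : x1 * y1 + x2 * y2 ≤ x3 * y3 := by
      refine abs_le_of_sq_le_sq' ?_ (mul_pos hp1 hq1).le |>.2
      calc (x1 * y1 + x2 * y2) ^ 2 ≤ (x1 ^ 2 + x2 ^ 2) * (y1 ^ 2 + y2 ^ 2) := by
            nlinarith [sq_nonneg (x1 * y2 - x2 * y1)]
        _ ≤ x3 ^ 2 * y3 ^ 2 := mul_le_mul hp2 hq2 (by positivity) (by positivity)
        _ = (x3 * y3) ^ 2 := by ring
    have h1 : 0 ≤ s * t := mul_nonneg hs ht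
    have h2 := mul_le_mul_of_nonneg_left hcs h1
    have h3 := mul_le_mul_of_nonneg_left hp2 (sq_nonneg s)
    have h4 := mul_le_mul_of_nonneg_left hq2 (sq_nonneg t)
    nlinarith

theorem insc_sub (C : CZ.Con) (h : Fin k → Ln) (hP : IsPolygon h) (hI : Insc C h) :
    poly h ⊆ C.inn ∪ C.crv := by
  refine (poly_hull h hP).trans (convexHull_min ?_ (con_conv C))
  rintro p ⟨hp, i, j, hij, h1, h2⟩
  exact Or.inr (hI i j hij p hp h1 h2)

end Pool.Agent.Work.MP_e64a38_co.FF
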