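import Pool.Agent.Work.MP_e64a38_co.FF.CDefs
import Pool.Agent.Work.MP_e64a38_co.CZ.FBas

/-!
# Tangents of a conic (size M)

Write `x = (x1, x2, x3) = (f1, f2, f3) (v)` and `F = (F1, F2, F3) = (f1, f2, f3) (p)`; `tg C v p = x1 F1 + x2 F2 - x3 F3`.

* `tg_self`: `v ∈ crv` gives `tg C v v = x1 ^ 2 + x2 ^ 2 - x3 ^ 2 = 0`.
* `tg_neg`: `x3 > 0`, `x1 ^ 2 + x2 ^ 2 = x3 ^ 2`, `F3 > 0`, `F1 ^ 2 + F2 ^ 2 ≤ F3 ^ 2`. By Cauchy
  `(x1 F1 + x2 F2) ^ 2 ≤ (x1 ^ 2 + x2 ^ 2) (F1 ^ 2 + F2 ^ 2) ≤ (x3 F3) ^ 2` (the difference of the first two is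
  `(x1 F2 - x2 F1) ^ 2`), so `x1 F1 + x2 F2 ≤ x3 F3`. If equality held then `F1 ^ 2 + F2 ^ 2 = F3 ^ 2`,
  `x1 F2 = x2 F1`, and then `x1 F3 = x3 F1`, `x2 F3 = x3 F2` (see the private lemma `fb_min` in `CZ.FBas`; copy it),
  so `F = (F3 / x3) x` and `CZ.con_inj` gives `p = v`.
* `tg_ln`: `tg C v` is an affine function of `p` with the linear part
  `(x1 f1.a + x2 f2.a - x3 f3.a, x1 f1.b + x2 f2.b - x3 f3.b)`. It is not zero: if it is zero then `tg C v` is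
  constant, so `x1 f1.c + x2 f2.c - x3 f3.c = tg C v v = 0` as well; so a linear combination of the three rows is 0, and
  `C.det` gives `x3 = 0` (multiply: `x3 * det = 0` by `linear_combination` with the cofactors of the third row; the
  determinant is the one in `CZ.Con.det`). Take `g0 = ⟨the first, the second, minus the constant, _⟩`
  (`Ln.ev p = a p.1 + b p.2 - c`).
* `tg_sup`: `g : Ln` with `g.ev v = 0` and `g.ev p ≤ 0` on `C.inn`. Let `G = (g.a, g.b)` and `T` be the linear part of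
  `tg C v` (not zero, as before). If `G.1 T.2 - G.2 T.1 ≠ 0` there is a direction `d` with `G · d = 1`,
  `T · d = -1` (Cramer). For `p = v + t • d`, `t > 0`: `g.ev p = t > 0`, `tg C v p = - t` and
  `F1 ^ 2 + F2 ^ 2 - F3 ^ 2 = 2 tg C v p + t ^ 2 q` where `q` is the value of
  `F1 ^ 2 + F2 ^ 2 - F3 ^ 2` for the linear parts at `d` (ring, using `x1 ^ 2 + x2 ^ 2 = x3 ^ 2`). For small `t > 0`
  this is negative (`t |q| < 2`), and `F3 = x3 + t (f3.a d.1 + f3.b d.2) > 0` for small `t`, so `p ∈ C.inn` and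
  `g.ev p > 0`, contradiction. So `G` and `T` are proportional, `G = r T` (`T ≠ 0`), `r ≠ 0` as `G ≠ 0`
  (`g.h`), and `g.ev p = r tg C v p` for all `p` as both vanish at `v`. Finally `r > 0`: take `d` with
  `T · d = -1` (`d = - T / |T| ^ 2`); as before `v + t • d ∈ C.inn` for small `t > 0`, and there `g.ev = - r t ≤ 0`.
-/

set_option autoImplicit false

namespace Pool.Agent.Work.MP_e64a38_co.FF

private theorem ct_cr {a1 b1 c1 a2 b2 c2 a3 b3 c3 x y z : ℝ}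
    (hD : a1 * (b2 * c3 - c2 * b3) - b1 * (a2 * c3 - c2 * a3) + c1 * (a2 * b3 - b2 * a3) ≠ 0)
    (h1 : a1 * x + b1 * y + c1 * z = 0) (h2 : a2 * x + b2 * y + c2 * z = 0)
    (h3 : a3 * x + b3 * y + c3 * z = 0) : x = 0 ∧ y = 0 ∧ z = 0 := by
  refine ⟨?_, ?_, ?_⟩
  · apply (mul_eq_zero.1 (?_ : (a1 * (b2 * c3 - c2 * b3) - b1 * (a2 * c3 - c2 * a3) +
      c1 * (a2 * b3 - b2 * a3)) * x = 0)).resolve_left hD
    linear_combination (b2 * c3 - c2 * b3) * h1 - (b1 * c3 - c1 * b3) * h2 +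
      (b1 * c2 - c1 * b2) * h3
  · apply (mul_eq_zero.1 (?_ : (a1 * (b2 * c3 - c2 * b3) - b1 * (a2 * c3 - c2 * a3) +
      c1 * (a2 * b3 - b2 * a3)) * y = 0)).resolve_left hD
    linear_combination (-(a2 * c3 - c2 * a3)) * h1 + (a1 * c3 - c1 * a3) * h2 -
      (a1 * c2 - c1 * a2) * h3
  · apply (mul_eq_zero.1 (?_ : (a1 * (b2 * c3 - c2 * b3) - b1 * (a2 * c3 - c2 * a3) +
      c1 * (a2 * b3 - b2 * a3)) * z = 0)).resolve_left hD
    linear_combination (a2 * b3 - b2 * a3) * h1 - (a1 * b3 - b1 * a3) * h2 +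
      (a1 * b2 - b1 * a2) * h3

private theorem ct_cs' {x1 x2 x3 y1 y2 y3 : ℝ} (hx : 0 ≤ x3) (hx2 : x1 ^ 2 + x2 ^ 2 ≤ x3 ^ 2)
    (hy : 0 ≤ y3) (hy2 : y1 ^ 2 + y2 ^ 2 ≤ y3 ^ 2) : x1 * y1 + x2 * y2 ≤ x3 * y3 := by
  apply le_of_sq_le_sq _ (by positivity)
  have h1 : (x1 * y1 + x2 * y2) ^ 2 ≤ (x1 ^ 2 + x2 ^ 2) * (y1 ^ 2 + y2 ^ 2) := by
    nlinarith [sq_nonneg (x1 * y2 - x2 * y1)]
  have h2 : (x1 ^ 2 + x2 ^ 2) * (y1 ^ 2 + y2 ^ 2) ≤ x3 ^ 2 * y3 ^ 2 :=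
    mul_le_mul hx2 hy2 (by positivity) (by positivity)
  rw [mul_pow]
  linarith

private theorem ct_min {x1 x2 x3 y1 y2 y3 : ℝ} (hx : x1 ^ 2 + x2 ^ 2 = x3 ^ 2)
    (hy : y1 ^ 2 + y2 ^ 2 = y3 ^ 2) (hxy : x1 * y1 + x2 * y2 = x3 * y3) :
    x1 * y3 = x3 * y1 ∧ x2 * y3 = x3 * y2 := by
  have h0 : (x1 * y2 - x2 * y1) ^ 2 = 0 := by
    have e1 : (x1 * y2 - x2 * y1) ^ 2 =
        (x1 ^ 2 + x2 ^ 2) * (y1 ^ 2 + y2 ^ 2) - (x1 * y1 + x2 * y2) ^ 2 := by ring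
    rw [e1, hx, hy, hxy]
    ring
  have h1 : (x1 * y3 - x3 * y1) ^ 2 = 0 := by
    have e1 : (x1 * y3 - x3 * y1) ^ 2 =
        x1 ^ 2 * y3 ^ 2 - 2 * (x1 * y1) * (x3 * y3) + x3 ^ 2 * y1 ^ 2 := by ring
    rw [e1, ← hx, ← hy, ← hxy, ← h0]
    ring
  have h2 : (x2 * y3 - x3 * y2) ^ 2 = 0 := by
    have e1 : (x2 * y3 - x3 * y2) ^ 2 =
        x2 ^ 2 * y3 ^ 2 - 2 * (x2 * y2) * (x3 * y3) + x3 ^ 2 * y2 ^ 2 := by ring
    rw [e1, ← hx, ← hy, ← hxy, ← h0]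
    ring
  constructor
  · have := pow_eq_zero_iff (two_ne_zero) |>.1 h1
    linarith
  · have := pow_eq_zero_iff (two_ne_zero) |>.1 h2
    linarith

/-- the linear part of the tangent form is not zero -/
private theorem ct_ne (C : CZ.Con) {v : ℝ × ℝ} (hv : v ∈ C.crv) :
    C.f1.ev v * C.f1.a + C.f2.ev v * C.f2.a - C.f3.ev v * C.f3.a ≠ 0 ∨
      C.f1.ev v * C.f1.b + C.f2.ev v * C.f2.b - C.f3.ev v * C.f3.b ≠ 0 := by
  by_contra hcon
  push Not at hcon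
  obtain ⟨ha, hb⟩ := hcon
  obtain ⟨h3, he⟩ := hv
  have hc : C.f1.ev v * C.f1.c + C.f2.ev v * C.f2.c - C.f3.ev v * C.f3.c = 0 := by
    have e1 : C.f1.ev v * C.f1.ev v + C.f2.ev v * C.f2.ev v - C.f3.ev v * C.f3.ev v = 0 := by
      linear_combination he
    have e2 : C.f1.ev v * C.f1.ev v + C.f2.ev v * C.f2.ev v - C.f3.ev v * C.f3.ev v =
        (C.f1.ev v * C.f1.a + C.f2.ev v * C.f2.a - C.f3.ev v * C.f3.a) * v.1 +
        (C.f1.ev v * C.f1.b + C.f2.ev v * C.f2.b - C.f3.ev v * C.f3.b) * v.2 +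
        (C.f1.ev v * C.f1.c + C.f2.ev v * C.f2.c - C.f3.ev v * C.f3.c) := by
      have k1 : C.f1.ev v = C.f1.a * v.1 + C.f1.b * v.2 + C.f1.c := rfl
      have k2 : C.f2.ev v = C.f2.a * v.1 + C.f2.b * v.2 + C.f2.c := rfl
      have k3 : C.f3.ev v = C.f3.a * v.1 + C.f3.b * v.2 + C.f3.c := rfl
      rw [k1, k2, k3]
      ring
    rw [ha, hb, e1] at e2
    linarith
  have hD : C.f1.a * (C.f2.b * C.f3.c - C.f3.b * C.f2.c) -
      C.f2.a * (C.f1.b * C.f3.c - C.f3.b * C.f1.c) +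
      C.f3.a * (C.f1.b * C.f2.c - C.f2.b * C.f1.c) ≠ 0 := by
    have := C.det
    intro h
    apply this
    linear_combination h
  obtain ⟨-, -, h⟩ := ct_cr hD (x := C.f1.ev v) (y := C.f2.ev v) (z := -C.f3.ev v)
    (by linear_combination ha) (by linear_combination hb) (by linear_combination hc)
  linarith

/-- points of the region near the boundary point -/
private theorem ct_near (C : CZ.Con) {v : ℝ × ℝ} (hv : v ∈ C.crv) (d1 d2 : ℝ)
    (hd : (C.f1.ev v * C.f1.a + C.f2.ev v * C.f2.a - C.f3.ev v * C.f3.a) * d1 +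
      (C.f1.ev v * C.f1.b + C.f2.ev v * C.f2.b - C.f3.ev v * C.f3.b) * d2 < 0) :
    ∃ t : ℝ, 0 < t ∧ (v.1 + t * d1, v.2 + t * d2) ∈ C.inn := by
  obtain ⟨h3, he⟩ := hv
  set T : ℝ := (C.f1.ev v * C.f1.a + C.f2.ev v * C.f2.a - C.f3.ev v * C.f3.a) * d1 +
      (C.f1.ev v * C.f1.b + C.f2.ev v * C.f2.b - C.f3.ev v * C.f3.b) * d2 with hT
  set q1 : ℝ := C.f1.a * d1 + C.f1.b * d2 with hq1
  set q2 : ℝ := C.f2.a * d1 + C.f2.b * d2 with hq2
  set q3 : ℝ := C.f3.a * d1 + C.f3.b * d2 with hq3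
  have h1 : ∀ᶠ t in nhdsWithin (0 : ℝ) (Set.Ioi 0), 2 * T + t * (q1 ^ 2 + q2 ^ 2 - q3 ^ 2) < 0 := by
    have : Filter.Tendsto (fun t : ℝ => 2 * T + t * (q1 ^ 2 + q2 ^ 2 - q3 ^ 2))
        (nhdsWithin (0 : ℝ) (Set.Ioi 0)) (nhds (2 * T + 0 * (q1 ^ 2 + q2 ^ 2 - q3 ^ 2))) :=
      (Continuous.tendsto (by fun_prop) 0).mono_left nhdsWithin_le_nhds
    exact this.eventually_lt_const (by linarith)
  have h2 : ∀ᶠ t in nhdsWithin (0 : ℝ) (Set.Ioi 0), 0 < C.f3.ev v + t * q3 := by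
    have : Filter.Tendsto (fun t : ℝ => C.f3.ev v + t * q3)
        (nhdsWithin (0 : ℝ) (Set.Ioi 0)) (nhds (C.f3.ev v + 0 * q3)) :=
      (Continuous.tendsto (by fun_prop) 0).mono_left nhdsWithin_le_nhds
    exact this.eventually_const_lt (by linarith)
  obtain ⟨t, ⟨ht1, ht2⟩, ht⟩ := ((h1.and h2).and self_mem_nhdsWithin).exists
  have ht' : (0 : ℝ) < t := ht
  refine ⟨t, ht', ?_, ?_⟩
  · have e : C.f3.ev (v.1 + t * d1, v.2 + t * d2) = C.f3.ev v + t * q3 := by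
      simp only [CZ.Af.ev, hq3]
      ring
    rw [e]
    exact ht2
  · have e1 : C.f1.ev (v.1 + t * d1, v.2 + t * d2) = C.f1.ev v + t * q1 := by
      simp only [CZ.Af.ev, hq1]
      ring
    have e2 : C.f2.ev (v.1 + t * d1, v.2 + t * d2) = C.f2.ev v + t * q2 := by
      simp only [CZ.Af.ev, hq2]
      ring
    have e3 : C.f3.ev (v.1 + t * d1, v.2 + t * d2) = C.f3.ev v + t * q3 := by
      simp only [CZ.Af.ev, hq3]
      ring
    rw [e1, e2, e3]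
    have e4 : (C.f1.ev v + t * q1) ^ 2 + (C.f2.ev v + t * q2) ^ 2 - (C.f3.ev v + t * q3) ^ 2 =
        t * (2 * T + t * (q1 ^ 2 + q2 ^ 2 - q3 ^ 2)) := by
      rw [hT, hq1, hq2, hq3]
      linear_combination he
    have e5 : t * (2 * T + t * (q1 ^ 2 + q2 ^ 2 - q3 ^ 2)) < 0 := mul_neg_of_pos_of_neg ht' ht1
    linarith

theorem tg_self (C : CZ.Con) {v : ℝ × ℝ} (hv : v ∈ C.crv) : tg C v v = 0 := by
  obtain ⟨h3, he⟩ := hv
  unfold tg
  linear_combination he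

theorem tg_neg (C : CZ.Con) {v p : ℝ × ℝ} (hv : v ∈ C.crv) (hp : p ∈ C.inn ∪ C.crv) (hne : p ≠ v) :
    tg C v p < 0 := by
  obtain ⟨h3, he⟩ := hv
  have hp' : 0 < C.f3.ev p ∧ (C.f1.ev p) ^ 2 + (C.f2.ev p) ^ 2 ≤ (C.f3.ev p) ^ 2 := by
    rcases hp with hp | hp
    · exact ⟨hp.1, hp.2.le⟩
    · exact ⟨hp.1, hp.2.le⟩
  obtain ⟨hp3, hpe⟩ := hp'
  have h1 := ct_cs' h3.le he.le hp3.le hpe
  unfold tg
  rcases lt_or_eq_of_le h1 with h | h
  · linarith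
  · exfalso
    have h2 : C.f1.ev p ^ 2 + C.f2.ev p ^ 2 = C.f3.ev p ^ 2 := by
      apply le_antisymm hpe
      have e1 : (C.f1.ev v * C.f1.ev p + C.f2.ev v * C.f2.ev p) ^ 2 ≤
          (C.f1.ev v ^ 2 + C.f2.ev v ^ 2) * (C.f1.ev p ^ 2 + C.f2.ev p ^ 2) := by
        nlinarith [sq_nonneg (C.f1.ev v * C.f2.ev p - C.f2.ev v * C.f1.ev p)]
      rw [h, he, mul_pow] at e1
      exact le_of_mul_le_mul_left e1 (by positivity)
    obtain ⟨m1, m2⟩ := ct_min he h2 h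
    apply hne
    apply CZ.con_inj C p v (C.f3.ev p / C.f3.ev v)
    · field_simp
      linarith
    · field_simp
      linarith
    · field_simp

theorem tg_ln (C : CZ.Con) {v : ℝ × ℝ} (hv : v ∈ C.crv) : ∃ g0 : Ln, ∀ p, g0.ev p = tg C v p := by
  refine ⟨⟨C.f1.ev v * C.f1.a + C.f2.ev v * C.f2.a - C.f3.ev v * C.f3.a,
    C.f1.ev v * C.f1.b + C.f2.ev v * C.f2.b - C.f3.ev v * C.f3.b,
    -(C.f1.ev v * C.f1.c + C.f2.ev v * C.f2.c - C.f3.ev v * C.f3.c), ct_ne C hv⟩, ?_⟩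
  intro p
  have k1 : C.f1.ev p = C.f1.a * p.1 + C.f1.b * p.2 + C.f1.c := rfl
  have k2 : C.f2.ev p = C.f2.a * p.1 + C.f2.b * p.2 + C.f2.c := rfl
  have k3 : C.f3.ev p = C.f3.a * p.1 + C.f3.b * p.2 + C.f3.c := rfl
  unfold tg Ln.ev
  rw [k1, k2, k3]
  ring

theorem tg_sup (C : CZ.Con) {v : ℝ × ℝ} (hv : v ∈ C.crv) (g : Ln) (h0 : g.ev v = 0)
    (h1 : ∀ p ∈ C.inn, g.ev p ≤ 0) : ∃ r : ℝ, 0 < r ∧ ∀ p, g.ev p = r * tg C v p := by
  have hT := ct_ne C hv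
  have hself := tg_self C hv
  set a : ℝ := C.f1.ev v * C.f1.a + C.f2.ev v * C.f2.a - C.f3.ev v * C.f3.a with ha
  set b : ℝ := C.f1.ev v * C.f1.b + C.f2.ev v * C.f2.b - C.f3.ev v * C.f3.b with hb
  have key : ∀ d1 d2 : ℝ, a * d1 + b * d2 < 0 → g.a * d1 + g.b * d2 ≤ 0 := by
    intro d1 d2 hd
    obtain ⟨t, ht, hin⟩ := ct_near C hv d1 d2 hd
    have h2 := h1 _ hin
    unfold Ln.ev at h2 h0
    simp only at h2
    have h3 : t * (g.a * d1 + g.b * d2) ≤ 0 := by linarith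
    by_contra hcon
    push Not at hcon
    have := mul_pos ht hcon
    linarith
  have hs : 0 < a ^ 2 + b ^ 2 := by
    rcases hT with h | h
    · have := sq_nonneg b
      have := pow_pos (abs_pos.2 h) 2
      rw [sq_abs] at this
      linarith
    · have := sq_nonneg a
      have := pow_pos (abs_pos.2 h) 2
      rw [sq_abs] at this
      linarith
  have hM : ∀ M : ℝ, M * (g.a * b - g.b * a) - (g.a * a + g.b * b) ≤ 0 := by
    intro M
    have := key (M * b - a) (-(M * a) - b) (by nlinarith)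
    linarith
  have hcross : g.a * b - g.b * a = 0 := by
    by_contra hne
    have := hM ((g.a * a + g.b * b + 1) / (g.a * b - g.b * a))
    rw [div_mul_cancel₀ _ hne] at this
    linarith
  have hdot : 0 ≤ g.a * a + g.b * b := by
    have := hM 0
    linarith
  have hga : (a ^ 2 + b ^ 2) * g.a = (g.a * a + g.b * b) * a := by
    linear_combination b * hcross
  have hgb : (a ^ 2 + b ^ 2) * g.b = (g.a * a + g.b * b) * b := by
    linear_combination (-a) * hcross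
  have hdot' : 0 < g.a * a + g.b * b := by
    rcases lt_or_eq_of_le hdot with h | h
    · exact h
    · exfalso
      rw [← h, zero_mul] at hga hgb
      rcases g.h with h' | h'
      · exact h' ((mul_eq_zero.1 hga).resolve_left hs.ne')
      · exact h' ((mul_eq_zero.1 hgb).resolve_left hs.ne')
  refine ⟨(g.a * a + g.b * b) / (a ^ 2 + b ^ 2), div_pos hdot' hs, ?_⟩
  intro p
  have e1 : g.ev p = g.a * (p.1 - v.1) + g.b * (p.2 - v.2) := by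
    unfold Ln.ev at *
    linear_combination h0
  have e2 : tg C v p = a * (p.1 - v.1) + b * (p.2 - v.2) := by
    have k1 : C.f1.ev p = C.f1.ev v + C.f1.a * (p.1 - v.1) + C.f1.b * (p.2 - v.2) := by
      unfold CZ.Af.ev; ring
    have k2 : C.f2.ev p = C.f2.ev v + C.f2.a * (p.1 - v.1) + C.f2.b * (p.2 - v.2) := by
      unfold CZ.Af.ev; ring
    have k3 : C.f3.ev p = C.f3.ev v + C.f3.a * (p.1 - v.1) + C.f3.b * (p.2 - v.2) := by
      unfold CZ.Af.ev; ring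
    unfold tg at hself ⊢
    rw [k1, k2, k3, ha, hb]
    linear_combination hself
  rw [e1, e2]
  have e3 : g.a = (g.a * a + g.b * b) / (a ^ 2 + b ^ 2) * a := by
    rw [div_mul_eq_mul_div, eq_div_iff hs.ne']
    linarith
  have e4 : g.b = (g.a * a + g.b * b) / (a ^ 2 + b ^ 2) * b := by
    rw [div_mul_eq_mul_div, eq_div_iff hs.ne']
    linarith
  calc g.a * (p.1 - v.1) + g.b * (p.2 - v.2)
      = ((g.a * a + g.b * b) / (a ^ 2 + b ^ 2) * a) * (p.1 - v.1) +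
        ((g.a * a + g.b * b) / (a ^ 2 + b ^ 2) * b) * (p.2 - v.2) := by rw [← e3, ← e4]
    _ = (g.a * a + g.b * b) / (a ^ 2 + b ^ 2) * (a * (p.1 - v.1) + b * (p.2 - v.2)) := by ring

end Pool.Agent.Work.MP_e64a38_co.FF
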