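import Pool.Agent.Work.MP_e64a38_co.FF.CExt
import Pool.Agent.Work.MP_e64a38_co.FF.CTan
import Pool.Agent.Work.MP_e64a38_co.FF.CPar
import Pool.Agent.Work.MP_e64a38_co.FF.CChord
import Pool.Agent.Work.MP_e64a38_co.FF.CExc
import Pool.Agent.Work.MP_e64a38_co.FF.PWall

/-!
# Polygons inscribed in a conic (size M)

Frame. `k ≥ 1` (for `k = 0` the set `poly h` is the whole plane, not bounded). Take any side `j`, an end `x0` of it
(`side_ends`): `x0 ∈ side h j`, `(h i).ev x0 = 0` for some `i ≠ j`, so `x0 ∈ C.crv` (`hI`). `tg_ln`: `g0` with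
`g0.ev = tg C x0`; `g0.ev x0 = 0` (`tg_self`). For `p ∈ poly h`, `p ≠ x0`: `p ∈ C.inn ∪ C.crv` (`insc_sub`), so
`g0.ev p < 0` (`tg_neg`). `inn h ⊆ poly h`, and `x0` is not in `inn h` (`(h j).ev x0 = 0`). So `Frame h g0 x0` (first
alternative). `par_frame` with `r = 1`: `A`, `B`, `D`.
Sides. Let `(h j).ev x0 ≠ 0`. By `side_ends` and `hI` the side `j` contains two different points `p_j`, `q_j` of
`C.crv`; they are in `poly h`, different from `x0`, so `0 < yv g0` (`ParF`). `P j` = the smaller, `N j` = the larger one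
of `xv p_j`, `xv q_j` (for the other `j` put `0`; choose with `choose` or `Classical`). `chord_sl` (symmetric in the two
points) gives `sl`, `ct`.
`hov`: let `i ≠ j`, both not through `x0`. `(h i).ev x0 < 0` (`x0 ∈ poly h`). `chord_le` for the line `h i` and the points
`p_j`, `q_j` (in `poly h`, so `(h i).ev ≤ 0`): `0 ≤ (P j - P i) (P j - N i)` and `0 ≤ (N j - P i) (N j - N i)`, and the
same with `i`, `j` exchanged. Suppose `P j < N i` and `P i < N j`. From the first (`P j - N i < 0`): `P j ≤ P i`; exchanged: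
`P i ≤ P j`; so `P i = P j`. From the second (`N j - P i > 0`): `N j ≥ N i`; exchanged: `N i ≥ N j`. So `sl`, `ct` are the
same for `h i` and `h j`, which contradicts `IZ.coord_ne` (`hP.ne`).
`hab`: `wall_V` gives `α < β` with `Wl x ↔ α ≤ x ∧ x ≤ β` (they do not depend on `W`), `fs_ex`, `hit_iff`: `x` hits a side iff
`Wl x`. `P j`, `N j` are `xv p` of points `p ∈ poly h` with `0 < yv g0 p`, so `Wl` (`pin_poly`; `xv` is `uv / yv`).
Then `pfl_exc`.
-/

set_option autoImplicit false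

namespace Pool.Agent.Work.MP_e64a38_co.FF

variable {k : ℕ}

theorem ins_main (C : CZ.Con) (h : Fin k → Ln) (hP : IsPolygon h) (hI : Insc C h) :
    ∃ (g0 : Ln) (x0 : ℝ × ℝ), Frame h g0 x0 ∧
      ∀ ε : ℝ, (ε = 1 ∨ ε = -1) → ∀ K : ℝ, 4 ≤ K → ∀ Z : Finset ℝ, ¬ PFl ε K Z h g0 x0 := by
  have hsub : inn h ⊆ poly h := fun p hp j => (hp j).le
  obtain ⟨j0⟩ : Nonempty (Fin k) := by
    obtain ⟨p, hp⟩ := hP.nonempty
    obtain ⟨F, ψ, hF⟩ := fs_ex h hP ⟨1, 0, 0, Or.inl one_ne_zero⟩ p (hsub hp)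
    obtain ⟨j, -⟩ := hF.1 0
    exact ⟨j⟩
  obtain ⟨x0, -, hx0s, -, -, ⟨i0, hi0, hi0'⟩, -, -⟩ := side_ends h hP j0
  have hx : x0 ∈ poly h := hx0s.2
  have hxc : x0 ∈ C.crv := hI i0 j0 hi0 x0 hx hi0' hx0s.1
  obtain ⟨g0, hg0⟩ := tg_ln C hxc
  have hg : g0.ev x0 = 0 := by rw [hg0, tg_self C hxc]
  have hV : ∀ p ∈ poly h, p ≠ x0 → g0.ev p < 0 := by
    intro p hp hne
    rw [hg0]
    exact tg_neg C hxc (insc_sub C h hP hI hp) hne
  have hn : ∀ p ∈ inn h, g0.ev p < 0 := by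
    intro p hp
    apply hV p (hsub hp)
    rintro rfl
    have h1 := hp j0
    rw [hx0s.1] at h1
    exact lt_irrefl _ h1
  refine ⟨g0, x0, ⟨hg, hx, hn, Or.inl hV⟩, ?_⟩
  obtain ⟨A, B, D, hpar⟩ := par_frame C hxc g0 1 one_pos (fun p => by rw [hg0, one_mul])
  have key : ∀ i, (h i).ev x0 ≠ 0 → ∃ P N : ℝ, P ≤ N ∧
      IZ.sl g0 x0 (h i) = A * (P + N) + B ∧ IZ.ct g0 x0 (h i) = D - A * P * N ∧
      (∃ p ∈ poly h, p ∈ C.crv ∧ 0 < IZ.yv g0 p ∧ xv g0 x0 p = P) ∧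
      ∃ q ∈ poly h, q ∈ C.crv ∧ 0 < IZ.yv g0 q ∧ xv g0 x0 q = N := by
    intro i hi
    obtain ⟨p, q, hp, hq, hne, ⟨a, ha, ha'⟩, ⟨b, hb, hb'⟩, -⟩ := side_ends h hP i
    have hpc : p ∈ C.crv := hI a i ha p hp.2 ha' hp.1
    have hqc : q ∈ C.crv := hI b i hb q hq.2 hb' hq.1
    have hpx : p ≠ x0 := by
      rintro rfl
      exact hi hp.1
    have hqx : q ≠ x0 := by
      rintro rfl
      exact hi hq.1
    have hpy := hpar.2.1 p hpc hpx
    have hqy := hpar.2.1 q hqc hqx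
    rcases le_total (xv g0 x0 p) (xv g0 x0 q) with h1 | h1
    · obtain ⟨h2, h3⟩ := chord_sl C g0 x0 hg A B D hpar (h i) hi p q hpc hqc hpy hqy hp.1 hq.1 hne
      exact ⟨_, _, h1, h2, h3, ⟨p, hp.2, hpc, hpy, rfl⟩, q, hq.2, hqc, hqy, rfl⟩
    · obtain ⟨h2, h3⟩ := chord_sl C g0 x0 hg A B D hpar (h i) hi q p hqc hpc hqy hpy hq.1 hp.1
        hne.symm
      exact ⟨_, _, h1, h2, h3, ⟨q, hq.2, hqc, hqy, rfl⟩, p, hp.2, hpc, hpy, rfl⟩
  choose! P N hPN hsl hct hp hq using key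
  have hneg : ∀ i, (h i).ev x0 ≠ 0 → (h i).ev x0 < 0 := fun i hi => lt_of_le_of_ne (hx i) hi
  have hcl : ∀ i j, (h i).ev x0 ≠ 0 → (h j).ev x0 ≠ 0 →
      0 ≤ (P j - P i) * (P j - N i) ∧ 0 ≤ (N j - P i) * (N j - N i) := by
    intro i j hi hj
    obtain ⟨p, hp1, hp2, hp3, hp4⟩ := hp j hj
    obtain ⟨q, hq1, hq2, hq3, hq4⟩ := hq j hj
    have h1 := (chord_le C g0 x0 hg A B D hpar (h i) (hneg i hi) (P i) (N i) (hsl i hi) (hct i hi)
      p hp2 hp3).1 (hp1 i)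
    have h2 := (chord_le C g0 x0 hg A B D hpar (h i) (hneg i hi) (P i) (N i) (hsl i hi) (hct i hi)
      q hq2 hq3).1 (hq1 i)
    rw [hp4] at h1
    rw [hq4] at h2
    exact ⟨h1, h2⟩
  obtain ⟨α, β, -, hWl, -⟩ := wall_V h hP g0 x0 hg hx hn hV
  obtain ⟨F, ψ, hF⟩ := fs_ex h hP g0 x0 hx
  have hin : ∀ p ∈ poly h, 0 < IZ.yv g0 p → α ≤ xv g0 x0 p ∧ xv g0 x0 p ≤ β := by
    intro p hp1 hp2
    have h1 := ((pin_poly h g0 x0 F ψ hF hg hx p hp2).1 hp1).1
    exact (hWl _).1 h1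
  intro ε hε K hK Z
  refine pfl_exc h hP g0 x0 hg hx A B D hpar.1 P N hPN hsl hct ?_ ?_ ε hε K hK Z
  · intro i j hi hj hij
    by_contra hcon
    push Not at hcon
    obtain ⟨h1, h2⟩ := hcon
    obtain ⟨a1, a2⟩ := hcl i j hi hj
    obtain ⟨b1, b2⟩ := hcl j i hj hi
    have e1 : P j ≤ P i := by
      by_contra hc
      push Not at hc
      have := mul_pos_of_neg_of_neg (a := P i - P j) (b := P j - N i) (by linarith) (by linarith)
      linarith
    have e2 : P i ≤ P j := by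
      by_contra hc
      push Not at hc
      have := mul_pos_of_neg_of_neg (a := P j - P i) (b := P i - N j) (by linarith) (by linarith)
      linarith
    have e3 : N i ≤ N j := by
      by_contra hc
      push Not at hc
      have := mul_pos (a := N j - P i) (b := N i - N j) (by linarith) (by linarith)
      linarith
    have e4 : N j ≤ N i := by
      by_contra hc
      push Not at hc
      have := mul_pos (a := N i - P j) (b := N j - N i) (by linarith) (by linarith)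
      linarith
    have e5 : P i = P j := le_antisymm e2 e1
    have e6 : N i = N j := le_antisymm e3 e4
    rcases IZ.coord_ne g0 (h i) (h j) x0 hg hi hj (hP.ne i j hij) with h3 | h3
    · exact h3 (by rw [hsl i hi, hsl j hj, e5, e6])
    · exact h3 (by rw [hct i hi, hct j hj, e5, e6])
  · intro W
    refine ⟨α, β, ?_, ?_, ?_⟩
    · intro j hj
      obtain ⟨p, hp1, hp2, hp3, hp4⟩ := hp j hj
      obtain ⟨q, hq1, hq2, hq3, hq4⟩ := hq j hj
      rw [← hp4, ← hq4]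
      exact ⟨(hin p hp1 hp3).1, (hin q hq1 hq3).2⟩
    · intro x _ hx'
      exact (hWl x).1 ((hit_iff h hP g0 x0 F ψ hF hg hx x).1 hx')
    · intro x h1 h2
      exact (hit_iff h hP g0 x0 F ψ hF hg hx x).2 ((hWl x).2 ⟨h1, h2⟩)

end Pool.Agent.Work.MP_e64a38_co.FF
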