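import Pool.Agent.Work.MP_e64a38_co.CZ.ZDefs
import Pool.Agent.Work.MP_e64a38_co.IZ.GDefs

/-!
# Zone of a convex curve without separated flattening (fixed file)

`Sub φ ψ`: `ψ x` is the slope of a supporting line of `φ` at `x`.
`Flt K Z ψ`: four adjacent intervals whose lengths grow at least by the factor `K` and on which the increments
of `ψ` (the turnings) decrease at least by the factor `K`, the last one being positive; no cut point `z ∈ Z` is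
inside the union of the four intervals.
`Inc`, `Dec`: the position of a visible crossing `(q, s)`: `s = X (a s)`, `q = X (a q)`, `f = X f`,
`b = X (b s)`, `e = X (b q)`, `y = X y` for an increasing coordinate `X`.
`VF`: a family of visible crossings, where only the order of the ends is used.
`Box`: lines in the region above a convex function `F` over the interval `[α, β]`, with vertical walls.
-/

set_option autoImplicit false

namespace Pool.Agent.Work.MP_e64a38_co.FF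

/-- `ψ x` is the slope of a supporting line of `φ` at `x` -/
def Sub (φ ψ : ℝ → ℝ) : Prop := ∀ x z, φ x + ψ x * (z - x) ≤ φ z

/-- the slopes of the mirror image -/
def mr (ψ : ℝ → ℝ) (x : ℝ) : ℝ := - ψ (-x)

/-- separated flattening (to the right) that contains no cut point in its interior -/
def Flt (K : ℝ) (Z : Finset ℝ) (ψ : ℝ → ℝ) : Prop :=
  ∃ x0 x1 x2 x3 x4 : ℝ, x0 < x1 ∧ x1 < x2 ∧ x2 < x3 ∧ x3 < x4 ∧ (∀ z ∈ Z, z ≤ x0 ∨ x4 ≤ z) ∧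
    K * (x1 - x0) ≤ x2 - x1 ∧ K * (x2 - x1) ≤ x3 - x2 ∧ K * (x3 - x2) ≤ x4 - x3 ∧
    0 < ψ x4 - ψ x3 ∧ K * (ψ x4 - ψ x3) ≤ ψ x3 - ψ x2 ∧ K * (ψ x3 - ψ x2) ≤ ψ x2 - ψ x1 ∧
    K * (ψ x2 - ψ x1) ≤ ψ x1 - ψ x0

/-- separated flattening in the interval from `α` to `β`; an interval that starts before the wall at `α` is
allowed as the first one, its turning is infinite -/
def FltB (K : ℝ) (Z : Finset ℝ) (α β : ℝ) (ψ : ℝ → ℝ) : Prop :=
  ∃ x0 x1 x2 x3 x4 : ℝ, x0 < x1 ∧ x1 < x2 ∧ x2 < x3 ∧ x3 < x4 ∧ α ≤ x1 ∧ x4 ≤ β ∧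
    (∀ z ∈ Z, z ≤ x0 ∨ x4 ≤ z) ∧
    K * (x1 - x0) ≤ x2 - x1 ∧ K * (x2 - x1) ≤ x3 - x2 ∧ K * (x3 - x2) ≤ x4 - x3 ∧
    0 < ψ x4 - ψ x3 ∧ K * (ψ x4 - ψ x3) ≤ ψ x3 - ψ x2 ∧ K * (ψ x3 - ψ x2) ≤ ψ x2 - ψ x1 ∧
    (α ≤ x0 → K * (ψ x2 - ψ x1) ≤ ψ x1 - ψ x0)

open Classical in
/-- the cut points of the mirror image -/
noncomputable def mZ (Z : Finset ℝ) : Finset ℝ := Z.image (fun z => -z)

/-- the lengths grow from left to right -/
def Inc (K s q f b e y : ℝ) : Prop :=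
  K * (q - s) ≤ f - q ∧ K * (f - q) ≤ b - f ∧ K * (b - f) ≤ e - b ∧ K * (y - q) ≤ b - f

/-- the lengths decrease from left to right -/
def Dec (K s q f b e y : ℝ) : Prop :=
  K * (e - b) ≤ b - f ∧ K * (b - f) ≤ f - q ∧ K * (f - q) ≤ q - s ∧ K * (b - y) ≤ f - q

/-- `Inc` for a pair, in the coordinate `X` -/
def IncT {ι : Type} (S : CZ.Sy ι) (X : ℝ → ℝ) (f y : ι × ι → ℝ) (K : ℝ) (t : ι × ι) : Prop :=
  Inc K (X (S.a t.2)) (X (S.a t.1)) (X (f t)) (X (S.b t.2)) (X (S.b t.1)) (X (y t))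

/-- `Dec` for a pair, in the coordinate `X` -/
def DecT {ι : Type} (S : CZ.Sy ι) (X : ℝ → ℝ) (f y : ι × ι → ℝ) (K : ℝ) (t : ι × ι) : Prop :=
  Dec K (X (S.a t.2)) (X (S.a t.1)) (X (f t)) (X (S.b t.2)) (X (S.b t.1)) (X (y t))

/-- a family of visible crossings: order facts only -/
structure VF (ι : Type) where
  a : ι → ℝ
  b : ι → ℝ
  P : Finset (ι × ι)
  f : ι × ι → ℝ
  y : ι × ι → ℝ
  off : ∀ t ∈ P, ∀ c, y t ≠ a c ∧ y t ≠ b c
  ord : ∀ t ∈ P, a t.2 < a t.1 ∧ a t.1 < f t ∧ f t < b t.2 ∧ b t.2 < b t.1 ∧ a t.1 < y t ∧ y t < b t.2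
  al : ∀ t ∈ P, ∀ c, a c < y t → y t < b c → a c < f t ∧ f t < b c
  four : ∀ t ∈ P, ∀ t' ∈ P, (a t'.1 < y t ∧ y t < b t'.1) → (a t'.2 < y t ∧ y t < b t'.2) →
    (a t.1 < y t' ∧ y t' < b t.1) → (a t.2 < y t' ∧ y t' < b t.2) → a t.2 < a t'.1 →
    a t'.2 < a t.1 → t = t'
  fa : ∀ t ∈ P, ∀ t' ∈ P, t.1 = t'.1 → t ≠ t' → y t ≤ y t' → b t.2 < y t' ∧ f t ≤ f t'
  fb : ∀ t ∈ P, ∀ t' ∈ P, t.2 = t'.2 → t ≠ t' → y t ≤ y t' → y t < a t'.1
  fc : ∀ t ∈ P, ∀ c, a c < y t → y t < b c → a t.2 < a c → b t.2 < b c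
  cel : ∀ t ∈ P, ∀ t' ∈ P, t ≠ t' → (∀ c, (a c < y t ∧ y t < b c) ↔ (a c < y t' ∧ y t' < b c)) →
    (f t < f t' ∧ a t'.1 ≤ a t.2 ∧ b t'.1 ≤ b t.2) ∨ (f t' < f t ∧ a t.1 ≤ a t'.2 ∧ b t.1 ≤ b t'.2)

/-- a subfamily -/
def VF.sub {ι : Type} (V : VF ι) (Q : Finset (ι × ι)) (h : Q ⊆ V.P) : VF ι where
  a := V.a
  b := V.b
  P := Q
  f := V.f
  y := V.y
  off t ht := V.off t (h ht)
  ord t ht := V.ord t (h ht)
  al t ht := V.al t (h ht)
  four t ht t' ht' := V.four t (h ht) t' (h ht')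
  fa t ht t' ht' := V.fa t (h ht) t' (h ht')
  fb t ht t' ht' := V.fb t (h ht) t' (h ht')
  fc t ht := V.fc t (h ht)
  cel t ht t' ht' := V.cel t (h ht) t' (h ht')

/-- lines in the region above `F` between two vertical walls -/
structure Box (ι : Type) where
  p : ι → ℝ
  q : ι → ℝ
  F : ℝ → ℝ
  ψ : ℝ → ℝ
  α : ℝ
  β : ℝ
  ab : α < β
  sub : ∀ x z, α ≤ x → x ≤ β → α ≤ z → z ≤ β → F x + ψ x * (z - x) ≤ F z
  inj : ∀ i j, p i = p j → q i = q j → i = j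
  hit : ∀ i, ∃ x, α < x ∧ x < β ∧ F x < p i * x + q i

/-- `σ` is the set of the lines above a point `(X, Y)` of the boundary of the region, which is on no line -/
def Box.Zn {ι : Type} (B : Box ι) (σ : Finset ι) : Prop :=
  ∃ X Y, B.α ≤ X ∧ X ≤ B.β ∧ B.F X ≤ Y ∧ (Y = B.F X ∨ X = B.α ∨ X = B.β) ∧
    ∀ i, Y ≠ B.p i * X + B.q i ∧ (i ∈ σ ↔ Y < B.p i * X + B.q i)

/-- the cell with pattern `σ` has an edge on the line `i` -/
def Box.Eg {ι : Type} (B : Box ι) (σ : Finset ι) (i : ι) : Prop :=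
  ∃ x, B.α < x ∧ x < B.β ∧ B.F x < B.p i * x + B.q i ∧
    ∀ j, j ≠ i → (j ∈ σ → B.p i * x + B.q i < B.p j * x + B.q j) ∧
      (j ∉ σ → B.p j * x + B.q j < B.p i * x + B.q i)

/-- steep walls instead of vertical walls -/
noncomputable def wal (F : ℝ → ℝ) (α β M x : ℝ) : ℝ :=
  if x < α then F α + M * (α - x) else if x ≤ β then F x else F β + M * (x - β)

/-- the slopes of `wal` -/
noncomputable def wals (ψ : ℝ → ℝ) (α β M x : ℝ) : ℝ :=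
  if x < α then -M else if x ≤ β then ψ x else M

end Pool.Agent.Work.MP_e64a38_co.FF
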