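import Pool.Agent.Work.MP_e64a38_co.FF.Defs
import Pool.Agent.Work.MP_e64a38_co.CZ.GFour

/-!
# Slopes of supporting lines (size M)

`ψ` is a selection of slopes of supporting lines of the curve `φ` of `S`; `p c` is the slope of the chord `c`;
`v c (a c) = φ (a c)`, `v c (b c) = φ (b c)`; `v c > φ` in between.
* `sub_mono`: add the inequalities for `(x, z)` and `(z, x)`: `(ψ z - ψ x) (z - x) ≥ 0`.
* `sub_mir`: `Sub` for the mirror image (`S.mir.φ x = S.φ (-x)`).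
* `sl_a`: `ψ (a c) < p c`: for `x` between `a c` and `b c`
  `φ (a c) + ψ (a c) (x - a c) ≤ φ x < v c x = φ (a c) + p c (x - a c)`.
* `sl_b`: `p c < ψ (b c)`: the same at `b c`.
* `m_le`: at a visible crossing `(p q - p s) (f - a q) ≤ (p s - ψ (a s)) (a q - a s)`: the left side is
  `v s (a q) - v q (a q) = v s (a q) - φ (a q)` (`v q f = v s f`), and `v s (a q) = φ (a s) + p s (a q - a s)`,
  `φ (a q) ≥ φ (a s) + ψ (a s) (a q - a s)`.
* `f_le`: at a visible crossing `(ψ f - p q) (b s - f) ≤ (p q - ψ (a q)) (f - a q)`: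
  `φ (a q) + p q (b s - a q) = v q (b s) ≥ φ (b s)` (`a q < b s < b q`), `φ (b s) ≥ φ f + ψ f (b s - f)`,
  `φ f ≥ φ (a q) + ψ (a q) (f - a q)`.
* `r_le`: at a visible crossing with `p q ≤ ψ y`: `(p q - p s) (b s - f) ≤ (p q - ψ (a q)) (y - a q)`: the left
  side is `v q (b s) - v s (b s) = v q (b s) - φ (b s)`, `v q (b s) = φ (a q) + p q (b s - a q)`,
  `φ (b s) ≥ φ y + ψ y (b s - y) ≥ φ y + p q (b s - y)` (`y < b s`), `φ y ≥ φ (a q) + ψ (a q) (y - a q)`.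
-/

set_option autoImplicit false

namespace Pool.Agent.Work.MP_e64a38_co.FF

variable {ι : Type}

theorem sub_mono {φ ψ : ℝ → ℝ} (h : Sub φ ψ) : Monotone ψ := by
  intro x z hxz
  by_contra hc
  push Not at hc
  have hlt : x < z := lt_of_le_of_ne hxz (fun e => by rw [e] at hc; exact lt_irrefl _ hc)
  have h1 := h x z
  have h2 := h z x
  nlinarith [mul_pos (sub_pos.2 hc) (sub_pos.2 hlt)]

theorem sub_mir (S : CZ.Sy ι) {ψ : ℝ → ℝ} (h : Sub S.φ ψ) : Sub S.mir.φ (mr ψ) := by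
  intro x z
  have h1 := h (-x) (-z)
  have e : S.mir.φ x + mr ψ x * (z - x) = S.φ (-x) + ψ (-x) * (-z - -x) := by
    simp only [CZ.Sy.mir, mr]
    ring
  rw [e]
  exact h1

theorem sl_a (S : CZ.Sy ι) {ψ : ℝ → ℝ} (h : Sub S.φ ψ) (c : ι) : ψ (S.a c) < S.p c := by
  have hl := S.lt c
  have h1 := S.above c ((S.a c + S.b c) / 2) (by linarith) (by linarith)
  have h2 := S.ea c
  have h3 := h (S.a c) ((S.a c + S.b c) / 2)
  by_contra hc
  push Not at hc
  have h4 := mul_nonneg (sub_nonneg.2 hc) (sub_nonneg.2 hl.le)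
  nlinarith

theorem sl_b (S : CZ.Sy ι) {ψ : ℝ → ℝ} (h : Sub S.φ ψ) (c : ι) : S.p c < ψ (S.b c) := by
  have hl := S.lt c
  have h1 := S.above c ((S.a c + S.b c) / 2) (by linarith) (by linarith)
  have h2 := S.eb c
  have h3 := h (S.b c) ((S.a c + S.b c) / 2)
  by_contra hc
  push Not at hc
  have h4 := mul_nonneg (sub_nonneg.2 hc) (sub_nonneg.2 hl.le)
  nlinarith

theorem m_le (S : CZ.Sy ι) {ψ : ℝ → ℝ} (h : Sub S.φ ψ) {q s : ι} {f y : ℝ} (hv : CZ.Vis S q s f y) :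
    (S.p q - S.p s) * (f - S.a q) ≤ (S.p s - ψ (S.a s)) * (S.a q - S.a s) := by
  have e : S.p q * f + S.q q = S.p s * f + S.q s := hv.eq
  have h1 := S.ea q
  have h2 := S.ea s
  have h3 := h (S.a s) (S.a q)
  have e1 : (S.p q - S.p s) * (f - S.a q) =
      S.p s * S.a q + S.q s - (S.p q * S.a q + S.q q) := by linear_combination e
  rw [e1, h1]
  linarith

theorem f_le (S : CZ.Sy ι) {ψ : ℝ → ℝ} (h : Sub S.φ ψ) {q s : ι} {f y : ℝ} (hv : CZ.Vis S q s f y) :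
    (ψ f - S.p q) * (S.b s - f) ≤ (S.p q - ψ (S.a q)) * (f - S.a q) := by
  have o := CZ.vis_ord S hv
  have h1 := S.ea q
  have h2 := S.above q (S.b s) (by linarith [o.2.1, o.2.2.1]) o.2.2.2.1
  have h3 := h f (S.b s)
  have h4 := h (S.a q) f
  linarith

theorem r_le (S : CZ.Sy ι) {ψ : ℝ → ℝ} (h : Sub S.φ ψ) {q s : ι} {f y : ℝ} (hv : CZ.Vis S q s f y)
    (hy : S.p q ≤ ψ y) :
    (S.p q - S.p s) * (S.b s - f) ≤ (S.p q - ψ (S.a q)) * (y - S.a q) := by
  have o := CZ.vis_ord S hv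
  have e : S.p q * f + S.q q = S.p s * f + S.q s := hv.eq
  have h1 := S.ea q
  have h2 := S.eb s
  have h3 := h y (S.b s)
  have h4 := h (S.a q) y
  have h5 := mul_nonneg (sub_nonneg.2 hy) (sub_nonneg.2 o.2.2.2.2.2.le)
  have e1 : (S.p q - S.p s) * (S.b s - f) =
      S.p q * S.b s + S.q q - (S.p s * S.b s + S.q s) := by linear_combination -e
  rw [e1, h2]
  linarith

end Pool.Agent.Work.MP_e64a38_co.FF
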