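import Pool.Agent.Work.MP_e64a38_co.FF.PLine
import Pool.Agent.Work.MP_e64a38_co.FF.PEpi
import Pool.Agent.Work.MP_e64a38_co.FF.PEx

/-!
# The box (size S-M)

`X p = uv g0 x0 p / yv g0 p`, `Y p = 1 / yv g0 p`.
`box_ex`: `sub` is `fs_sub`; `inj`: two lines with the same `sl` and `ct` have the same points (`IZ.coord_ne`), so they are
equal (`hl`); `hit`: for `p ∈ inn h` with `(l i).ev p = 0`, `α < X p < β`: `F (X p) < Y p = sl i * X p + ct i`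
(`pin_inn`, `lin_zero`; `yv g0 p > 0` by `hn`).
`box_zn`: the point `(X T, Y T)` and `lin_ptn`.
`box_eg`: `x = X p`: `F x < Y p = sl i * x + ct i` (`pin_inn`, `lin_zero`); for `j ≠ i`: `lin_ptn` for `j`:
`j ∈ ptn` iff `Y p < sl j * x + ct j`, and `Y p ≠ sl j * x + ct j`.
-/

set_option autoImplicit false

namespace Pool.Agent.Work.MP_e64a38_co.FF

variable {n k : ℕ}

theorem box_ex (l : Fin n → Ln) (h : Fin k → Ln) (hl : Function.Injective (fun i => (l i).pts))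
    (g0 : Ln) (x0 : ℝ × ℝ) (hg : g0.ev x0 = 0) (hx : x0 ∈ poly h) (hn : ∀ p ∈ inn h, g0.ev p < 0)
    (hne : ∀ i, (l i).ev x0 ≠ 0) (F ψ : ℝ → ℝ) (hF : FS h g0 x0 F ψ) (α β : ℝ) (hab : α < β)
    (hit : ∀ i, ∃ p ∈ inn h, (l i).ev p = 0 ∧ α < IZ.uv g0 x0 p / IZ.yv g0 p ∧
      IZ.uv g0 x0 p / IZ.yv g0 p < β) :
    ∃ B : Box (Fin n), (B.p = fun i => IZ.sl g0 x0 (l i)) ∧ (B.q = fun i => IZ.ct g0 x0 (l i)) ∧
      B.F = F ∧ B.ψ = ψ ∧ B.α = α ∧ B.β = β := by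
  refine ⟨{ p := fun i => IZ.sl g0 x0 (l i), q := fun i => IZ.ct g0 x0 (l i), F := F, ψ := ψ, α := α,
            β := β, ab := hab, sub := fun x z _ _ _ _ => fs_sub h g0 x0 F ψ hF x z,
            inj := ?_, hit := ?_ }, rfl, rfl, rfl, rfl, rfl, rfl⟩
  · intro i j h1 h2
    by_contra hij
    have hne' : (l i).pts ≠ (l j).pts := fun h => hij (hl h)
    rcases IZ.coord_ne g0 (l i) (l j) x0 hg (hne i) (hne j) hne' with h | h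
    · exact h h1
    · exact h h2
  · intro i
    obtain ⟨p, hp, h0, h1, h2⟩ := hit i
    have hy : 0 < IZ.yv g0 p := neg_pos.2 (hn p hp)
    refine ⟨_, h1, h2, ?_⟩
    have h3 := (lin_zero l g0 x0 hg hne p hy i).1 h0
    rw [← h3]
    exact ((pin_inn h g0 x0 F ψ hF hg hx p hy).1 hp).2

theorem box_zn (l : Fin n → Ln) (g0 : Ln) (x0 : ℝ × ℝ) (hg : g0.ev x0 = 0)
    (hne : ∀ i, (l i).ev x0 ≠ 0) (B : Box (Fin n)) (hp : B.p = fun i => IZ.sl g0 x0 (l i))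
    (hq : B.q = fun i => IZ.ct g0 x0 (l i)) (s : Fin n → Bool) (T : ℝ × ℝ)
    (hT : ∀ i, 0 < sb (s i) * (l i).ev T) (hy : 0 < IZ.yv g0 T)
    (h1 : B.α ≤ IZ.uv g0 x0 T / IZ.yv g0 T) (h2 : IZ.uv g0 x0 T / IZ.yv g0 T ≤ B.β)
    (h3 : B.F (IZ.uv g0 x0 T / IZ.yv g0 T) ≤ 1 / IZ.yv g0 T)
    (h4 : B.F (IZ.uv g0 x0 T / IZ.yv g0 T) = 1 / IZ.yv g0 T ∨ IZ.uv g0 x0 T / IZ.yv g0 T = B.α ∨
      IZ.uv g0 x0 T / IZ.yv g0 T = B.β) : B.Zn (IZ.ptn (sgn0 l x0) s) := by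
  refine ⟨_, 1 / IZ.yv g0 T, h1, h2, h3, ?_, ?_⟩
  · rcases h4 with h | h | h
    · exact Or.inl h.symm
    · exact Or.inr (Or.inl h)
    · exact Or.inr (Or.inr h)
  · intro i
    rw [hp, hq]
    exact lin_ptn l g0 x0 hg hne s T hy i (hT i)

theorem box_eg (l : Fin n → Ln) (h : Fin k → Ln) (g0 : Ln) (x0 : ℝ × ℝ) (hg : g0.ev x0 = 0)
    (hx : x0 ∈ poly h) (hn : ∀ p ∈ inn h, g0.ev p < 0) (hne : ∀ i, (l i).ev x0 ≠ 0) (F ψ : ℝ → ℝ)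
    (hF : FS h g0 x0 F ψ) (B : Box (Fin n)) (hp : B.p = fun i => IZ.sl g0 x0 (l i))
    (hq : B.q = fun i => IZ.ct g0 x0 (l i)) (hBF : B.F = F) (s : Fin n → Bool) (i : Fin n) (p : ℝ × ℝ)
    (hpi : p ∈ inn h) (h0 : (l i).ev p = 0) (hs : ∀ j, j ≠ i → 0 < sb (s j) * (l j).ev p)
    (h1 : B.α < IZ.uv g0 x0 p / IZ.yv g0 p) (h2 : IZ.uv g0 x0 p / IZ.yv g0 p < B.β) :
    B.Eg (IZ.ptn (sgn0 l x0) s) i := by
  have hy : 0 < IZ.yv g0 p := neg_pos.2 (hn p hpi)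
  have hz := (lin_zero l g0 x0 hg hne p hy i).1 h0
  refine ⟨_, h1, h2, ?_, ?_⟩
  · rw [hp, hq, hBF]
    change F (IZ.uv g0 x0 p / IZ.yv g0 p) <
      IZ.sl g0 x0 (l i) * (IZ.uv g0 x0 p / IZ.yv g0 p) + IZ.ct g0 x0 (l i)
    rw [← hz]
    exact ((pin_inn h g0 x0 F ψ hF hg hx p hy).1 hpi).2
  · intro j hj
    obtain ⟨h5, h6⟩ := lin_ptn l g0 x0 hg hne s p hy j (hs j hj)
    rw [hp, hq]
    change (j ∈ IZ.ptn (sgn0 l x0) s →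
        IZ.sl g0 x0 (l i) * (IZ.uv g0 x0 p / IZ.yv g0 p) + IZ.ct g0 x0 (l i) <
          IZ.sl g0 x0 (l j) * (IZ.uv g0 x0 p / IZ.yv g0 p) + IZ.ct g0 x0 (l j)) ∧
      (j ∉ IZ.ptn (sgn0 l x0) s →
        IZ.sl g0 x0 (l j) * (IZ.uv g0 x0 p / IZ.yv g0 p) + IZ.ct g0 x0 (l j) <
          IZ.sl g0 x0 (l i) * (IZ.uv g0 x0 p / IZ.yv g0 p) + IZ.ct g0 x0 (l i))
    rw [← hz]
    refine ⟨fun h7 => h6.1 h7, fun h7 => ?_⟩
    rcases lt_trichotomy (1 / IZ.yv g0 p)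
      (IZ.sl g0 x0 (l j) * (IZ.uv g0 x0 p / IZ.yv g0 p) + IZ.ct g0 x0 (l j)) with h8 | h8 | h8
    · exact absurd (h6.2 h8) h7
    · exact absurd h8 h5
    · exact h8

end Pool.Agent.Work.MP_e64a38_co.FF
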