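import Pool.Agent.Work.MP_e64a38_co.FF.Defs

/-!
# Group P: from the polygon to the box (fixed file)

Coordinates `X = u / y`, `Y = 1 / y`, `u = uv g0 x0 p`, `y = yv g0 p = - g0.ev p` for a supporting line `g0` of the
polygon at the point `x0` of the polygon. Every abscissa `X` is a ray from `x0` into the polygon.
-/

set_option autoImplicit false

namespace Pool.Agent.Work.MP_e64a38_co.FF

variable {n k : ℕ}

/-- `g0` is a supporting line of the polygon at its point `x0`: it meets the polygon only in `x0` (a vertex), or it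
contains a side and `x0` is an inner point of this side. -/
def Frame (h : Fin k → Ln) (g0 : Ln) (x0 : ℝ × ℝ) : Prop :=
  g0.ev x0 = 0 ∧ x0 ∈ poly h ∧ (∀ p ∈ inn h, g0.ev p < 0) ∧
    ((∀ p ∈ poly h, p ≠ x0 → g0.ev p < 0) ∨ ∃ j0, IZ.Rel h j0 x0 ∧ g0.pts = (h j0).pts)

/-- The ray from `x0` over the abscissa `x` meets the side `j` in a point different from `x0`. -/
def Hit (h : Fin k → Ln) (g0 : Ln) (x0 : ℝ × ℝ) (x : ℝ) (j : Fin k) : Prop :=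
  ∃ T ∈ side h j, 0 < IZ.yv g0 T ∧ IZ.uv g0 x0 T = x * IZ.yv g0 T

/-- Separated flattening of the polygon seen from `x0`, to the right for `ε = 1`, to the left for `ε = -1`: four
adjacent intervals of abscissas whose lengths grow at least by the factor `N`, and the slopes of sides over their
ends change by amounts that decrease at least by the factor `N`, the last one being positive; the first abscissa may be
one that misses the polygon. -/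
def PFl (ε N : ℝ) (Z : Finset ℝ) (h : Fin k → Ln) (g0 : Ln) (x0 : ℝ × ℝ) : Prop :=
  ∃ (t0 t1 t2 t3 t4 : ℝ) (j1 j2 j3 j4 : Fin k),
    ε * t0 < ε * t1 ∧ ε * t1 < ε * t2 ∧ ε * t2 < ε * t3 ∧ ε * t3 < ε * t4 ∧
    (∀ z ∈ Z, ε * z ≤ ε * t0 ∨ ε * t4 ≤ ε * z) ∧
    N * (ε * (t1 - t0)) ≤ ε * (t2 - t1) ∧ N * (ε * (t2 - t1)) ≤ ε * (t3 - t2) ∧
    N * (ε * (t3 - t2)) ≤ ε * (t4 - t3) ∧
    ((h j1).ev x0 ≠ 0 ∧ Hit h g0 x0 t1 j1) ∧ ((h j2).ev x0 ≠ 0 ∧ Hit h g0 x0 t2 j2) ∧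
    ((h j3).ev x0 ≠ 0 ∧ Hit h g0 x0 t3 j3) ∧ ((h j4).ev x0 ≠ 0 ∧ Hit h g0 x0 t4 j4) ∧
    0 < ε * (IZ.sl g0 x0 (h j4) - IZ.sl g0 x0 (h j3)) ∧
    N * (ε * (IZ.sl g0 x0 (h j4) - IZ.sl g0 x0 (h j3))) ≤
      ε * (IZ.sl g0 x0 (h j3) - IZ.sl g0 x0 (h j2)) ∧
    N * (ε * (IZ.sl g0 x0 (h j3) - IZ.sl g0 x0 (h j2))) ≤
      ε * (IZ.sl g0 x0 (h j2) - IZ.sl g0 x0 (h j1)) ∧
    ((∃ j0, (h j0).ev x0 ≠ 0 ∧ Hit h g0 x0 t0 j0 ∧
        N * (ε * (IZ.sl g0 x0 (h j2) - IZ.sl g0 x0 (h j1))) ≤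
          ε * (IZ.sl g0 x0 (h j1) - IZ.sl g0 x0 (h j0))) ∨
      ¬ ∃ j, Hit h g0 x0 t0 j)

/-- `F` is the maximum of the lines of the sides not through `x0`, `ψ x` is the slope of a side that is highest
over `x` -/
def FS (h : Fin k → Ln) (g0 : Ln) (x0 : ℝ × ℝ) (F ψ : ℝ → ℝ) : Prop :=
  (∀ x, ∃ j, (h j).ev x0 ≠ 0 ∧ F x = IZ.sl g0 x0 (h j) * x + IZ.ct g0 x0 (h j) ∧
    ψ x = IZ.sl g0 x0 (h j)) ∧
  ∀ j, (h j).ev x0 ≠ 0 → ∀ x, IZ.sl g0 x0 (h j) * x + IZ.ct g0 x0 (h j) ≤ F x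

/-- `x` satisfies the conditions of the sides through `x0` (closed walls) -/
def Wl (h : Fin k → Ln) (g0 : Ln) (x0 : ℝ × ℝ) (x : ℝ) : Prop :=
  ∀ j, (h j).ev x0 = 0 → IZ.al g0 (h j) * x + IZ.be g0 (h j) ≤ 0

/-- the same with strict inequalities -/
def Wls (h : Fin k → Ln) (g0 : Ln) (x0 : ℝ × ℝ) (x : ℝ) : Prop :=
  ∀ j, (h j).ev x0 = 0 → IZ.al g0 (h j) * x + IZ.be g0 (h j) < 0

open Classical in
/-- the signs of the lines at `x0` -/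
noncomputable def sgn0 (l : Fin n → Ln) (x0 : ℝ × ℝ) (i : Fin n) : Bool := decide (0 < (l i).ev x0)

/-- the box `B` is the picture of the polygon with the walls `α`, `β`, and it sees all cells and edges of the zone -/
def BoxOf (l : Fin n → Ln) (h : Fin k → Ln) (x0 : ℝ × ℝ) (F ψ : ℝ → ℝ) (α β : ℝ) (B : Box (Fin n)) : Prop :=
  B.F = F ∧ B.ψ = ψ ∧ B.α = α ∧ B.β = β ∧
    (∀ s, IZ.ZonG l h s → B.Zn (IZ.ptn (sgn0 l x0) s)) ∧
    ∀ s i, IZ.EdgG l h s i → B.Eg (IZ.ptn (sgn0 l x0) s) i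

end Pool.Agent.Work.MP_e64a38_co.FF
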