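import Pool.Agent.Work.MP_e64a38_co.FF.PDefs
import Pool.Agent.Work.MP_e64a38_co.IZ.Coord

/-!
# Signs of the lines in the coordinates (size S)

Let `y = yv g0 p > 0`, `X = uv g0 x0 p / y`, `e = (l i).ev x0 ≠ 0`. By `IZ.coord_model`
`(l i).ev p = y * e * (1 / y - (sl i * X + ct i))`. So `(l i).ev p = 0` iff `1 / y = sl i * X + ct i`.
If `0 < sb (s i) * (l i).ev p`: the sign of `(l i).ev p` is `+` iff `s i = true`, the sign of `e` is `+` iff
`sgn0 l x0 i = true`; hence `s i ≠ sgn0 l x0 i` iff `1 / y - (sl i * X + ct i) < 0`.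
`lin_ptn` collects this: `i ∈ ptn (sgn0 l x0) s ↔ 1 / y < sl i * X + ct i`, and `1 / y ≠ sl i * X + ct i`.
-/

set_option autoImplicit false

namespace Pool.Agent.Work.MP_e64a38_co.FF

variable {n : ℕ}

theorem lin_zero (l : Fin n → Ln) (g0 : Ln) (x0 : ℝ × ℝ) (hg : g0.ev x0 = 0) (hne : ∀ i, (l i).ev x0 ≠ 0)
    (p : ℝ × ℝ) (hp : 0 < IZ.yv g0 p) (i : Fin n) : (l i).ev p = 0 ↔
      1 / IZ.yv g0 p = IZ.sl g0 x0 (l i) * (IZ.uv g0 x0 p / IZ.yv g0 p) + IZ.ct g0 x0 (l i) := by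
  rw [IZ.coord_model g0 (l i) x0 p hg (hne i) hp, mul_eq_zero, sub_eq_zero]
  constructor
  · rintro (h | h)
    · exact absurd h (mul_ne_zero hp.ne' (hne i))
    · exact h
  · exact fun h => Or.inr h

theorem lin_ptn (l : Fin n → Ln) (g0 : Ln) (x0 : ℝ × ℝ) (hg : g0.ev x0 = 0) (hne : ∀ i, (l i).ev x0 ≠ 0)
    (s : Fin n → Bool) (p : ℝ × ℝ) (hp : 0 < IZ.yv g0 p) (i : Fin n) (hs : 0 < sb (s i) * (l i).ev p) :
    1 / IZ.yv g0 p ≠ IZ.sl g0 x0 (l i) * (IZ.uv g0 x0 p / IZ.yv g0 p) + IZ.ct g0 x0 (l i) ∧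
      (i ∈ IZ.ptn (sgn0 l x0) s ↔
        1 / IZ.yv g0 p < IZ.sl g0 x0 (l i) * (IZ.uv g0 x0 p / IZ.yv g0 p) + IZ.ct g0 x0 (l i)) := by
  have h0 : (l i).ev p ≠ 0 := by
    intro h
    rw [h, mul_zero] at hs
    exact lt_irrefl _ hs
  refine ⟨fun h => h0 ((lin_zero l g0 x0 hg hne p hp i).2 h), ?_⟩
  have hc := IZ.coord_model g0 (l i) x0 p hg (hne i) hp
  obtain ⟨D, hD⟩ : ∃ D : ℝ, D = 1 / IZ.yv g0 p -
      (IZ.sl g0 x0 (l i) * (IZ.uv g0 x0 p / IZ.yv g0 p) + IZ.ct g0 x0 (l i)) := ⟨_, rfl⟩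
  rw [← hD] at hc
  have e1 : (1 / IZ.yv g0 p < IZ.sl g0 x0 (l i) * (IZ.uv g0 x0 p / IZ.yv g0 p) +
      IZ.ct g0 x0 (l i)) ↔ D < 0 := by
    rw [hD, sub_neg]
  rw [e1]
  have hm : i ∈ IZ.ptn (sgn0 l x0) s ↔ s i ≠ sgn0 l x0 i := by
    simp [IZ.ptn]
  rw [hm]
  rw [hc] at hs
  have hpos : 0 < IZ.yv g0 p := hp
  cases hsi : s i
  · rw [hsi] at hs
    have h1 : 0 < -((l i).ev x0 * D) := by
      have h2 : 0 < IZ.yv g0 p * (-((l i).ev x0 * D)) := by
        have e2 : sb false * (IZ.yv g0 p * (l i).ev x0 * D) =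
            IZ.yv g0 p * (-((l i).ev x0 * D)) := by
          unfold sb
          rw [if_neg (by simp)]
          ring
        rwa [e2] at hs
      exact (pos_iff_pos_of_mul_pos h2).1 hpos
    have h3 : (false ≠ sgn0 l x0 i) ↔ 0 < (l i).ev x0 := by
      unfold sgn0
      by_cases h4 : 0 < (l i).ev x0 <;> simp [h4]
    rw [h3]
    constructor
    · intro h4
      by_contra h5
      have h6 : 0 ≤ (l i).ev x0 * D := mul_nonneg h4.le (not_lt.1 h5)
      linarith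
    · intro h4
      by_contra h5
      have h6 : 0 ≤ (l i).ev x0 * D := mul_nonneg_of_nonpos_of_nonpos (not_lt.1 h5) h4.le
      linarith
  · rw [hsi] at hs
    have h1 : 0 < (l i).ev x0 * D := by
      have h2 : 0 < IZ.yv g0 p * ((l i).ev x0 * D) := by
        have e2 : sb true * (IZ.yv g0 p * (l i).ev x0 * D) =
            IZ.yv g0 p * ((l i).ev x0 * D) := by
          unfold sb
          rw [if_pos rfl]
          ring
        rwa [e2] at hs
      exact (pos_iff_pos_of_mul_pos h2).1 hpos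
    have h3 : (true ≠ sgn0 l x0 i) ↔ (l i).ev x0 < 0 := by
      unfold sgn0
      by_cases h4 : 0 < (l i).ev x0
      · simp [h4, h4.le]
      · have h5 : (l i).ev x0 < 0 := lt_of_le_of_ne (not_lt.1 h4) (hne i)
        simp [h4, h5]
    rw [h3]
    constructor
    · intro h4
      by_contra h5
      have h6 : (l i).ev x0 * D ≤ 0 := mul_nonpos_of_nonpos_of_nonneg h4.le (not_lt.1 h5)
      linarith
    · intro h4
      by_contra h5
      have h6 : (l i).ev x0 * D ≤ 0 := mul_nonpos_of_nonneg_of_nonpos (not_lt.1 h5) h4.le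
      linarith

/-- the pattern of a cell that touches the boundary in `x0` -/
theorem lin_x0 (l : Fin n → Ln) (x0 : ℝ × ℝ) (s : Fin n → Bool)
    (hs : ∀ i, 0 < sb (s i) * (l i).ev x0) : IZ.ptn (sgn0 l x0) s = ∅ := by
  unfold IZ.ptn
  rw [Finset.filter_eq_empty_iff]
  intro i _
  rw [not_not]
  have h := hs i
  unfold sgn0
  cases hsi : s i
  · rw [hsi] at h
    unfold sb at h
    rw [if_neg (by simp)] at h
    have h1 : ¬ 0 < (l i).ev x0 := by linarith
    simp [h1]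
  · rw [hsi] at h
    unfold sb at h
    rw [if_pos rfl, one_mul] at h
    simp [h]

/-- injectivity of the patterns -/
theorem ptn_inj (e s s' : Fin n → Bool) (hs : IZ.ptn e s = IZ.ptn e s') : s = s' := by
  funext i
  have h : i ∈ IZ.ptn e s ↔ i ∈ IZ.ptn e s' := by rw [hs]
  simp only [IZ.ptn, Finset.mem_filter, Finset.mem_univ, true_and] at h
  cases h1 : s i <;> cases h2 : s' i <;> cases h3 : e i <;> simp_all

end Pool.Agent.Work.MP_e64a38_co.FF
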