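import Pool.Agent.Work.MP_e64a38_co.FF.PBox
import Pool.Agent.Work.MP_e64a38_co.FF.PWall

/-!
# The frame at a vertex (size S-M)

Take `α`, `β` from `wall_V`. For `p ∈ inn h`: `yv g0 p > 0` (`hn`), `pin_inn`: `Wls (X p)`, so `α < X p < β`. So `box_ex`
applies (a point `p ∈ inn h` on the line `l i` by `hm`), and `box_eg` gives the edges (`IZ.EdgG`).
`IZ.ZonG l h s` gives a side `j` and `T` with `IZ.Rel h j T` and the signs `s` (`IZ.Sup`). `T ∈ poly h` (`Rel`), `T ≠ x0`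
by `wall_two`, so `yv g0 T > 0` by `hV`; `pin_poly`: `Wl (X T)`, `F (X T) ≤ 1 / yv g0 T`; `pin_side` with `(h j).ev T = 0`:
`F (X T) = 1 / yv g0 T` or not `Wls (X T)`; in the second case `α ≤ X T ≤ β` but not `α < X T < β`. So `box_zn`.
-/

set_option autoImplicit false

namespace Pool.Agent.Work.MP_e64a38_co.FF

variable {n k : ℕ}

theorem vert_box (l : Fin n → Ln) (h : Fin k → Ln) (hP : IsPolygon h)
    (hl : Function.Injective (fun i => (l i).pts)) (hm : ∀ i, ((l i).pts ∩ inn h).Nonempty)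
    (g0 : Ln) (x0 : ℝ × ℝ) (hg : g0.ev x0 = 0) (hx : x0 ∈ poly h) (hn : ∀ p ∈ inn h, g0.ev p < 0)
    (hV : ∀ p ∈ poly h, p ≠ x0 → g0.ev p < 0)
    (hne : ∀ i, (l i).ev x0 ≠ 0) (F ψ : ℝ → ℝ) (hF : FS h g0 x0 F ψ) :
    ∃ (α β : ℝ) (B : Box (Fin n)), (∀ x, Wl h g0 x0 x ↔ α ≤ x ∧ x ≤ β) ∧ BoxOf l h x0 F ψ α β B := by
  obtain ⟨α, β, hab, hWl, hWls⟩ := wall_V h hP g0 x0 hg hx hn hV
  have hyp : ∀ p ∈ inn h, 0 < IZ.yv g0 p := by
    intro p hp
    have h1 := hn p hp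
    unfold IZ.yv
    linarith
  have hXp : ∀ p ∈ inn h, α < IZ.uv g0 x0 p / IZ.yv g0 p ∧ IZ.uv g0 x0 p / IZ.yv g0 p < β := by
    intro p hp
    exact (hWls _).1 ((pin_inn h g0 x0 F ψ hF hg hx p (hyp p hp)).1 hp).1
  have hit : ∀ i, ∃ p ∈ inn h, (l i).ev p = 0 ∧ α < IZ.uv g0 x0 p / IZ.yv g0 p ∧
      IZ.uv g0 x0 p / IZ.yv g0 p < β := by
    intro i
    obtain ⟨p, hp1, hp2⟩ := hm i
    exact ⟨p, hp2, hp1, hXp p hp2⟩
  obtain ⟨B, hBp, hBq, hBF, hBψ, hBα, hBβ⟩ :=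
    box_ex l h hl g0 x0 hg hx hn hne F ψ hF α β hab hit
  refine ⟨α, β, B, hWl, hBF, hBψ, hBα, hBβ, ?_, ?_⟩
  · rintro s ⟨-, j, T, hR, hT⟩
    have hTp : T ∈ poly h := by
      intro j'
      by_cases hj : j' = j
      · subst hj
        exact hR.1.le
      · exact (hR.2 j' hj).le
    have hTx : T ≠ x0 := by
      intro he
      rw [he] at hR
      exact wall_two h g0 x0 hg hx hV j hR
    have hy : 0 < IZ.yv g0 T := by
      have h1 := hV T hTp hTx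
      unfold IZ.yv
      linarith
    obtain ⟨hw, hFT⟩ := (pin_poly h g0 x0 F ψ hF hg hx T hy).1 hTp
    obtain ⟨h1, h2⟩ := (hWl _).1 hw
    refine box_zn l g0 x0 hg hne B hBp hBq s T hT hy (by rw [hBα]; exact h1)
      (by rw [hBβ]; exact h2) (by rw [hBF]; exact hFT) ?_
    rw [hBF, hBα, hBβ]
    rcases pin_side h g0 x0 F ψ hF hg hx T hy hTp j hR.1 with h3 | h3
    · exact Or.inl h3
    · right
      rw [hWls, not_and_or, not_lt, not_lt] at h3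
      rcases h3 with h3 | h3
      · exact Or.inl (le_antisymm h3 h1)
      · exact Or.inr (le_antisymm h2 h3)
  · rintro s i ⟨p, hp, h0, hs⟩
    obtain ⟨h1, h2⟩ := hXp p hp
    exact box_eg l h g0 x0 hg hx hn hne F ψ hF B hBp hBq hBF s i p hp h0 hs
      (by rw [hBα]; exact h1) (by rw [hBβ]; exact h2)

end Pool.Agent.Work.MP_e64a38_co.FF
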