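import Pool.Agent.Work.MP_e64a38_co.FF.QReal
import Pool.Agent.Work.MP_e64a38_co.FF.CExt
import Pool.Agent.Work.MP_e64a38_co.FF.PEpi

/-!
# Polygons with vertices on the graph of a function in the chart (size M)

`g` meets the polygon only in the vertex `o`; every vertex `p ≠ o` (a point on two sides) satisfies
`1 / yv p = f (uv p / yv p)`; `c ≤ dd f ≤ Λ c`, `c > 0`. Write `X p = uv g o p / yv g p`.

`q_side`: for a side `j` that does not contain `o` there are `P < N`, the abscissas of the two ends of the side, with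
`sl j = (f N - f P) / (N - P)`, `sl j * P + ct j = f P`, every abscissa that hits the side `j` is in `[P, N]`, and the
ends are points of the polygon: `P = X p`, `N = X q` for some `p, q ∈ poly h` with `0 < yv g`, `1 / yv p = f P`,
`1 / yv q = f N`.
Proof. `CExt.side_ends` gives `p ≠ q` in `side h j`, each of them also on another side, and `side h j` is contained in the
segment. `(h j).ev o ≠ 0`, so `p, q ≠ o`, so `0 < yv g` (`hV`), and by the hypothesis `1 / yv p = f (X p)`,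
`1 / yv q = f (X q)`. `(h j).ev p = 0` gives `1 / yv p = sl j * X p + ct j` (`IZ.coord_model`, as in `PLine.lin_zero`),
the same for `q`. If `X p = X q` then `1 / yv p = 1 / yv q`, so `yv`, `uv` agree and `p = q` (`IZ.coord_inj`). Let `P`
be the smaller, `N` the larger one of `X p`, `X q` (interchange `p` and `q` if necessary). Subtract:
`sl j * (N - P) = f N - f P`. A point `T` of `side h j` with `0 < yv T`, `uv T = x * yv T` is `(1 - λ) p + λ q`,
`0 ≤ λ ≤ 1`, `uv` and `yv` are affine, so `x yv T = (1 - λ) X p yv p + λ X q yv q` and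
`yv T = (1 - λ) yv p + λ yv q`, so `P yv T ≤ x yv T ≤ N yv T`.

`q_over`: for two different sides `i`, `j` that do not contain `o` and their intervals: `N_i ≤ P_j` or `N_j ≤ P_i`.
Proof. The end `p` of the side `j` over `P_j` is in the polygon, so `(h i).ev p ≤ 0`, i.e. `sl i * P_j + ct i ≤ f P_j`
(`(h i).ev o < 0`; `IZ.coord_model`; see `PEpi`). By `q_conv` `f x < sl i * x + ct i` for `P_i < x < N_i`
(`sl i * x + ct i = f P_i + (f N_i - f P_i) / (N_i - P_i) * (x - P_i)`). So `P_j` is not in `(P_i, N_i)`. In the same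
way `N_j` is not in `(P_i, N_i)`, and `P_i`, `N_i` are not in `(P_j, N_j)`. Suppose `P_j < N_i` and `P_i < N_j`. Then
`P_j ≤ P_i` and `P_i ≤ P_j`, and `N_i ≤ N_j` and `N_j ≤ N_i`. So `sl i = sl j`, `ct i = ct j`, which contradicts
`IZ.coord_ne` (`hP.ne`).
-/

set_option autoImplicit false

namespace Pool.Agent.Work.MP_e64a38_co.FF

variable {k : ℕ}

/-- `P`, `N` are the abscissas of the ends of the side `j`, the vertices are on the graph of `f` -/
def QE (h : Fin k → Ln) (g : Ln) (o : ℝ × ℝ) (f : ℝ → ℝ) (j : Fin k) (P N : ℝ) : Prop :=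
  P < N ∧ IZ.sl g o (h j) = (f N - f P) / (N - P) ∧ IZ.sl g o (h j) * P + IZ.ct g o (h j) = f P ∧
    (∀ x, Hit h g o x j → P ≤ x ∧ x ≤ N) ∧
    (∃ p ∈ poly h, 0 < IZ.yv g p ∧ IZ.uv g o p / IZ.yv g p = P ∧ 1 / IZ.yv g p = f P) ∧
    ∃ q ∈ poly h, 0 < IZ.yv g q ∧ IZ.uv g o q / IZ.yv g q = N ∧ 1 / IZ.yv g q = f N

private theorem qg_line (l g : Ln) (o p : ℝ × ℝ) (hg : g.ev o = 0) (hl : l.ev o ≠ 0)
    (hp : 0 < IZ.yv g p) (h0 : l.ev p = 0) :
    IZ.sl g o l * (IZ.uv g o p / IZ.yv g p) + IZ.ct g o l = 1 / IZ.yv g p := by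
  have h1 := IZ.coord_model g l o p hg hl hp
  rw [h0] at h1
  have h2 : IZ.yv g p * l.ev o ≠ 0 := mul_ne_zero hp.ne' hl
  have h3 := (mul_eq_zero.mp h1.symm).resolve_left h2
  linarith

private theorem qg_le (l g : Ln) (o p : ℝ × ℝ) (hg : g.ev o = 0) (hl : l.ev o < 0)
    (hp : 0 < IZ.yv g p) (h0 : l.ev p ≤ 0) :
    IZ.sl g o l * (IZ.uv g o p / IZ.yv g p) + IZ.ct g o l ≤ 1 / IZ.yv g p := by
  have h1 := IZ.coord_model g l o p hg hl.ne hp
  rw [h1] at h0
  by_contra h2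
  push Not at h2
  have h3 : IZ.yv g p * l.ev o < 0 := mul_neg_of_pos_of_neg hp hl
  have h4 : 1 / IZ.yv g p - (IZ.sl g o l * (IZ.uv g o p / IZ.yv g p) + IZ.ct g o l) < 0 := by
    linarith
  have h5 := mul_pos_of_neg_of_neg h3 h4
  linarith

private theorem qg_aux (h : Fin k → Ln) (g : Ln) (o : ℝ × ℝ) (hg : g.ev o = 0)
    (f : ℝ → ℝ) (j : Fin k) (hj : (h j).ev o ≠ 0) (p q : ℝ × ℝ) (hp : p ∈ side h j)
    (hq : q ∈ side h j) (yp : 0 < IZ.yv g p) (yq : 0 < IZ.yv g q)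
    (vp : 1 / IZ.yv g p = f (IZ.uv g o p / IZ.yv g p))
    (vq : 1 / IZ.yv g q = f (IZ.uv g o q / IZ.yv g q))
    (hlt : IZ.uv g o p / IZ.yv g p < IZ.uv g o q / IZ.yv g q)
    (hseg : side h j ⊆ segment ℝ p q) :
    QE h g o f j (IZ.uv g o p / IZ.yv g p) (IZ.uv g o q / IZ.yv g q) := by
  have lp := qg_line (h j) g o p hg hj yp hp.1
  have lq := qg_line (h j) g o q hg hj yq hq.1
  refine ⟨hlt, ?_, by rw [lp, vp], ?_, ⟨p, hp.2, yp, rfl, vp⟩, ⟨q, hq.2, yq, rfl, vq⟩⟩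
  · rw [eq_div_iff (sub_pos.mpr hlt).ne', ← vp, ← vq, ← lp, ← lq]
    ring
  · rintro x ⟨T, hT, yT, uT⟩
    obtain ⟨a, b, ha, hb, hab, hTe⟩ := hseg hT
    have ep : IZ.uv g o p = (IZ.uv g o p / IZ.yv g p) * IZ.yv g p := by
      rw [div_mul_cancel₀ _ yp.ne']
    have eq : IZ.uv g o q = (IZ.uv g o q / IZ.yv g q) * IZ.yv g q := by
      rw [div_mul_cancel₀ _ yq.ne']
    have e1 : IZ.yv g T = a * IZ.yv g p + b * IZ.yv g q := by
      rw [← hTe]
      unfold IZ.yv Ln.ev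
      simp only [Prod.fst_add, Prod.snd_add, Prod.smul_fst, Prod.smul_snd, smul_eq_mul]
      linear_combination g.c * (1 - a - b - (1 - a - b)) - g.c * (hab)
    have e2 : IZ.uv g o T = a * IZ.uv g o p + b * IZ.uv g o q := by
      rw [← hTe]
      unfold IZ.uv
      simp only [Prod.fst_add, Prod.snd_add, Prod.smul_fst, Prod.smul_snd, smul_eq_mul]
      linear_combination (g.b * o.1 - g.a * o.2) * hab
    set X := IZ.uv g o p / IZ.yv g p with hX
    set Z := IZ.uv g o q / IZ.yv g q with hZ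
    rw [ep, eq] at e2
    constructor
    · have h1 : X * IZ.yv g T ≤ x * IZ.yv g T := by
        rw [← uT, e2, e1]
        have : 0 ≤ b * IZ.yv g q * (Z - X) := mul_nonneg (mul_nonneg hb yq.le) (sub_pos.mpr hlt).le
        linarith
      exact le_of_mul_le_mul_right h1 yT
    · have h1 : x * IZ.yv g T ≤ Z * IZ.yv g T := by
        rw [← uT, e2, e1]
        have : 0 ≤ a * IZ.yv g p * (Z - X) := mul_nonneg (mul_nonneg ha yp.le) (sub_pos.mpr hlt).le
        linarith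
      exact le_of_mul_le_mul_right h1 yT

theorem q_side (h : Fin k → Ln) (hP : IsPolygon h) (g : Ln) (o : ℝ × ℝ) (hg : g.ev o = 0)
    (hV : ∀ p ∈ poly h, p ≠ o → g.ev p < 0) (f : ℝ → ℝ)
    (hv : ∀ i j, i ≠ j → ∀ p ∈ poly h, (h i).ev p = 0 → (h j).ev p = 0 → p ≠ o →
      1 / IZ.yv g p = f (IZ.uv g o p / IZ.yv g p)) (j : Fin k) (hj : (h j).ev o ≠ 0) :
    ∃ P N, QE h g o f j P N := by
  obtain ⟨p, q, hp, hq, hpq, ⟨i, hij, hip⟩, ⟨i', hij', hiq⟩, hseg⟩ := side_ends h hP j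
  have hpo : p ≠ o := by
    rintro rfl
    exact hj hp.1
  have hqo : q ≠ o := by
    rintro rfl
    exact hj hq.1
  have yp : 0 < IZ.yv g p := by
    unfold IZ.yv
    linarith [hV p hp.2 hpo]
  have yq : 0 < IZ.yv g q := by
    unfold IZ.yv
    linarith [hV q hq.2 hqo]
  have vp := hv i j hij p hp.2 hip hp.1 hpo
  have vq := hv i' j hij' q hq.2 hiq hq.1 hqo
  rcases lt_trichotomy (IZ.uv g o p / IZ.yv g p) (IZ.uv g o q / IZ.yv g q) with hlt | heq | hlt
  · exact ⟨_, _, qg_aux h g o hg f j hj p q hp hq yp yq vp vq hlt hseg⟩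
  · exfalso
    apply hpq
    have h1 : IZ.yv g p = IZ.yv g q := by
      have h2 : 1 / IZ.yv g p = 1 / IZ.yv g q := by rw [vp, vq, heq]
      field_simp at h2
      linarith
    have h3 : IZ.uv g o p = IZ.uv g o q := by
      rw [h1, div_left_inj' yq.ne'] at heq
      exact heq
    exact IZ.coord_inj g o p q hg h3 h1
  · exact ⟨_, _, qg_aux h g o hg f j hj q p hq hp yq yp vq vp hlt
      (by rw [segment_symm]; exact hseg)⟩

private theorem qg_not (h : Fin k → Ln) (g : Ln) (o : ℝ × ℝ) (hg : g.ev o = 0)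
    (ho : o ∈ poly h) (f : ℝ → ℝ) (c Λ : ℝ) (hc : 0 < c)
    (hf : ∀ x y z, x < y → y < z → c ≤ dd f x y z ∧ dd f x y z ≤ Λ * c) (i : Fin k)
    (hi : (h i).ev o ≠ 0) (P N : ℝ) (h1 : QE h g o f i P N) (x : ℝ)
    (hx : ∃ p ∈ poly h, 0 < IZ.yv g p ∧ IZ.uv g o p / IZ.yv g p = x ∧ 1 / IZ.yv g p = f x)
    (h2 : P < x) (h3 : x < N) : False := by
  obtain ⟨p, hp, yp, hX, hfx⟩ := hx
  obtain ⟨-, hs, hc1, -⟩ := h1
  have h4 := qg_le (h i) g o p hg (lt_of_le_of_ne (ho i) hi) yp (hp i)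
  rw [hX, hfx] at h4
  have h5 := q_conv f c Λ hc hf P x N h2 h3
  rw [← hs, ← hc1] at h5
  linarith

theorem q_over (h : Fin k → Ln) (hP : IsPolygon h) (g : Ln) (o : ℝ × ℝ) (hg : g.ev o = 0)
    (ho : o ∈ poly h) (f : ℝ → ℝ) (c Λ : ℝ) (hc : 0 < c)
    (hf : ∀ x y z, x < y → y < z → c ≤ dd f x y z ∧ dd f x y z ≤ Λ * c) (i j : Fin k) (hij : i ≠ j)
    (hi : (h i).ev o ≠ 0) (hj : (h j).ev o ≠ 0) (P N P' N' : ℝ) (h1 : QE h g o f i P N)
    (h2 : QE h g o f j P' N') : N ≤ P' ∨ N' ≤ P := by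
  by_contra hcon
  push Not at hcon
  obtain ⟨hc1, hc2⟩ := hcon
  have a1 := qg_not h g o hg ho f c Λ hc hf i hi P N h1 P' h2.2.2.2.2.1
  have a2 := qg_not h g o hg ho f c Λ hc hf i hi P N h1 N' h2.2.2.2.2.2
  have a3 := qg_not h g o hg ho f c Λ hc hf j hj P' N' h2 P h1.2.2.2.2.1
  have a4 := qg_not h g o hg ho f c Λ hc hf j hj P' N' h2 N h1.2.2.2.2.2
  have b1 : P' ≤ P := by
    by_contra hh
    push Not at hh
    exact a1 hh hc1
  have b2 : P ≤ P' := by
    by_contra hh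
    push Not at hh
    exact a3 hh hc2
  have b3 : N ≤ N' := by
    by_contra hh
    push Not at hh
    exact a2 hc2 hh
  have b4 : N' ≤ N := by
    by_contra hh
    push Not at hh
    exact a4 hc1 hh
  have e1 : P' = P := le_antisymm b1 b2
  have e2 : N' = N := le_antisymm b4 b3
  subst e1 e2
  have hsl : IZ.sl g o (h i) = IZ.sl g o (h j) := by rw [h1.2.1, h2.2.1]
  have hct : IZ.ct g o (h i) = IZ.ct g o (h j) := by
    have h3 := h1.2.2.1
    have h4 := h2.2.2.1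
    rw [hsl] at h3
    linarith
  rcases IZ.coord_ne g (h i) (h j) o hg hi hj (hP.ne i j hij) with h5 | h5
  · exact h5 hsl
  · exact h5 hct

end Pool.Agent.Work.MP_e64a38_co.FF
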