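import Mathlib

/-!
# Chords of a function with bounded second differences (size M)

`dd f x y z` is the second divided difference. Let `c ≤ dd f x y z ≤ Λ c` for all `x < y < z`, `c > 0`.

`q_diff`: for `P < N ≤ P' < N'`, `s = (f N - f P) / (N - P)`, `s' = (f N' - f P') / (N' - P')`, `w = (P' + N') - (P + N)`:
`c w ≤ s' - s ≤ Λ c w`. Proof: if `N < P'` let `m = (f P' - f N) / (P' - N)`; then `s' - m = (N' - N) dd f N P' N'` and
`m - s = (P' - P) dd f P N P'`, and `w = (N' - N) + (P' - P)`. If `N = P'` then `s' - s = (N' - P) dd f P N N'` and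
`w = N' - P`.

`q_conv`: for `P < x < N`: `f x < f P + (f N - f P) / (N - P) * (x - P)`: this is `0 < dd f P x N`.

`q_real`: four intervals `[P_i, N_i]`, `P_i < N_i`, with points `P_i ≤ t_i ≤ N_i`, `t1 < t2 < t3 < t4`, consecutive
intervals equal or not overlapping, `s_i = (f N_i - f P_i) / (N_i - P_i)`. With `K ≥ 4`, `K ≥ 4 Λ` it is
impossible that `K (t2 - t1) ≤ t3 - t2`, `K (t3 - t2) ≤ t4 - t3`, `0 < s4 - s3`, `K (s4 - s3) ≤ s3 - s2`,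
`K (s3 - s2) ≤ s2 - s1`.
Proof. `s1 < s2 < s3 < s4`. So consecutive intervals are not equal, and `N_(i+1) ≤ P_i` is impossible by `q_diff`
(it would give `s_i > s_(i+1)`), so `N_i ≤ P_(i+1)` for `i = 1, 2, 3`. By `q_diff`
`s4 - s3 ≥ c ((P4 + N4) - (P3 + N3)) ≥ c (N4 - P3) ≥ c (t4 - t3)` (`P4 ≥ N3`), and
`s3 - s2 ≤ Λ c ((P3 + N3) - (P2 + N2)) ≤ Λ c ((t3 - t1) + (t4 - t2))` (`P3 ≤ t3`, `N3 ≤ P4 ≤ t4`, `P2 ≥ N1 ≥ t1`,
`N2 ≥ t2`; `Λ c > 0` since `c ≤ dd ≤ Λ c`). As `t3 - t2 ≤ (t4 - t3) / 4`, `t2 - t1 ≤ (t4 - t3) / 16`: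
`(t3 - t1) + (t4 - t2) ≤ (25/16) (t4 - t3)`. So `K (s4 - s3) ≤ s3 - s2 ≤ (25/16) Λ c (t4 - t3)
≤ (25/16) Λ (s4 - s3)`, so `K ≤ (25/16) Λ < 4 Λ ≤ K`, contradiction.
-/

set_option autoImplicit false

namespace Pool.Agent.Work.MP_e64a38_co.FF

/-- the second divided difference -/
noncomputable def dd (f : ℝ → ℝ) (x y z : ℝ) : ℝ :=
  ((f z - f y) / (z - y) - (f y - f x) / (y - x)) / (z - x)

theorem dd_mir (f : ℝ → ℝ) (x y z : ℝ) : dd (fun t => f (-t)) x y z = dd f (-z) (-y) (-x) := by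
  have e1 : -x - -y = y - x := by ring
  have e2 : -y - -z = z - y := by ring
  have e3 : -x - -z = z - x := by ring
  unfold dd
  rw [e1, e2, e3]
  ring

theorem q_diff (f : ℝ → ℝ) (c Λ : ℝ)
    (hf : ∀ x y z, x < y → y < z → c ≤ dd f x y z ∧ dd f x y z ≤ Λ * c) (P N P' N' : ℝ) (h1 : P < N)
    (h2 : N ≤ P') (h3 : P' < N') :
    c * ((P' + N') - (P + N)) ≤ (f N' - f P') / (N' - P') - (f N - f P) / (N - P) ∧
      (f N' - f P') / (N' - P') - (f N - f P) / (N - P) ≤ Λ * c * ((P' + N') - (P + N)) := by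
  have key : ∀ x y z : ℝ, x < y → y < z →
      c * (z - x) ≤ (f z - f y) / (z - y) - (f y - f x) / (y - x) ∧
        (f z - f y) / (z - y) - (f y - f x) / (y - x) ≤ Λ * c * (z - x) := by
    intro x y z hxy hyz
    have hzx : 0 < z - x := by linarith
    obtain ⟨h1, h2⟩ := hf x y z hxy hyz
    unfold dd at h1 h2
    rw [le_div_iff₀ hzx] at h1
    rw [div_le_iff₀ hzx] at h2
    exact ⟨h1, h2⟩
  rcases lt_or_eq_of_le h2 with h | h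
  · obtain ⟨k1, k2⟩ := key N P' N' h h3
    obtain ⟨k3, k4⟩ := key P N P' h1 h
    constructor
    · linarith
    · linarith
  · subst h
    obtain ⟨k1, k2⟩ := key P N N' h1 h3
    constructor
    · linarith
    · linarith

theorem q_conv (f : ℝ → ℝ) (c Λ : ℝ) (hc : 0 < c)
    (hf : ∀ x y z, x < y → y < z → c ≤ dd f x y z ∧ dd f x y z ≤ Λ * c) (P x N : ℝ) (h1 : P < x)
    (h2 : x < N) : f x < f P + (f N - f P) / (N - P) * (x - P) := by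
  have h3 := (hf P x N h1 h2).1
  have hNP : 0 < N - P := by linarith
  unfold dd at h3
  rw [le_div_iff₀ hNP] at h3
  have h4 : 0 < (f N - f x) / (N - x) - (f x - f P) / (x - P) := by
    have : 0 < c * (N - P) := mul_pos hc hNP
    linarith
  have hA : 0 < N - x := by linarith
  have hB : 0 < x - P := by linarith
  have h5 : (f x - f P) / (x - P) < (f N - f x) / (N - x) := by linarith
  rw [div_lt_div_iff₀ hB hA] at h5
  have h6 : (f x - f P) * (N - P) < (f N - f P) * (x - P) := by linarith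
  have h7 : f x - f P < (f N - f P) / (N - P) * (x - P) := by
    rw [div_mul_eq_mul_div, lt_div_iff₀ hNP]
    exact h6
  linarith

theorem q_real (f : ℝ → ℝ) (c Λ K : ℝ) (hc : 0 < c)
    (hf : ∀ x y z, x < y → y < z → c ≤ dd f x y z ∧ dd f x y z ≤ Λ * c) (hK : 4 ≤ K)
    (hK' : 4 * Λ ≤ K) (P1 P2 P3 P4 N1 N2 N3 N4 t1 t2 t3 t4 : ℝ) (a1 : P1 < N1) (a2 : P2 < N2)
    (a3 : P3 < N3) (a4 : P4 < N4) (b1 : P1 ≤ t1 ∧ t1 ≤ N1) (b2 : P2 ≤ t2 ∧ t2 ≤ N2)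
    (b3 : P3 ≤ t3 ∧ t3 ≤ N3) (b4 : P4 ≤ t4 ∧ t4 ≤ N4)
    (c1 : (P1 = P2 ∧ N1 = N2) ∨ N1 ≤ P2 ∨ N2 ≤ P1) (c2 : (P2 = P3 ∧ N2 = N3) ∨ N2 ≤ P3 ∨ N3 ≤ P2)
    (c3 : (P3 = P4 ∧ N3 = N4) ∨ N3 ≤ P4 ∨ N4 ≤ P3) (d1 : t1 < t2) (d2 : t2 < t3) (d3 : t3 < t4)
    (e1 : K * (t2 - t1) ≤ t3 - t2) (e2 : K * (t3 - t2) ≤ t4 - t3)
    (g1 : 0 < (f N4 - f P4) / (N4 - P4) - (f N3 - f P3) / (N3 - P3))
    (g2 : K * ((f N4 - f P4) / (N4 - P4) - (f N3 - f P3) / (N3 - P3)) ≤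
      (f N3 - f P3) / (N3 - P3) - (f N2 - f P2) / (N2 - P2))
    (g3 : K * ((f N3 - f P3) / (N3 - P3) - (f N2 - f P2) / (N2 - P2)) ≤
      (f N2 - f P2) / (N2 - P2) - (f N1 - f P1) / (N1 - P1)) : False := by
  have hΛ : 0 < Λ * c := by
    obtain ⟨h1, h2⟩ := hf 0 1 2 (by norm_num) (by norm_num)
    linarith
  have hΛ' : 0 < Λ := (mul_pos_iff_of_pos_right hc).1 hΛ
  have hK0 : 0 < K := by linarith
  obtain ⟨s1, hs1⟩ : ∃ s, s = (f N1 - f P1) / (N1 - P1) := ⟨_, rfl⟩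
  obtain ⟨s2, hs2⟩ : ∃ s, s = (f N2 - f P2) / (N2 - P2) := ⟨_, rfl⟩
  obtain ⟨s3, hs3⟩ : ∃ s, s = (f N3 - f P3) / (N3 - P3) := ⟨_, rfl⟩
  obtain ⟨s4, hs4⟩ : ∃ s, s = (f N4 - f P4) / (N4 - P4) := ⟨_, rfl⟩
  rw [← hs3, ← hs4] at g1 g2
  rw [← hs2] at g2
  rw [← hs3, ← hs2, ← hs1] at g3
  have m3 : 0 < s3 - s2 := lt_of_lt_of_le (mul_pos hK0 g1) g2
  have m2 : 0 < s2 - s1 := lt_of_lt_of_le (mul_pos hK0 m3) g3
  -- the order of the intervals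
  have ord : ∀ P N P' N' : ℝ, P < N → P' < N' →
      (P = P' ∧ N = N') ∨ N ≤ P' ∨ N' ≤ P →
      (f N - f P) / (N - P) < (f N' - f P') / (N' - P') → N ≤ P' := by
    intro P N P' N' h1 h2 h3 h4
    rcases h3 with ⟨h5, h6⟩ | h5 | h5
    · rw [h5, h6] at h4
      exact absurd h4 (lt_irrefl _)
    · exact h5
    · exfalso
      have h6 := (q_diff f c Λ hf P' N' P N h2 h5 h1).1
      have h7 : 0 ≤ c * ((P + N) - (P' + N')) := mul_nonneg hc.le (by linarith)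
      linarith
  have o1 : N1 ≤ P2 := ord P1 N1 P2 N2 a1 a2 c1 (by rw [← hs1, ← hs2]; linarith)
  have o2 : N2 ≤ P3 := ord P2 N2 P3 N3 a2 a3 c2 (by rw [← hs2, ← hs3]; linarith)
  have o3 : N3 ≤ P4 := ord P3 N3 P4 N4 a3 a4 c3 (by rw [← hs3, ← hs4]; linarith)
  have k1 := (q_diff f c Λ hf P3 N3 P4 N4 a3 o3 a4).1
  have k2 := (q_diff f c Λ hf P2 N2 P3 N3 a2 o2 a3).2
  rw [← hs3, ← hs4] at k1
  rw [← hs2, ← hs3] at k2
  have k3 : c * (t4 - t3) ≤ s4 - s3 := by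
    refine le_trans (mul_le_mul_of_nonneg_left ?_ hc.le) k1
    linarith [b4.2, b3.1]
  have k4 : s3 - s2 ≤ Λ * c * ((25 / 16) * (t4 - t3)) := by
    refine k2.trans (mul_le_mul_of_nonneg_left ?_ hΛ.le)
    have q1 : 4 * (t3 - t2) ≤ K * (t3 - t2) := mul_le_mul_of_nonneg_right hK (by linarith)
    have q2 : 4 * (t2 - t1) ≤ K * (t2 - t1) := mul_le_mul_of_nonneg_right hK (by linarith)
    linarith [b1.2, b2.2, b3.1, b4.1]
  have k5 : Λ * (c * (t4 - t3)) ≤ Λ * (s4 - s3) := mul_le_mul_of_nonneg_left k3 hΛ'.le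
  have k6 : K * (s4 - s3) ≤ (25 / 16 * Λ) * (s4 - s3) := by linarith
  have k7 := le_of_mul_le_mul_right k6 g1
  linarith

end Pool.Agent.Work.MP_e64a38_co.FF
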