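import Pool.Agent.Work.MP_e64a38_co.FF.Defs

/-!
# One pair for every cell (size M)

If `0 < r`, `f - a q ≤ r (b q - f)` and `r (b s - f) ≤ f - a s` for all pairs then `P.card ≤ 2 card ι + 1`.

Proof. Map `t` to `N t = #{c : a c < y t} + #{c : b c < y t}` in `{0, ..., 2 n}`. It is injective on `P`: let
`N t = N t'`, wlog `y t ≤ y t'`. Both numbers are monotone in `y`, so the sets `{c : a c < y}` agree for `y t` and
`y t'`, and so do the sets `{c : b c < y}` (see `CZ.ZCells` for the same argument), and since the `y`s are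
different from all ends (`off`) the same chords are alive at `y t` and `y t'`. If `t ≠ t'` then by `cel` (wlog, the
other case is the same with `t`, `t'` interchanged) `f t < f t'`, `a t'.1 ≤ a t.2`, `b t'.1 ≤ b t.2`. So
`f t' - a t'.1 ≥ f t' - a t.2 > f t - a t.2 ≥ r (b t.2 - f t) ≥ r (b t.2 - f t') ≥ r (b t'.1 - f t')
≥ f t' - a t'.1`, contradiction.
-/

set_option autoImplicit false

namespace Pool.Agent.Work.MP_e64a38_co.FF

variable {ι : Type} [Fintype ι]

private theorem vcell_con {f f' a b a' b' r : ℝ} (hr : 0 < r) (h1 : f' - a' ≤ r * (b' - f'))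
    (h2 : r * (b - f) ≤ f - a) (hf : f < f') (ha : a' ≤ a) (hb : b' ≤ b) : False := by
  have h3 : r * (b' - f') ≤ r * (b - f) := mul_le_mul_of_nonneg_left (by linarith) hr.le
  linarith

open Classical in
private theorem vcell_mono (V : VF ι) {y y' : ℝ} (hyy : y ≤ y') (h : ∀ c, y ≠ V.a c ∧ y ≠ V.b c)
    (h' : ∀ c, y' ≠ V.a c ∧ y' ≠ V.b c)
    (hN : (Finset.univ.filter (fun i => V.a i < y)).card +
      (Finset.univ.filter (fun i => V.b i < y)).card =
      (Finset.univ.filter (fun i => V.a i < y')).card +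
      (Finset.univ.filter (fun i => V.b i < y')).card) (c : ι) :
    (V.a c < y ∧ y < V.b c) ↔ (V.a c < y' ∧ y' < V.b c) := by
  have s1 : Finset.univ.filter (fun i => V.a i < y) ⊆ Finset.univ.filter (fun i => V.a i < y') := by
    intro i hi
    rw [Finset.mem_filter] at hi ⊢
    exact ⟨hi.1, lt_of_lt_of_le hi.2 hyy⟩
  have s2 : Finset.univ.filter (fun i => V.b i < y) ⊆ Finset.univ.filter (fun i => V.b i < y') := by
    intro i hi
    rw [Finset.mem_filter] at hi ⊢
    exact ⟨hi.1, lt_of_lt_of_le hi.2 hyy⟩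
  have c1 := Finset.card_le_card s1
  have c2 := Finset.card_le_card s2
  have e1 := Finset.eq_of_subset_of_card_le s1 (by omega)
  have e2 := Finset.eq_of_subset_of_card_le s2 (by omega)
  have g1 : V.a c < y ↔ V.a c < y' := by
    have := Finset.ext_iff.1 e1 c
    simpa using this
  have g2 : V.b c < y ↔ V.b c < y' := by
    have := Finset.ext_iff.1 e2 c
    simpa using this
  have k1 : y < V.b c ↔ ¬ V.b c < y :=
    ⟨fun hh => not_lt.2 hh.le, fun hh => lt_of_le_of_ne (not_lt.1 hh) (h c).2⟩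
  have k2 : y' < V.b c ↔ ¬ V.b c < y' :=
    ⟨fun hh => not_lt.2 hh.le, fun hh => lt_of_le_of_ne (not_lt.1 hh) (h' c).2⟩
  rw [k1, k2, g1, g2]

theorem vcell (V : VF ι) (r : ℝ) (hr : 0 < r)
    (h1 : ∀ t ∈ V.P, V.f t - V.a t.1 ≤ r * (V.b t.1 - V.f t))
    (h2 : ∀ t ∈ V.P, r * (V.b t.2 - V.f t) ≤ V.f t - V.a t.2) : V.P.card ≤ 2 * Fintype.card ι + 1 := by
  classical
  have hsame : ∀ t ∈ V.P, ∀ t' ∈ V.P,
      (∀ c, (V.a c < V.y t ∧ V.y t < V.b c) ↔ (V.a c < V.y t' ∧ V.y t' < V.b c)) → t = t' := by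
    intro t ht t' ht' hal
    by_contra hne
    rcases V.cel t ht t' ht' hne hal with ⟨p1, p2, p3⟩ | ⟨p1, p2, p3⟩
    · exact vcell_con hr (h1 t' ht') (h2 t ht) p1 p2 p3
    · exact vcell_con hr (h1 t ht) (h2 t' ht') p1 p2 p3
  have hc : V.P.card ≤ (Finset.range (2 * Fintype.card ι + 1)).card := by
    apply Finset.card_le_card_of_injOn (fun t =>
      (Finset.univ.filter (fun i => V.a i < V.y t)).card +
        (Finset.univ.filter (fun i => V.b i < V.y t)).card)
    · intro t _
      have c1 := Finset.card_le_univ (Finset.univ.filter (fun i => V.a i < V.y t))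
      have c2 := Finset.card_le_univ (Finset.univ.filter (fun i => V.b i < V.y t))
      simp only [Finset.coe_range, Set.mem_Iio]
      omega
    · intro t ht t' ht' hAB
      have ht1 : t ∈ V.P := by simpa using ht
      have ht2 : t' ∈ V.P := by simpa using ht'
      simp only at hAB
      rcases le_total (V.y t) (V.y t') with hle | hle
      · exact hsame t ht1 t' ht2 (vcell_mono V hle (V.off t ht1) (V.off t' ht2) hAB)
      · exact (hsame t' ht2 t ht1 (vcell_mono V hle (V.off t' ht2) (V.off t ht1) hAB.symm)).symm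
  rwa [Finset.card_range] at hc

end Pool.Agent.Work.MP_e64a38_co.FF
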