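import Mathlib

/-!
# J shifted dyadic grids (size M-L)

Let `J` be odd, `h > 0`, `θ j = j h 2^M / J` for `j < J`. For `u < w ≤ f` with `4 (f - u) ≤ J (w - u)`,
`h ≤ f - u` and `4 (f - u) ≤ h 2^M` there are `j < J`, `k`, `m` such that in the grid `j` the point `u` is in the
cell `(k, 2m)`, `w` is in the cell `(k, 2m+1)`, `f < R` and `R < u + 3 (f - u)`, where
`R = θ + h 2^k (2m + 2)`. (The cell `(k, n)` is `[θ + h 2^k n, θ + h 2^k (n+1))`.)

Proof. Let `ℓ = f - u > 0` and `K` the least natural number with `2 ℓ ≤ h 2^K`. `K ≥ 1` since `h ≤ ℓ < 2 ℓ`, so with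
`k = K - 1`: `h 2^k < 2 ℓ`, and `K ≤ M`. Put `H = h 2^K`, `2 ℓ ≤ H < 4 ℓ`. As `w - u ≥ 4 ℓ / J > H / J` the integer
`N = ⌊(w - H/2) J / H⌋` satisfies `u < g ≤ w` for `g = H/2 + H N / J`. Since `J` is odd, `2^(M-K)` and `J` are
coprime: there are integers `x`, `y'` with `x 2^(M-K) + y' J = 1`; let `j = (N x) mod J`, `0 ≤ j < J`, then
`N = j 2^(M-K) + J m` for some integer `m`. So `g = H/2 + H j 2^(M-K) / J + H m = θ j + h 2^k (2 m + 1)`
(`H 2^(M-K) = h 2^M`). Now `u < g` and `g - u ≤ w - u ≤ ℓ ≤ H/2 = h 2^k`, so `u` is in the cell `(k, 2m)`;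
`g ≤ w` and `w - g < w - u ≤ ℓ ≤ h 2^k`, so `w` is in the cell `(k, 2m+1)`. `R = g + h 2^k`:
`f - g < f - u = ℓ ≤ h 2^k`, so `f < R`; `R = g + h 2^k ≤ w + h 2^k < f + 2 ℓ = u + 3 ℓ`.
-/

set_option autoImplicit false

namespace Pool.Agent.Work.MP_e64a38_co.FF

theorem vshift (J : ℕ) (hJ : Odd J) (h : ℝ) (hh : 0 < h) (M : ℕ) (u w f : ℝ) (huw : u < w)
    (hwf : w ≤ f) (hA : 4 * (f - u) ≤ J * (w - u)) (h1 : h ≤ f - u) (h2 : 4 * (f - u) ≤ h * 2 ^ M) :
    ∃ (j : ℕ) (k : ℕ) (m : ℤ), j < J ∧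
      ⌊(u - (j : ℝ) * h * 2 ^ M / J) / (h * 2 ^ k)⌋ = 2 * m ∧
      ⌊(w - (j : ℝ) * h * 2 ^ M / J) / (h * 2 ^ k)⌋ = 2 * m + 1 ∧
      f < (j : ℝ) * h * 2 ^ M / J + h * 2 ^ k * (2 * m + 2) ∧
      (j : ℝ) * h * 2 ^ M / J + h * 2 ^ k * (2 * m + 2) < u + 3 * (f - u) := by
  classical
  have hJ0 : 0 < J := hJ.pos
  have hJr : (0 : ℝ) < J := by exact_mod_cast hJ0
  have hl : 0 < f - u := by linarith
  have hex : ∃ K, 2 * (f - u) ≤ h * 2 ^ K := ⟨M, by linarith⟩
  obtain ⟨K, hK, hmin⟩ : ∃ K, 2 * (f - u) ≤ h * 2 ^ K ∧ ∀ l < K, ¬ 2 * (f - u) ≤ h * 2 ^ l :=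
    ⟨Nat.find hex, Nat.find_spec hex, fun l hl => Nat.find_min hex hl⟩
  have hK0 : K ≠ 0 := by
    rintro rfl
    rw [pow_zero, mul_one] at hK
    linarith
  have hKM : K ≤ M := by
    by_contra hcon
    exact hmin M (by omega) (by linarith)
  obtain ⟨k, rfl⟩ := Nat.exists_eq_succ_of_ne_zero hK0
  have hk := hmin k (by omega)
  push Not at hk
  rw [Nat.succ_eq_add_one] at hK hKM
  have hp : 0 < h * 2 ^ k := by positivity
  have hH : h * 2 ^ (k + 1) = 2 * (h * 2 ^ k) := by rw [pow_succ]; ring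
  rw [hH] at hK
  set p : ℝ := h * 2 ^ k with hpdef
  -- the point g
  set N : ℤ := ⌊(w - p) * J / (2 * p)⌋ with hN
  have n1 : (N : ℝ) ≤ (w - p) * J / (2 * p) := Int.floor_le _
  have n2 : (w - p) * J / (2 * p) < N + 1 := Int.lt_floor_add_one _
  rw [le_div_iff₀ (by positivity)] at n1
  rw [div_lt_iff₀ (by positivity)] at n2
  -- residues
  have hco : IsCoprime ((2 : ℤ) ^ (M - (k + 1))) (J : ℤ) := by
    have : IsCoprime (2 : ℤ) (J : ℤ) := by
      rw [Int.isCoprime_iff_gcd_eq_one]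
      have h3 : Nat.Coprime 2 J := (Nat.coprime_two_left).2 hJ
      simpa [Int.gcd] using h3
    exact this.pow_left
  obtain ⟨x, y, hxy⟩ := hco
  have hJz : (0 : ℤ) < J := by exact_mod_cast hJ0
  have j1 := Int.emod_nonneg (N * x) hJz.ne'
  have j2 := Int.emod_lt_of_pos (N * x) hJz
  obtain ⟨j, hj⟩ := Int.eq_ofNat_of_zero_le j1
  have hdvd : (J : ℤ) ∣ N - (j : ℤ) * 2 ^ (M - (k + 1)) := by
    have e1 : N * x = (J : ℤ) * (N * x / J) + j := by
      have := Int.mul_ediv_add_emod (N * x) J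
      rw [hj] at this
      exact this.symm
    refine ⟨N * y + (N * x / J) * 2 ^ (M - (k + 1)), ?_⟩
    have e2 : N = N * (x * 2 ^ (M - (k + 1)) + y * J) := by rw [hxy, mul_one]
    have e3 : N * x * 2 ^ (M - (k + 1)) = ((J : ℤ) * (N * x / J) + j) * 2 ^ (M - (k + 1)) := by
      rw [← e1]
    calc N - (j : ℤ) * 2 ^ (M - (k + 1))
        = N * (x * 2 ^ (M - (k + 1)) + y * J) - (j : ℤ) * 2 ^ (M - (k + 1)) := by rw [← e2]
      _ = N * x * 2 ^ (M - (k + 1)) + N * y * J - (j : ℤ) * 2 ^ (M - (k + 1)) := by ring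
      _ = ((J : ℤ) * (N * x / J) + j) * 2 ^ (M - (k + 1)) + N * y * J -
            (j : ℤ) * 2 ^ (M - (k + 1)) := by rw [e3]
      _ = J * (N * y + (N * x / J) * 2 ^ (M - (k + 1))) := by ring
  obtain ⟨m, hm⟩ := hdvd
  have hNr : (N : ℝ) = j * 2 ^ (M - (k + 1)) + J * m := by
    have : N = (j : ℤ) * 2 ^ (M - (k + 1)) + J * m := by linarith
    rw [this]
    push_cast
    ring
  have hpow : h * (2 : ℝ) ^ M = 2 * p * 2 ^ (M - (k + 1)) := by
    have : (2 : ℝ) ^ M = 2 ^ (k + 1) * 2 ^ (M - (k + 1)) := by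
      rw [← pow_add]
      congr 1
      omega
    rw [this, hpdef, pow_succ]
    ring
  -- g = θ + p (2 m + 1)
  set θ : ℝ := (j : ℝ) * h * 2 ^ M / J with hθ
  have hθJ : θ * J = 2 * p * (j * 2 ^ (M - (k + 1))) := by
    rw [hθ, div_mul_cancel₀ _ hJr.ne', mul_assoc, hpow]
    ring
  set g : ℝ := θ + p * (2 * m + 1) with hg
  have hgJ : g * J = 2 * p * N + p * J := by
    rw [hg, add_mul, hθJ, hNr]
    ring
  have g1 : g ≤ w := by
    have : g * J ≤ w * J := by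
      rw [hgJ]
      nlinarith
    exact le_of_mul_le_mul_right this hJr
  have g2 : u < g := by
    have : u * J < g * J := by
      rw [hgJ]
      nlinarith
    exact lt_of_mul_lt_mul_right this hJr.le
  refine ⟨j, k, m, ?_, ?_, ?_, ?_, ?_⟩
  · have : (j : ℤ) < J := by
      rw [hj] at j2
      exact j2
    exact_mod_cast this
  · rw [Int.floor_eq_iff]
    push_cast
    rw [le_div_iff₀ hp, div_lt_iff₀ hp]
    constructor
    · have : g - p ≤ u := by linarith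
      rw [hg] at this
      linarith
    · have : g = θ + p * (2 * m + 1) := hg
      linarith
  · rw [Int.floor_eq_iff]
    push_cast
    rw [le_div_iff₀ hp, div_lt_iff₀ hp]
    constructor
    · rw [hg] at g1
      linarith
    · have : w < g + p := by linarith
      rw [hg] at this
      linarith
  · have : f < g + p := by linarith
    rw [hg] at this
    linarith
  · have : g + p < u + 3 * (f - u) := by linarith
    rw [hg] at this
    linarith

end Pool.Agent.Work.MP_e64a38_co.FF
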