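import Pool.Agent.Work.MP_e64a38_co.FF.VGrid
import Pool.Agent.Work.MP_e64a38_co.FF.VShift

/-!
# Crossings seen from far away (size M)

Let `N ≥ 1`. If `f - a s ≤ 2 N (a q - a s)` and `3 (f - a s) < y - a s` for all pairs then
`P.card ≤ 3 (8 N + 1) card ι`. (Compare `CZ.far_card`.)

Proof. If `P` is empty nothing is to be shown. Let `h` be the least `f t - a t.2 > 0` (`ord`) and `M` such that
`h 2^M ≥ 4 (f t - a t.2)` for all `t ∈ P`. `J = 8 N + 1` is odd. `vshift` with `u = a s`, `w = a q`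
(`4 (f - u) ≤ 8 N (w - u) ≤ J (w - u)`) gives for every `t ∈ P` some `j < J`, `k`, `m` with
`f < R < a s + 3 (f - a s) < y`. For each `j` the subfamily (`VF.sub`) of the `t` with this `j` satisfies the
hypothesis of `vgrid` for `θ = j h 2^M / J`, so it has at most `3 card ι` elements.
-/

set_option autoImplicit false

namespace Pool.Agent.Work.MP_e64a38_co.FF

variable {ι : Type} [Fintype ι]

theorem vfar (V : VF ι) (N : ℕ) (hN : 1 ≤ N)
    (h1 : ∀ t ∈ V.P, V.f t - V.a t.2 ≤ 2 * N * (V.a t.1 - V.a t.2))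
    (h2 : ∀ t ∈ V.P, 3 * (V.f t - V.a t.2) < V.y t - V.a t.2) :
    V.P.card ≤ 3 * (8 * N + 1) * Fintype.card ι := by
  classical
  rcases V.P.eq_empty_or_nonempty with hPe | hPn
  · rw [hPe, Finset.card_empty]
    exact Nat.zero_le _
  have hl : ∀ t ∈ V.P, 0 < V.f t - V.a t.2 := fun t ht => by
    have := V.ord t ht
    linarith [this.1, this.2.1]
  obtain ⟨t0, ht0, hmin⟩ := V.P.exists_min_image (fun t => V.f t - V.a t.2) hPn
  obtain ⟨t1, ht1, hmax⟩ := V.P.exists_max_image (fun t => V.f t - V.a t.2) hPn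
  obtain ⟨h, hhdef⟩ : ∃ h : ℝ, h = V.f t0 - V.a t0.2 := ⟨_, rfl⟩
  have hh : 0 < h := by
    rw [hhdef]
    exact hl t0 ht0
  obtain ⟨M, hM⟩ : ∃ M : ℕ, 4 * (V.f t1 - V.a t1.2) ≤ h * 2 ^ M := by
    obtain ⟨M, hM⟩ := pow_unbounded_of_one_lt (4 * (V.f t1 - V.a t1.2) / h)
      (by norm_num : (1 : ℝ) < 2)
    refine ⟨M, ?_⟩
    rw [div_lt_iff₀ hh] at hM
    linarith
  have hodd : Odd (8 * N + 1) := ⟨4 * N, by ring⟩
  have key : ∀ t ∈ V.P, ∃ j : ℕ, j < 8 * N + 1 ∧ ∃ (k : ℕ) (m : ℤ),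
      ⌊(V.a t.2 - (j : ℝ) * h * 2 ^ M / ((8 * N + 1 : ℕ) : ℝ)) / (h * 2 ^ k)⌋ = 2 * m ∧
      ⌊(V.a t.1 - (j : ℝ) * h * 2 ^ M / ((8 * N + 1 : ℕ) : ℝ)) / (h * 2 ^ k)⌋ = 2 * m + 1 ∧
      V.f t < (j : ℝ) * h * 2 ^ M / ((8 * N + 1 : ℕ) : ℝ) + h * 2 ^ k * (2 * m + 2) ∧
      (j : ℝ) * h * 2 ^ M / ((8 * N + 1 : ℕ) : ℝ) + h * 2 ^ k * (2 * m + 2) < V.y t := by
    intro t ht
    have ho := V.ord t ht
    have e1 : V.f t0 - V.a t0.2 ≤ V.f t - V.a t.2 := hmin t ht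
    have e2 : V.f t - V.a t.2 ≤ V.f t1 - V.a t1.2 := hmax t ht
    have e0 := h1 t ht
    have e5 : 4 * (V.f t - V.a t.2) ≤ ((8 * N + 1 : ℕ) : ℝ) * (V.a t.1 - V.a t.2) := by
      push_cast
      linarith [ho.1]
    obtain ⟨j, k, m, hj, g1, g2, g3, g4⟩ := vshift (8 * N + 1) hodd h hh M (V.a t.2) (V.a t.1)
      (V.f t) ho.1 ho.2.1.le e5 (by rw [hhdef]; exact e1) (by linarith)
    refine ⟨j, hj, k, m, g1, g2, g3, ?_⟩
    have e4 := h2 t ht
    linarith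
  choose! J hJ hJ' using key
  have hmaps : ∀ t ∈ V.P, J t ∈ Finset.range (8 * N + 1) := fun t ht =>
    Finset.mem_range.mpr (hJ t ht)
  have hmul := Finset.card_le_mul_card_image_of_maps_to hmaps (3 * Fintype.card ι) (by
    intro j _
    refine vgrid (V.sub (V.P.filter fun t => J t = j) (Finset.filter_subset _ _)) h
      ((j : ℝ) * h * 2 ^ M / ((8 * N + 1 : ℕ) : ℝ)) hh ?_
    intro t ht
    obtain ⟨htP, htJ⟩ := Finset.mem_filter.mp ht
    have := hJ' t htP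
    rw [htJ] at this
    exact this)
  rw [Finset.card_range] at hmul
  calc V.P.card ≤ 3 * Fintype.card ι * (8 * N + 1) := hmul
    _ = 3 * (8 * N + 1) * Fintype.card ι := by ring

end Pool.Agent.Work.MP_e64a38_co.FF
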