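import Pool.Agent.Work.MP_e64a38_co.FF.Defs

/-!
# Crossings seen from nearby (size M-L)

Let `N ≥ 1`. If `36 N (f - a s) ≤ b s - f`, `f - a s ≤ 2 N (a q - a s)` and `y - a s ≤ 3 (f - a s)` for all pairs
then `P.card ≤ 2 card ι`. (This is `CZ.near_card` with other constants and for order families; copy its proof.)

Proof. Call `t = (q, s) ∈ P` first if no `t' = (q, s') ∈ P` (same `q`) has `y t' < y t`. The map `t ↦ t.1` is
injective on the first elements: if `t ≠ t'` are both first with the same `q` then `y t = y t'`, and `fa` gives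
`b s < y t' = y t < b s`. So there are at most `card ι` first elements.
Let `t = (q, s)` be not first and `u' = (q, u) ∈ P` with `y u' < y t`. Write `f_u`, `y_u` for its data. By `fa`
`b u < y`, `f_u ≤ f`. `a q - a u ≤ f_u - a u ≤ (b u - f_u) / (36 N) < (y - f_u) / (36 N) < (y - a s) / (36 N)
≤ 3 (f - a s) / (36 N) ≤ (a q - a s) / 6 < a q - a s` (`a s < a q < f_u`). So `a s < a u < a q` and `b u < y`. Let
`c` be a chord with `a s < a c < a q`, `b c < y` and `b c` as large as possible. Then `b c ≥ b u > f_u > a q`.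
The map `t ↦ c t` is injective on the non first elements. Let `t₁ = (q₁, s₁) ≠ t₂ = (q₂, s₂)` have the same `c`,
wlog `y₁ ≤ y₂`. We have `a s_i < a c < a q_i < b c < y₁` (`i = 1, 2`). So `q₂` and `s₂` are alive at `y₁`
(`b q₂ > b s₂ > y₂ ≥ y₁`). If `y₂ < b s₁` then `s₁` and `q₁` are alive at `y₂`, and `four` gives `t₁ = t₂`. So
`b s₁ < y₂` (`off`). If `a s₂ < a s₁` then `s₁` is a candidate in the choice of `c` for `t₂`
(`a s₂ < a s₁ < a c < a q₂`, `b s₁ < y₂`), so `b s₁ ≤ b c < y₁ < b s₁`, contradiction. So `a s₁ ≤ a s₂`. Now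
`y₁ - a s₁ ≤ 3 (f₁ - a s₁) ≤ (b s₁ - f₁) / (12 N) < (y₂ - f₁) / (12 N) < (y₂ - a s₁) / (12 N)`, so
`(12 N - 1) (y₁ - a s₁) < y₂ - y₁ ≤ y₂ - a s₂` (`a s₂ < a c < y₁`). On the other hand
`6 N (a q₂ - a s₂) ≥ 3 (f₂ - a s₂) ≥ y₂ - a s₂`. As `6 N ≤ 12 N - 1` and `a q₂ - a s₂ > 0`:
`a q₂ - a s₂ > y₁ - a s₁ ≥ y₁ - a s₂`, so `a q₂ > y₁`, contradicting `a q₂ < b c < y₁`.
-/

set_option autoImplicit false

namespace Pool.Agent.Work.MP_e64a38_co.FF

variable {ι : Type} [Fintype ι]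

omit [Fintype ι] in
private theorem nc_key (V : VF ι) (N : ℕ) (hN : 1 ≤ N)
    (h1 : ∀ t ∈ V.P, 36 * N * (V.f t - V.a t.2) ≤ V.b t.2 - V.f t)
    (h2 : ∀ t ∈ V.P, V.f t - V.a t.2 ≤ 2 * N * (V.a t.1 - V.a t.2))
    (h3 : ∀ t ∈ V.P, V.y t - V.a t.2 ≤ 3 * (V.f t - V.a t.2)) (t₁ t₂ : ι × ι) (ht₁ : t₁ ∈ V.P)
    (ht₂ : t₂ ∈ V.P) (hy : V.y t₁ ≤ V.y t₂) (c : ι) (a1 : V.a t₁.2 < V.a c) (a2 : V.a c < V.a t₁.1)
    (a4 : V.b c < V.y t₁) (b1 : V.a t₂.2 < V.a c)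
    (b2 : V.a c < V.a t₂.1) (b3 : V.a t₂.1 < V.b c)
    (b5 : ∀ c', V.a t₂.2 < V.a c' → V.a c' < V.a t₂.1 → V.b c' < V.y t₂ → V.b c' ≤ V.b c) :
    t₁ = t₂ := by
  obtain ⟨o1, o2, o3, o4, o5, o6⟩ := V.ord t₁ ht₁
  obtain ⟨p1, p2, p3, p4, p5, p6⟩ := V.ord t₂ ht₂
  have hNr : (1 : ℝ) ≤ (N : ℝ) := by exact_mod_cast hN
  by_cases hc : V.y t₂ < V.b t₁.2
  · exact V.four t₁ ht₁ t₂ ht₂ ⟨by linarith, by linarith⟩ ⟨by linarith, by linarith⟩
      ⟨by linarith, by linarith⟩ ⟨by linarith, by linarith⟩ (by linarith) (by linarith)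
  · exfalso
    have hne : V.y t₂ ≠ V.b t₁.2 := (V.off t₂ ht₂ t₁.2).2
    have hlt : V.b t₁.2 < V.y t₂ := lt_of_le_of_ne (not_lt.1 hc) (Ne.symm hne)
    by_cases has : V.a t₂.2 < V.a t₁.2
    · have := b5 t₁.2 has (by linarith) hlt
      linarith
    · have has' : V.a t₁.2 ≤ V.a t₂.2 := not_lt.1 has
      have q1 := h1 t₁ ht₁
      have q3 := h3 t₁ ht₁
      have r2 := h2 t₂ ht₂
      have r3 := h3 t₂ ht₂
      have e1 : 12 * (N : ℝ) * (V.y t₁ - V.a t₁.2) ≤ 12 * (N : ℝ) * (3 * (V.f t₁ - V.a t₁.2)) :=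
        mul_le_mul_of_nonneg_left q3 (by linarith)
      have e2 : 6 * (N : ℝ) * (V.a t₂.1 - V.a t₂.2) ≤ 6 * (N : ℝ) * (V.y t₁ - V.a t₁.2) :=
        mul_le_mul_of_nonneg_left (by linarith) (by linarith)
      have e3 : 1 * (V.y t₁ - V.a t₁.2) ≤ (N : ℝ) * (V.y t₁ - V.a t₁.2) :=
        mul_le_mul_of_nonneg_right hNr (by linarith)
      linarith

theorem vnear (V : VF ι) (N : ℕ) (hN : 1 ≤ N)
    (h1 : ∀ t ∈ V.P, 36 * N * (V.f t - V.a t.2) ≤ V.b t.2 - V.f t)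
    (h2 : ∀ t ∈ V.P, V.f t - V.a t.2 ≤ 2 * N * (V.a t.1 - V.a t.2))
    (h3 : ∀ t ∈ V.P, V.y t - V.a t.2 ≤ 3 * (V.f t - V.a t.2)) : V.P.card ≤ 2 * Fintype.card ι := by
  classical
  have hNr : (1 : ℝ) ≤ (N : ℝ) := by exact_mod_cast hN
  have hA : (V.P.filter (fun t => ∀ t' ∈ V.P, t'.1 = t.1 → V.y t ≤ V.y t')).card ≤ Fintype.card ι := by
    apply Finset.card_le_card_of_injOn (fun t => t.1) (fun _ _ => Finset.mem_univ _)
    intro t ht t' ht' he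
    have ht1 := Finset.mem_filter.1 (Finset.mem_coe.1 ht)
    have ht1' := Finset.mem_filter.1 (Finset.mem_coe.1 ht')
    have he' : t.1 = t'.1 := he
    have hy1 : V.y t ≤ V.y t' := ht1.2 t' ht1'.1 he'.symm
    by_contra hne
    have h5 := (V.fa t ht1.1 t' ht1'.1 he' hne hy1).1
    have h6 := ht1'.2 t ht1.1 he'
    have h7 := (V.ord t ht1.1).2.2.2.2.2
    linarith
  have hex : ∀ t ∈ V.P.filter (fun t => ¬ ∀ t' ∈ V.P, t'.1 = t.1 → V.y t ≤ V.y t'),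
      ∃ c, V.a t.2 < V.a c ∧ V.a c < V.a t.1 ∧ V.b c < V.y t ∧ V.a t.1 < V.b c ∧
        ∀ c', V.a t.2 < V.a c' → V.a c' < V.a t.1 → V.b c' < V.y t → V.b c' ≤ V.b c := by
    intro t ht
    obtain ⟨htP, hn⟩ := Finset.mem_filter.1 ht
    push Not at hn
    obtain ⟨t', ht', he, hy⟩ := hn
    have hs : t' ≠ t := by
      intro h
      rw [h] at hy
      exact lt_irrefl _ hy
    obtain ⟨e1, e2⟩ := V.fa t' ht' t htP he hs hy.le
    obtain ⟨o1, o2, o3, o4, o5, o6⟩ := V.ord t htP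
    obtain ⟨p1, p2, p3, p4, p5, p6⟩ := V.ord t' ht'
    have q1 := h1 t' ht'
    have q2 := h2 t htP
    have q3 := h3 t htP
    rw [he] at p1 p2
    have c1 : V.a t.2 < V.a t'.2 := by
      by_contra hcon
      have hcon' : V.a t'.2 ≤ V.a t.2 := not_lt.1 hcon
      have e3 : 36 * (N : ℝ) * (V.a t.1 - V.a t.2) ≤ 36 * (N : ℝ) * (V.f t' - V.a t'.2) :=
        mul_le_mul_of_nonneg_left (by linarith) (by linarith)
      have e4 : 1 * (V.a t.1 - V.a t.2) ≤ (N : ℝ) * (V.a t.1 - V.a t.2) :=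
        mul_le_mul_of_nonneg_right hNr (by linarith)
      linarith
    obtain ⟨c, hc, hmax⟩ := Finset.exists_max_image
      (Finset.univ.filter (fun c => V.a t.2 < V.a c ∧ V.a c < V.a t.1 ∧ V.b c < V.y t)) V.b
      ⟨t'.2, Finset.mem_filter.2 ⟨Finset.mem_univ _, c1, p1, e1⟩⟩
    obtain ⟨-, d1, d2, d3⟩ := Finset.mem_filter.1 hc
    have d4 := hmax t'.2 (Finset.mem_filter.2 ⟨Finset.mem_univ _, c1, p1, e1⟩)
    refine ⟨c, d1, d2, d3, by linarith, ?_⟩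
    intro c' u1 u2 u3
    exact hmax c' (Finset.mem_filter.2 ⟨Finset.mem_univ _, u1, u2, u3⟩)
  have hex' : ∀ t : ι × ι, ∃ c : ι, t ∈ V.P.filter (fun t => ¬ ∀ t' ∈ V.P, t'.1 = t.1 → V.y t ≤ V.y t') →
      V.a t.2 < V.a c ∧ V.a c < V.a t.1 ∧ V.b c < V.y t ∧ V.a t.1 < V.b c ∧
        ∀ c', V.a t.2 < V.a c' → V.a c' < V.a t.1 → V.b c' < V.y t → V.b c' ≤ V.b c := by
    intro t
    by_cases h : t ∈ V.P.filter (fun t => ¬ ∀ t' ∈ V.P, t'.1 = t.1 → V.y t ≤ V.y t')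
    · obtain ⟨c, hc⟩ := hex t h
      exact ⟨c, fun _ => hc⟩
    · exact ⟨t.1, fun h' => absurd h' h⟩
  choose c hcc using hex'
  have hB : (V.P.filter (fun t => ¬ ∀ t' ∈ V.P, t'.1 = t.1 → V.y t ≤ V.y t')).card ≤
      Fintype.card ι := by
    apply Finset.card_le_card_of_injOn c (fun _ _ => Finset.mem_univ _)
    intro t ht t' ht' he
    have hm := Finset.mem_coe.1 ht
    have hm' := Finset.mem_coe.1 ht'
    have htP := (Finset.mem_filter.1 hm).1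
    have htP' := (Finset.mem_filter.1 hm').1
    rcases le_total (V.y t) (V.y t') with hy | hy
    · apply nc_key V N hN h1 h2 h3 t t' htP htP' hy (c t) (hcc _ hm).1 (hcc _ hm).2.1 (hcc _ hm).2.2.1
      · rw [he]; exact (hcc _ hm').1
      · rw [he]; exact (hcc _ hm').2.1
      · rw [he]; exact (hcc _ hm').2.2.2.1
      · rw [he]; exact (hcc _ hm').2.2.2.2
    · symm
      apply nc_key V N hN h1 h2 h3 t' t htP' htP hy (c t') (hcc _ hm').1 (hcc _ hm').2.1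
        (hcc _ hm').2.2.1
      · rw [← he]; exact (hcc _ hm).1
      · rw [← he]; exact (hcc _ hm).2.1
      · rw [← he]; exact (hcc _ hm).2.2.2.1
      · rw [← he]; exact (hcc _ hm).2.2.2.2
  have hsum := Finset.card_filter_add_card_filter_not
    (s := V.P) (fun t => ∀ t' ∈ V.P, t'.1 = t.1 → V.y t ≤ V.y t')
  omega

end Pool.Agent.Work.MP_e64a38_co.FF
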