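import Pool.Agent.Work.MP_e64a38_co.FF.VZ
import Pool.Agent.Work.MP_e64a38_co.FF.VCell
import Pool.Agent.Work.MP_e64a38_co.FF.VNear
import Pool.Agent.Work.MP_e64a38_co.FF.VFar

/-!
# The positional lemma (size M)

Let `N ≥ 1`. If `y - a q ≤ b s - y` for all pairs and no pair satisfies `Inc N` then
`P.card ≤ 320 N (card ι + 1)`.

Proof. Write `A = a q - a s`, `l = f - a q`, `R = b s - f`, `E = b q - b s` (all positive by `ord`), `m = 144 N`.
(1) The pairs with `b s - a s ≤ m (y - a q)`: at most `m n` (`z1`).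
(2) Of the others, those with `b q - a q ≤ m (b s - y)`: at most `m n` (`z2`).
For all others `m (y - a q) < A + l + R` and `m (b s - y) < l + R + E`. So
`l + R = (b s - y) + (y - a q) ≤ 2 (b s - y) < (l + R + E) / (72 N)`, `E > (72 N - 1) (l + R) ≥ 71 N (l + R)`.
(3) Of these, those with `R ≤ 36 N (A + l)`: `vcell` with `r = 1 / (36 N)`; `36 N l ≤ E ≤ b q - f`. At most
`2 n + 1`.
For all others `36 N (A + l) < R`.
(4) Of these, those with `A + l ≤ 2 N A` and `y - a s ≤ 3 (A + l)`: at most `2 n` (`vnear`).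
(5) Of these, those with `A + l ≤ 2 N A` and `3 (A + l) < y - a s`: at most `3 (8 N + 1) n` (`vfar`).
(6) For all others `2 N A < A + l`, so `N A ≤ (2 N - 1) A < l`; `N l ≤ 36 N (A + l) < R`;
`N R ≤ 71 N (l + R) < E`; `144 N (y - a q) < A + l + R < 2 R`, so `N (y - a q) ≤ R`. So `Inc N` holds: there are
none.
Sum: `288 N n + 2 n + 1 + 2 n + (24 N + 3) n ≤ 320 N (n + 1)`.
(Use `VF.sub` for the subfamilies and card of a filter and of its complement.)
-/

set_option autoImplicit false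

namespace Pool.Agent.Work.MP_e64a38_co.FF

variable {ι : Type} [Fintype ι]

theorem vpos (V : VF ι) (N : ℕ) (hN : 1 ≤ N)
    (ho : ∀ t ∈ V.P, V.y t - V.a t.1 ≤ V.b t.2 - V.y t)
    (hI : ∀ t ∈ V.P, ¬ Inc N (V.a t.2) (V.a t.1) (V.f t) (V.b t.2) (V.b t.1) (V.y t)) :
    V.P.card ≤ 320 * N * (Fintype.card ι + 1) := by
  classical
  have hN' : (1 : ℝ) ≤ N := by exact_mod_cast hN
  -- the parts
  let c1 : ι × ι → Prop := fun t => V.b t.2 - V.a t.2 ≤ (144 * N : ℕ) * (V.y t - V.a t.1)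
  let c2 : ι × ι → Prop := fun t => V.b t.1 - V.a t.1 ≤ (144 * N : ℕ) * (V.b t.2 - V.y t)
  let c3 : ι × ι → Prop := fun t => ¬ c2 t ∧ V.b t.2 - V.f t ≤ 36 * N * (V.f t - V.a t.2)
  let c4 : ι × ι → Prop := fun t => 36 * N * (V.f t - V.a t.2) ≤ V.b t.2 - V.f t ∧
    V.f t - V.a t.2 ≤ 2 * N * (V.a t.1 - V.a t.2) ∧ V.y t - V.a t.2 ≤ 3 * (V.f t - V.a t.2)
  let c5 : ι × ι → Prop := fun t => V.f t - V.a t.2 ≤ 2 * N * (V.a t.1 - V.a t.2) ∧
    3 * (V.f t - V.a t.2) < V.y t - V.a t.2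
  have hE : ∀ t ∈ V.P, ¬ c2 t → (72 * N - 1) * (V.b t.2 - V.a t.1) < V.b t.1 - V.b t.2 := by
    intro t ht h
    have h1 : (144 * N : ℝ) * (V.b t.2 - V.y t) < V.b t.1 - V.a t.1 := by
      have h2 := not_le.mp h
      push_cast at h2
      exact h2
    have h3 := ho t ht
    have h4 : (N : ℝ) * (V.b t.2 - V.a t.1) ≤ N * (2 * (V.b t.2 - V.y t)) :=
      mul_le_mul_of_nonneg_left (by linarith) (by linarith)
    nlinarith
  have hcov : V.P ⊆ V.P.filter c1 ∪ (V.P.filter c2 ∪ (V.P.filter c3 ∪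
      (V.P.filter c4 ∪ V.P.filter c5))) := by
    intro t ht
    obtain ⟨o1, o2, o3, o4, o5, o6⟩ := V.ord t ht
    by_cases k1 : c1 t
    · exact Finset.mem_union_left _ (Finset.mem_filter.mpr ⟨ht, k1⟩)
    apply Finset.mem_union_right
    by_cases k2 : c2 t
    · exact Finset.mem_union_left _ (Finset.mem_filter.mpr ⟨ht, k2⟩)
    apply Finset.mem_union_right
    by_cases k3 : V.b t.2 - V.f t ≤ 36 * N * (V.f t - V.a t.2)
    · exact Finset.mem_union_left _ (Finset.mem_filter.mpr ⟨ht, k2, k3⟩)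
    apply Finset.mem_union_right
    have k3' := not_le.mp k3
    by_cases k4 : V.f t - V.a t.2 ≤ 2 * N * (V.a t.1 - V.a t.2)
    · by_cases k5 : V.y t - V.a t.2 ≤ 3 * (V.f t - V.a t.2)
      · exact Finset.mem_union_left _ (Finset.mem_filter.mpr ⟨ht, k3'.le, k4, k5⟩)
      · exact Finset.mem_union_right _ (Finset.mem_filter.mpr ⟨ht, k4, not_le.mp k5⟩)
    · exfalso
      have k4' := not_le.mp k4
      have k1' : (144 * N : ℝ) * (V.y t - V.a t.1) < V.b t.2 - V.a t.2 := by
        have h2 := not_le.mp k1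
        push_cast at h2
        exact h2
      have k2' := hE t ht k2
      have p1 : 0 ≤ ((N : ℝ) - 1) * (V.a t.1 - V.a t.2) :=
        mul_nonneg (by linarith) (by linarith)
      have p2 : 0 ≤ ((N : ℝ) - 1) * (V.f t - V.a t.1) :=
        mul_nonneg (by linarith) (by linarith)
      have p3 : 0 ≤ ((N : ℝ) - 1) * (V.b t.2 - V.f t) :=
        mul_nonneg (by linarith) (by linarith)
      refine hI t ht ⟨?_, ?_, ?_, ?_⟩
      · nlinarith
      · nlinarith
      · nlinarith
      · nlinarith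
  have n1 : (V.P.filter c1).card ≤ 144 * N * Fintype.card ι :=
    z1 (V.sub (V.P.filter c1) (Finset.filter_subset _ _)) (144 * N) fun t ht =>
      (Finset.mem_filter.mp ht).2
  have n2 : (V.P.filter c2).card ≤ 144 * N * Fintype.card ι :=
    z2 (V.sub (V.P.filter c2) (Finset.filter_subset _ _)) (144 * N) fun t ht =>
      (Finset.mem_filter.mp ht).2
  have n3 : (V.P.filter c3).card ≤ 2 * Fintype.card ι + 1 := by
    have hr : (0 : ℝ) < 1 / (36 * N) := by positivity
    refine vcell (V.sub (V.P.filter c3) (Finset.filter_subset _ _)) (1 / (36 * N)) hr ?_ ?_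
    · intro t ht
      obtain ⟨ht1, ht2, ht3⟩ := Finset.mem_filter.mp ht
      obtain ⟨o1, o2, o3, o4, o5, o6⟩ := V.ord t ht1
      have h1 := hE t ht1 ht2
      change V.f t - V.a t.1 ≤ 1 / (36 * N) * (V.b t.1 - V.f t)
      rw [one_div, inv_mul_eq_div, le_div_iff₀ (by positivity)]
      have p2 : 0 ≤ ((N : ℝ) - 1) * (V.f t - V.a t.1) :=
        mul_nonneg (by linarith) (by linarith)
      have p3 : 0 ≤ ((N : ℝ) - 1) * (V.b t.2 - V.f t) :=
        mul_nonneg (by linarith) (by linarith)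
      nlinarith
    · intro t ht
      obtain ⟨ht1, ht2, ht3⟩ := Finset.mem_filter.mp ht
      change 1 / (36 * N) * (V.b t.2 - V.f t) ≤ V.f t - V.a t.2
      rw [one_div, inv_mul_eq_div, div_le_iff₀ (by positivity)]
      linarith
  have n4 : (V.P.filter c4).card ≤ 2 * Fintype.card ι :=
    vnear (V.sub (V.P.filter c4) (Finset.filter_subset _ _)) N hN
      (fun t ht => (Finset.mem_filter.mp ht).2.1) (fun t ht => (Finset.mem_filter.mp ht).2.2.1)
      (fun t ht => (Finset.mem_filter.mp ht).2.2.2)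
  have n5 : (V.P.filter c5).card ≤ 3 * (8 * N + 1) * Fintype.card ι :=
    vfar (V.sub (V.P.filter c5) (Finset.filter_subset _ _)) N hN
      (fun t ht => (Finset.mem_filter.mp ht).2.1) (fun t ht => (Finset.mem_filter.mp ht).2.2)
  have h0 := Finset.card_le_card hcov
  have u1 := Finset.card_union_le (V.P.filter c1) (V.P.filter c2 ∪ (V.P.filter c3 ∪
      (V.P.filter c4 ∪ V.P.filter c5)))
  have u2 := Finset.card_union_le (V.P.filter c2) (V.P.filter c3 ∪
      (V.P.filter c4 ∪ V.P.filter c5))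
  have u3 := Finset.card_union_le (V.P.filter c3) (V.P.filter c4 ∪ V.P.filter c5)
  have u4 := Finset.card_union_le (V.P.filter c4) (V.P.filter c5)
  have h7 : Fintype.card ι ≤ N * Fintype.card ι := Nat.le_mul_of_pos_left _ (by omega)
  have e1 : 144 * N * Fintype.card ι = 144 * (N * Fintype.card ι) := by ring
  have e2 : 3 * (8 * N + 1) * Fintype.card ι =
      24 * (N * Fintype.card ι) + 3 * Fintype.card ι := by ring
  have e3 : 320 * N * (Fintype.card ι + 1) = 320 * (N * Fintype.card ι) + 320 * N := by ring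
  rw [e1] at n1 n2
  rw [e2] at n5
  rw [e3]
  omega

end Pool.Agent.Work.MP_e64a38_co.FF
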