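import Pool.Agent.Work.MP_e64a38_co.FF.VOf
import Pool.Agent.Work.MP_e64a38_co.FF.VPos

/-!
# The positional lemma for a convex curve in both orientations (size M)

`pos_two`: for a strictly increasing coordinate `X` and `N ≥ 1` at most `640 N (card ι + 1)` visible pairs satisfy
neither `Inc N` nor `Dec N` in the coordinate `X`.
Proof. Split `P` into the pairs with `X y - X (a q) ≤ X (b s) - X y` and the others. For the first part use
`vf_ex` and `vpos`: at most `320 N (n + 1)`. For the others use the mirror image: `S.mir`, `X' x = - X (-x)`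
(strictly increasing), `P' = P.image Prod.swap`, `f' t = - f t.swap`, `y' t = - y t.swap`, a family of visible
crossings by `CZ.vis_mir`. In the coordinate `X'` the ends of the pair `t.swap = (s, q)` are
`X' (a' q) = X' (- b q) = - X (b q)`, `X' (a' s) = - X (b s)`, `X' f' = - X f`, `X' (b' q) = - X (a q)`,
`X' (b' s) = - X (a s)`, `X' y' = - X y`; the orientation is `X (b s) - X y ≤ X y - X (a q)`, and
`Inc N (-e) (-b) (-f) (-q) (-s) (-y) ↔ Dec N s q f b e y`. The image under `Prod.swap` has the same number of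
elements.

`pos_lim`: the same for a monotone, not strictly monotone coordinate `ψ`.
Proof. Put `X_τ x = ψ x + τ x` for `τ > 0`, strictly increasing. Each of `¬ Inc N` and `¬ Dec N` in the coordinate
`ψ` means that one of four inequalities `K U ≤ V` fails, i.e. `V < K U`, where `U`, `V` are differences of values
of `ψ`; the same inequality fails for `X_τ` when `τ > 0` is small, since `U`, `V` change by `τ` times a constant. So
there is `τ > 0` such that all `t ∈ P` satisfy neither `Inc N` nor `Dec N` in the coordinate `X_τ` (finitely many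
conditions, all true eventually for `τ → 0`, `τ > 0`: `Filter.eventually_all_finset`). Apply `pos_two`.
-/

set_option autoImplicit false

namespace Pool.Agent.Work.MP_e64a38_co.FF

variable {ι : Type} [Fintype ι]

private theorem vt_cl {A B C D A' B' C' D' : ℝ → ℝ} (hA : Continuous A) (hA' : Continuous A')
    (hB : Continuous B) (hB' : Continuous B') (hC : Continuous C) (hC' : Continuous C')
    (hD : Continuous D) (hD' : Continuous D') :
    IsClosed {τ : ℝ | A τ ≤ A' τ ∧ B τ ≤ B' τ ∧ C τ ≤ C' τ ∧ D τ ≤ D' τ} :=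
  (isClosed_le hA hA').inter ((isClosed_le hB hB').inter ((isClosed_le hC hC').inter
    (isClosed_le hD hD')))

private theorem vt_one (S : CZ.Sy ι) (X : ℝ → ℝ) (hX : StrictMono X) (P : Finset (ι × ι))
    (f y : ι × ι → ℝ) (hP : CZ.Fam S P f y) (N : ℕ) (hN : 1 ≤ N)
    (ho : ∀ t ∈ P, X (y t) - X (S.a t.1) ≤ X (S.b t.2) - X (y t))
    (h : ∀ t ∈ P, ¬ IncT S X f y N t) : P.card ≤ 320 * N * (Fintype.card ι + 1) := by
  obtain ⟨V, ha, hb, hVP, hf, hy⟩ := vf_ex S X hX P f y hP
  rw [← hVP]
  refine vpos V N hN ?_ ?_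
  · intro t ht
    rw [hVP] at ht
    rw [ha, hb, hy]
    exact ho t ht
  · intro t ht
    rw [hVP] at ht
    rw [ha, ha, hb, hb, hf, hy]
    exact h t ht

theorem pos_two (S : CZ.Sy ι) (X : ℝ → ℝ) (hX : StrictMono X) (P : Finset (ι × ι)) (f y : ι × ι → ℝ)
    (hP : CZ.Fam S P f y) (N : ℕ) (hN : 1 ≤ N)
    (h : ∀ t ∈ P, ¬ IncT S X f y N t ∧ ¬ DecT S X f y N t) :
    P.card ≤ 640 * N * (Fintype.card ι + 1) := by
  classical
  have h1 : (P.filter fun t => X (y t) - X (S.a t.1) ≤ X (S.b t.2) - X (y t)).card ≤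
      320 * N * (Fintype.card ι + 1) :=
    vt_one S X hX _ f y (fun t ht => hP t (Finset.mem_filter.mp ht).1) N hN
      (fun t ht => (Finset.mem_filter.mp ht).2)
      (fun t ht => (h t (Finset.mem_filter.mp ht).1).1)
  have h2 : ((P.filter fun t => ¬ (X (y t) - X (S.a t.1) ≤ X (S.b t.2) - X (y t))).image
      Prod.swap).card ≤ 320 * N * (Fintype.card ι + 1) := by
    have hmem : ∀ t ∈ (P.filter fun t =>
        ¬ (X (y t) - X (S.a t.1) ≤ X (S.b t.2) - X (y t))).image Prod.swap, t.swap ∈ P ∧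
        ¬ (X (y t.swap) - X (S.a t.swap.1) ≤ X (S.b t.swap.2) - X (y t.swap)) := by
      intro t ht
      obtain ⟨u, hu, rfl⟩ := Finset.mem_image.mp ht
      rw [Prod.swap_swap]
      exact Finset.mem_filter.mp hu
    have hX' : StrictMono fun x : ℝ => -X (-x) := by
      intro x z hxz
      exact neg_lt_neg (hX (neg_lt_neg hxz))
    refine vt_one S.mir (fun x => -X (-x)) hX' _ (fun t => -f t.swap) (fun t => -y t.swap)
      (fun t ht => CZ.vis_mir S (hP t.swap (hmem t ht).1)) N hN ?_ ?_
    · intro t ht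
      have h3 := not_le.mp (hmem t ht).2
      change -X (- -y t.swap) - -X (- -S.b t.1) ≤ -X (- -S.a t.2) - -X (- -y t.swap)
      rw [neg_neg, neg_neg, neg_neg]
      have h4 : X (S.b t.1) - X (y t.swap) < X (y t.swap) - X (S.a t.2) := h3
      linarith
    · intro t ht hI
      refine (h t.swap (hmem t ht).1).2 ?_
      have h5 : Inc N (-X (- -S.b t.2)) (-X (- -S.b t.1)) (-X (- -f t.swap)) (-X (- -S.a t.2))
        (-X (- -S.a t.1)) (-X (- -y t.swap)) := hI
      rw [neg_neg, neg_neg, neg_neg, neg_neg, neg_neg, neg_neg] at h5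
      obtain ⟨k1, k2, k3, k4⟩ := h5
      change Dec N (X (S.a t.1)) (X (S.a t.2)) (X (f t.swap)) (X (S.b t.1)) (X (S.b t.2))
        (X (y t.swap))
      refine ⟨?_, ?_, ?_, ?_⟩
      · linarith
      · linarith
      · linarith
      · linarith
  rw [Finset.card_image_of_injective _ Prod.swap_injective] at h2
  have h3 : P ⊆ (P.filter fun t => X (y t) - X (S.a t.1) ≤ X (S.b t.2) - X (y t)) ∪
      P.filter fun t => ¬ (X (y t) - X (S.a t.1) ≤ X (S.b t.2) - X (y t)) := by
    intro t ht
    by_cases hp : X (y t) - X (S.a t.1) ≤ X (S.b t.2) - X (y t)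
    · exact Finset.mem_union_left _ (Finset.mem_filter.mpr ⟨ht, hp⟩)
    · exact Finset.mem_union_right _ (Finset.mem_filter.mpr ⟨ht, hp⟩)
  have h4 := (Finset.card_le_card h3).trans (Finset.card_union_le _ _)
  have e1 : 640 * N * (Fintype.card ι + 1) =
      320 * N * (Fintype.card ι + 1) + 320 * N * (Fintype.card ι + 1) := by ring
  rw [e1]
  omega

theorem pos_lim (S : CZ.Sy ι) (ψ : ℝ → ℝ) (hψ : Monotone ψ) (P : Finset (ι × ι)) (f y : ι × ι → ℝ)
    (hP : CZ.Fam S P f y) (N : ℕ) (hN : 1 ≤ N)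
    (h : ∀ t ∈ P, ¬ IncT S ψ f y N t ∧ ¬ DecT S ψ f y N t) :
    P.card ≤ 640 * N * (Fintype.card ι + 1) := by
  have h1 : ∀ t ∈ P, ∀ᶠ τ in nhdsWithin (0 : ℝ) (Set.Ioi 0),
      ¬ IncT S (fun x => ψ x + τ * x) f y N t ∧ ¬ DecT S (fun x => ψ x + τ * x) f y N t := by
    intro t ht
    have c1 : IsClosed {τ : ℝ | IncT S (fun x => ψ x + τ * x) f y N t} := by
      unfold IncT Inc
      exact vt_cl (by fun_prop) (by fun_prop) (by fun_prop) (by fun_prop) (by fun_prop)
        (by fun_prop) (by fun_prop) (by fun_prop)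
    have c2 : IsClosed {τ : ℝ | DecT S (fun x => ψ x + τ * x) f y N t} := by
      unfold DecT Dec
      exact vt_cl (by fun_prop) (by fun_prop) (by fun_prop) (by fun_prop) (by fun_prop)
        (by fun_prop) (by fun_prop) (by fun_prop)
    have e0 : (fun x => ψ x + 0 * x) = ψ := by
      funext x
      ring
    have m1 : (0 : ℝ) ∉ {τ : ℝ | IncT S (fun x => ψ x + τ * x) f y N t} := by
      rw [Set.mem_ofPred_eq, e0]
      exact (h t ht).1
    have m2 : (0 : ℝ) ∉ {τ : ℝ | DecT S (fun x => ψ x + τ * x) f y N t} := by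
      rw [Set.mem_ofPred_eq, e0]
      exact (h t ht).2
    have n1 := mem_nhdsWithin_of_mem_nhds (t := Set.Ioi (0 : ℝ)) (c1.compl_mem_nhds m1)
    have n2 := mem_nhdsWithin_of_mem_nhds (t := Set.Ioi (0 : ℝ)) (c2.compl_mem_nhds m2)
    filter_upwards [n1, n2] with τ h3 h4
    exact ⟨h3, h4⟩
  have h2 := (Filter.eventually_all_finset P).mpr h1
  obtain ⟨τ, h3, h4⟩ := (h2.and self_mem_nhdsWithin).exists
  have hX : StrictMono fun x => ψ x + τ * x :=
    hψ.add_strictMono fun x z hxz => mul_lt_mul_of_pos_left hxz h4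
  exact pos_two S _ hX P f y hP N hN h3

end Pool.Agent.Work.MP_e64a38_co.FF
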