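import Pool.Agent.Work.MP_e64a38_co.FF.Defs

/-!
# A line through the region over a convex function is a chord (size S-M)

`sub_cvx`: for `0 ≤ s ≤ 1`, `z = (1 - s) x + s y`: the supporting line at `z` is below `φ` at `x` and at `y`; take the
combination. `sub_cts`: a convex function on the line is continuous (`ConvexOn.continuousOn` with `isOpen_univ`,
`continuousOn_univ`).
`line_int`: let `g x = φ x - (p x + q)`. It is continuous, `g x1 > 0`, `g x0 < 0`, `g x2 > 0`, so there are zeros `a`
in `(x1, x0)` and `b` in `(x0, x2)` (`intermediate_value_Ioo`, `intermediate_value_Ioo'`), and by `sub_cvx` `g` is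
convex. If `a < x ≤ x0` then `x = (1 - s) a + s x0` with `0 < s ≤ 1`, `g x ≤ s g x0 < 0`. In the same way for
`x0 ≤ x < b`. If `x < a` then `a = (1 - s) x + s x0` with `0 < s < 1`, `0 = g a ≤ (1 - s) g x + s g x0`, so `g x > 0`. In
the same way for `b < x`.
-/

set_option autoImplicit false

namespace Pool.Agent.Work.MP_e64a38_co.FF

theorem sub_cvx (φ ψ : ℝ → ℝ) (hψ : Sub φ ψ) (x y s : ℝ) (h0 : 0 ≤ s) (h1 : s ≤ 1) :
    φ ((1 - s) * x + s * y) ≤ (1 - s) * φ x + s * φ y := by
  have k1 := hψ ((1 - s) * x + s * y) x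
  have k2 := hψ ((1 - s) * x + s * y) y
  have k3 := mul_le_mul_of_nonneg_left k1 (sub_nonneg.2 h1)
  have k4 := mul_le_mul_of_nonneg_left k2 h0
  have k5 : (1 - s) * (φ ((1 - s) * x + s * y) + ψ ((1 - s) * x + s * y) * (x - ((1 - s) * x + s * y)))
      + s * (φ ((1 - s) * x + s * y) + ψ ((1 - s) * x + s * y) * (y - ((1 - s) * x + s * y)))
      = φ ((1 - s) * x + s * y) := by ring
  linarith

theorem sub_cts (φ ψ : ℝ → ℝ) (hψ : Sub φ ψ) : Continuous φ := by
  have hc : ConvexOn ℝ Set.univ φ := by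
    refine ⟨convex_univ, ?_⟩
    intro x _ y _ a b ha hb hab
    have ha' : a = 1 - b := by linarith
    subst ha'
    simp only [smul_eq_mul]
    exact sub_cvx φ ψ hψ x y b hb (by linarith)
  exact continuousOn_univ.1 (hc.continuousOn isOpen_univ)

theorem line_int (φ ψ : ℝ → ℝ) (hψ : Sub φ ψ) (p q x1 x0 x2 : ℝ) (h1 : x1 < x0) (h2 : x0 < x2)
    (h0 : φ x0 < p * x0 + q) (hl : p * x1 + q < φ x1) (hr : p * x2 + q < φ x2) :
    ∃ a b, x1 < a ∧ a < x0 ∧ x0 < b ∧ b < x2 ∧ p * a + q = φ a ∧ p * b + q = φ b ∧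
      (∀ x, a < x → x < b → φ x < p * x + q) ∧ ∀ x, x < a ∨ b < x → p * x + q < φ x := by
  have hcts := sub_cts φ ψ hψ
  have hg : Continuous fun x => φ x - (p * x + q) := by fun_prop
  have hcv : ∀ x y s : ℝ, 0 ≤ s → s ≤ 1 →
      φ ((1 - s) * x + s * y) - (p * ((1 - s) * x + s * y) + q)
        ≤ (1 - s) * (φ x - (p * x + q)) + s * (φ y - (p * y + q)) := by
    intro x y s hs0 hs1
    have := sub_cvx φ ψ hψ x y s hs0 hs1
    nlinarith
  obtain ⟨a, ⟨ha1, ha2⟩, ha⟩ := intermediate_value_Ioo' h1.le hg.continuousOn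
    (show (0 : ℝ) ∈ Set.Ioo (φ x0 - (p * x0 + q)) (φ x1 - (p * x1 + q)) from
      ⟨by linarith, by linarith⟩)
  obtain ⟨b, ⟨hb1, hb2⟩, hb⟩ := intermediate_value_Ioo h2.le hg.continuousOn
    (show (0 : ℝ) ∈ Set.Ioo (φ x0 - (p * x0 + q)) (φ x2 - (p * x2 + q)) from
      ⟨by linarith, by linarith⟩)
  have ha' : φ a - (p * a + q) = 0 := ha
  have hb' : φ b - (p * b + q) = 0 := hb
  refine ⟨a, b, ha1, ha2, hb1, hb2, by linarith, by linarith, ?_, ?_⟩
  · intro x hax hxb
    rcases le_total x x0 with hx | hx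
    · have hpos : 0 < x0 - a := by linarith
      have hs0 : 0 < (x - a) / (x0 - a) := div_pos (by linarith) hpos
      have hs1 : (x - a) / (x0 - a) ≤ 1 := by rw [div_le_one hpos]; linarith
      have hx' : (1 - (x - a) / (x0 - a)) * a + (x - a) / (x0 - a) * x0 = x := by
        field_simp
        ring
      have k := hcv a x0 ((x - a) / (x0 - a)) hs0.le hs1
      rw [hx', ha', mul_zero, zero_add] at k
      have k2 : (x - a) / (x0 - a) * (φ x0 - (p * x0 + q)) < 0 :=
        mul_neg_of_pos_of_neg hs0 (by linarith)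
      linarith
    · have hpos : 0 < b - x0 := by linarith
      have hs0 : 0 < (b - x) / (b - x0) := div_pos (by linarith) hpos
      have hs1 : (b - x) / (b - x0) ≤ 1 := by rw [div_le_one hpos]; linarith
      have hx' : (1 - (b - x) / (b - x0)) * b + (b - x) / (b - x0) * x0 = x := by
        field_simp
        ring
      have k := hcv b x0 ((b - x) / (b - x0)) hs0.le hs1
      rw [hx', hb', mul_zero, zero_add] at k
      have k2 : (b - x) / (b - x0) * (φ x0 - (p * x0 + q)) < 0 :=
        mul_neg_of_pos_of_neg hs0 (by linarith)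
      linarith
  · intro x hx
    rcases hx with hx | hx
    · have hpos : 0 < x0 - x := by linarith
      have hs0 : 0 < (a - x) / (x0 - x) := div_pos (by linarith) hpos
      have hs1 : (a - x) / (x0 - x) < 1 := by rw [div_lt_one hpos]; linarith
      have hx' : (1 - (a - x) / (x0 - x)) * x + (a - x) / (x0 - x) * x0 = a := by
        field_simp
        ring
      have k := hcv x x0 ((a - x) / (x0 - x)) hs0.le hs1.le
      rw [hx', ha'] at k
      have k2 : (a - x) / (x0 - x) * (φ x0 - (p * x0 + q)) < 0 :=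
        mul_neg_of_pos_of_neg hs0 (by linarith)
      have k3 : 0 < (1 - (a - x) / (x0 - x)) * (φ x - (p * x + q)) := by linarith
      have k4 := (pos_iff_pos_of_mul_pos k3).1 (by linarith)
      linarith
    · have hpos : 0 < x - x0 := by linarith
      have hs0 : 0 < (x - b) / (x - x0) := div_pos (by linarith) hpos
      have hs1 : (x - b) / (x - x0) < 1 := by rw [div_lt_one hpos]; linarith
      have hx' : (1 - (x - b) / (x - x0)) * x + (x - b) / (x - x0) * x0 = b := by
        field_simp
        ring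
      have k := hcv x x0 ((x - b) / (x - x0)) hs0.le hs1.le
      rw [hx', hb'] at k
      have k2 : (x - b) / (x - x0) * (φ x0 - (p * x0 + q)) < 0 :=
        mul_neg_of_pos_of_neg hs0 (by linarith)
      have k3 : 0 < (1 - (x - b) / (x - x0)) * (φ x - (p * x + q)) := by linarith
      have k4 := (pos_iff_pos_of_mul_pos k3).1 (by linarith)
      linarith

end Pool.Agent.Work.MP_e64a38_co.FF
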