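import Pool.Agent.Work.MP_e64a38_co.FF.Defs

/-!
# Steep walls are convex (size S-M)

`wal_sub`. First for `α ≤ x ≤ β`: `ψ α ≤ ψ x ≤ ψ β` (add the two inequalities of `hs` for the pairs `α, x` and `x, β`:
`(ψ x - ψ α) (x - α) ≥ 0`; for `x = α` or `x = β` trivial), so `-M ≤ ψ x ≤ M`.
Case `x < α` (claim `F α + M (α - z) ≤ wal z`): `z < α` equality; `α ≤ z ≤ β`: `F z ≥ F α + ψ α (z - α)`;
`β < z`: `F β ≥ F α + ψ α (β - α) ≥ F α - M (β - α)` and `M (z - β) ≥ - M (z - β)`.
Case `α ≤ x ≤ β`: `z < α`: `F x + ψ x (α - x) ≤ F α` and `ψ x (z - α) ≤ M (α - z)`; `z ≤ β`: `hs`;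
`β < z`: `F x + ψ x (β - x) ≤ F β`, `ψ x (z - β) ≤ M (z - β)`.
Case `β < x` (claim `F β + M (z - β) ≤ wal z`): mirror image of the first case.
`wals_abs`: the bound of `ψ` used above.
-/

set_option autoImplicit false

namespace Pool.Agent.Work.MP_e64a38_co.FF

theorem wal_mono (F ψ : ℝ → ℝ) (α β : ℝ) (hab : α < β)
    (hs : ∀ x z, α ≤ x → x ≤ β → α ≤ z → z ≤ β → F x + ψ x * (z - x) ≤ F z) (x : ℝ)
    (h1 : α ≤ x) (h2 : x ≤ β) : ψ α ≤ ψ x ∧ ψ x ≤ ψ β := by
  constructor
  · rcases eq_or_lt_of_le h1 with h | h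
    · rw [h]
    · have k1 := hs α x le_rfl hab.le h1 h2
      have k2 := hs x α h1 h2 le_rfl hab.le
      by_contra hc
      have k3 := mul_pos (sub_pos.2 (not_le.1 hc)) (sub_pos.2 h)
      nlinarith
  · rcases eq_or_lt_of_le h2 with h | h
    · rw [h]
    · have k1 := hs β x hab.le le_rfl h1 h2
      have k2 := hs x β h1 h2 hab.le le_rfl
      by_contra hc
      have k3 := mul_pos (sub_pos.2 (not_le.1 hc)) (sub_pos.2 h)
      nlinarith

theorem wal_sub (F ψ : ℝ → ℝ) (α β M : ℝ) (hab : α < β)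
    (hs : ∀ x z, α ≤ x → x ≤ β → α ≤ z → z ≤ β → F x + ψ x * (z - x) ≤ F z)
    (hM : 0 ≤ M) (hα : -M ≤ ψ α) (hβ : ψ β ≤ M) : Sub (wal F α β M) (wals ψ α β M) := by
  have hm := wal_mono F ψ α β hab hs
  have ea := hs α β le_rfl hab.le hab.le le_rfl
  have eb := hs β α hab.le le_rfl le_rfl hab.le
  have hβα : 0 < β - α := sub_pos.2 hab
  have ga := mul_nonneg (by linarith : (0 : ℝ) ≤ ψ α + M) hβα.le
  have gb := mul_nonneg (by linarith : (0 : ℝ) ≤ M - ψ β) hβα.le
  intro x z
  unfold wal wals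
  rcases lt_or_ge x α with hx | hx
  · rw [if_pos hx, if_pos hx]
    rcases lt_or_ge z α with hz | hz
    · rw [if_pos hz]
      nlinarith
    · rw [if_neg (not_lt.2 hz)]
      rcases le_or_gt z β with hz' | hz'
      · rw [if_pos hz']
        have k1 := hs α z le_rfl hab.le hz hz'
        have k2 := mul_nonneg (by linarith : (0 : ℝ) ≤ ψ α + M) (sub_nonneg.2 hz)
        nlinarith
      · rw [if_neg (not_le.2 hz')]
        have k2 := mul_nonneg hM (sub_nonneg.2 hz'.le)
        nlinarith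
  · rw [if_neg (not_lt.2 hx), if_neg (not_lt.2 hx)]
    rcases le_or_gt x β with hx' | hx'
    · rw [if_pos hx', if_pos hx']
      obtain ⟨m1, m2⟩ := hm x hx hx'
      rcases lt_or_ge z α with hz | hz
      · rw [if_pos hz]
        have k1 := hs x α hx hx' le_rfl hab.le
        have k2 := mul_nonneg (by linarith : (0 : ℝ) ≤ ψ x + M) (sub_nonneg.2 hz.le)
        nlinarith
      · rw [if_neg (not_lt.2 hz)]
        rcases le_or_gt z β with hz' | hz'
        · rw [if_pos hz']
          exact hs x z hx hx' hz hz'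
        · rw [if_neg (not_le.2 hz')]
          have k1 := hs x β hx hx' hab.le le_rfl
          have k2 := mul_nonneg (by linarith : (0 : ℝ) ≤ M - ψ x) (sub_nonneg.2 hz'.le)
          nlinarith
    · rw [if_neg (not_le.2 hx'), if_neg (not_le.2 hx')]
      rcases lt_or_ge z α with hz | hz
      · rw [if_pos hz]
        have k2 := mul_nonneg hM (sub_nonneg.2 hz.le)
        nlinarith
      · rw [if_neg (not_lt.2 hz)]
        rcases le_or_gt z β with hz' | hz'
        · rw [if_pos hz']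
          have k1 := hs β z hab.le le_rfl hz hz'
          have k2 := mul_nonneg (by linarith : (0 : ℝ) ≤ M - ψ β) (sub_nonneg.2 hz')
          nlinarith
        · rw [if_neg (not_le.2 hz')]
          nlinarith

end Pool.Agent.Work.MP_e64a38_co.FF
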