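import Pool.Agent.Work.MP_e64a38_co.FF.WSub
import Pool.Agent.Work.MP_e64a38_co.FF.WInt

/-!
# The box with steep walls is a system of chords (size M)

`box_sy`. Let `c = 1 + |B.ψ B.α| + |B.ψ B.β| + ∑ i, |B.p i|` and `M0 = c`. Let `M ≥ M0`, `φ = wal B.F B.α B.β M`.
`Sub φ (wals B.ψ B.α B.β M)` by `wal_sub`. Let `i` be a line; `B.hit i` gives `x0` with `α < x0 < β` and
`φ x0 = F x0 < p x0 + q`. For `x1 = α - t`, `t > 0`: `φ x1 - (p x1 + q) = (F α - p α - q) + (M + p) t` and
`M + p ≥ 1` (because `|p i| ≤ ∑ |p j|`), so it is positive for `t = 1 + |F α - p α - q|`. In the same way `x2 = β + t`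
with `M - p ≥ 1`. `line_int` gives `a i < b i` with the four properties (choose them for every `i`); `inj` is `B.inj`.
-/

set_option autoImplicit false

namespace Pool.Agent.Work.MP_e64a38_co.FF

variable {ι : Type} [Fintype ι]

theorem box_sy (B : Box ι) : ∃ M0 : ℝ, 0 < M0 ∧ |B.ψ B.α| ≤ M0 ∧ |B.ψ B.β| ≤ M0 ∧
    ∀ M, M0 ≤ M → ∃ S : CZ.Sy ι, S.p = B.p ∧ S.q = B.q ∧ S.φ = wal B.F B.α B.β M := by
  classical
  have hsum : ∀ i, |B.p i| ≤ ∑ j, |B.p j| := fun i =>
    Finset.single_le_sum (f := fun j => |B.p j|) (fun _ _ => abs_nonneg _) (Finset.mem_univ i)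
  have hsn : 0 ≤ ∑ j, |B.p j| := Finset.sum_nonneg fun _ _ => abs_nonneg _
  have hA := abs_nonneg (B.ψ B.α)
  have hB := abs_nonneg (B.ψ B.β)
  refine ⟨1 + |B.ψ B.α| + |B.ψ B.β| + ∑ j, |B.p j|, by linarith, by linarith, by linarith, ?_⟩
  intro M hM
  have hM0 : 0 ≤ M := by linarith
  have hab := B.ab
  have hsub : Sub (wal B.F B.α B.β M) (wals B.ψ B.α B.β M) := by
    refine wal_sub B.F B.ψ B.α B.β M hab B.sub hM0 ?_ ?_
    · have := neg_abs_le (B.ψ B.α)
      linarith
    · have := le_abs_self (B.ψ B.β)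
      linarith
  have key : ∀ i, ∃ a b, a < b ∧ B.p i * a + B.q i = wal B.F B.α B.β M a ∧
      B.p i * b + B.q i = wal B.F B.α B.β M b ∧
      (∀ x, a < x → x < b → wal B.F B.α B.β M x < B.p i * x + B.q i) ∧
      ∀ x, x < a ∨ b < x → B.p i * x + B.q i < wal B.F B.α B.β M x := by
    intro i
    obtain ⟨x0, h1, h2, h3⟩ := B.hit i
    have hpi := hsum i
    have hp1 := le_abs_self (B.p i)
    have hp2 := neg_abs_le (B.p i)
    have e0 : wal B.F B.α B.β M x0 = B.F x0 := by
      unfold wal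
      rw [if_neg (not_lt.2 h1.le), if_pos h2.le]
    have hx1 : B.α - (1 + |B.F B.α - B.p i * B.α - B.q i|) < B.α := by
      have := abs_nonneg (B.F B.α - B.p i * B.α - B.q i)
      linarith
    have hx2 : B.β < B.β + (1 + |B.F B.β - B.p i * B.β - B.q i|) := by
      have := abs_nonneg (B.F B.β - B.p i * B.β - B.q i)
      linarith
    have e1 : wal B.F B.α B.β M (B.α - (1 + |B.F B.α - B.p i * B.α - B.q i|))
        = B.F B.α + M * (1 + |B.F B.α - B.p i * B.α - B.q i|) := by
      unfold wal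
      rw [if_pos hx1]
      ring
    have e2 : wal B.F B.α B.β M (B.β + (1 + |B.F B.β - B.p i * B.β - B.q i|))
        = B.F B.β + M * (1 + |B.F B.β - B.p i * B.β - B.q i|) := by
      unfold wal
      rw [if_neg (not_lt.2 (hab.le.trans hx2.le)), if_neg (not_le.2 hx2)]
      ring
    obtain ⟨a, b, g1, g2, g3, g4, g5, g6, g7, g8⟩ :=
      line_int (wal B.F B.α B.β M) (wals B.ψ B.α B.β M) hsub (B.p i) (B.q i)
        (B.α - (1 + |B.F B.α - B.p i * B.α - B.q i|)) x0
        (B.β + (1 + |B.F B.β - B.p i * B.β - B.q i|)) (hx1.trans h1) (h2.trans hx2)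
        (by rw [e0]; exact h3)
        (by
          rw [e1]
          have k1 := abs_nonneg (B.F B.α - B.p i * B.α - B.q i)
          have k2 := neg_abs_le (B.F B.α - B.p i * B.α - B.q i)
          have k3 : 1 ≤ M + B.p i := by linarith
          have k4 : 1 * (1 + |B.F B.α - B.p i * B.α - B.q i|)
              ≤ (M + B.p i) * (1 + |B.F B.α - B.p i * B.α - B.q i|) :=
            mul_le_mul_of_nonneg_right k3 (by linarith)
          nlinarith)
        (by
          rw [e2]
          have k1 := abs_nonneg (B.F B.β - B.p i * B.β - B.q i)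
          have k2 := neg_abs_le (B.F B.β - B.p i * B.β - B.q i)
          have k3 : 1 ≤ M - B.p i := by linarith
          have k4 : 1 * (1 + |B.F B.β - B.p i * B.β - B.q i|)
              ≤ (M - B.p i) * (1 + |B.F B.β - B.p i * B.β - B.q i|) :=
            mul_le_mul_of_nonneg_right k3 (by linarith)
          nlinarith)
    exact ⟨a, b, g2.trans g3, g5, g6, g7, g8⟩
  choose a b k1 k2 k3 k4 k5 using key
  exact ⟨{ a := a, b := b, p := B.p, q := B.q, φ := wal B.F B.α B.β M, lt := k1, ea := k2,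
           eb := k3, above := k4, below := k5, inj := B.inj }, rfl, rfl, rfl⟩

end Pool.Agent.Work.MP_e64a38_co.FF
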