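import Pool.Agent.Work.MP_e64a38_co.FF.Defs
import Pool.Agent.Work.MP_e64a38_co.CZ.ZUp

/-!
# The number of upper edges for any convex curve (size M, a copy of CZ.ZVis and CZ.ZUp)

`CZ.up_vis` and `CZ.up_card` with `hψ : Sub S.φ ψ` instead of `hS : Par S`. The proof of `CZ.up_vis` uses `Par`
only in the private lemma `zv_sq` (`x ^ 2 < p x + q`, `z ^ 2 < p z + q`, `x ≤ w ≤ z` give `w ^ 2 < p w + q`). Replace
it by: `φ x < p x + q`, `φ z < p z + q`, `x ≤ w ≤ z` give `φ w < p w + q`. Proof: `φ w + ψ w (x - w) ≤ φ x` and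
`φ w + ψ w (z - w) ≤ φ z`; multiply by `z - w` and `w - x` and add: `(z - x) φ w ≤ (z - w) φ x + (w - x) φ z`
(`x < z`; if `x = z` trivial). `CZ.ed_sl` can be used as it is.
-/

set_option autoImplicit false

namespace Pool.Agent.Work.MP_e64a38_co.FF

open CZ

variable {ι : Type} [Fintype ι]

/-- affine functions between two points -/
private theorem zv_aff {p q p' q' x z w : ℝ} (h1 : p * x + q < p' * x + q')
    (h2 : p * z + q < p' * z + q') (hx : x ≤ w) (hz : w ≤ z) : p * w + q < p' * w + q' := by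
  by_contra hc
  have hc' : p' * w + q' ≤ p * w + q := not_lt.1 hc
  have h3 : 0 < (p' - p) * x + (q' - q) := by linarith
  have h4 : 0 < (p' - p) * z + (q' - q) := by linarith
  have h5 : (p' - p) * w + (q' - q) ≤ 0 := by linarith
  rcases eq_or_lt_of_le hx with h6 | h6
  · rw [← h6] at h5
    linarith
  rcases eq_or_lt_of_le hz with h7 | h7
  · rw [h7] at h5
    linarith
  nlinarith [mul_pos (sub_pos.2 h6) h4, mul_pos (sub_pos.2 h7) h3,
    mul_nonneg (sub_nonneg.2 (hx.trans hz)) (neg_nonneg.2 h5)]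

private theorem zv_cv {φ ψ : ℝ → ℝ} (hψ : Sub φ ψ) {p q x z w : ℝ} (h1 : φ x < p * x + q)
    (h2 : φ z < p * z + q) (hx : x ≤ w) (hz : w ≤ z) : φ w < p * w + q := by
  rcases eq_or_lt_of_le hx with h6 | h6
  · rw [← h6]
    exact h1
  rcases eq_or_lt_of_le hz with h7 | h7
  · rw [h7]
    exact h2
  have a1 := hψ w x
  have a2 := hψ w z
  have b1 := mul_le_mul_of_nonneg_left (a1.trans h1.le) (sub_pos.2 h7).le
  have b2 := mul_lt_mul_of_pos_left (lt_of_le_of_lt a2 h2) (sub_pos.2 h6)
  have h8 : 0 < (z - x) * (p * w + q - φ w) := by nlinarith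
  have h9 := (mul_pos_iff_of_pos_left (by linarith : 0 < z - x)).1 h8
  linarith

private theorem mem_Sg (S : Sy ι) (y : ℝ) (c : ι) : c ∈ Sg S y ↔ Al S y c := by
  classical
  unfold Sg
  simp

theorem up_vis (S : Sy ι) (ψ : ℝ → ℝ) (hψ : Sub S.φ ψ) (y : ℝ) (hy : Off S y) (q s : ι)
    (hq : q ∈ Sg S y) (hs : s ∈ Sg S y) (heq : Ed S (Sg S y) q) (hes : Ed S (Sg S y) s)
    (hsl : S.p s < S.p q)
    (hcons : ∀ c ∈ Sg S y, Ed S (Sg S y) c → ¬ (S.p s < S.p c ∧ S.p c < S.p q)) :
    ∃ f, Vis S q s f y := by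
  classical
  obtain ⟨x, hx⟩ := heq
  obtain ⟨z, hz⟩ := hes
  have hqs : q ≠ s := by
    rintro rfl
    exact lt_irrefl _ hsl
  have hxz : x < z := (ed_sl S _ hqs hq hs hx hz).2.2 hsl
  have hd : 0 < S.p q - S.p s := by linarith
  obtain ⟨f, hf⟩ : ∃ f, (S.p q - S.p s) * f = S.q s - S.q q :=
    ⟨(S.q s - S.q q) / (S.p q - S.p s), by field_simp⟩
  have hqx := (hx.2 s hqs.symm).1 hs
  have hsz := (hz.2 q hqs).1 hq
  unfold Sy.v at hqx hsz
  have hxf : x < f := by
    by_contra hc
    have := mul_le_mul_of_nonneg_left (not_lt.1 hc) hd.le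
    nlinarith
  have hfz : f < z := by
    by_contra hc
    have := mul_le_mul_of_nonneg_left (not_lt.1 hc) hd.le
    nlinarith
  have heq' : S.v q f = S.v s f := by
    unfold Sy.v
    linarith
  -- chords of `A` at `x` and `z`
  have hAx : ∀ c ∈ Sg S y, S.v q x ≤ S.v c x := by
    intro c hc
    by_cases hcq : c = q
    · rw [hcq]
    · exact ((hx.2 c hcq).1 hc).le
  have hAz : ∀ c ∈ Sg S y, S.v s z ≤ S.v c z := by
    intro c hc
    by_cases hcs : c = s
    · rw [hcs]
    · exact ((hz.2 c hcs).1 hc).le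
  have hD : ∀ c ∈ Sg S y, ∀ d, d ∉ Sg S y → ∀ w, x ≤ w → w ≤ z → S.v d w < S.v c w := by
    intro c hc d hdA w hw1 hw2
    have hdq : d ≠ q := fun h => hdA (h ▸ hq)
    have hds : d ≠ s := fun h => hdA (h ▸ hs)
    exact zv_aff (lt_of_lt_of_le ((hx.2 d hdq).2 hdA) (hAx c hc))
      (lt_of_lt_of_le ((hz.2 d hds).2 hdA) (hAz c hc)) hw1 hw2
  have hP : ∀ c ∈ Sg S y, ∀ w, x ≤ w → w ≤ z → S.φ w < S.v c w := by
    intro c hc w hw1 hw2
    have h1 := lt_of_lt_of_le hx.1 (hAx c hc)
    have h2 := lt_of_lt_of_le hz.1 (hAz c hc)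
    exact zv_cv hψ h1 h2 hw1 hw2
  -- the crossing is the lowest point
  have hup : ∀ c ∈ Sg S y, S.v q f ≤ S.v c f := by
    by_contra hcon
    push Not at hcon
    obtain ⟨e, he, hef⟩ := hcon
    obtain ⟨c0, hc0, hmin⟩ := Finset.exists_min_image (Sg S y) (fun c => S.v c f) ⟨e, he⟩
    obtain ⟨c, hcm, hmax⟩ := Finset.exists_max_image
      ((Sg S y).filter fun c => S.v c f = S.v c0 f) (fun c => S.p c) ⟨c0, by simp [hc0]⟩
    rw [Finset.mem_filter] at hcm
    obtain ⟨hcA, hcf⟩ := hcm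
    have hch : S.v c f < S.v q f := by
      rw [hcf]
      exact lt_of_le_of_lt (hmin e he) hef
    have hev : ∀ᶠ w in nhdsWithin f (Set.Iio f), ∀ c' ∈ Sg S y, c' ≠ c → S.v c w < S.v c' w := by
      rw [Filter.eventually_all_finset]
      intro c' hc'
      by_cases hcc : c' = c
      · exact Filter.Eventually.of_forall fun w h => absurd hcc h
      · have h1 := hmin c' hc'
        rcases eq_or_lt_of_le h1 with h2 | h2
        · have h3 := hmax c' (by rw [Finset.mem_filter]; exact ⟨hc', h2.symm⟩)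
          have h4 : S.p c' < S.p c := by
            refine lt_of_le_of_ne h3 fun h5 => hcc (S.inj c' c h5 ?_)
            have h6 : S.v c' f = S.v c f := by rw [hcf, ← h2]
            unfold Sy.v at h6
            rw [h5] at h6
            linarith
          filter_upwards [self_mem_nhdsWithin] with w hw _
          have hw' : w < f := hw
          have h6 : S.v c' f = S.v c f := by rw [hcf, ← h2]
          unfold Sy.v at h6 ⊢
          nlinarith [mul_pos (sub_pos.2 h4) (sub_pos.2 hw')]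
        · have h3 : S.v c f < S.v c' f := by
            rw [hcf]
            exact h2
          have hcont : ContinuousAt (fun w => S.v c' w - S.v c w) f := by
            unfold Sy.v
            fun_prop
          have h4 : ∀ᶠ w in nhds f, 0 < S.v c' w - S.v c w :=
            hcont.eventually (lt_mem_nhds (by linarith))
          filter_upwards [nhdsWithin_le_nhds h4] with w hw _
          linarith
    have hev2 : ∀ᶠ w in nhdsWithin f (Set.Iio f), x < w :=
      nhdsWithin_le_nhds (lt_mem_nhds hxf)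
    obtain ⟨w, ⟨hw1, hw2⟩, hw3⟩ := ((hev.and hev2).and self_mem_nhdsWithin).exists
    have hw3' : w < f := hw3
    have hEd : Ed S (Sg S y) c := by
      refine ⟨w, hP c hcA w hw2.le (hw3'.le.trans hfz.le), ?_⟩
      intro j hj
      exact ⟨fun hjA => hw1 j hjA hj, fun hjA => hD c hcA j hjA w hw2.le (hw3'.le.trans hfz.le)⟩
    apply hcons c hcA hEd
    have hcq : c ≠ q := by
      rintro rfl
      exact lt_irrefl _ hch
    have hcs : c ≠ s := by
      rintro rfl
      rw [heq'] at hch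
      exact lt_irrefl _ hch
    have h1 := (hx.2 c hcq).1 hcA
    have h2 := (hz.2 c hcs).1 hcA
    have h3 := hch
    rw [heq'] at h3
    unfold Sy.v at h1 h2 h3 hch
    constructor
    · by_contra hc
      have := mul_le_mul_of_nonneg_right (not_lt.1 hc) (sub_nonneg.2 hfz.le)
      nlinarith
    · by_contra hc
      have := mul_le_mul_of_nonneg_right (not_lt.1 hc) (sub_nonneg.2 hxf.le)
      nlinarith
  refine ⟨f, ⟨hy, (mem_Sg S y q).1 hq, (mem_Sg S y s).1 hs, hsl, heq', hP q hq f hxf.le hfz.le,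
    fun c hc => hup c ((mem_Sg S y c).2 hc), ?_, ?_⟩⟩
  · intro c hc hcf
    have hcA := (mem_Sg S y c).2 hc
    have hcf' : S.v c f = S.v s f := by rw [hcf, heq']
    constructor
    · by_cases hcs : c = s
      · rw [hcs]
      · have h2 := (hz.2 c hcs).1 hcA
        unfold Sy.v at h2 hcf'
        by_contra hc'
        have := mul_lt_mul_of_pos_right (not_le.1 hc') (sub_pos.2 hfz)
        nlinarith
    · by_cases hcq : c = q
      · rw [hcq]
      · have h2 := (hx.2 c hcq).1 hcA
        unfold Sy.v at h2 hcf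
        by_contra hc'
        have := mul_lt_mul_of_pos_right (not_le.1 hc') (sub_pos.2 hxf)
        nlinarith
  · intro c hc
    exact hD q hq c (fun h => hc ((mem_Sg S y c).1 h)) f hxf.le hfz.le

open Classical in
theorem up_card (S : Sy ι) (ψ : ℝ → ℝ) (hψ : Sub S.φ ψ) :
    ∑ A ∈ Sgs S, (Finset.univ.filter (fun i => i ∈ A ∧ Ed S A i)).card ≤
      (Sgs S).card + (Prs S).card := by
  have hch : ∀ A ∈ Sgs S, ∃ y, Off S y ∧ Sg S y = A := by
    intro A hA
    unfold Sgs at hA
    rw [Finset.mem_filter] at hA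
    exact hA.2
  choose! yy hyo hyA using hch
  obtain ⟨W, hW⟩ : ∃ W : Finset ι → Finset (ι × ι), ∀ A, W A =
      (Prs S).filter (fun t => ∃ f, Vis S t.1 t.2 f (yy A)) := ⟨_, fun _ => rfl⟩
  have hU : ∀ A ∈ Sgs S, (Finset.univ.filter (fun i => i ∈ A ∧ Ed S A i)).card ≤
      1 + (W A).card := by
    intro A hA
    obtain ⟨Q, hQ⟩ : ∃ Q, Q = Finset.univ.filter (fun i => i ∈ A ∧ Ed S A i) := ⟨_, rfl⟩
    rw [← hQ]
    have hQm : ∀ i, i ∈ Q ↔ i ∈ A ∧ Ed S A i := by
      intro i
      rw [hQ, Finset.mem_filter]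
      exact ⟨fun h => h.2, fun h => ⟨Finset.mem_univ _, h⟩⟩
    have hslope : ∀ i ∈ Q, ∀ j ∈ Q, i ≠ j → S.p i ≠ S.p j := by
      intro i hi j hj hij hp
      obtain ⟨hiA, x, hx⟩ := (hQm i).1 hi
      obtain ⟨hjA, z, hz⟩ := (hQm j).1 hj
      obtain ⟨h1, h2⟩ := ed_sl S A hij hiA hjA hx hz
      obtain ⟨-, h3⟩ := ed_sl S A hij.symm hjA hiA hz hx
      rcases lt_or_gt_of_ne h1 with h4 | h4
      · exact (h2.1 h4).ne hp.symm
      · exact (h3.1 h4).ne hp
    rcases Finset.eq_empty_or_nonempty Q with hQe | hQn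
    · rw [hQe, Finset.card_empty]
      exact Nat.zero_le _
    obtain ⟨t, ht, hmax⟩ := Finset.exists_max_image Q (fun c => S.p c) hQn
    have hsub : Q.erase t ⊆ (W A).image Prod.snd := by
      intro i hi
      rw [Finset.mem_erase] at hi
      obtain ⟨hit, hiQ⟩ := hi
      have h1 : S.p i < S.p t := lt_of_le_of_ne (hmax i hiQ) (hslope i hiQ t ht hit)
      obtain ⟨q, hq, hmin⟩ := Finset.exists_min_image (Q.filter fun c => S.p i < S.p c)
        (fun c => S.p c) ⟨t, by rw [Finset.mem_filter]; exact ⟨ht, h1⟩⟩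
      rw [Finset.mem_filter] at hq
      obtain ⟨hqA, hqE⟩ := (hQm q).1 hq.1
      obtain ⟨hiA, hiE⟩ := (hQm i).1 hiQ
      have hy := hyA A hA
      obtain ⟨f, hf⟩ := up_vis S ψ hψ (yy A) (hyo A hA) q i (by rw [hy]; exact hqA)
        (by rw [hy]; exact hiA) (by rw [hy]; exact hqE) (by rw [hy]; exact hiE) hq.2 (by
          intro c hc hcE hcc
          rw [hy] at hc hcE
          have h2 := hmin c (by
            rw [Finset.mem_filter]
            exact ⟨(hQm c).2 ⟨hc, hcE⟩, hcc.1⟩)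
          exact absurd hcc.2 (not_lt.2 h2))
      rw [Finset.mem_image]
      refine ⟨(q, i), ?_, rfl⟩
      rw [hW, Finset.mem_filter]
      refine ⟨?_, f, hf⟩
      unfold Prs
      rw [Finset.mem_filter]
      exact ⟨Finset.mem_univ _, f, yy A, hf⟩
    have h1 := (Finset.card_le_card hsub).trans Finset.card_image_le
    rw [Finset.card_erase_of_mem ht] at h1
    omega
  have hdisj : ∀ A ∈ Sgs S, ∀ B ∈ Sgs S, A ≠ B → Disjoint (W A) (W B) := by
    intro A hA B hB hAB
    rw [Finset.disjoint_left]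
    intro t h1 h2
    apply hAB
    rw [hW, Finset.mem_filter] at h1 h2
    obtain ⟨-, f, hf⟩ := h1
    obtain ⟨-, g, hg⟩ := h2
    have hfg : f = g := by
      have e1 := hf.eq
      have e2 := hg.eq
      have e3 := hf.sl
      unfold Sy.v at e1 e2
      have e4 : (S.p t.1 - S.p t.2) * (f - g) = 0 := by linarith
      rcases mul_eq_zero.1 e4 with e5 | e5
      · linarith
      · linarith
    subst hfg
    rw [← hyA A hA, ← hyA B hB]
    ext c
    unfold Sg
    rw [Finset.mem_filter, Finset.mem_filter]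
    constructor
    · rintro ⟨-, hc⟩
      refine ⟨Finset.mem_univ _, ?_⟩
      by_contra hc'
      exact absurd (hf.up c hc) (not_le.2 (hg.dn c hc'))
    · rintro ⟨-, hc⟩
      refine ⟨Finset.mem_univ _, ?_⟩
      by_contra hc'
      exact absurd (hg.up c hc) (not_le.2 (hf.dn c hc'))
  have hbi : ∑ A ∈ Sgs S, (W A).card = ((Sgs S).biUnion W).card := by
    rw [Finset.card_biUnion]
    intro A hA B hB hAB
    exact hdisj A hA B hB hAB
  calc ∑ A ∈ Sgs S, (Finset.univ.filter (fun i => i ∈ A ∧ Ed S A i)).card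
      ≤ ∑ A ∈ Sgs S, (1 + (W A).card) := Finset.sum_le_sum hU
    _ = (Sgs S).card + ((Sgs S).biUnion W).card := by
        rw [Finset.sum_add_distrib, Finset.sum_const, smul_eq_mul, mul_one, hbi]
    _ ≤ (Sgs S).card + (Prs S).card := by
        refine Nat.add_le_add_left (Finset.card_le_card ?_) _
        rw [Finset.biUnion_subset]
        intro A _
        rw [hW]
        exact Finset.filter_subset _ _

end Pool.Agent.Work.MP_e64a38_co.FF
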